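import Pool.Agent.Helper562.CMDim

set_option autoImplicit false

namespace Pool.Agent.Helper562.CM
open Set Topology

/-- `K` is essential: every continuous `G : W → ℂ` with `G = x - c₀` on `‖x - c₀‖ = 2` vanishes
somewhere on `K`. -/
def Ess {W : Type*} [TopologicalSpace W] (x : W → ℂ) (c₀ : ℂ) (K : Set W) : Prop :=
  ∀ G : W → ℂ, Continuous G → (∀ w, ‖x w - c₀‖ = 2 → G w = x w - c₀) → ∃ w ∈ K, G w = 0

theorem Ess.mono {W : Type*} [TopologicalSpace W] {x : W → ℂ} {c₀ : ℂ} {K L : Set W}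
    (h : Ess x c₀ K) (hKL : K ⊆ L) : Ess x c₀ L := by
  intro G hG hGB
  obtain ⟨w, hw, h0⟩ := h G hG hGB
  exact ⟨w, hKL hw, h0⟩

theorem Ess.hits {W : Type*} [TopologicalSpace W] {x : W → ℂ} (hx : Continuous x) {c₀ : ℂ}
    {K : Set W} (h : Ess x c₀ K) {p : ℂ} (hp : ‖p - c₀‖ < 2) : ∃ w ∈ K, x w = p := by
  have hd : 0 < 2 - ‖p - c₀‖ := by linarith
  let β : W → ℝ := fun w => max 0 (min 1 ((2 - ‖x w - c₀‖) / (2 - ‖p - c₀‖)))
  have hβ : Continuous β := by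
    unfold β
    fun_prop
  have hβ0 : ∀ w, 0 ≤ β w := fun w => le_max_left _ _
  have hβ1 : ∀ w, β w ≤ 1 := fun w => max_le zero_le_one (min_le_left _ _)
  obtain ⟨w, hw, h0⟩ := h (fun w => x w - c₀ - (β w : ℂ) * (p - c₀)) (by
    have : Continuous fun w => (β w : ℂ) := Complex.continuous_ofReal.comp hβ
    fun_prop) (by
    intro w hw
    have : β w = 0 := by
      simp only [β, hw, sub_self, zero_div]
      norm_num
    simp [this])
  refine ⟨w, hw, ?_⟩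
  have h1 : x w - c₀ = (β w : ℂ) * (p - c₀) := sub_eq_zero.1 h0
  have h2 : ‖x w - c₀‖ = β w * ‖p - c₀‖ := by
    rw [h1, norm_mul, Complex.norm_real, Real.norm_of_nonneg (hβ0 w)]
  have h3 : ‖x w - c₀‖ ≤ ‖p - c₀‖ := by
    rw [h2]
    have := mul_le_mul_of_nonneg_right (hβ1 w) (norm_nonneg (p - c₀))
    linarith
  have h4 : 1 ≤ (2 - ‖x w - c₀‖) / (2 - ‖p - c₀‖) := by
    rw [le_div_iff₀ hd]
    linarith
  have h5 : β w = 1 := by
    simp only [β]
    rw [min_eq_left h4]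
    norm_num
  rw [h5] at h1
  have : x w = p := by
    have := h1
    simp at this
    exact this
  exact this

theorem Ess.exists_minimal {W : Type*} [TopologicalSpace W] [CompactSpace W] {x : W → ℂ} {c₀ : ℂ}
    {K₀ : Set W} (h : Ess x c₀ K₀) (hK : IsClosed K₀) :
    ∃ K ⊆ K₀, IsClosed K ∧ Ess x c₀ K ∧ ∀ K' ⊆ K, IsClosed K' → Ess x c₀ K' → K' = K := by
  let S : Set (Set W) := {K | IsClosed K ∧ Ess x c₀ K}
  obtain ⟨K, hKK, hmin⟩ := zorn_superset_nonempty S (by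
    intro c hcS hchain hne
    refine ⟨⋂₀ c, ⟨isClosed_sInter (fun K hK => (hcS hK).1), ?_⟩, fun s hs => sInter_subset_of_mem hs⟩
    intro G hG hGB
    let c' : Set (Set W) := (fun K => K ∩ G ⁻¹' {0}) '' c
    have : Nonempty c' := by
      obtain ⟨K, hK⟩ := hne
      exact ⟨⟨_, K, hK, rfl⟩⟩
    obtain ⟨w, hw⟩ := IsCompact.nonempty_sInter_of_directed_nonempty_isCompact_isClosed (S := c')
      (by
        rintro _ ⟨K, hK, rfl⟩ _ ⟨L, hL, rfl⟩
        rcases eq_or_ne K L with rfl | hne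
        · exact ⟨_, ⟨K, hK, rfl⟩, subset_rfl, subset_rfl⟩
        · rcases hchain hK hL hne with h1 | h1
          · exact ⟨_, ⟨K, hK, rfl⟩, subset_rfl, inter_subset_inter_left _ h1⟩
          · exact ⟨_, ⟨L, hL, rfl⟩, inter_subset_inter_left _ h1, subset_rfl⟩)
      (by
        rintro _ ⟨K, hK, rfl⟩
        obtain ⟨w, hw, h0⟩ := (hcS hK).2 G hG hGB
        exact ⟨w, hw, h0⟩)
      (by
        rintro _ ⟨K, hK, rfl⟩
        exact ((hcS hK).1.inter (isClosed_singleton.preimage hG)).isCompact)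
      (by
        rintro _ ⟨K, hK, rfl⟩
        exact (hcS hK).1.inter (isClosed_singleton.preimage hG))
    refine ⟨w, ?_, ?_⟩
    · intro K hK
      exact (hw _ ⟨K, hK, rfl⟩).1
    · obtain ⟨K, hK⟩ := hne
      exact (hw _ ⟨K, hK, rfl⟩).2) K₀ ⟨hK, h⟩
  refine ⟨K, hKK, hmin.prop.1, hmin.prop.2, ?_⟩
  intro K' hK' hc he
  exact subset_antisymm hK' (hmin.le_of_le ⟨hc, he⟩ hK')

open Classical in
theorem glue_closed {W Y : Type*} [TopologicalSpace W] [TopologicalSpace Y] {A B : Set W}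
    (hA : IsClosed A) (hB : IsClosed B) {f g : W → Y} (hf : ContinuousOn f A)
    (hg : ContinuousOn g B) (hfg : ∀ w ∈ A, w ∈ B → f w = g w) :
    ∃ F : W → Y, ContinuousOn F (A ∪ B) ∧ (∀ w ∈ A, F w = f w) ∧ ∀ w ∈ B, F w = g w := by
  refine ⟨fun w => if w ∈ A then f w else g w, ?_, ?_, ?_⟩
  · apply ContinuousOn.union_of_isClosed _ _ hA hB
    · apply hf.congr
      intro w hw
      simp [hw]
    · apply hg.congr
      intro w hw
      by_cases hwA : w ∈ A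
      · simp only [hwA, if_true]
        exact hfg w hwA hw
      · simp [hwA]
  · intro w hw
    simp [hw]
  · intro w hw
    by_cases hwA : w ∈ A
    · simp only [hwA, if_true]
      exact hfg w hwA hw
    · simp [hwA]

theorem tietze {W : Type*} [TopologicalSpace W] [NormalSpace W] {A : Set W}
    (hA : IsClosed A) {f : W → ℂ} (hf : ContinuousOn f A) :
    ∃ F : W → ℂ, Continuous F ∧ ∀ w ∈ A, F w = f w := by
  obtain ⟨F, hF⟩ := ContinuousMap.exists_restrict_eq hA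
    (⟨fun a : A => f a, continuousOn_iff_continuous_domRestrict.1 hf⟩ : C(A, ℂ))
  refine ⟨F, F.continuous, fun w hw => ?_⟩
  have := congrArg (fun g : C(A, ℂ) => g ⟨w, hw⟩) hF
  simpa using this

/-- logarithms on zero-dimensional spaces -/
theorem log_of_zero_dim {Y : Type*} [TopologicalSpace Y] [CompactSpace Y] (h : DimLE Y 0)
    {q : Y → ℂ} (hq : Continuous q) (hq0 : ∀ y, q y ≠ 0) {A : Set Y} (hA : IsClosed A)
    (hqA : ∀ y ∈ A, q y = 1) :
    ∃ θ : Y → ℂ, Continuous θ ∧ (∀ y, Complex.exp (θ y) = q y) ∧ ∀ y ∈ A, θ y = 0 := by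
  classical
  -- local data
  have hloc : ∀ y : Y, ∃ U : Set Y, IsOpen U ∧ y ∈ U ∧ ∃ θ : Y → ℂ, ContinuousOn θ U ∧
      (∀ z ∈ U, Complex.exp (θ z) = q z) ∧ ∀ z ∈ U, z ∈ A → θ z = 0 := by
    intro y
    by_cases hy : y ∈ A
    · refine ⟨{z | ‖q z - 1‖ < 1}, isOpen_lt (by fun_prop) continuous_const, ?_,
        fun z => Complex.log (q z), ?_, ?_, ?_⟩
      · simp [hqA y hy]
      · apply ContinuousOn.clog hq.continuousOn
        intro z hz
        have := Complex.mem_slitPlane_of_norm_lt_one (z := q z - 1) hz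
        simpa using this
      · intro z _
        exact Complex.exp_log (hq0 z)
      · intro z _ hz
        simp [hqA z hz]
    · refine ⟨{z | ‖q z / q y - 1‖ < 1} ∩ Aᶜ, ?_, ?_,
        fun z => Complex.log (q z / q y) + Complex.log (q y), ?_, ?_, ?_⟩
      · exact (isOpen_lt (by fun_prop) continuous_const).inter hA.isOpen_compl
      · refine ⟨?_, hy⟩
        simp [div_self (hq0 y)]
      · apply ContinuousOn.add _ continuousOn_const
        apply ContinuousOn.clog (hq.div_const _).continuousOn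
        intro z hz
        have := Complex.mem_slitPlane_of_norm_lt_one (z := q z / q y - 1) hz.1
        simpa using this
      · intro z _
        rw [Complex.exp_add, Complex.exp_log (div_ne_zero (hq0 z) (hq0 y)), Complex.exp_log (hq0 y),
          div_mul_cancel₀ _ (hq0 y)]
      · intro z hz hzA
        exact absurd hzA hz.2
  choose U hUo hyU θ hθc hθe hθA using hloc
  obtain ⟨s, hs⟩ := isCompact_univ.elim_finite_subcover U hUo (fun y _ => mem_iUnion.2 ⟨y, hyU y⟩)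
  obtain ⟨𝒱, hf, ho, hc, hr, hord⟩ := h (U '' (s : Set Y)) (s.finite_toSet.image _) (by
    rintro _ ⟨y, -, rfl⟩
    exact hUo y) (by
    rw [eq_univ_iff_forall]
    intro z
    have := hs (mem_univ z)
    rw [mem_iUnion₂] at this
    obtain ⟨y, hy, hz⟩ := this
    exact ⟨U y, ⟨y, hy, rfl⟩, hz⟩)
  have huniq : ∀ V ∈ 𝒱, ∀ V' ∈ 𝒱, ∀ z, z ∈ V → z ∈ V' → V = V' := by
    intro V hV V' hV' z hz hz'
    have h1 := hord z
    have h2 : {V ∈ 𝒱 | z ∈ V}.ncard ≤ 1 := by exact_mod_cast h1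
    rw [ncard_le_one (hf.subset (sep_subset _ _))] at h2
    exact h2 V ⟨hV, hz⟩ V' ⟨hV', hz'⟩
  have hmem : ∀ z, ∃ V ∈ 𝒱, z ∈ V := by
    intro z
    have : z ∈ ⋃₀ 𝒱 := by rw [hc]; trivial
    exact this
  choose V hV𝒱 hzV using hmem
  have hidx : ∀ W : 𝒱, ∃ y : Y, (W : Set Y) ⊆ U y := by
    rintro ⟨W, hW⟩
    obtain ⟨_, ⟨y, -, rfl⟩, hy⟩ := hr W hW
    exact ⟨y, hy⟩
  choose idx hidx using hidx
  let T : Y → ℂ := fun z => θ (idx ⟨V z, hV𝒱 z⟩) z
  have hT : ∀ z z', z' ∈ V z → T z' = θ (idx ⟨V z, hV𝒱 z⟩) z' := by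
    intro z z' hz'
    have : V z' = V z := huniq _ (hV𝒱 z') _ (hV𝒱 z) z' (hzV z') hz'
    have h2 : (⟨V z', hV𝒱 z'⟩ : 𝒱) = ⟨V z, hV𝒱 z⟩ := Subtype.ext this
    simp only [T, h2]
  refine ⟨T, ?_, ?_, ?_⟩
  · rw [continuous_iff_continuousAt]
    intro z
    have h1 : ContinuousAt (θ (idx ⟨V z, hV𝒱 z⟩)) z :=
      (hθc _).continuousAt ((hUo _).mem_nhds (hidx _ (hzV z)))
    refine h1.congr ?_
    filter_upwards [(ho _ (hV𝒱 z)).mem_nhds (hzV z)] with z' hz'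
    exact (hT z z' hz').symm
  · intro z
    exact hθe _ z (hidx _ (hzV z))
  · intro z hz
    exact hθA _ z (hidx _ (hzV z)) hz

/-- a minimal essential set is not separated by a closed set of dimension at most zero -/
theorem cantor_of_minimal {W : Type*} [TopologicalSpace W] [CompactSpace W] [T2Space W]
    {x : W → ℂ} (hx : Continuous x) {c₀ : ℂ} {K : Set W} (hKc : IsClosed K) (hK : Ess x c₀ K)
    (hmin : ∀ K' ⊆ K, IsClosed K' → Ess x c₀ K' → K' = K) {C : Set W} (hC : IsClosed C)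
    (hCd : DimLE C 0) : IsPreconnected (K \ C) := by
  intro U V hU hV hUV hKU hKV
  by_contra hcon
  rw [not_nonempty_iff_eq_empty] at hcon
  set B : Set W := {w | ‖x w - c₀‖ = 2} with hB
  have hBc : IsClosed B := isClosed_eq (by fun_prop) continuous_const
  -- the two pieces
  set K₁ : Set W := K ∩ (V \ C)ᶜ with hK₁
  set K₂ : Set W := K ∩ (U \ C)ᶜ with hK₂
  have hK₁c : IsClosed K₁ := hKc.inter (hV.sdiff hC).isClosed_compl
  have hK₂c : IsClosed K₂ := hKc.inter (hU.sdiff hC).isClosed_compl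
  have hn₁ : ¬ Ess x c₀ K₁ := by
    intro he
    have h1 := hmin K₁ inter_subset_left hK₁c he
    obtain ⟨w, ⟨hwK, hwC⟩, hwV⟩ := hKV
    rw [← h1] at hwK
    exact hwK.2 ⟨hwV, hwC⟩
  have hn₂ : ¬ Ess x c₀ K₂ := by
    intro he
    have h1 := hmin K₂ inter_subset_left hK₂c he
    obtain ⟨w, ⟨hwK, hwC⟩, hwU⟩ := hKU
    rw [← h1] at hwK
    exact hwK.2 ⟨hwU, hwC⟩
  unfold Ess at hn₁ hn₂
  push Not at hn₁ hn₂
  obtain ⟨G₁, hG₁, hG₁B, hG₁0⟩ := hn₁
  obtain ⟨G₂, hG₂, hG₂B, hG₂0⟩ := hn₂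
  have hint : ∀ w, w ∈ K₁ → w ∈ K₂ → w ∈ C := by
    intro w h1 h2
    by_contra hwC
    rcases hUV ⟨h1.1, hwC⟩ with h3 | h3
    · exact h2.2 ⟨h3, hwC⟩
    · exact h1.2 ⟨h3, hwC⟩
  have hun : ∀ w, w ∈ K → w ∈ K₁ ∨ w ∈ K₂ := by
    intro w hw
    by_contra hcon2
    push Not at hcon2
    have h1 : w ∈ V \ C := by
      by_contra h
      exact hcon2.1 ⟨hw, h⟩
    have h2 : w ∈ U \ C := by
      by_contra h
      exact hcon2.2 ⟨hw, h⟩
    have : w ∈ K \ C ∩ (U ∩ V) := ⟨⟨hw, h1.2⟩, h2.1, h1.1⟩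
    rw [hcon] at this
    exact this
  have hCK₁ : ∀ w, w ∈ K → w ∈ C → w ∈ K₁ ∧ w ∈ K₂ := fun w hw hwC =>
    ⟨⟨hw, fun h => h.2 hwC⟩, ⟨hw, fun h => h.2 hwC⟩⟩
  -- logarithm of the quotient on `D = K ∩ C`
  set D : Set W := K ∩ C with hD
  have hDc : IsClosed D := hKc.inter hC
  have hDd : DimLE D 0 := hCd.subset inter_subset_right hDc
  have : CompactSpace D := isCompact_iff_compactSpace.1 hDc.isCompact
  obtain ⟨θ, hθ, hθe, hθB⟩ := log_of_zero_dim hDd (q := fun y : D => G₁ y / G₂ y)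
    (by
      apply Continuous.div (hG₁.comp continuous_subtype_val) (hG₂.comp continuous_subtype_val)
      intro y
      exact hG₂0 y (hCK₁ y y.2.1 y.2.2).2)
    (fun y => div_ne_zero (hG₁0 y (hCK₁ y y.2.1 y.2.2).1) (hG₂0 y (hCK₁ y y.2.1 y.2.2).2))
    (A := Subtype.val ⁻¹' B) (hBc.preimage continuous_subtype_val)
    (by
      intro y hy
      have h1 : G₁ y = x y - c₀ := hG₁B y hy
      have h2 : G₂ y = x y - c₀ := hG₂B y hy
      have h3 : G₂ y ≠ 0 := hG₂0 y (hCK₁ y y.2.1 y.2.2).2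
      show G₁ y / G₂ y = 1
      rw [h1, ← h2, div_self h3])
  classical
  let θ' : W → ℂ := fun w => if h : w ∈ D then θ ⟨w, h⟩ else 0
  have hθ'c : ContinuousOn θ' D := by
    rw [continuousOn_iff_continuous_domRestrict]
    refine hθ.congr ?_
    intro y
    simp [θ', y.2]
  obtain ⟨F₀, hF₀c, hF₀D, hF₀B⟩ := glue_closed hDc hBc hθ'c (continuousOn_const (c := (0 : ℂ)))
    (by
      intro w hw hwB
      simp only [θ', hw, dif_pos]
      exact hθB ⟨w, hw⟩ hwB)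
  obtain ⟨Θ, hΘ, hΘe⟩ := tietze (hDc.union hBc) hF₀c
  have hΘD : ∀ w (hw : w ∈ D), Complex.exp (Θ w) * G₂ w = G₁ w := by
    intro w hw
    rw [hΘe w (Or.inl hw), hF₀D w hw]
    simp only [θ', hw, dif_pos]
    rw [hθe ⟨w, hw⟩]
    exact div_mul_cancel₀ _ (hG₂0 w (hCK₁ w hw.1 hw.2).2)
  have hΘB : ∀ w ∈ B, Θ w = 0 := fun w hw => by rw [hΘe w (Or.inr hw), hF₀B w hw]
  obtain ⟨g, hgc, hg₁, hg₂⟩ := glue_closed (hK₁c.union hBc) hK₂c (f := G₁)
    (g := fun w => Complex.exp (Θ w) * G₂ w) hG₁.continuousOn (by fun_prop) (by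
      rintro w (hw1 | hwB) hw2
      · exact (hΘD w ⟨hw1.1, hint w hw1 hw2⟩).symm
      · rw [hΘB w hwB, hG₁B w hwB, hG₂B w hwB, Complex.exp_zero, one_mul])
  obtain ⟨G, hG, hGe⟩ := tietze ((hK₁c.union hBc).union hK₂c) hgc
  obtain ⟨w, hwK, hw0⟩ := hK G hG (by
    intro w hw
    rw [hGe w (Or.inl (Or.inr hw)), hg₁ w (Or.inr hw)]
    exact hG₁B w hw)
  rcases hun w hwK with h1 | h1
  · rw [hGe w (Or.inl (Or.inl h1)), hg₁ w (Or.inl h1)] at hw0
    exact hG₁0 w h1 hw0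
  · rw [hGe w (Or.inr h1), hg₂ w h1] at hw0
    exact mul_ne_zero (Complex.exp_ne_zero _) (hG₂0 w h1) hw0

end Pool.Agent.Helper562.CM
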