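import Mathlib

set_option autoImplicit false

namespace Pool.Agent.Helper562.CM
open Set

/-- Covering dimension: `DimLE X n` says that `Dim X ≤ n`: every finite open cover of `X` has a
finite open refinement such that every point lies in at most `n + 1` of its members. -/
def DimLE (X : Type*) [TopologicalSpace X] (n : ℤ) : Prop :=
  ∀ 𝒰 : Set (Set X), 𝒰.Finite → (∀ U ∈ 𝒰, IsOpen U) → ⋃₀ 𝒰 = univ →
    ∃ 𝒱 : Set (Set X), 𝒱.Finite ∧ (∀ V ∈ 𝒱, IsOpen V) ∧ ⋃₀ 𝒱 = univ ∧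
      (∀ V ∈ 𝒱, ∃ U ∈ 𝒰, V ⊆ U) ∧ ∀ x : X, ({V ∈ 𝒱 | x ∈ V}.ncard : ℤ) ≤ n + 1

/-- A (compact metric) space `X` is a `k`-dimensional Cantor manifold: `1 ≤ k`, `Dim X = k`, and
`X \ C` is connected for every closed set `C` with `Dim C ≤ k - 2`. -/
def IsCantorManifold (X : Type*) [MetricSpace X] (k : ℤ) : Prop :=
  1 ≤ k ∧ (DimLE X k ∧ ¬ DimLE X (k - 1)) ∧
    ∀ C : Set X, IsClosed C → DimLE C (k - 2) → IsConnected Cᶜ

/-- The `m`-th symmetric product: nonempty subsets with at most `m` points, with the Hausdorff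
metric. -/
abbrev SymProd (E : Type*) [MetricSpace E] (m : ℕ) : Type _ :=
  {A : TopologicalSpace.NonemptyCompacts E // (A : Set E).encard ≤ m}

end Pool.Agent.Helper562.CM
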