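import Pool.Agent.Helper562.CMDefs

set_option autoImplicit false

namespace Pool.Agent.Helper562.CM
open Set

theorem DimLE.mono {X : Type*} [TopologicalSpace X] {n m : ℤ} (h : DimLE X n) (hnm : n ≤ m) :
    DimLE X m := by
  intro 𝒰 h1 h2 h3
  obtain ⟨𝒱, a, b, c, d, e⟩ := h 𝒰 h1 h2 h3
  exact ⟨𝒱, a, b, c, d, fun x => (e x).trans (by omega)⟩

/-- pull back along a closed embedding -/
theorem DimLE.of_isClosedEmbedding {X Y : Type*} [TopologicalSpace X] [TopologicalSpace Y] {n : ℤ}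
    (h : DimLE X n) {f : Y → X} (hf : Topology.IsClosedEmbedding f) : DimLE Y n := by
  classical
  intro 𝒰 h1 h2 h3
  have hex : ∀ U : Set Y, ∃ W : Set X, IsOpen U → IsOpen W ∧ f ⁻¹' W = U := by
    intro U
    by_cases hU : IsOpen U
    · obtain ⟨W, hW, hWU⟩ := hf.isInducing.isOpen_iff.1 hU
      exact ⟨W, fun _ => ⟨hW, hWU⟩⟩
    · exact ⟨∅, fun h => absurd h hU⟩
  choose W hW using hex
  let 𝒲 : Set (Set X) := insert (range f)ᶜ (W '' 𝒰)
  obtain ⟨𝒱, a, b, c, d, e⟩ := h 𝒲 ((h1.image W).insert _) (by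
    intro S hS
    rcases hS with rfl | ⟨U, hU, rfl⟩
    · exact hf.isClosed_range.isOpen_compl
    · exact (hW U (h2 U hU)).1) (by
    rw [eq_univ_iff_forall]
    intro x
    by_cases hx : x ∈ range f
    · obtain ⟨y, rfl⟩ := hx
      have hy : y ∈ ⋃₀ 𝒰 := by rw [h3]; trivial
      obtain ⟨U, hU, hyU⟩ := hy
      refine ⟨W U, Or.inr ⟨U, hU, rfl⟩, ?_⟩
      have := (hW U (h2 U hU)).2
      rw [← this] at hyU
      exact hyU
    · exact ⟨_, Or.inl rfl, hx⟩)
  refine ⟨(fun V => f ⁻¹' V) '' {V ∈ 𝒱 | (f ⁻¹' V).Nonempty}, (a.subset (sep_subset _ _)).image _,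
    ?_, ?_, ?_, ?_⟩
  · rintro V ⟨V', ⟨hV', -⟩, rfl⟩
    exact (b V' hV').preimage hf.continuous
  · rw [eq_univ_iff_forall]
    intro y
    have : f y ∈ ⋃₀ 𝒱 := by rw [c]; trivial
    obtain ⟨V, hV, hyV⟩ := this
    exact ⟨f ⁻¹' V, ⟨V, ⟨hV, ⟨y, hyV⟩⟩, rfl⟩, hyV⟩
  · rintro V ⟨V', ⟨hV', ⟨y, hy⟩⟩, rfl⟩
    obtain ⟨S, hS, hVS⟩ := d V' hV'
    rcases hS with rfl | ⟨U, hU, rfl⟩
    · exact absurd (mem_range_self y) (hVS hy)
    · refine ⟨U, hU, ?_⟩
      have := (hW U (h2 U hU)).2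
      intro z hz
      have h4 : z ∈ f ⁻¹' W U := hVS hz
      rw [this] at h4
      exact h4
  · intro y
    refine le_trans ?_ (e (f y))
    have hsub : {V ∈ (fun V => f ⁻¹' V) '' {V ∈ 𝒱 | (f ⁻¹' V).Nonempty} | y ∈ V} ⊆
        (fun V => f ⁻¹' V) '' {V ∈ 𝒱 | f y ∈ V} := by
      rintro V ⟨⟨V', ⟨hV', -⟩, rfl⟩, hy⟩
      exact ⟨V', ⟨hV', hy⟩, rfl⟩
    have hfin : {V ∈ 𝒱 | f y ∈ V}.Finite := a.subset (sep_subset _ _)
    exact_mod_cast (ncard_le_ncard hsub (hfin.image _)).trans (ncard_image_le hfin)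

theorem DimLE.of_homeo {X Y : Type*} [TopologicalSpace X] [TopologicalSpace Y] {n : ℤ}
    (h : DimLE X n) (e : Y ≃ₜ X) : DimLE Y n := h.of_isClosedEmbedding e.isClosedEmbedding

theorem DimLE.subset {X : Type*} [TopologicalSpace X] {n : ℤ} {A B : Set X} (h : DimLE B n)
    (hAB : A ⊆ B) (hA : IsClosed A) : DimLE A n := by
  refine h.of_isClosedEmbedding (f := Set.inclusion hAB) ?_
  refine ⟨Topology.IsEmbedding.inclusion hAB, ?_⟩
  rw [range_inclusion]
  exact hA.preimage continuous_subtype_val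

theorem DimLE.of_closed {X : Type*} [TopologicalSpace X] {n : ℤ} (h : DimLE X n) {A : Set X}
    (hA : IsClosed A) : DimLE A n := h.of_isClosedEmbedding hA.isClosedEmbedding_subtypeVal


/-- splitting of preimages of small balls under a light map -/
theorem split {Z B : Type*} [TopologicalSpace Z] [CompactSpace Z] [T2Space Z] [MetricSpace B]
    (π : Z → B) (hπ : Continuous π) (b : B) (hl : IsTotallyDisconnected (π ⁻¹' {b}))
    (𝒰 : Set (Set Z)) (hUo : ∀ U ∈ 𝒰, IsOpen U) (hUc : ⋃₀ 𝒰 = univ) :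
    ∃ r : ℝ, 0 < r ∧ ∃ 𝒪 : Set (Set Z), 𝒪.Finite ∧ (∀ O ∈ 𝒪, IsOpen O ∧ ∃ U ∈ 𝒰, O ⊆ U) ∧
      (∀ O ∈ 𝒪, ∀ O' ∈ 𝒪, (O ∩ O').Nonempty → O = O') ∧ π ⁻¹' Metric.ball b r ⊆ ⋃₀ 𝒪 := by
  classical
  set F : Set Z := π ⁻¹' {b} with hF
  have hFc : IsClosed F := isClosed_singleton.preimage hπ
  have hFcomp : IsCompact F := hFc.isCompact
  have : CompactSpace F := isCompact_iff_compactSpace.1 hFcomp
  have : TotallyDisconnectedSpace F := (totallyDisconnectedSpace_subtype_iff).2 hl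
  have h1 : ∀ x : F, ∃ V : Set F, IsClopen V ∧ x ∈ V ∧ ∃ U ∈ 𝒰, V ⊆ (Subtype.val ⁻¹' U) := by
    intro x
    have hx : (x : Z) ∈ ⋃₀ 𝒰 := by rw [hUc]; trivial
    obtain ⟨U, hU, hxU⟩ := hx
    obtain ⟨V, hV, hxV, hVU⟩ := compact_exists_isClopen_in_isOpen
      ((hUo U hU).preimage continuous_subtype_val) (show x ∈ (Subtype.val ⁻¹' U : Set F) from hxU)
    exact ⟨V, hV, hxV, U, hU, hVU⟩
  choose V hVc hxV Uc hUc' hVU using h1
  obtain ⟨s, hs⟩ := isCompact_univ.elim_finite_subcover (fun x : F => V x) (fun x => (hVc x).isOpen)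
    (fun x _ => mem_iUnion.2 ⟨x, hxV x⟩)
  -- extend the indicators
  have h2 : ∀ y : F, ∃ τ : C(Z, ℝ), (∀ z : F, z ∈ V y → τ z = 1) ∧ (∀ z : F, z ∉ V y → τ z = 0) := by
    intro y
    have hc : Continuous (fun z : F => if z ∈ V y then (1 : ℝ) else 0) := by
      apply Continuous.if _ continuous_const continuous_const
      intro a ha
      have : frontier {z | z ∈ V y} = ∅ := (hVc y).frontier_eq
      rw [this] at ha
      exact absurd ha (notMem_empty _)
    obtain ⟨τ, hτ⟩ := ContinuousMap.exists_restrict_eq hFc (⟨_, hc⟩ : C(F, ℝ))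
    refine ⟨τ, ?_, ?_⟩
    · intro z hz
      have := congrArg (fun g : C(F, ℝ) => g z) hτ
      simp [hz] at this
      exact this
    · intro z hz
      have := congrArg (fun g : C(F, ℝ) => g z) hτ
      simp [hz] at this
      exact this
  choose τ hτ1 hτ0 using h2
  -- the open sets
  let O : F → Finset F → Set Z := fun y A => {z | ∀ w ∈ s, (w ∈ A → 1 / 2 < τ w z) ∧
    (w ∉ A → τ w z < 1 / 2)} ∩ Uc y
  have hOo : ∀ y A, IsOpen (O y A) := by
    intro y A
    apply IsOpen.inter _ (hUo _ (hUc' y))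
    have : {z | ∀ w ∈ s, (w ∈ A → 1 / 2 < τ w z) ∧ (w ∉ A → τ w z < 1 / 2)} =
        ⋂ w ∈ s, ({z | w ∈ A → 1 / 2 < τ w z} ∩ {z | w ∉ A → τ w z < 1 / 2}) := by
      ext z
      simp
    rw [this]
    apply isOpen_biInter_finset
    intro w _
    apply IsOpen.inter
    · by_cases hw : w ∈ A
      · simp only [hw, true_imp_iff]
        exact isOpen_lt continuous_const (τ w).continuous
      · simp [hw]
    · by_cases hw : w ∈ A
      · simp [hw]
      · simp only [hw, not_false_eq_true, true_imp_iff]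
        exact isOpen_lt (τ w).continuous continuous_const
  have hfin : Finite {A : Finset F // A ⊆ s ∧ A.Nonempty} := by
    apply Set.Finite.subset (s := {A : Finset F | A ⊆ s}) (by
      have := s.powerset.finite_toSet
      exact this.subset (fun A hA => by simpa using hA))
    intro A hA
    exact hA.1
  let 𝒪 : Set (Set Z) := range (fun A : {A : Finset F // A ⊆ s ∧ A.Nonempty} => O A.2.2.choose A.1)
  have hcov : F ⊆ ⋃₀ 𝒪 := by
    intro z hz
    let A : Finset F := s.filter (fun w => (⟨z, hz⟩ : F) ∈ V w)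
    have hAs : A ⊆ s := Finset.filter_subset _ _
    have hAne : A.Nonempty := by
      have := hs (mem_univ (⟨z, hz⟩ : F))
      rw [mem_iUnion₂] at this
      obtain ⟨w, hw, hzw⟩ := this
      exact ⟨w, Finset.mem_filter.2 ⟨hw, hzw⟩⟩
    refine ⟨_, ⟨⟨A, hAs, hAne⟩, rfl⟩, ?_, ?_⟩
    · intro w hw
      constructor
      · intro hwA
        have := hτ1 w ⟨z, hz⟩ (Finset.mem_filter.1 hwA).2
        simp only at this
        rw [this]
        norm_num
      · intro hwA
        have := hτ0 w ⟨z, hz⟩ (fun h => hwA (Finset.mem_filter.2 ⟨hw, h⟩))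
        simp only at this
        rw [this]
        norm_num
    · have h3 := hAne.choose_spec
      have h4 := (Finset.mem_filter.1 h3).2
      exact hVU _ h4
  have hOO : ∀ S ∈ 𝒪, IsOpen S := by
    rintro S ⟨A, rfl⟩
    exact hOo _ _
  -- closedness of the map
  have hcl : IsClosed (π '' (⋃₀ 𝒪)ᶜ) :=
    ((isOpen_sUnion hOO).isClosed_compl.isCompact.image hπ).isClosed
  have hb : b ∉ π '' (⋃₀ 𝒪)ᶜ := by
    rintro ⟨z, hz, hzb⟩
    exact hz (hcov hzb)
  obtain ⟨r, hr, hball⟩ := Metric.isOpen_iff.1 hcl.isOpen_compl b hb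
  refine ⟨r, hr, 𝒪, finite_range _, ?_, ?_, ?_⟩
  · rintro S ⟨A, rfl⟩
    exact ⟨hOo _ _, _, hUc' _, inter_subset_right⟩
  · rintro S ⟨A, rfl⟩ S' ⟨A', rfl⟩ ⟨z, hz, hz'⟩
    have : A = A' := by
      apply Subtype.ext
      ext w
      constructor
      · intro hw
        by_contra hcon
        have h5 := (hz.1 w (A.2.1 hw)).1 hw
        have h6 := (hz'.1 w (A.2.1 hw)).2 hcon
        linarith
      · intro hw
        by_contra hcon
        have h5 := (hz'.1 w (A'.2.1 hw)).1 hw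
        have h6 := (hz.1 w (A'.2.1 hw)).2 hcon
        linarith
    rw [this]
  · intro z hz
    by_contra hcon
    exact hball hz ⟨z, hcon, rfl⟩

/-- uniform version of the splitting -/
theorem split_uniform {Z B : Type*} [TopologicalSpace Z] [CompactSpace Z] [T2Space Z]
    [MetricSpace B] (π : Z → B) (hπ : Continuous π)
    (hl : ∀ b, IsTotallyDisconnected (π ⁻¹' {b}))
    (𝒰 : Set (Set Z)) (hUo : ∀ U ∈ 𝒰, IsOpen U) (hUc : ⋃₀ 𝒰 = univ) :
    ∃ r : ℝ, 0 < r ∧ ∀ b, ∃ 𝒪 : Set (Set Z), 𝒪.Finite ∧ (∀ O ∈ 𝒪, IsOpen O ∧ ∃ U ∈ 𝒰, O ⊆ U) ∧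
      (∀ O ∈ 𝒪, ∀ O' ∈ 𝒪, (O ∩ O').Nonempty → O = O') ∧ π ⁻¹' Metric.ball b r ⊆ ⋃₀ 𝒪 := by
  have h1 := fun b => split π hπ b (hl b) 𝒰 hUo hUc
  choose r hr 𝒪 h𝒪 using h1
  have hcomp : IsCompact (range π) := isCompact_range hπ
  obtain ⟨δ, hδ, hleb⟩ := lebesgue_number_lemma_of_metric hcomp
    (c := fun b : B => Metric.ball b (r b)) (fun b => Metric.isOpen_ball)
    (fun b _ => mem_iUnion.2 ⟨b, Metric.mem_ball_self (hr b)⟩)
  refine ⟨δ / 2, by positivity, ?_⟩
  intro b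
  by_cases hb : (π ⁻¹' Metric.ball b (δ / 2)).Nonempty
  · obtain ⟨z, hz⟩ := hb
    obtain ⟨b', hb'⟩ := hleb (π z) (mem_range_self z)
    refine ⟨𝒪 b', (h𝒪 b').1, (h𝒪 b').2.1, (h𝒪 b').2.2.1, ?_⟩
    refine subset_trans ?_ (h𝒪 b').2.2.2
    intro w hw
    apply hb'
    rw [mem_preimage, Metric.mem_ball] at hz hw
    rw [Metric.mem_ball]
    calc dist (π w) (π z) ≤ dist (π w) b + dist b (π z) := dist_triangle _ _ _
      _ < δ / 2 + δ / 2 := by rw [dist_comm b]; linarith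
      _ = δ := by ring
  · refine ⟨∅, finite_empty, by simp, by simp, ?_⟩
    rw [not_nonempty_iff_eq_empty] at hb
    rw [hb]
    exact empty_subset _


/-- thresholds -/
noncomputable def dl (j : ℕ) : ℝ := 1 / ((j : ℝ) + 3)

lemma dl_pos (j : ℕ) : 0 < dl j := by unfold dl; positivity
lemma dl_lt (j : ℕ) : dl j < 1 / 2 := by
  unfold dl
  rw [div_lt_div_iff₀ (by positivity) (by norm_num)]
  have : (0 : ℝ) ≤ j := Nat.cast_nonneg j
  linarith
lemma dl_succ (j : ℕ) : dl (j + 1) < dl j := by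
  unfold dl
  apply one_div_lt_one_div_of_lt
  · positivity
  · push_cast; linarith

variable {κ : Type*}

/-- boxes around the open faces of the unit grid -/
def box (j : ℕ) (S : Finset κ) (n : κ → ℤ) : Set (κ → ℝ) :=
  {p | (∀ i ∈ S, |p i - n i| < dl j) ∧ ∀ i, i ∉ S → n i + dl j < p i ∧ p i < n i + 1 - dl j}

lemma isOpen_box [Fintype κ] [DecidableEq κ] (j : ℕ) (S : Finset κ) (n : κ → ℤ) : IsOpen (box j S n) := by
  have : box j S n = (⋂ i ∈ S, {p : κ → ℝ | |p i - n i| < dl j}) ∩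
      ⋂ i ∈ Sᶜ, ({p : κ → ℝ | n i + dl j < p i} ∩ {p : κ → ℝ | p i < n i + 1 - dl j}) := by
    ext p
    simp [box]
  rw [this]
  apply IsOpen.inter
  · apply isOpen_biInter_finset
    intro i _
    exact isOpen_lt (by fun_prop) continuous_const
  · apply isOpen_biInter_finset
    intro i _
    exact (isOpen_lt continuous_const (by fun_prop)).inter (isOpen_lt (by fun_prop) continuous_const)

lemma box_disj {j : ℕ} {S S' : Finset κ} {n n' : κ → ℤ} {p : κ → ℝ} (h : p ∈ box j S n)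
    (h' : p ∈ box j S' n') : S = S' ∧ n = n' := by
  have d1 := dl_pos j
  have d2 := dl_lt j
  -- an index cannot be near an integer and far from all integers
  have key : ∀ (S S' : Finset κ) (n n' : κ → ℤ), p ∈ box j S n → p ∈ box j S' n' → ∀ i ∈ S, i ∈ S' := by
    intro S S' n n' h h' i hi
    by_contra hcon
    have h1 := abs_lt.1 (h.1 i hi)
    have h2 := h'.2 i hcon
    have h3 : (n' i : ℝ) < n i := by linarith
    have h4 : (n i : ℝ) < n' i + 1 := by linarith
    have h5 : n' i < n i := by exact_mod_cast h3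
    have h6 : n i < n' i + 1 := by exact_mod_cast h4
    omega
  have hS : S = S' := by
    ext i
    exact ⟨key S S' n n' h h' i, key S' S n' n h' h i⟩
  refine ⟨hS, ?_⟩
  subst hS
  funext i
  by_cases hi : i ∈ S
  · have h1 := abs_lt.1 (h.1 i hi)
    have h2 := abs_lt.1 (h'.1 i hi)
    have h3 : (n i : ℝ) < n' i + 1 := by linarith
    have h4 : (n' i : ℝ) < n i + 1 := by linarith
    have h5 : n i < n' i + 1 := by exact_mod_cast h3
    have h6 : n' i < n i + 1 := by exact_mod_cast h4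
    omega
  · have h1 := h.2 i hi
    have h2 := h'.2 i hi
    have h3 : (n i : ℝ) < n' i + 1 := by linarith
    have h4 : (n' i : ℝ) < n i + 1 := by linarith
    have h5 : n i < n' i + 1 := by exact_mod_cast h3
    have h6 : n' i < n i + 1 := by exact_mod_cast h4
    omega

lemma box_dist {j : ℕ} {S : Finset κ} {n : κ → ℤ} {p : κ → ℝ} (h : p ∈ box j S n) (i : κ) :
    |p i - n i| < 1 := by
  have d1 := dl_pos j
  have d2 := dl_lt j
  by_cases hi : i ∈ S
  · linarith [h.1 i hi]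
  · have := h.2 i hi
    rw [abs_lt]
    constructor <;> linarith [this.1, this.2]

/-- points of the `k`-skeleton are covered by the boxes of the faces of dimension at most `k` -/
lemma box_cover [Fintype κ] [DecidableEq κ] (k : ℕ) (p : κ → ℝ)
    (hp : ∃ T : Finset κ, Fintype.card κ ≤ k + T.card ∧ ∀ i ∈ T, ∃ n : ℤ, p i = n) :
    ∃ j ≤ k, ∃ (S : Finset κ) (n : κ → ℤ), p ∈ box j S n := by
  classical
  let d : κ → ℝ := fun i => |p i - round (p i)|
  let N : ℕ → Finset κ := fun j => Finset.univ.filter fun i => d i < dl j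
  have hk : Fintype.card κ ≤ k + (N k).card := by
    obtain ⟨T, hT, hT'⟩ := hp
    refine hT.trans (Nat.add_le_add_left (Finset.card_le_card ?_) k)
    intro i hi
    simp only [Finset.mem_filter, Finset.mem_univ, true_and, N] at hi ⊢
    obtain ⟨n, hn⟩ := hT' i hi
    have : d i = 0 := by
      simp only [d, hn, round_intCast, sub_self, abs_zero]
    rw [this]
    exact dl_pos k
  have hex : ∃ j, Fintype.card κ ≤ j + (N j).card := ⟨k, hk⟩
  let j := Nat.find hex
  have hj : Fintype.card κ ≤ j + (N j).card := Nat.find_spec hex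
  have hjk : j ≤ k := Nat.find_min' hex hk
  have hfar : ∀ i, i ∉ N j → dl j < d i := by
    intro i hi
    rcases Nat.eq_zero_or_pos j with h0 | h0
    · rw [h0, zero_add] at hj
      have : N 0 = Finset.univ := Finset.eq_univ_of_card _ (le_antisymm (Finset.card_le_univ _) hj)
      rw [h0, this] at hi
      exact absurd (Finset.mem_univ i) hi
    · obtain ⟨l, hl⟩ : ∃ l, j = l + 1 := ⟨j - 1, by omega⟩
      have hmin : ¬ (Fintype.card κ ≤ l + (N l).card) := Nat.find_min hex (by omega : l < j)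
      have hsub : N j ⊆ N l := by
        intro i hi
        simp only [Finset.mem_filter, Finset.mem_univ, true_and, N] at hi ⊢
        rw [hl] at hi
        exact hi.trans (dl_succ l)
      have heq : N j = N l := Finset.eq_of_subset_of_card_le hsub (by omega)
      rw [heq] at hi
      simp only [Finset.mem_filter, Finset.mem_univ, true_and, N, not_lt] at hi
      rw [hl]
      exact (dl_succ l).trans_le hi
  refine ⟨j, hjk, N j, fun i => if i ∈ N j then round (p i) else ⌊p i⌋, ?_, ?_⟩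
  · intro i hi
    simp only [hi, if_true]
    simpa [N] using hi
  · intro i hi
    simp only [hi, if_false]
    have h1 := hfar i hi
    have h2 : d i = min (Int.fract (p i)) (1 - Int.fract (p i)) := abs_sub_round_eq_min (p i)
    rw [h2, lt_min_iff] at h1
    have h3 := Int.floor_add_fract (p i)
    constructor
    · linarith [h1.1]
    · linarith [h1.2]

/-- Dimension bound by small pushes into skeleta. -/
theorem dimLE_of_push [Fintype κ] [DecidableEq κ] {Z : Type*} [TopologicalSpace Z] [CompactSpace Z]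
    [T2Space Z] (k : ℕ) (π : Z → κ → ℝ)
    (hπ : Continuous π) (hl : ∀ b, IsTotallyDisconnected (π ⁻¹' {b}))
    (hpush : ∀ η : ℝ, 0 < η → ∃ h : ℝ, 0 < h ∧ h < η ∧ ∃ Φ : Z → κ → ℝ, Continuous Φ ∧
      (∀ z, dist (Φ z) (π z) < η) ∧
      ∀ z, ∃ T : Finset κ, Fintype.card κ ≤ k + T.card ∧ ∀ i ∈ T, ∃ n : ℤ, Φ z i = n * h) :
    DimLE Z k := by
  classical
  intro 𝒰 h𝒰f h𝒰o h𝒰c
  obtain ⟨r, hr, hsplit⟩ := split_uniform π hπ hl 𝒰 h𝒰o h𝒰c
  obtain ⟨h, hh, hhr, Φ, hΦc, hΦπ, hΦs⟩ := hpush (r / 2) (by positivity)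
  choose 𝒪 h𝒪f h𝒪o h𝒪d h𝒪c using hsplit
  -- bounded range
  obtain ⟨M, hM⟩ : ∃ M : ℕ, ∀ z i, |Φ z i / h| ≤ M := by
    obtain ⟨R, hR⟩ := (isCompact_range hΦc).isBounded.exists_norm_le
    obtain ⟨M, hM⟩ := exists_nat_ge (R / h)
    refine ⟨M, fun z i => ?_⟩
    rw [abs_div, abs_of_pos hh]
    refine le_trans ?_ hM
    gcongr
    exact (norm_le_pi_norm (Φ z) i).trans (hR _ (mem_range_self z))
  let ctr : (κ → ℤ) → (κ → ℝ) := fun n i => n i * h
  let P : ℕ → Finset κ → (κ → ℤ) → Set Z := fun j S n => {z | (fun i => Φ z i / h) ∈ box j S n}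
  have hPo : ∀ j S n, IsOpen (P j S n) := by
    intro j S n
    refine (isOpen_box j S n).preimage ?_
    apply continuous_pi
    intro i
    exact ((continuous_apply i).comp hΦc).div_const h
  have hPball : ∀ j S n, P j S n ⊆ π ⁻¹' Metric.ball (ctr n) r := by
    intro j S n z hz
    rw [mem_preimage, Metric.mem_ball]
    have h1 : dist (Φ z) (ctr n) ≤ h := by
      rw [dist_pi_le_iff hh.le]
      intro i
      have := box_dist hz i
      rw [Real.dist_eq]
      have h2 : Φ z i - ctr n i = (Φ z i / h - n i) * h := by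
        simp only [ctr]
        field_simp
      rw [h2, abs_mul, abs_of_pos hh]
      nlinarith
    have h3 := hΦπ z
    calc dist (π z) (ctr n) ≤ dist (π z) (Φ z) + dist (Φ z) (ctr n) := dist_triangle _ _ _
      _ < r / 2 + r / 2 := by rw [dist_comm (π z)]; linarith
      _ = r := by ring
  let fam : ℕ × Finset κ × (κ → ℤ) → Set (Set Z) := fun q =>
    (fun O => P q.1 q.2.1 q.2.2 ∩ O) '' 𝒪 (ctr q.2.2)
  let I : Set (ℕ × Finset κ × (κ → ℤ)) := (Iic k) ×ˢ (univ ×ˢ (Icc (fun _ => -(M : ℤ) - 1) (fun _ => (M : ℤ) + 1)))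
  have hI : I.Finite := (finite_Iic k).prod (finite_univ.prod (finite_Icc _ _))
  refine ⟨⋃ q ∈ I, fam q, hI.biUnion (fun q _ => (h𝒪f _).image _), ?_, ?_, ?_, ?_⟩
  · intro V hV
    simp only [mem_iUnion] at hV
    obtain ⟨q, -, O, hO, rfl⟩ := hV
    exact (hPo _ _ _).inter (h𝒪o _ O hO).1
  · rw [eq_univ_iff_forall]
    intro z
    have hsk : ∃ T : Finset κ, Fintype.card κ ≤ k + T.card ∧ ∀ i ∈ T, ∃ n : ℤ, Φ z i / h = n := by
      obtain ⟨T, hT, hT'⟩ := hΦs z
      refine ⟨T, hT, fun i hi => ?_⟩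
      obtain ⟨n, hn⟩ := hT' i hi
      exact ⟨n, by rw [hn]; field_simp⟩
    obtain ⟨j, hj, S, n, hz⟩ := box_cover k (fun i => Φ z i / h) hsk
    have hzO : z ∈ ⋃₀ 𝒪 (ctr n) := h𝒪c _ (hPball j S n hz)
    obtain ⟨O, hO, hzO⟩ := hzO
    refine ⟨P j S n ∩ O, ?_, hz, hzO⟩
    simp only [mem_iUnion]
    refine ⟨(j, S, n), ⟨hj, mem_univ _, ?_⟩, O, hO, rfl⟩
    rw [mem_Icc]
    have hb : ∀ i, |(n i : ℝ)| < M + 1 := by
      intro i
      have h1 := box_dist hz i
      have h2 := hM z i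
      calc |(n i : ℝ)| = |Φ z i / h - (Φ z i / h - n i)| := by ring_nf
        _ ≤ |Φ z i / h| + |Φ z i / h - n i| := abs_sub _ _
        _ < M + 1 := by linarith
    constructor
    · intro i
      have h1 := (abs_lt.1 (hb i)).1
      have h2 : (-(M : ℤ) - 1 : ℤ) < n i := by
        have : ((-(M : ℤ) - 1 : ℤ) : ℝ) < (n i : ℝ) := by push_cast; linarith
        exact_mod_cast this
      exact h2.le
    · intro i
      have h1 := (abs_lt.1 (hb i)).2
      have h2 : n i < ((M : ℤ) + 1 : ℤ) := by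
        have : (n i : ℝ) < (((M : ℤ) + 1 : ℤ) : ℝ) := by push_cast; linarith
        exact_mod_cast this
      exact h2.le
  · intro V hV
    simp only [mem_iUnion] at hV
    obtain ⟨q, -, O, hO, rfl⟩ := hV
    obtain ⟨-, U, hU, hOU⟩ := h𝒪o _ O hO
    exact ⟨U, hU, inter_subset_right.trans hOU⟩
  · intro z
    -- colours
    have hcol : ∀ V ∈ {V ∈ ⋃ q ∈ I, fam q | z ∈ V}, ∃ j ∈ Finset.range (k + 1), ∃ S n O,
        O ∈ 𝒪 (ctr n) ∧ V = P j S n ∩ O := by
      rintro V ⟨hV, -⟩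
      simp only [mem_iUnion] at hV
      obtain ⟨q, hq, O, hO, rfl⟩ := hV
      refine ⟨q.1, ?_, q.2.1, q.2.2, O, hO, rfl⟩
      have : q.1 ≤ k := hq.1
      simp
      omega
    choose! c hc Sc nc Oc hOc hVc using hcol
    have hinj : InjOn c {V ∈ ⋃ q ∈ I, fam q | z ∈ V} := by
      intro V hV V' hV' hcc
      have e1 := hVc V hV
      have e2 := hVc V' hV'
      have z1 : z ∈ V := hV.2
      have z2 : z ∈ V' := hV'.2
      rw [e1] at z1
      rw [e2] at z2
      rw [← hcc] at z2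
      obtain ⟨hS, hn⟩ := box_disj z1.1 z2.1
      have hO : Oc V = Oc V' := by
        apply h𝒪d (ctr (nc V)) _ (hOc V hV)
        · rw [hn]
          exact hOc V' hV'
        · exact ⟨z, z1.2, z2.2⟩
      rw [e1, e2, ← hcc, hS, hn, hO]
    have hle : {V ∈ ⋃ q ∈ I, fam q | z ∈ V}.ncard ≤ k + 1 := by
      calc {V ∈ ⋃ q ∈ I, fam q | z ∈ V}.ncard ≤ ((Finset.range (k + 1) : Finset ℕ) : Set ℕ).ncard :=
            ncard_le_ncard_of_injOn c (fun V hV => hc V hV) hinj
              (Finset.finite_toSet _)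
        _ = k + 1 := by rw [ncard_coe_finset, Finset.card_range]
    exact_mod_cast hle

end Pool.Agent.Helper562.CM
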