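import Pool.Agent.Helper562.CMPushB
import Pool.Agent.Helper562.CMCantor

set_option autoImplicit false

namespace Pool.Agent.Helper562.CM
open Set Topology Filter

/-- `G` depends only on the sheet coordinates in `J` and on the levels below `n` -/
def DepOn (J : Finset (ℕ × ℤ × ℤ)) (n : ℕ) (G : Wsp → ℂ) : Prop :=
  ∀ w w' : Wsp, (∀ i ∈ J, w.v i.1 i.2 = w'.v i.1 i.2) → (∀ k < n, w.y k = w'.y k) →
    (∀ k < n, ∀ q, w.Y k q = w'.Y k q) → G w = G w'

lemma DepOn.mono {J J' : Finset (ℕ × ℤ × ℤ)} {n n' : ℕ} {G : Wsp → ℂ} (h : DepOn J n G)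
    (hJ : J ⊆ J') (hn : n ≤ n') : DepOn J' n' G := by
  intro w w' h1 h2 h3
  exact h w w' (fun i hi => h1 i (hJ hi)) (fun k hk => h2 k (by omega)) (fun k hk => h3 k (by omega))

/-- the star subalgebra of functions depending on finitely many levels -/
noncomputable def depAlg : StarSubalgebra ℂ C(Wsp, ℂ) where
  carrier := {G | ∃ J n, DepOn J n G}
  mul_mem' := by
    rintro a b ⟨J, n, h⟩ ⟨J', n', h'⟩
    refine ⟨J ∪ J', max n n', ?_⟩
    intro w w' h1 h2 h3
    have e1 := (h.mono Finset.subset_union_left (le_max_left n n')) w w' h1 h2 h3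
    have e2 := (h'.mono Finset.subset_union_right (le_max_right n n')) w w' h1 h2 h3
    show a w * b w = a w' * b w'
    rw [e1, e2]
  add_mem' := by
    rintro a b ⟨J, n, h⟩ ⟨J', n', h'⟩
    refine ⟨J ∪ J', max n n', ?_⟩
    intro w w' h1 h2 h3
    have e1 := (h.mono Finset.subset_union_left (le_max_left n n')) w w' h1 h2 h3
    have e2 := (h'.mono Finset.subset_union_right (le_max_right n n')) w w' h1 h2 h3
    show a w + b w = a w' + b w'
    rw [e1, e2]
  algebraMap_mem' := by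
    intro c
    exact ⟨∅, 0, fun _ _ _ _ _ => rfl⟩
  star_mem' := by
    rintro a ⟨J, n, h⟩
    refine ⟨J, n, ?_⟩
    intro w w' h1 h2 h3
    show star (a w) = star (a w')
    rw [h w w' h1 h2 h3]

lemma depAlg_dense : depAlg.topologicalClosure = ⊤ := by
  apply ContinuousMap.starSubalgebra_topologicalClosure_eq_top_of_separatesPoints
  intro w w' hne
  by_contra hcon
  push Not at hcon
  apply hne
  apply Wsp.ext'
  · intro k q
    apply hcon _
    refine ⟨(⟨fun w => w.v k q, Wsp.continuous_v k q⟩ : C(Wsp, ℂ)), ?_, rfl⟩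
    exact ⟨{(k, q)}, 0, fun w w' h1 _ _ => h1 (k, q) (by simp)⟩
  · intro k
    apply hcon _
    refine ⟨(⟨fun w => w.y k, Wsp.continuous_y k⟩ : C(Wsp, ℂ)), ?_, rfl⟩
    exact ⟨∅, k + 1, fun w w' _ h2 _ => h2 k (by omega)⟩
  · intro k q
    apply hcon _
    refine ⟨(⟨fun w => w.Y k q, Wsp.continuous_Y k q⟩ : C(Wsp, ℂ)), ?_, rfl⟩
    exact ⟨∅, k + 1, fun w w' _ _ h3 => h3 k (by omega) q⟩

lemma approx (G : C(Wsp, ℂ)) {ε : ℝ} (hε : 0 < ε) :
    ∃ G' : C(Wsp, ℂ), (∃ J n, DepOn J n G') ∧ ∀ w, ‖G w - G' w‖ < ε := by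
  have h1 : G ∈ (depAlg.topologicalClosure : Set C(Wsp, ℂ)) := by
    rw [depAlg_dense]
    trivial
  rw [StarSubalgebra.topologicalClosure_coe, Metric.mem_closure_iff] at h1
  obtain ⟨G', hG', hd⟩ := h1 ε hε
  refine ⟨G', hG', fun w => ?_⟩
  rw [← dist_eq_norm]
  exact (ContinuousMap.dist_apply_le_dist w).trans_lt hd

/-- an essential-failure can be realised by a function depending on finitely many coordinates -/
lemma exists_finite_level {c₀ : ℂ} (h : ¬ Ess (fun w : Wsp => w.y 0) c₀ {w | ‖w.y 0 - c₀‖ ≤ 2}) :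
    ∃ G : Wsp → ℂ, Continuous G ∧ (∃ J n, DepOn J n G) ∧
      (∀ w, ‖w.y 0 - c₀‖ = 2 → G w = w.y 0 - c₀) ∧ ∀ w, ‖w.y 0 - c₀‖ ≤ 2 → G w ≠ 0 := by
  unfold Ess at h
  push Not at h
  obtain ⟨G, hG, hGB, hG0⟩ := h
  have hx := Wsp.continuous_y 0
  set K : Set Wsp := {w | ‖w.y 0 - c₀‖ ≤ 2} with hK
  have hKc : IsClosed K := isClosed_le (hx.sub continuous_const).norm continuous_const
  -- lower bound
  obtain ⟨m, hm, hmK⟩ : ∃ m : ℝ, 0 < m ∧ ∀ w ∈ K, m ≤ ‖G w‖ := by
    rcases K.eq_empty_or_nonempty with h0 | hne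
    · exact ⟨1, one_pos, by rw [h0]; simp⟩
    · obtain ⟨w₀, hw₀, hmin⟩ := hKc.isCompact.exists_isMinOn hne hG.norm.continuousOn
      exact ⟨‖G w₀‖, norm_pos_iff.2 (hG0 w₀ hw₀), fun w hw => hmin hw⟩
  obtain ⟨G', ⟨J, n, hdep⟩, hGG'⟩ := approx ⟨G, hG⟩ (show 0 < m / 3 by positivity)
  have hGG : ∀ w, ‖G w - G' w‖ < m / 3 := hGG'
  let V : Set Wsp := {w | ‖G w - (w.y 0 - c₀)‖ < m / 3}
  have hV : IsOpen V := isOpen_lt (hG.sub (hx.sub continuous_const)).norm continuous_const
  have hS : IsClosed ((fun w : Wsp => w.y 0) '' Vᶜ) := (hV.isClosed_compl.isCompact.image hx).isClosed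
  have hT : IsClosed {z : ℂ | ‖z - c₀‖ = 2} := isClosed_eq (by fun_prop) continuous_const
  have hdisj : Disjoint ((fun w : Wsp => w.y 0) '' Vᶜ) {z : ℂ | ‖z - c₀‖ = 2} := by
    rw [Set.disjoint_left]
    rintro _ ⟨w, hw, rfl⟩ hz
    apply hw
    show ‖G w - (w.y 0 - c₀)‖ < m / 3
    rw [hGB w hz, sub_self, norm_zero]
    positivity
  obtain ⟨β, hβ0, hβ1, hβI⟩ := exists_continuous_zero_one_of_isClosed hS hT hdisj
  refine ⟨fun w => (1 - (β (w.y 0) : ℂ)) * G' w + (β (w.y 0) : ℂ) * (w.y 0 - c₀), ?_, ?_, ?_, ?_⟩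
  · have h1 : Continuous fun w : Wsp => (β (w.y 0) : ℂ) :=
      Complex.continuous_ofReal.comp (β.continuous.comp hx)
    exact ((continuous_const.sub h1).mul G'.continuous).add (h1.mul (hx.sub continuous_const))
  · refine ⟨J, n + 1, ?_⟩
    intro w w' h1 h2 h3
    have e1 := (hdep.mono (Finset.Subset.refl J) (Nat.le_succ n)) w w' h1 h2 h3
    have e2 := h2 0 (by omega)
    simp only [e1, e2]
  · intro w hw
    have : β (w.y 0) = 1 := hβ1 hw
    simp [this]
  · intro w hw h0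
    have h1 := hmK w hw
    have h2 : ‖G w - ((1 - (β (w.y 0) : ℂ)) * G' w + (β (w.y 0) : ℂ) * (w.y 0 - c₀))‖ < m := by
      have e : G w - ((1 - (β (w.y 0) : ℂ)) * G' w + (β (w.y 0) : ℂ) * (w.y 0 - c₀)) =
          ((1 - β (w.y 0) : ℝ) : ℂ) * (G w - G' w) + ((β (w.y 0) : ℝ) : ℂ) * (G w - (w.y 0 - c₀)) := by
        push_cast
        ring
      have hb := hβI (w.y 0)
      rw [e]
      refine (norm_add_le _ _).trans_lt ?_
      rw [norm_mul, norm_mul, Complex.norm_real, Complex.norm_real,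
        Real.norm_of_nonneg (by linarith [hb.2]), Real.norm_of_nonneg hb.1]
      have h3 := hGG w
      by_cases hwV : w ∈ V
      · have h4 : ‖G w - (w.y 0 - c₀)‖ < m / 3 := hwV
        nlinarith [hb.1, hb.2, norm_nonneg (G w - G' w), norm_nonneg (G w - (w.y 0 - c₀))]
      · have h5 : β (w.y 0) = 0 := hβ0 ⟨w, hwV, rfl⟩
        rw [h5]
        simp only [sub_zero, one_mul, zero_mul, add_zero]
        linarith
    have h0' : (1 - (β (w.y 0) : ℂ)) * G' w + (β (w.y 0) : ℂ) * (w.y 0 - c₀) = 0 := h0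
    rw [h0', sub_zero] at h2
    linarith

/-- descending a function to the base -/
lemma continuousWithinAt_sec {f : Wsp → ℂ} (hf : Continuous f) {x₀ : ℂ}
    (h : ∀ w w' : Wsp, w.y 0 = x₀ → w'.y 0 = x₀ → f w = f w') (hx₀ : ‖x₀‖ ≤ 3) :
    ContinuousWithinAt (fun x => f (sec x)) {x | ‖x‖ ≤ 3} x₀ := by
  rw [Metric.continuousWithinAt_iff]
  intro ε hε
  let Bad : Set Wsp := {w | ε ≤ ‖f w - f (sec x₀)‖}
  have hB : IsClosed Bad := isClosed_le continuous_const (hf.sub continuous_const).norm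
  have hI : IsClosed ((fun w : Wsp => w.y 0) '' Bad) :=
    (hB.isCompact.image (Wsp.continuous_y 0)).isClosed
  have hx : x₀ ∉ (fun w : Wsp => w.y 0) '' Bad := by
    rintro ⟨w, hw, hwx⟩
    have e := h w (sec x₀) hwx (sec_y_zero hx₀)
    have : ε ≤ ‖f w - f (sec x₀)‖ := hw
    rw [e, sub_self, norm_zero] at this
    linarith
  obtain ⟨r, hr, hball⟩ := Metric.isOpen_iff.1 hI.isOpen_compl x₀ hx
  refine ⟨r, hr, ?_⟩
  intro x hx3 hxr
  by_contra hcon
  apply hball (show x ∈ Metric.ball x₀ r from hxr)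
  refine ⟨sec x, ?_, sec_y_zero hx3⟩
  show ε ≤ ‖f (sec x) - f (sec x₀)‖
  rw [dist_eq_norm] at hcon
  exact not_lt.1 hcon

/-- a continuous function on the line with constant exponential is constant -/
lemma const_of_exp_const (f : ℝ → ℂ) (hf : Continuous f) (c : ℂ)
    (h : ∀ x, Complex.exp (f x) = c) (x y : ℝ) : f x = f y := by
  have hd : ∀ z, ∃ n : ℤ, f z - f x = n * (2 * Real.pi * Complex.I) := by
    intro z
    have h1 : Complex.exp (f z) = Complex.exp (f x) := by rw [h, h]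
    obtain ⟨n, hn⟩ := Complex.exp_eq_exp_iff_exists_int.mp h1
    exact ⟨n, by rw [hn]; ring⟩
  choose n hn using hd
  have hcont : Continuous n := by
    have hr : Continuous (fun z => ((n z : ℤ) : ℝ)) := by
      have : (fun z => ((n z : ℤ) : ℝ)) = fun z => ((f z - f x) / (2 * Real.pi * Complex.I)).re := by
        funext z
        rw [hn z, mul_div_assoc, div_self, mul_one]
        · simp
        · simp [Real.pi_ne_zero]
      rw [this]
      fun_prop
    exact Int.isClosedEmbedding_coe_real.isInducing.continuous_iff.mpr hr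
  have hn0 : n y = n x := PreconnectedSpace.constant inferInstance hcont
  have hx := hn x
  have hy := hn y
  rw [hn0, ← hx] at hy
  rw [sub_self] at hy
  exact (sub_eq_zero.mp hy).symm

/-- the circle `‖x - c₀‖ = 2` -/
noncomputable def circ (c₀ : ℂ) (t : ℝ) : ℂ := c₀ + 2 * Complex.exp (t * Complex.I)

lemma circ_mem (c₀ : ℂ) (t : ℝ) : ‖circ c₀ t - c₀‖ = 2 := by
  unfold circ
  rw [add_sub_cancel_left, norm_mul, Complex.norm_exp_ofReal_mul_I]
  simp

lemma continuous_circ (c₀ : ℂ) : Continuous (circ c₀) := by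
  unfold circ
  fun_prop

lemma circ_period (c₀ : ℂ) : circ c₀ (2 * Real.pi) = circ c₀ 0 := by
  unfold circ
  have : ((2 * Real.pi : ℝ) : ℂ) * Complex.I = 2 * Real.pi * Complex.I := by push_cast; ring
  rw [this, Complex.exp_two_pi_mul_I]
  simp

lemma no_log {c₀ : ℂ} {L : ℂ → ℂ} (hL : Continuous L) {N : ℕ} (hN : 0 < N)
    (h : ∀ x, ‖x - c₀‖ = 2 → Complex.exp (L x) = (x - c₀) ^ N) : False := by
  have h1 := const_of_exp_const (fun t : ℝ => L (circ c₀ t) - N * (t * Complex.I))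
    (by have := continuous_circ c₀; fun_prop) (2 ^ N) (by
    intro t
    rw [Complex.exp_sub, h _ (circ_mem c₀ t), Complex.exp_nat_mul]
    unfold circ
    rw [add_sub_cancel_left, mul_pow, mul_div_assoc, div_self, mul_one]
    exact pow_ne_zero _ (Complex.exp_ne_zero _)) (2 * Real.pi) 0
  simp only [circ_period] at h1
  have h2 : (N : ℂ) * (((2 * Real.pi : ℝ) : ℂ) * Complex.I) = 0 := by
    have h3 : ((0 : ℝ) : ℂ) = 0 := by simp
    rw [h3, zero_mul, mul_zero, sub_zero] at h1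
    linear_combination -h1
  have h4 : (N : ℂ) ≠ 0 := by exact_mod_cast hN.ne'
  have h5 : (((2 * Real.pi : ℝ) : ℂ) * Complex.I) ≠ 0 := by
    simp [Real.pi_ne_zero]
  exact mul_ne_zero h4 h5 h2

lemma no_root {c₀ : ℂ} {s : ℂ → ℂ} (hs : ContinuousOn s {x | ‖x - c₀‖ = 2})
    (h : ∀ x, ‖x - c₀‖ = 2 → s x ^ 2 = x - c₀) : False := by
  have hcs : Continuous fun t : ℝ => s (circ c₀ t) :=
    hs.comp_continuous (continuous_circ c₀) (circ_mem c₀)
  let f : ℝ → ℂ := fun t => s (circ c₀ t) * Complex.exp (-(t / 2) * Complex.I)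
  have hf : Continuous f := hcs.mul (by fun_prop)
  have hsq : ∀ t, f t ^ 2 = 2 := by
    intro t
    simp only [f]
    rw [mul_pow, h _ (circ_mem c₀ t), ← Complex.exp_nat_mul]
    unfold circ
    rw [add_sub_cancel_left, mul_assoc, ← Complex.exp_add]
    have : (t : ℂ) * Complex.I + ((2 : ℕ) : ℂ) * (-((t : ℂ) / 2) * Complex.I) = 0 := by
      push_cast
      ring
    rw [this, Complex.exp_zero, mul_one]
  have h0 : f 0 ≠ 0 := by
    intro h0
    have := hsq 0
    rw [h0] at this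
    norm_num at this
  have hconst : f (2 * Real.pi) = f 0 := by
    rcases isPreconnected_univ.eq_or_eq_neg_of_sq_eq hf.continuousOn
      (continuousOn_const (c := f 0) (s := univ)) (fun t _ => by
        show f t ^ 2 = f 0 ^ 2
        rw [hsq, hsq]) (fun {_} _ => h0) with h1 | h1
    · exact h1 (mem_univ _)
    · have h2 : f 0 = -f 0 := h1 (mem_univ 0)
      exfalso
      apply h0
      have h3 : (2 : ℂ) * f 0 = 0 := by linear_combination h2
      rcases mul_eq_zero.1 h3 with h4 | h4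
      · norm_num at h4
      · exact h4
  have e1 : f (2 * Real.pi) = -s (circ c₀ 0) := by
    simp only [f]
    rw [circ_period]
    have : -(((2 * Real.pi : ℝ) : ℂ) / 2) * Complex.I = -(Real.pi * Complex.I) := by
      push_cast
      ring
    rw [this, Complex.exp_neg, Complex.exp_pi_mul_I]
    ring
  have e2 : f 0 = s (circ c₀ 0) := by
    simp [f]
  rw [e1, e2] at hconst
  rw [e2] at h0
  apply h0
  have h3 : (2 : ℂ) * s (circ c₀ 0) = 0 := by linear_combination -hconst
  rcases mul_eq_zero.1 h3 with h4 | h4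
  · norm_num at h4
  · exact h4

/-- change of one sheet -/
lemma isPt_flip (w : Wsp) (i : ℕ × ℤ × ℤ) :
    IsPt (Function.update w.1.1 i (-w.1.1 i), w.1.2) where
  base := w.2.base
  sheet k q := by
    by_cases h : (k, q) = i
    · subst h
      simp only [Function.update_self, neg_sq]
      exact w.2.sheet k q
    · simp only [Function.update_of_ne h]
      exact w.2.sheet k q
  unit := w.2.unit
  dir := w.2.dir
  triv := w.2.triv
  step := w.2.step

def flip (i : ℕ × ℤ × ℤ) (w : Wsp) : Wsp := ⟨_, isPt_flip w i⟩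

lemma continuous_flip (i : ℕ × ℤ × ℤ) : Continuous (flip i) := by
  apply Continuous.subtype_mk
  apply Continuous.prodMk
  · have h1 : Continuous fun w : Wsp => w.1.1 := continuous_fst.comp continuous_subtype_val
    exact h1.update i ((continuous_apply i).comp h1).neg
  · exact continuous_snd.comp continuous_subtype_val

lemma flip_y (i : ℕ × ℤ × ℤ) (w : Wsp) (k : ℕ) : (flip i w).y k = w.y k := rfl
lemma flip_Y (i : ℕ × ℤ × ℤ) (w : Wsp) (k : ℕ) (q : ℤ × ℤ) : (flip i w).Y k q = w.Y k q := rfl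
lemma flip_v_self (i : ℕ × ℤ × ℤ) (w : Wsp) : (flip i w).v i.1 i.2 = -w.v i.1 i.2 :=
  Function.update_self _ _ _
lemma flip_v_of_ne {i j : ℕ × ℤ × ℤ} (h : j ≠ i) (w : Wsp) : (flip i w).v j.1 j.2 = w.v j.1 j.2 :=
  Function.update_of_ne h _ _

lemma norm_elim (c₀ : ℂ) (K : Set Wsp) (hK : K = {w | ‖w.y 0 - c₀‖ ≤ 2}) (n : ℕ) (hn : 0 < n)
    (J : Finset (ℕ × ℤ × ℤ)) : ∀ (M : ℕ) (G : Wsp → ℂ), Continuous G → DepOn J n G →
      (∀ w ∈ K, G w ≠ 0) → (∀ w, ‖w.y 0 - c₀‖ = 2 → G w = (w.y 0 - c₀) ^ M) → 0 < M →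
      ∃ (M' : ℕ) (G' : Wsp → ℂ), Continuous G' ∧ DepOn ∅ n G' ∧ (∀ w ∈ K, G' w ≠ 0) ∧
        (∀ w, ‖w.y 0 - c₀‖ = 2 → G' w = (w.y 0 - c₀) ^ M') ∧ 0 < M' := by
  classical
  induction J using Finset.induction_on with
  | empty =>
    intro M G h1 h2 h3 h4 h5
    exact ⟨M, G, h1, h2, h3, h4, h5⟩
  | insert i J hi ih =>
    intro M G h1 h2 h3 h4 h5
    have hfK : ∀ w, w ∈ K → flip i w ∈ K := by
      intro w hw
      rw [hK] at hw ⊢
      exact hw
    apply ih (M + M) (fun w => G w * G (flip i w)) (h1.mul (h1.comp (continuous_flip i))) _ _ _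
      (by omega)
    · intro w w' a1 a2 a3
      have hsq : w.v i.1 i.2 ^ 2 = w'.v i.1 i.2 ^ 2 := by
        rw [w.sheet, w'.sheet, a2 0 hn]
      rcases sq_eq_sq_iff_eq_or_eq_neg.1 hsq with h | h
      · have e1 : G w = G w' := by
          apply h2 w w' _ a2 a3
          intro j hj
          rcases Finset.mem_insert.1 hj with rfl | hj
          · exact h
          · exact a1 j hj
        have e2 : G (flip i w) = G (flip i w') := by
          refine h2 (flip i w) (flip i w') ?_ a2 a3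
          intro j hj
          by_cases hji : j = i
          · subst hji
            rw [flip_v_self, flip_v_self, h]
          · rw [flip_v_of_ne hji, flip_v_of_ne hji]
            exact a1 j (Finset.mem_of_mem_insert_of_ne hj hji)
        simp only [e1, e2]
      · have e1 : G w = G (flip i w') := by
          refine h2 w (flip i w') ?_ a2 a3
          intro j hj
          by_cases hji : j = i
          · subst hji
            rw [flip_v_self, h]
          · rw [flip_v_of_ne hji]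
            exact a1 j (Finset.mem_of_mem_insert_of_ne hj hji)
        have e2 : G (flip i w) = G w' := by
          refine h2 (flip i w) w' ?_ a2 a3
          intro j hj
          by_cases hji : j = i
          · subst hji
            rw [flip_v_self, h, neg_neg]
          · rw [flip_v_of_ne hji]
            exact a1 j (Finset.mem_of_mem_insert_of_ne hj hji)
        simp only [e1, e2]
        ring
    · intro w hw
      exact mul_ne_zero (h3 w hw) (h3 _ (hfK w hw))
    · intro w hw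
      have h6 : ‖(flip i w).y 0 - c₀‖ = 2 := hw
      rw [h4 w hw, h4 _ h6, flip_y, pow_add]

/-- extending a function from the closed disc by a power outside and taking a logarithm -/
lemma no_power_map {c₀ : ℂ} (P : ℂ → ℂ) (hP : ContinuousOn P {x | ‖x - c₀‖ ≤ 2})
    (hP0 : ∀ x, ‖x - c₀‖ ≤ 2 → P x ≠ 0) {N : ℕ} (hN : 0 < N)
    (hPB : ∀ x, ‖x - c₀‖ = 2 → P x = (x - c₀) ^ N) : False := by
  have hA : IsClosed {x : ℂ | ‖x - c₀‖ ≤ 2} := isClosed_le (by fun_prop) continuous_const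
  have hB : IsClosed {x : ℂ | 2 ≤ ‖x - c₀‖} := isClosed_le continuous_const (by fun_prop)
  obtain ⟨Q, hQ, hQA, hQB⟩ := glue_closed hA hB hP
    (g := fun x => (x - c₀) ^ N) (by fun_prop) (by
      intro x h1 h2
      exact hPB x (le_antisymm h1 h2))
  have hun : {x : ℂ | ‖x - c₀‖ ≤ 2} ∪ {x : ℂ | 2 ≤ ‖x - c₀‖} = univ := by
    rw [eq_univ_iff_forall]
    intro x
    exact le_total ‖x - c₀‖ 2
  rw [hun] at hQ
  have hQ0 : (0 : ℂ) ∉ Q '' univ := by
    rintro ⟨x, -, hx⟩
    rcases le_total ‖x - c₀‖ 2 with h | h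
    · rw [hQA x h] at hx
      exact hP0 x h hx
    · rw [hQB x h] at hx
      have h1 : x - c₀ ≠ 0 := by
        intro h0
        rw [h0, norm_zero] at h
        norm_num at h
      exact pow_ne_zero _ h1 hx
  have hsc : IsSimplyConnected (univ : Set ℂ) := by
    have : ContractibleSpace (univ : Set ℂ) := convex_univ.contractibleSpace ⟨0, trivial⟩
    exact SimplyConnectedSpace.ofContractible _
  obtain ⟨L, hL, hLe⟩ := Complex.exists_continuousOn_eqOn_exp_comp hsc isOpen_univ hQ hQ0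
  apply no_log (continuousOn_univ.1 hL) hN (c₀ := c₀)
  intro x hx
  have h1 : Complex.exp (L x) = Q x := hLe (mem_univ x)
  rw [h1, hQB x hx.ge]

/-- the part of the space over the disc around `1` is essential -/
theorem ess_A : Ess (fun w : Wsp => w.y 0) 1 {w | ‖w.y 0 - 1‖ ≤ 2} := by
  by_contra hcon
  obtain ⟨G, hG, ⟨J, n, hdep⟩, hGB, hG0⟩ := exists_finite_level hcon
  obtain ⟨M, G', hG', hdep', hG0', hGB', hM⟩ := norm_elim 1 _ rfl (n + 1) (by omega) J 1 G hG
    (hdep.mono (Finset.Subset.refl J) (by omega)) hG0 (fun w hw => by rw [pow_one]; exact hGB w hw)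
    one_pos
  have hx3 : ∀ x : ℂ, ‖x - 1‖ ≤ 2 → ‖x‖ ≤ 3 := by
    intro x hx
    have : x = (x - 1) + 1 := by ring
    rw [this]
    refine (norm_add_le _ _).trans ?_
    simp only [norm_one]
    linarith
  -- on this part everything below the sheets is determined by the base point
  have hdet : ∀ w w' : Wsp, ‖w.y 0 - 1‖ ≤ 2 → w.y 0 = w'.y 0 → G' w = G' w' := by
    intro w w' hw hww
    have hout : ∀ u : Wsp, ‖u.y 0 - 1‖ ≤ 2 → 3 / 4 ≤ ‖u.y 0 + 2‖ := by
      intro u hu
      have h1 : (3 : ℝ) - ‖u.y 0 - 1‖ ≤ ‖u.y 0 + 2‖ := by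
        have h2 : (3 : ℂ) = (u.y 0 + 2) - (u.y 0 - 1) := by ring
        have h3 : ‖(3 : ℂ)‖ ≤ ‖u.y 0 + 2‖ + ‖u.y 0 - 1‖ := by
          nth_rewrite 1 [h2]
          exact norm_sub_le _ _
        have h4 : ‖(3 : ℂ)‖ = 3 := by simp
        linarith
      linarith
    have hw' : ‖w'.y 0 - 1‖ ≤ 2 := by rw [← hww]; exact hw
    have hy : ∀ k, w.y k = w'.y k := fun k => by
      rw [w.outside (hout w hw) k, w'.outside (hout w' hw') k, hww]
    apply hdep' w w' (by simp) (fun k _ => hy k)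
    intro k _ q
    by_cases hq : q ∈ F k
    · have hne : ∀ u : Wsp, ‖u.y 0 - 1‖ ≤ 2 → u.y k ≠ cen k q := by
        intro u hu h
        rw [u.outside (hout u hu) k] at h
        have h1 := hout u hu
        rw [h] at h1
        have h2 := mem_F.1 hq
        linarith
      rw [w.Y_eq hq (hne w hw), w'.Y_eq hq (hne w' hw'), hy k]
    · rw [w.triv hq, w'.triv hq]
  apply no_power_map (c₀ := 1) (fun x => G' (sec x)) _ _ hM
  · intro x hx
    have h2 : (sec x).y 0 = x := sec_y_zero (hx3 x hx.le)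
    have h1 := hGB' (sec x) (by rw [h2]; exact hx)
    rw [h2] at h1
    exact h1
  · intro x hx
    have := continuousWithinAt_sec hG' (x₀ := x) (by
      intro w w' h1 h2
      exact hdet w w' (by rw [h1]; exact hx) (by rw [h1, h2])) (hx3 x hx)
    exact this.mono (fun z hz => hx3 z hz)
  · intro x hx
    apply hG0'
    show ‖(sec x).y 0 - 1‖ ≤ 2
    rw [sec_y_zero (hx3 x hx)]
    exact hx

end Pool.Agent.Helper562.CM
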