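import Pool.Agent.Helper562.CMRoot

set_option autoImplicit false

namespace Pool.Agent.Helper562.CM
open Set Topology Filter

lemma cen_inj {k : ℕ} {q q' : ℤ × ℤ} (h : cen k q = cen k q') : q = q' := by
  by_contra hne
  have := cen_sep (k := k) hne
  rw [h, sub_self, norm_zero] at this
  linarith [rho_pos k]

/-- determination of the lower levels -/
lemma determined {n : ℕ} {w w' : Wsp} (h0 : w.y 0 = w'.y 0)
    (hY : ∀ k < n, ∀ q ∈ F k, w.y k = cen k q → w'.y k = cen k q → w.Y k q = w'.Y k q) :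
    (∀ k ≤ n, w.y k = w'.y k) ∧ ∀ k < n, ∀ q, w.Y k q = w'.Y k q := by
  have hYk : ∀ k < n, w.y k = w'.y k → ∀ q, w.Y k q = w'.Y k q := by
    intro k hk hyk q
    by_cases hq : q ∈ F k
    · by_cases hc : w.y k = cen k q
      · exact hY k hk q hq hc (hyk ▸ hc)
      · rw [w.Y_eq hq hc, w'.Y_eq hq (hyk ▸ hc), hyk]
    · rw [w.triv hq, w'.triv hq]
  have hy : ∀ k ≤ n, w.y k = w'.y k := by
    intro k
    induction k with
    | zero => exact fun _ => h0
    | succ k ih =>
      intro hk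
      have h1 := ih (by omega)
      have h2 : w.Y k = w'.Y k := funext (hYk k (by omega) h1)
      rw [w.step k, w'.step k, h1, h2]
  exact ⟨hy, fun k hk => hYk k hk (hy k hk.le)⟩

/-- base points of the singular set below level `n` -/
def Sing (n : ℕ) : Set ℂ := {x | ∃ w : Wsp, w.y 0 = x ∧ ∃ l < n, ∃ q ∈ F l, w.y l = cen l q}

lemma finite_step (l : ℕ) (p : ℂ) : {z : ℂ | ∃ w : Wsp, w.y l = z ∧ w.y (l + 1) = p}.Finite := by
  -- for every centre, the real part is a root of a fixed quartic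
  have hfin : ∀ q : ℤ × ℤ, {z : ℂ | ∃ w : Wsp, w.y l = z ∧ w.y (l + 1) = p ∧ q ∈ F l ∧
      ‖w.y l - cen l q‖ ≤ rho l}.Finite := by
    intro q
    let b : ℝ := p.im - (cen l q).im
    let P : ℝ := p.re - (cen l q).re
    let Q : Polynomial ℝ := Polynomial.C (lam l) * (Polynomial.C (rho l ^ 2) -
      (Polynomial.X ^ 2 + Polynomial.C (b ^ 2))) * (Polynomial.X ^ 2 - Polynomial.C (b ^ 2)) +
      (Polynomial.X - Polynomial.C P) * ((Polynomial.X ^ 2 + Polynomial.C (b ^ 2)) *
        Polynomial.C (rho l ^ 2))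
    have hQe : ∀ a, Q.eval a = lam l * (rho l ^ 2 - (a ^ 2 + b ^ 2)) * (a ^ 2 - b ^ 2) +
        (a - P) * ((a ^ 2 + b ^ 2) * rho l ^ 2) := by
      intro a
      simp [Q]
    have hQ0 : Q ≠ 0 := by
      intro h0
      have h1 := fourth_diff (lam l) (rho l) b P 0 1 _ rfl
      simp only [← hQe, h0, Polynomial.eval_zero] at h1
      have := lam_pos l
      norm_num at h1
      linarith
    have hroots : {a : ℝ | Q.IsRoot a}.Finite := Polynomial.finite_setOfPred_isRoot hQ0
    refine (hroots.image (fun a : ℝ => (⟨a + (cen l q).re, p.im⟩ : ℂ))).subset ?_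
    rintro _ ⟨w, rfl, hp, hq, hr⟩
    refine ⟨(w.y l).re - (cen l q).re, ?_, ?_⟩
    · show Q.eval _ = 0
      rw [hQe]
      have h1 := quartic_id w hq hr
      have him : (w.y l - cen l q).im = b := by
        rw [Complex.sub_im, w.im_y l, ← w.im_y (l + 1), hp]
      rw [him, Complex.sub_re, hp] at h1
      rw [h1]
      simp only [P]
      ring
    · apply Complex.ext
      · simp
      · show p.im = (w.y l).im
        rw [w.im_y l, ← w.im_y (l + 1), hp]
  refine ((finite_singleton p).union ((F l).finite_toSet.biUnion (fun q _ => hfin q))).subset ?_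
  rintro _ ⟨w, rfl, hp⟩
  by_cases hout : ∀ q ∈ F l, rho l ≤ ‖w.y l - cen l q‖
  · left
    rw [mem_singleton_iff, ← hp, w.step l, shift_zero _ hout]
    simp
  · push Not at hout
    obtain ⟨q, hq, hlt⟩ := hout
    right
    simp only [mem_iUnion]
    exact ⟨q, hq, w, rfl, hp, hq, hlt.le⟩

lemma finite_fibre (l : ℕ) : ∀ p : ℂ, {x : ℂ | ∃ w : Wsp, w.y 0 = x ∧ w.y l = p}.Finite := by
  induction l with
  | zero =>
    intro p
    refine (finite_singleton p).subset ?_
    rintro _ ⟨w, rfl, hp⟩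
    exact hp
  | succ l ih =>
    intro p
    refine ((finite_step l p).biUnion (fun z _ => ih z)).subset ?_
    rintro _ ⟨w, rfl, hp⟩
    simp only [mem_iUnion]
    exact ⟨w.y l, ⟨w, rfl, hp⟩, w, rfl, rfl⟩

lemma finite_Sing (n : ℕ) : (Sing n).Finite := by
  refine ((finite_Iio n).biUnion (fun l _ => (F l).finite_toSet.biUnion
    (fun q _ => finite_fibre l (cen l q)))).subset ?_
  rintro _ ⟨w, rfl, l, hl, q, hq, h⟩
  simp only [mem_iUnion]
  exact ⟨l, hl, q, hq, w, rfl, h⟩

lemma Sing_near {n : ℕ} {x : ℂ} (hx : x ∈ Sing n) : ‖x + 2‖ < 3 / 4 := by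
  obtain ⟨w, rfl, l, hl, q, hq, h⟩ := hx
  by_contra hcon
  push Not at hcon
  have h1 := w.outside hcon l
  rw [h] at h1
  have h2 := mem_F.1 hq
  rw [h1] at h2
  linarith

open Classical in
/-- direction with the value `u` over the centre -/
noncomputable def Yu (u : ℂ) (k : ℕ) (z : ℂ) (q : ℤ × ℤ) : ℂ :=
  if q ∈ F k then (if z = cen k q then u else (z - cen k q) ^ 2 / ‖z - cen k q‖ ^ 2) else 1

lemma norm_Yu {u : ℂ} (hu : ‖u‖ = 1) (k : ℕ) (z : ℂ) (q : ℤ × ℤ) : ‖Yu u k z q‖ = 1 := by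
  unfold Yu
  split_ifs with h h'
  · exact hu
  · rw [norm_div, norm_pow, norm_pow, Complex.norm_real, norm_norm]
    have : ‖z - cen k q‖ ≠ 0 := norm_ne_zero_iff.2 (sub_ne_zero.2 h')
    field_simp
  · simp

noncomputable def yu (u : ℂ) : ℕ → ℂ → ℂ
  | 0, x => x
  | k + 1, x => yu u k x + ((lam k * shift k (yu u k x) (Yu u k (yu u k x)) : ℝ) : ℂ)

lemma isPt_secu {u x : ℂ} (hu : ‖u‖ = 1) (hx : ‖x‖ ≤ 3) :
    IsPt (fun i => ((x - cen i.1 i.2) * hh x) ^ ((2 : ℕ) : ℂ)⁻¹, fun k => yu u k x,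
      fun i => Yu u i.1 (yu u i.1 x) i.2) where
  base := hx
  sheet k q := Complex.cpow_nat_inv_pow _ (by norm_num)
  unit k q := norm_Yu hu _ _ _
  dir k q hq := by
    simp only
    by_cases h : yu u k x = cen k q
    · simp [h]
    · have h1 : ((‖yu u k x - cen k q‖ : ℂ)) ^ 2 ≠ 0 := by
        apply pow_ne_zero
        rw [Complex.ofReal_ne_zero]
        exact norm_ne_zero_iff.2 (sub_ne_zero.2 h)
      have h2 : Yu u k (yu u k x) q = (yu u k x - cen k q) ^ 2 / ‖yu u k x - cen k q‖ ^ 2 := by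
        unfold Yu
        rw [if_pos hq, if_neg h]
      rw [h2, mul_div_cancel₀ _ h1]
  triv k q hq := if_neg hq
  step k := rfl

/-- a point over a singular base point with prescribed direction -/
lemma exists_over {u x : ℂ} (hu : ‖u‖ = 1) (hx : ‖x‖ ≤ 3) : ∃ w : Wsp, w.y 0 = x ∧
    ∀ k, ∀ q ∈ F k, w.y k = cen k q → w.Y k q = u := by
  refine ⟨⟨_, isPt_secu hu hx⟩, rfl, ?_⟩
  intro k q hq h
  show Yu u k (yu u k x) q = u
  have h' : yu u k x = cen k q := h
  unfold Yu
  rw [if_pos hq, if_pos h']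

/-- the two coordinates `v` vanish on the left part -/
lemma v_zero {w : Wsp} (h : ‖w.y 0 + 1‖ ≤ 2) (i : ℕ × ℤ × ℤ) : w.v i.1 i.2 = 0 := by
  have h1 : hh (w.y 0) = 0 := by
    unfold hh
    apply max_eq_left
    have h2 : (w.y 0 + 1).re ≤ 2 := (Complex.re_le_norm _).trans h
    rw [Complex.add_re, Complex.one_re] at h2
    linarith
  have h2 := w.sheet i.1 i.2
  rw [h1] at h2
  simpa using h2

lemma norm_three {x : ℂ} (h : ‖x + 1‖ ≤ 2) : ‖x‖ ≤ 3 := by
  have : x = (x + 1) - 1 := by ring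
  rw [this]
  refine (norm_sub_le _ _).trans ?_
  simp only [norm_one]
  linarith

/-- the local square root at a singular point -/
lemma local_root {n : ℕ} {G : Wsp → ℂ} (hG : Continuous G) {J : Finset (ℕ × ℤ × ℤ)}
    (hdep : DepOn J n G) (hG0 : ∀ w : Wsp, ‖w.y 0 + 1‖ ≤ 2 → G w ≠ 0) {e : ℂ} (he : e ∈ Sing n) :
    ∃ r > 0, ∃ σ : ℂ → ℂ, ContinuousOn σ (Metric.ball e r \ {e}) ∧
      ∀ x ∈ Metric.ball e r \ {e}, σ x ^ 2 = G (sec x) := by
  -- geometry of the base point
  have hnear := Sing_near he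
  have hT := finite_Sing n
  obtain ⟨w₀, hw₀, l, hl, q, hq, hc⟩ := he
  have heK : ‖e + 1‖ < 2 := by
    have : e + 1 = (e + 2) - 1 := by ring
    rw [this]
    refine (norm_sub_le _ _).trans_lt ?_
    simp only [norm_one]
    linarith
  have he3 : ‖e‖ ≤ 3 := norm_three heK.le
  -- a small ball inside the disc without other singular points
  obtain ⟨r₁, hr₁, hball₁⟩ := Metric.isOpen_iff.1
    ((hT.subset (sdiff_subset (t := {e}))).isClosed.isOpen_compl) e (by simp)
  set r₂ := min r₁ (2 - ‖e + 1‖) with hr₂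
  have hr₂pos : 0 < r₂ := lt_min hr₁ (by linarith)
  have hballK : ∀ x ∈ Metric.ball e r₂, ‖x + 1‖ ≤ 2 := by
    intro x hx
    rw [Metric.mem_ball, dist_eq_norm] at hx
    have h1 : x + 1 = (x - e) + (e + 1) := by ring
    rw [h1]
    refine (norm_add_le _ _).trans ?_
    have := min_le_right r₁ (2 - ‖e + 1‖)
    linarith
  have hballT : ∀ x ∈ Metric.ball e r₂, x ≠ e → x ∉ Sing n := by
    intro x hx hxe hxS
    exact hball₁ (Metric.ball_subset_ball (min_le_left _ _) hx) ⟨hxS, hxe⟩
  -- all points over `e` are over the centre at level `l`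
  have hover : ∀ w : Wsp, w.y 0 = e → w.y l = cen l q := by
    intro w hw
    have := (determined (n := l) (w := w) (w' := w₀) (by rw [hw, hw₀]) (by
      intro k hk q' _ _ h2
      exact absurd hc (w₀.ne_of_lt hk h2))).1 l le_rfl
    rw [this, hc]
  have hdetE : ∀ w w' : Wsp, w.y 0 = e → w'.y 0 = e → w.Y l q = w'.Y l q → G w = G w' := by
    intro w w' hw hw' hY
    have hd := determined (n := n) (w := w) (w' := w') (by rw [hw, hw']) (by
      intro k _ q' hq' h1 _
      rcases lt_trichotomy k l with h | h | h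
      · exact absurd (hover w hw) (w.ne_of_lt h h1)
      · subst h
        have : q' = q := cen_inj (h1.symm.trans (hover w hw))
        rw [this]
        exact hY
      · exact absurd h1 (w.ne_of_lt h (hover w hw)))
    apply hdep w w' _ (fun k hk => hd.1 k hk.le) hd.2
    intro i _
    rw [v_zero (by rw [hw]; exact heK.le), v_zero (by rw [hw']; exact heK.le)]
  -- the function on the circle over `e`
  have hex : ∀ u : ℂ, ∃ w : Wsp, w.y 0 = e ∧ (‖u‖ = 1 → w.Y l q = u) := by
    intro u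
    by_cases hu : ‖u‖ = 1
    · obtain ⟨w, hw, hwY⟩ := exists_over hu he3
      exact ⟨w, hw, fun _ => hwY l q hq (hover w hw)⟩
    · exact ⟨w₀, hw₀, fun h => absurd h hu⟩
  choose W hW hWY using hex
  have hFc : ContinuousOn (fun u => G (W u)) {u | ‖u‖ = 1} := by
    intro u₀ hu₀
    have hu₀' : ‖u₀‖ = 1 := hu₀
    rw [Metric.continuousWithinAt_iff]
    intro ε hε
    let Bad : Set Wsp := {w | w.y 0 = e ∧ ε ≤ ‖G w - G (W u₀)‖}
    have hB : IsClosed Bad := (isClosed_eq (Wsp.continuous_y 0) continuous_const).inter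
      (isClosed_le continuous_const (hG.sub continuous_const).norm)
    have hI : IsClosed ((fun w : Wsp => w.Y l q) '' Bad) :=
      (hB.isCompact.image (Wsp.continuous_Y l q)).isClosed
    have hx : u₀ ∉ (fun w : Wsp => w.Y l q) '' Bad := by
      rintro ⟨w, ⟨hw1, hw2⟩, hwx⟩
      have e1 := hdetE w (W u₀) hw1 (hW u₀) (by rw [hWY u₀ hu₀']; exact hwx)
      rw [e1, sub_self, norm_zero] at hw2
      linarith
    obtain ⟨r, hr, hball⟩ := Metric.isOpen_iff.1 hI.isOpen_compl u₀ hx
    refine ⟨r, hr, ?_⟩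
    intro u hu hur
    by_contra hcon
    apply hball (show u ∈ Metric.ball u₀ r from hur)
    refine ⟨W u, ⟨hW u, ?_⟩, hWY u hu⟩
    rw [dist_eq_norm] at hcon
    exact not_lt.1 hcon
  have hF0 : ∀ u, ‖u‖ = 1 → G (W u) ≠ 0 := by
    intro u _
    apply hG0
    rw [hW u]
    exact heK.le
  obtain ⟨qr, hqr, hqr2⟩ := circle_root hFc hF0
  -- minimum on the circle
  obtain ⟨m, hm, hmF⟩ : ∃ m : ℝ, 0 < m ∧ ∀ u, ‖u‖ = 1 → m ≤ ‖G (W u)‖ := by
    have hcomp : IsCompact {u : ℂ | ‖u‖ = 1} := by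
      have := isCompact_sphere (0 : ℂ) 1
      have h2 : Metric.sphere (0 : ℂ) 1 = {u : ℂ | ‖u‖ = 1} := by
        ext u
        simp
      rwa [h2] at this
    obtain ⟨u₀, hu₀, hmin⟩ := hcomp.exists_isMinOn ⟨1, by simp⟩ hFc.norm
    exact ⟨‖G (W u₀)‖, norm_pos_iff.2 (hF0 u₀ hu₀), fun u hu => hmin hu⟩
  -- uniform closeness
  obtain ⟨r₃, hr₃, hclose⟩ : ∃ r > 0, ∀ w w' : Wsp, ‖w.y 0 - e‖ < r → w'.y 0 = e →
      w.Y l q = w'.Y l q → ‖G w - G w'‖ < m / 2 := by
    let Bad : Set (Wsp × Wsp) := {p | p.2.y 0 = e ∧ p.1.Y l q = p.2.Y l q ∧ m / 2 ≤ ‖G p.1 - G p.2‖}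
    have hB : IsClosed Bad := by
      apply IsClosed.inter
      · exact isClosed_eq ((Wsp.continuous_y 0).comp continuous_snd) continuous_const
      apply IsClosed.inter
      · exact isClosed_eq ((Wsp.continuous_Y l q).comp continuous_fst)
          ((Wsp.continuous_Y l q).comp continuous_snd)
      · exact isClosed_le continuous_const
          ((hG.comp continuous_fst).sub (hG.comp continuous_snd)).norm
    have hI : IsClosed ((fun p : Wsp × Wsp => p.1.y 0) '' Bad) :=
      (hB.isCompact.image ((Wsp.continuous_y 0).comp continuous_fst)).isClosed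
    have hx : e ∉ (fun p : Wsp × Wsp => p.1.y 0) '' Bad := by
      rintro ⟨p, ⟨h1, h2, h3⟩, hp⟩
      rw [hdetE p.1 p.2 hp h1 h2, sub_self, norm_zero] at h3
      linarith
    obtain ⟨r, hr, hball⟩ := Metric.isOpen_iff.1 hI.isOpen_compl e hx
    refine ⟨r, hr, ?_⟩
    intro w w' h1 h2 h3
    by_contra hcon
    apply hball (show w.y 0 ∈ Metric.ball e r by rw [Metric.mem_ball, dist_eq_norm]; exact h1)
    exact ⟨(w, w'), ⟨h2, h3, not_lt.1 hcon⟩, rfl⟩
  set r := min r₂ r₃ with hr
  have hrpos : 0 < r := lt_min hr₂pos hr₃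
  -- the direction
  have hsec : ∀ x ∈ Metric.ball e r, (sec x).y 0 = x := fun x hx =>
    sec_y_zero (norm_three (hballK x (Metric.ball_subset_ball (min_le_left _ _) hx)))
  have hyne : ∀ x ∈ Metric.ball e r \ {e}, (sec x).y l ≠ cen l q := by
    rintro x ⟨hx, hxe⟩ h
    exact hballT x (Metric.ball_subset_ball (min_le_left _ _) hx) hxe
      ⟨sec x, hsec x hx, l, hl, q, hq, h⟩
  have hyc : ContinuousOn (fun x => (sec x).y l) (Metric.ball e r \ {e}) := by
    rintro x ⟨hx, hxe⟩
    have hx3 : ‖x‖ ≤ 3 := norm_three (hballK x (Metric.ball_subset_ball (min_le_left _ _) hx))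
    have h1 := continuousWithinAt_sec (Wsp.continuous_y l) (x₀ := x) (by
      intro w w' hw hw'
      exact (determined (n := n) (by rw [hw, hw']) (by
        intro k hk q' hq' h1 _
        exact absurd ⟨w, hw, k, hk, q', hq', h1⟩
          (hballT x (Metric.ball_subset_ball (min_le_left _ _) hx) hxe))).1 l hl.le) hx3
    exact h1.mono (fun z hz => norm_three (hballK z (Metric.ball_subset_ball (min_le_left _ _) hz.1)))
  have hgc : ContinuousOn (fun x => G (sec x)) (Metric.ball e r \ {e}) := by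
    rintro x ⟨hx, hxe⟩
    have hxK := hballK x (Metric.ball_subset_ball (min_le_left _ _) hx)
    have h1 := continuousWithinAt_sec hG (x₀ := x) (by
      intro w w' hw hw'
      have hd := determined (n := n) (w := w) (w' := w') (by rw [hw, hw']) (by
        intro k hk q' hq' h1 _
        exact absurd ⟨w, hw, k, hk, q', hq', h1⟩
          (hballT x (Metric.ball_subset_ball (min_le_left _ _) hx) hxe))
      apply hdep w w' _ (fun k hk => hd.1 k hk.le) hd.2
      intro i _
      rw [v_zero (by rw [hw]; exact hxK), v_zero (by rw [hw']; exact hxK)]) (norm_three hxK)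
    exact h1.mono (fun z hz => norm_three (hballK z (Metric.ball_subset_ball (min_le_left _ _) hz.1)))
  let d : ℂ → ℂ := fun x => ((sec x).y l - cen l q) / ‖(sec x).y l - cen l q‖
  have hdc : ContinuousOn d (Metric.ball e r \ {e}) := by
    have h1 : ContinuousOn (fun x => (sec x).y l - cen l q) (Metric.ball e r \ {e}) :=
      hyc.sub continuousOn_const
    apply h1.div (Complex.continuous_ofReal.comp_continuousOn h1.norm)
    intro x hx h0
    have h0' : ((‖(sec x).y l - cen l q‖ : ℝ) : ℂ) = 0 := h0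
    have h2 : ‖(sec x).y l - cen l q‖ = 0 := by exact_mod_cast h0'
    exact hyne x hx (sub_eq_zero.1 (norm_eq_zero.1 h2))
  have hdn : ∀ x ∈ Metric.ball e r \ {e}, ‖d x‖ = 1 := by
    intro x hx
    simp only [d]
    rw [norm_div, Complex.norm_real, norm_norm, div_self]
    exact norm_ne_zero_iff.2 (sub_ne_zero.2 (hyne x hx))
  have hdY : ∀ x ∈ Metric.ball e r \ {e}, (sec x).Y l q = d x ^ 2 := by
    intro x hx
    rw [(sec x).Y_eq hq (hyne x hx)]
    simp only [d]
    rw [div_pow]
  have hd2 : ∀ x ∈ Metric.ball e r \ {e}, ‖d x ^ 2‖ = 1 := by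
    intro x hx
    rw [norm_pow, hdn x hx, one_pow]
  have hratio : ∀ x ∈ Metric.ball e r \ {e}, ‖G (sec x) / G (W (d x ^ 2)) - 1‖ < 1 := by
    intro x hx
    have h1 := hclose (sec x) (W (d x ^ 2)) (by
      rw [hsec x hx.1]
      have := hx.1
      rw [Metric.mem_ball, dist_eq_norm] at this
      exact this.trans_le (min_le_right _ _)) (hW _) (by rw [hWY _ (hd2 x hx), hdY x hx])
    have h2 := hmF _ (hd2 x hx)
    have h3 : G (W (d x ^ 2)) ≠ 0 := hF0 _ (hd2 x hx)
    have h4 : G (sec x) / G (W (d x ^ 2)) - 1 = (G (sec x) - G (W (d x ^ 2))) / G (W (d x ^ 2)) := by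
      rw [sub_div, div_self h3]
    rw [h4, norm_div, div_lt_one (by linarith)]
    linarith
  have hd2c : ContinuousOn (fun x => G (W (d x ^ 2))) (Metric.ball e r \ {e}) :=
    hFc.comp (hdc.pow 2) (fun x hx => hd2 x hx)
  refine ⟨r, hrpos, fun x => qr (d x) *
    Complex.exp (Complex.log (G (sec x) / G (W (d x ^ 2))) / 2), ?_, ?_⟩
  · apply ContinuousOn.mul
    · exact hqr.comp hdc (fun x hx => hdn x hx)
    · apply Complex.continuous_exp.comp_continuousOn
      apply ContinuousOn.div_const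
      apply ContinuousOn.clog
      · exact hgc.div hd2c (fun x hx => hF0 _ (hd2 x hx))
      · intro x hx
        have := Complex.mem_slitPlane_of_norm_lt_one (hratio x hx)
        simpa using this
  · intro x hx
    have h3 : G (W (d x ^ 2)) ≠ 0 := hF0 _ (hd2 x hx)
    have h5 : G (sec x) ≠ 0 := by
      apply hG0
      rw [hsec x hx.1]
      exact hballK x (Metric.ball_subset_ball (min_le_left _ _) hx.1)
    rw [mul_pow, hqr2 _ (hdn x hx), ← Complex.exp_nat_mul]
    have h6 : ((2 : ℕ) : ℂ) * (Complex.log (G (sec x) / G (W (d x ^ 2))) / 2) =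
        Complex.log (G (sec x) / G (W (d x ^ 2))) := by
      push_cast
      ring
    rw [h6, Complex.exp_log (div_ne_zero h5 h3), mul_div_cancel₀ _ h3]

/-- the part of the space over the disc around `-1` is essential -/
theorem ess_P : Ess (fun w : Wsp => w.y 0) (-1) {w | ‖w.y 0 - (-1)‖ ≤ 2} := by
  classical
  by_contra hcon
  obtain ⟨G, hG, ⟨J, n, hdep⟩, hGB, hG0⟩ := exists_finite_level hcon
  simp only [sub_neg_eq_add] at hGB hG0
  let T : Finset ℂ := (finite_Sing n).toFinset
  have hT : ∀ x, x ∈ T ↔ x ∈ Sing n := fun x => by simp [T]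
  -- the planar function
  let g : ℂ → ℂ := fun x => if ‖x + 1‖ ≤ 2 then G (sec x) else x + 1
  have hgin : ∀ x, ‖x + 1‖ ≤ 2 → g x = G (sec x) := fun x hx => if_pos hx
  have hgout : ∀ x, 2 ≤ ‖x + 1‖ → g x = x + 1 := by
    intro x hx
    by_cases h : ‖x + 1‖ ≤ 2
    · rw [hgin x h]
      have h1 : (sec x).y 0 = x := sec_y_zero (norm_three h)
      have h2 := hGB (sec x) (by rw [h1]; exact le_antisymm h hx)
      rw [h2, h1]
    · exact if_neg h
  have hTint : ∀ x, x ∈ T → ‖x + 1‖ < 2 := by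
    intro x hx
    have h1 := Sing_near ((hT x).1 hx)
    have : x + 1 = (x + 2) - 1 := by ring
    rw [this]
    refine (norm_sub_le _ _).trans_lt ?_
    simp only [norm_one]
    linarith
  have hgc : ContinuousOn g (T : Set ℂ)ᶜ := by
    intro x₀ hx₀
    have hx₀' : x₀ ∉ Sing n := fun h => hx₀ (by simpa using (hT x₀).2 h)
    apply ContinuousAt.continuousWithinAt
    have hA : ContinuousWithinAt g {x | ‖x + 1‖ ≤ 2} x₀ := by
      by_cases hx : ‖x₀ + 1‖ ≤ 2
      · have h1 := continuousWithinAt_sec hG (x₀ := x₀) (by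
          intro w w' hw hw'
          have hd := determined (n := n) (w := w) (w' := w') (by rw [hw, hw']) (by
            intro k hk q' hq' h1 _
            exact absurd ⟨w, hw, k, hk, q', hq', h1⟩ hx₀')
          apply hdep w w' _ (fun k hk => hd.1 k hk.le) hd.2
          intro i _
          rw [v_zero (by rw [hw]; exact hx), v_zero (by rw [hw']; exact hx)]) (norm_three hx)
        exact (h1.mono (fun z hz => norm_three hz)).congr (fun z hz => hgin z hz) (hgin x₀ hx)
      · apply continuousWithinAt_of_notMem_closure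
        rw [(isClosed_le (by fun_prop) continuous_const : IsClosed {x : ℂ | ‖x + 1‖ ≤ 2}).closure_eq]
        exact hx
    have hB : ContinuousWithinAt g {x | 2 ≤ ‖x + 1‖} x₀ := by
      by_cases hx : 2 ≤ ‖x₀ + 1‖
      · have h1 : ContinuousWithinAt (fun x : ℂ => x + 1) {x | 2 ≤ ‖x + 1‖} x₀ := by fun_prop
        exact h1.congr (fun z hz => hgout z hz) (hgout x₀ hx)
      · apply continuousWithinAt_of_notMem_closure
        rw [(isClosed_le continuous_const (by fun_prop) : IsClosed {x : ℂ | 2 ≤ ‖x + 1‖}).closure_eq]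
        exact hx
    have hun : {x : ℂ | ‖x + 1‖ ≤ 2} ∪ {x : ℂ | 2 ≤ ‖x + 1‖} = univ := by
      rw [eq_univ_iff_forall]
      intro x
      exact le_total ‖x + 1‖ 2
    have := hA.union hB
    rw [hun] at this
    exact continuousWithinAt_univ _ _ |>.1 this
  have hg0 : ∀ x, x ∉ T → g x ≠ 0 := by
    intro x _
    by_cases h : ‖x + 1‖ ≤ 2
    · rw [hgin x h]
      apply hG0
      rw [sec_y_zero (norm_three h)]
      exact h
    · rw [hgout x (not_le.1 h).le]
      intro h0
      rw [h0, norm_zero] at h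
      norm_num at h
  obtain ⟨S, hS, hS2⟩ := global_root T g hgc hg0 (by
    intro e he
    obtain ⟨r, hr, σ, hσ, hσ2⟩ := local_root hG hdep hG0 ((hT e).1 he)
    have h1 := hTint e he
    refine ⟨min r (2 - ‖e + 1‖), lt_min hr (by linarith), σ, ?_, ?_⟩
    · exact hσ.mono (sdiff_subset_sdiff_left (Metric.ball_subset_ball (min_le_left _ _)))
    · rintro x ⟨hx, hxe⟩
      rw [hσ2 x ⟨Metric.ball_subset_ball (min_le_left _ _) hx, hxe⟩, hgin]
      have h2 := (Metric.ball_subset_ball (min_le_right r (2 - ‖e + 1‖))) hx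
      rw [Metric.mem_ball, dist_eq_norm] at h2
      have h3 : x + 1 = (x - e) + (e + 1) := by ring
      rw [h3]
      refine (norm_add_le _ _).trans ?_
      linarith)
  apply no_root (c₀ := -1) (s := S)
  · apply hS.mono
    intro x hx hxT
    have h1 := hTint x (by simpa using hxT)
    have h2 : ‖x - (-1)‖ = 2 := hx
    rw [sub_neg_eq_add] at h2
    linarith
  · intro x hx
    rw [sub_neg_eq_add] at hx ⊢
    rw [hS2 x (fun h => by have := hTint x h; linarith), hgout x hx.ge]

end Pool.Agent.Helper562.CM
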