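import Pool.Agent.Helper562.CMDim
import Pool.Agent.Helper562.Kuhn

set_option autoImplicit false

namespace Pool.Agent.Helper562.CM
open Set

/-- Lebesgue covering theorem: the `n`-cube has covering dimension at least `n`. -/
theorem not_dimLE_cube (n : ℕ) : ¬ DimLE (Fin n → Icc (0 : ℝ) 1) ((n : ℤ) - 1) := by
  classical
  intro hdim
  let U : Set (Fin n) → Set (Fin n → Icc (0 : ℝ) 1) := fun S =>
    {p | (∀ i ∈ S, (p i : ℝ) < 1) ∧ ∀ i, i ∉ S → 0 < (p i : ℝ)}
  have hUo : ∀ S, IsOpen (U S) := by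
    intro S
    have : U S = ⋂ i : Fin n, {p | (i ∈ S → (p i : ℝ) < 1) ∧ (i ∉ S → 0 < (p i : ℝ))} := by
      ext p
      simp only [U, mem_ofPred_eq, mem_iInter]
      exact ⟨fun h i => ⟨h.1 i, h.2 i⟩, fun h => ⟨fun i => (h i).1, fun i => (h i).2⟩⟩
    rw [this]
    apply isOpen_iInter_of_finite
    intro i
    by_cases hi : i ∈ S
    · simp only [hi, true_imp_iff, not_true_eq_false, false_imp_iff, and_true]
      exact isOpen_lt (by fun_prop) continuous_const
    · simp only [hi, false_imp_iff, not_false_eq_true, true_imp_iff, true_and]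
      exact isOpen_lt continuous_const (by fun_prop)
  obtain ⟨𝒱, hf, ho, hc, hr, hord⟩ := hdim (range U) (finite_range U) (by
    rintro _ ⟨S, rfl⟩
    exact hUo S) (by
    rw [eq_univ_iff_forall]
    intro p
    refine ⟨U {i | (p i : ℝ) < 1}, ⟨_, rfl⟩, ?_, ?_⟩
    · intro i hi
      exact hi
    · intro i hi
      simp only [mem_ofPred_eq, not_lt] at hi
      linarith)
  obtain ⟨δ, hδ, hleb⟩ := lebesgue_number_lemma_of_metric (isCompact_univ (X := Fin n → Icc (0 : ℝ) 1))
    (c := fun V : 𝒱 => (V : Set (Fin n → Icc (0 : ℝ) 1))) (fun V => ho V V.2)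
    (by
      intro p _
      have : p ∈ ⋃₀ 𝒱 := by rw [hc]; trivial
      obtain ⟨V, hV, hpV⟩ := this
      exact mem_iUnion.2 ⟨⟨V, hV⟩, hpV⟩)
  have hleb' : ∀ p : Fin n → Icc (0 : ℝ) 1, ∃ V ∈ 𝒱, Metric.ball p δ ⊆ V := by
    intro p
    obtain ⟨V, hV⟩ := hleb p (mem_univ p)
    exact ⟨V, V.2, hV⟩
  choose V hV𝒱 hVball using hleb'
  obtain ⟨m, hm⟩ := exists_nat_gt (1 / δ)
  have hm0 : (0 : ℝ) < m := lt_trans (by positivity) hm
  have hmδ : 1 / (m : ℝ) < δ := by
    rw [div_lt_iff₀ hm0]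
    rw [div_lt_iff₀ hδ] at hm
    linarith
  let pt : (ℕ → ℕ) → (Fin n → Icc (0 : ℝ) 1) := fun x i =>
    ⟨(min (x i) m : ℕ) / m, by positivity, by
      rw [div_le_one hm0]
      exact_mod_cast min_le_right _ _⟩
  have hptv : ∀ x (i : Fin n), (pt x i : ℝ) = (min (x i) m : ℕ) / m := fun x i => rfl
  -- labels of members
  let Q : Set (Fin n → Icc (0 : ℝ) 1) → ℕ → Prop := fun W i => ∃ h : i < n, ∃ p ∈ W, (p ⟨i, h⟩ : ℝ) = 1
  let lab : Set (Fin n → Icc (0 : ℝ) 1) → ℕ := fun W => if h : ∃ i, Q W i then Nat.find h else n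
  have hlab_le : ∀ W i, Q W i → lab W ≤ i := by
    intro W i hi
    have hex : ∃ i, Q W i := ⟨i, hi⟩
    simp only [lab, hex, dif_pos]
    exact Nat.find_min' hex hi
  have hlab_n : ∀ W, lab W ≤ n := by
    intro W
    by_cases hex : ∃ i, Q W i
    · obtain ⟨i, hi⟩ := hex
      exact (hlab_le W i hi).trans hi.1.le
    · simp [lab, hex]
  have hlab_eq : ∀ W i, i < n → lab W = i → Q W i := by
    intro W i hi h
    by_cases hex : ∃ i, Q W i
    · have h1 : lab W = Nat.find hex := by simp only [lab, hex, dif_pos]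
      rw [← h, h1]
      exact Nat.find_spec hex
    · simp only [lab, hex, dif_neg, not_false_eq_true] at h
      omega
  have hself : ∀ p, p ∈ V p := fun p => hVball p (Metric.mem_ball_self hδ)
  obtain ⟨x, hx, hlabs⟩ := Pool.Agent.Helper562.Kuhn.kuhn n m (fun x => lab (V (pt x)))
    (fun x _ => hlab_n _)
    (by
      intro i hi x _ hxi hl
      obtain ⟨_, p, hp, hp1⟩ := hlab_eq _ i hi hl
      obtain ⟨W, ⟨S, rfl⟩, hWS⟩ := hr _ (hV𝒱 (pt x))
      have h1 := hWS hp
      have h2 := hWS (hself (pt x))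
      by_cases hS : (⟨i, hi⟩ : Fin n) ∈ S
      · have := h1.1 _ hS
        rw [hp1] at this
        exact lt_irrefl _ this
      · have := h2.2 _ hS
        rw [hptv] at this
        simp [hxi] at this)
    (by
      intro i hi x _ hxi
      apply hlab_le
      refine ⟨hi, pt x, hself _, ?_⟩
      rw [hptv]
      simp only [hxi, min_self]
      exact div_self hm0.ne')
  -- the point `pt x` lies in `n + 1` members
  choose! y hy1 _ hy3 using hlabs
  have hmem : ∀ j ≤ n, pt x ∈ V (pt (y j)) := by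
    intro j hj
    apply hVball
    rw [Metric.mem_ball]
    refine lt_of_le_of_lt ?_ hmδ
    rw [dist_pi_le_iff (by positivity)]
    intro i
    rw [Subtype.dist_eq, Real.dist_eq, hptv, hptv, ← sub_div, abs_div, abs_of_pos hm0]
    gcongr
    have h1 := hx i i.2
    have h2 := hy1 j hj i i.2
    have h3 : min (x i) m = x i := min_eq_left h1.le
    rcases h2 with h2 | h2
    · rw [h2]
      simp
    · have h4 : min (y j i) m = x i + 1 := by omega
      rw [h3, h4]
      push_cast
      simp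
  have hcard := hord (pt x)
  have hsub : (fun j => V (pt (y j))) '' (Finset.range (n + 1) : Set ℕ) ⊆ {W ∈ 𝒱 | pt x ∈ W} := by
    rintro _ ⟨j, hj, rfl⟩
    have hj' : j ≤ n := by
      simp at hj
      omega
    exact ⟨hV𝒱 _, hmem j hj'⟩
  have hinj : InjOn (fun j => V (pt (y j))) (Finset.range (n + 1) : Set ℕ) := by
    intro j hj j' hj' hjj
    simp only [Finset.coe_range, mem_Iio] at hj hj'
    have h1 := hy3 j (by omega)
    have h2 := hy3 j' (by omega)
    simp only at hjj h1 h2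
    rw [hjj] at h1
    omega
  have h5 := ncard_le_ncard hsub (hf.subset (sep_subset _ _))
  rw [hinj.ncard_image, ncard_coe_finset, Finset.card_range] at h5
  omega

end Pool.Agent.Helper562.CM
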