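import Pool.Agent.Helper562.CMPushC
import Pool.Agent.Helper562.CMEssP
import Pool.Agent.Helper562.CMLeb

set_option autoImplicit false

namespace Pool.Agent.Helper562.CM
open Set Topology Filter

theorem not_dimLE_cube' (κ : Type*) [Fintype κ] :
    ¬ DimLE (κ → Icc (0 : ℝ) 1) ((Fintype.card κ : ℤ) - 1) := by
  intro h
  let e := Fintype.equivFin κ
  have hom : (Fin (Fintype.card κ) → Icc (0 : ℝ) 1) ≃ₜ (κ → Icc (0 : ℝ) 1) :=
    { toFun := fun p i => p (e i)
      invFun := fun p i => p (e.symm i)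
      left_inv := fun p => by funext i; simp
      right_inv := fun p => by funext i; simp
      continuous_toFun := by fun_prop
      continuous_invFun := by fun_prop }
  exact not_dimLE_cube _ (h.of_homeo hom)

noncomputable instance instMetricWsp : MetricSpace Wsp := TopologicalSpace.metrizableSpaceMetric Wsp

/-! ### the flat part -/

lemma flat_outside {x : ℂ} (hx : ‖x‖ ≤ 1 / 2) : 3 / 4 ≤ ‖x + 2‖ := by
  have h1 : ‖(2 : ℂ)‖ ≤ ‖x + 2‖ + ‖x‖ := by
    have : (2 : ℂ) = (x + 2) - x := by ring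
    nth_rewrite 1 [this]
    exact norm_sub_le _ _
  have h2 : ‖(2 : ℂ)‖ = 2 := by simp
  linarith

lemma flat_v {w : Wsp} (hx : ‖w.y 0‖ ≤ 1 / 2) (k : ℕ) (q : ℤ × ℤ) : w.v k q = 0 := by
  have h1 : hh (w.y 0) = 0 := by
    unfold hh
    apply max_eq_left
    have := (Complex.re_le_norm (w.y 0)).trans hx
    linarith
  have h2 := w.sheet k q
  rw [h1] at h2
  simpa using h2

lemma flat_y {w : Wsp} (hx : ‖w.y 0‖ ≤ 1 / 2) (k : ℕ) : w.y k = w.y 0 :=
  w.outside (flat_outside hx) k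

lemma flat_ne {w : Wsp} (hx : ‖w.y 0‖ ≤ 1 / 2) {k : ℕ} {q : ℤ × ℤ} (hq : q ∈ F k) :
    w.y 0 ≠ cen k q := by
  intro h
  have h1 := flat_outside hx
  rw [h] at h1
  have h2 := mem_F.1 hq
  linarith

lemma unique_flat {w w' : Wsp} (h : w.y 0 = w'.y 0) (hx : ‖w.y 0‖ ≤ 1 / 2) : w = w' := by
  have hx' : ‖w'.y 0‖ ≤ 1 / 2 := by rw [← h]; exact hx
  apply Wsp.ext'
  · intro k q
    rw [flat_v hx, flat_v hx']
  · intro k
    rw [flat_y hx, flat_y hx', h]
  · intro k q
    by_cases hq : q ∈ F k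
    · rw [w.Y_eq hq (by rw [flat_y hx]; exact flat_ne hx hq),
        w'.Y_eq hq (by rw [flat_y hx']; exact flat_ne hx' hq), flat_y hx, flat_y hx', h]
    · rw [w.triv hq, w'.triv hq]

lemma sec_flat {x : ℂ} (hx : ‖x‖ ≤ 1 / 2) : (sec x).y 0 = x := sec_y_zero (by linarith)

lemma continuous_fl : Continuous fun x : {x : ℂ // ‖x‖ ≤ 1 / 2} => sec x.1 := by
  have hx : ∀ x : {x : ℂ // ‖x‖ ≤ 1 / 2}, ‖(sec x.1).y 0‖ ≤ 1 / 2 := fun x => by
    rw [sec_flat x.2]
    exact x.2
  have hind : Topology.IsInducing (fun w : Wsp => (w.1 : Amb)) := Topology.IsInducing.subtypeVal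
  rw [hind.continuous_iff]
  apply Continuous.prodMk
  · apply continuous_pi
    rintro ⟨k, q⟩
    have : (fun x : {x : ℂ // ‖x‖ ≤ 1 / 2} => (sec x.1).v k q) = fun _ => 0 := by
      funext x
      exact flat_v (hx x) k q
    show Continuous fun x : {x : ℂ // ‖x‖ ≤ 1 / 2} => (sec x.1).v k q
    rw [this]
    exact continuous_const
  apply Continuous.prodMk
  · apply continuous_pi
    intro k
    have : (fun x : {x : ℂ // ‖x‖ ≤ 1 / 2} => (sec x.1).y k) = fun x => x.1 := by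
      funext x
      rw [flat_y (hx x) k, sec_flat x.2]
    show Continuous fun x : {x : ℂ // ‖x‖ ≤ 1 / 2} => (sec x.1).y k
    rw [this]
    exact continuous_subtype_val
  · apply continuous_pi
    rintro ⟨k, q⟩
    show Continuous fun x : {x : ℂ // ‖x‖ ≤ 1 / 2} => (sec x.1).Y k q
    by_cases hq : q ∈ F k
    · have : (fun x : {x : ℂ // ‖x‖ ≤ 1 / 2} => (sec x.1).Y k q) =
          fun x => (x.1 - cen k q) ^ 2 / ((‖x.1 - cen k q‖ : ℝ) : ℂ) ^ 2 := by
        funext x
        rw [(sec x.1).Y_eq hq (by rw [flat_y (hx x)]; exact flat_ne (hx x) hq), flat_y (hx x),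
          sec_flat x.2]
      rw [this]
      apply Continuous.div
      · fun_prop
      · exact (Complex.continuous_ofReal.comp (by fun_prop)).pow 2
      · intro x
        apply pow_ne_zero
        have h1 := flat_ne (hx x) hq
        rw [sec_flat x.2] at h1
        exact_mod_cast norm_ne_zero_iff.2 (sub_ne_zero.2 h1)
    · have : (fun x : {x : ℂ // ‖x‖ ≤ 1 / 2} => (sec x.1).Y k q) = fun _ => 1 := by
        funext x
        exact (sec x.1).triv hq
      rw [this]
      exact continuous_const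

/-- a set containing the flat part has dimension at least two -/
lemma not_dimLE_one {K : Set Wsp} (hfl : ∀ x : ℂ, ‖x‖ ≤ 1 / 2 → sec x ∈ K) : ¬ DimLE K 1 := by
  intro h
  have hn : ∀ p : Bool → Icc (0 : ℝ) 1, ‖(⟨(p false : ℝ) / 4, (p true : ℝ) / 4⟩ : ℂ)‖ ≤ 1 / 2 := by
    intro p
    refine (Complex.norm_le_abs_re_add_abs_im _).trans ?_
    simp only
    have h1 := (p false).2
    have h2 := (p true).2
    rw [abs_of_nonneg (by linarith [h1.1]), abs_of_nonneg (by linarith [h2.1])]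
    linarith [h1.2, h2.2]
  let f : (Bool → Icc (0 : ℝ) 1) → K := fun p => ⟨sec ⟨(p false : ℝ) / 4, (p true : ℝ) / 4⟩, hfl _ (hn p)⟩
  have hf : Continuous f := by
    apply Continuous.subtype_mk
    have h1 : Continuous fun p : Bool → Icc (0 : ℝ) 1 =>
        (⟨⟨(p false : ℝ) / 4, (p true : ℝ) / 4⟩, hn p⟩ : {x : ℂ // ‖x‖ ≤ 1 / 2}) := by
      apply Continuous.subtype_mk
      have : (fun p : Bool → Icc (0 : ℝ) 1 => (⟨(p false : ℝ) / 4, (p true : ℝ) / 4⟩ : ℂ)) =
          fun p => (((p false : ℝ) / 4 : ℝ) : ℂ) + (((p true : ℝ) / 4 : ℝ) : ℂ) * Complex.I := by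
        funext p
        exact Complex.mk_eq_add_mul_I _ _
      rw [this]
      fun_prop
    exact continuous_fl.comp h1
  have hinj : Function.Injective f := by
    intro p p' hpp
    have h1 : sec ⟨(p false : ℝ) / 4, (p true : ℝ) / 4⟩ = sec ⟨(p' false : ℝ) / 4, (p' true : ℝ) / 4⟩ :=
      congrArg Subtype.val hpp
    have h2 := congrArg (fun w : Wsp => w.y 0) h1
    simp only [sec_flat (hn p), sec_flat (hn p')] at h2
    have h3 := congrArg Complex.re h2
    have h4 := congrArg Complex.im h2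
    simp only at h3 h4
    funext b
    apply Subtype.ext
    cases b <;> linarith
  have h1 : DimLE (Bool → Icc (0 : ℝ) 1) 1 := h.of_isClosedEmbedding (hf.isClosedEmbedding hinj)
  have h2 := not_dimLE_cube' Bool
  apply h2
  simpa using h1

/-! ### the Cantor manifold -/

/-- the properties of the two minimal essential sets -/
structure MinEss (c₀ : ℂ) (K : Set Wsp) : Prop where
  closed : IsClosed K
  ess : Ess (fun w : Wsp => w.y 0) c₀ K
  min : ∀ K' ⊆ K, IsClosed K' → Ess (fun w : Wsp => w.y 0) c₀ K' → K' = K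

lemma MinEss.flat {c₀ : ℂ} {K : Set Wsp} (h : MinEss c₀ K) (hc : ‖c₀‖ ≤ 1) {x : ℂ}
    (hx : ‖x‖ ≤ 1 / 2) : sec x ∈ K := by
  have h1 : ‖x - c₀‖ < 2 := by
    refine (norm_sub_le _ _).trans_lt ?_
    linarith
  obtain ⟨w, hw, hwx⟩ := h.ess.hits (Wsp.continuous_y 0) h1
  have : sec x = w := unique_flat (by rw [sec_flat hx, hwx]) (by rw [sec_flat hx]; exact hx)
  rw [this]
  exact hw

theorem cantor_union {K₁ K₂ : Set Wsp} {c₁ c₂ : ℂ} (h₁ : MinEss c₁ K₁) (h₂ : MinEss c₂ K₂)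
    (hc₁ : ‖c₁‖ ≤ 1) (hc₂ : ‖c₂‖ ≤ 1) :
    IsCantorManifold (K₁ ∪ K₂ : Set Wsp) 2 := by
  have hcl : IsClosed (K₁ ∪ K₂) := h₁.closed.union h₂.closed
  have : CompactSpace (K₁ ∪ K₂ : Set Wsp) := isCompact_iff_compactSpace.1 hcl.isCompact
  refine ⟨by norm_num, ⟨dimLE_Wsp.of_closed hcl, ?_⟩, ?_⟩
  · have := not_dimLE_one (K := K₁ ∪ K₂) (fun x hx => Or.inl (h₁.flat hc₁ hx))
    norm_num
    exact this
  · intro C hC hCd
    norm_num at hCd
    -- the image of `C` in the big space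
    have hCc : IsClosed (Subtype.val '' C : Set Wsp) :=
      (hC.isCompact.image continuous_subtype_val).isClosed
    have hCd' : DimLE (Subtype.val '' C : Set Wsp) 0 := by
      have hemb : Topology.IsEmbedding (fun c : C => ((c : (K₁ ∪ K₂ : Set Wsp)) : Wsp)) :=
        Topology.IsEmbedding.subtypeVal.comp Topology.IsEmbedding.subtypeVal
      have hr : range (fun c : C => ((c : (K₁ ∪ K₂ : Set Wsp)) : Wsp)) = Subtype.val '' C := by
        ext w
        simp
      have e := hemb.toHomeomorph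
      rw [hr] at e
      exact hCd.of_homeo e.symm
    have p₁ := cantor_of_minimal (Wsp.continuous_y 0) h₁.closed h₁.ess h₁.min hCc hCd'
    have p₂ := cantor_of_minimal (Wsp.continuous_y 0) h₂.closed h₂.ess h₂.min hCc hCd'
    -- a flat point outside `C`
    obtain ⟨x, hx, hxC⟩ : ∃ x : ℂ, ‖x‖ ≤ 1 / 2 ∧ sec x ∉ (Subtype.val '' C : Set Wsp) := by
      by_contra hcon
      push Not at hcon
      exact not_dimLE_one hcon (hCd'.mono (by norm_num))
    have hun : IsPreconnected ((K₁ ∪ K₂) \ (Subtype.val '' C)) := by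
      rw [Set.union_sdiff_distrib]
      exact IsPreconnected.union (sec x) ⟨h₁.flat hc₁ hx, hxC⟩ ⟨h₂.flat hc₂ hx, hxC⟩ p₁ p₂
    have himg : (Subtype.val '' (Cᶜ : Set (K₁ ∪ K₂ : Set Wsp)) : Set Wsp) =
        (K₁ ∪ K₂) \ (Subtype.val '' C) := by
      ext w
      constructor
      · rintro ⟨u, hu, rfl⟩
        refine ⟨u.2, ?_⟩
        rintro ⟨u', hu', h⟩
        exact hu (Subtype.ext h ▸ hu')
      · rintro ⟨hw, hwC⟩
        exact ⟨⟨w, hw⟩, fun h => hwC ⟨_, h, rfl⟩, rfl⟩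
    rw [← himg] at hun
    refine ⟨⟨⟨sec x, Or.inl (h₁.flat hc₁ hx)⟩, fun h => hxC ⟨_, h, rfl⟩⟩, ?_⟩
    exact Topology.IsInducing.subtypeVal.isPreconnected_image.1 hun

end Pool.Agent.Helper562.CM
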