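import Pool.Agent.Helper562.CMFinA

set_option autoImplicit false

namespace Pool.Agent.Helper562.CM
open Set Topology Filter

section Sym

variable {E : Type*} [MetricSpace E] {ι : Type*} [Fintype ι] [Nonempty ι]

/-- the set of points of a tuple -/
def toSym {m : ℕ} (hm : Fintype.card ι ≤ m) (z : ι → E) : SymProd E m :=
  ⟨⟨⟨range z, (finite_range z).isCompact⟩, range_nonempty z⟩, by
    show (range z).encard ≤ m
    rw [← image_univ]
    refine (encard_image_le z univ).trans ?_
    rw [encard_univ, ENat.card_eq_coe_fintype_card]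
    exact_mod_cast hm⟩

lemma coe_toSym {m : ℕ} (hm : Fintype.card ι ≤ m) (z : ι → E) :
    ((toSym hm z).1 : Set E) = range z := rfl

lemma continuous_toSym {m : ℕ} (hm : Fintype.card ι ≤ m) : Continuous (toSym (E := E) hm) := by
  apply LipschitzWith.continuous (K := 1)
  apply LipschitzWith.of_dist_le_mul
  intro z z'
  rw [NNReal.coe_one, one_mul, Subtype.dist_eq]
  show Metric.hausdorffDist ((toSym hm z).1 : Set E) ((toSym hm z').1 : Set E) ≤ dist z z'
  rw [coe_toSym, coe_toSym]
  apply Metric.hausdorffDist_le_of_mem_dist dist_nonneg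
  · rintro _ ⟨i, rfl⟩
    exact ⟨z' i, ⟨i, rfl⟩, dist_le_pi_dist z z' i⟩
  · rintro _ ⟨i, rfl⟩
    refine ⟨z i, ⟨i, rfl⟩, ?_⟩
    rw [dist_comm]
    exact dist_le_pi_dist z z' i

lemma isOpen_hits {m : ℕ} {U : Set E} (hU : IsOpen U) :
    IsOpen {A : SymProd E m | ∃ a ∈ (A.1 : Set E), a ∈ U} := by
  rw [Metric.isOpen_iff]
  rintro A ⟨a, haA, haU⟩
  obtain ⟨ε, hε, hball⟩ := Metric.isOpen_iff.1 hU a haU
  refine ⟨ε, hε, ?_⟩
  intro B hB
  rw [Metric.mem_ball, Subtype.dist_eq, dist_comm] at hB
  have hB' : Metric.hausdorffDist (A.1 : Set E) (B.1 : Set E) < ε := hB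
  obtain ⟨b, hb, hab⟩ := Metric.exists_dist_lt_of_hausdorffDist_lt haA hB'
    (Metric.hausdorffEDist_ne_top_of_nonempty_of_bounded A.1.nonempty B.1.nonempty
      A.1.isCompact.isBounded B.1.isCompact.isBounded)
  refine ⟨b, hb, hball ?_⟩
  rw [Metric.mem_ball, dist_comm]
  exact hab

/-- The separation argument in the symmetric product: `m` disjoint closed sets `Fc i` with open
subsets `U i`, tuples in the closed sets of small dimension. -/
theorem separated [CompactSpace E] {m : ℕ} (hm : Fintype.card ι = m) {U Fc : ι → Set E}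
    (hU : ∀ i, IsOpen (U i)) (hF : ∀ i, IsClosed (Fc i)) (hUF : ∀ i, U i ⊆ Fc i)
    (hne : ∀ i, (U i).Nonempty) (hdisj : ∀ i i' a, a ∈ Fc i → a ∈ Fc i' → i = i') {n : ℤ}
    (hdim : DimLE {z : ι → E | ∀ i, z i ∈ Fc i} n) (h2 : ∃ i i' : ι, i ≠ i') :
    ∃ C : Set (SymProd E m), IsClosed C ∧ DimLE C n ∧ ¬ IsPreconnected Cᶜ := by
  classical
  set ZE : Set (ι → E) := {z : ι → E | ∀ i, z i ∈ Fc i} with hZE
  have hZEc : IsClosed ZE := by
    have : ZE = ⋂ i, (fun z : ι → E => z i) ⁻¹' Fc i := by
      ext z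
      simp [hZE]
    rw [this]
    exact isClosed_iInter fun i => (hF i).preimage (continuous_apply i)
  have : CompactSpace ZE := isCompact_iff_compactSpace.1 hZEc.isCompact
  let g : ZE → SymProd E m := fun z => toSym hm.le z.1
  have hgc : Continuous g := (continuous_toSym hm.le).comp continuous_subtype_val
  have hinj : Function.Injective g := by
    intro z z' h
    apply Subtype.ext
    funext i
    have h1 : ((g z).1 : Set E) = ((g z').1 : Set E) := by rw [h]
    have h1' : range z.1 = range z'.1 := h1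
    have h3 : z.1 i ∈ range z'.1 := by
      rw [← h1']
      exact ⟨i, rfl⟩
    obtain ⟨i', hi'⟩ := h3
    have h4 : i' = i := hdisj i' i (z.1 i) (by rw [← hi']; exact z'.2 i') (z.2 i)
    rw [h4] at hi'
    exact hi'.symm
  let O : Set (SymProd E m) := ⋂ i, {A : SymProd E m | ∃ a ∈ (A.1 : Set E), a ∈ U i}
  have hO : IsOpen O := isOpen_iInter_of_finite fun i => isOpen_hits (hU i)
  have himc : IsClosed (range g) := (isCompact_range hgc).isClosed
  have hOim : O ⊆ range g := by
    intro A hA
    have h3 : ∀ i, ∃ a ∈ (A.1 : Set E), a ∈ U i := fun i => mem_iInter.1 hA i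
    choose z hzA hzU using h3
    have hzinj : Function.Injective z := fun i i' h =>
      hdisj i i' (z i) (hUF i (hzU i)) (by rw [h]; exact hUF i' (hzU i'))
    refine ⟨⟨z, fun i => hUF i (hzU i)⟩, ?_⟩
    apply Subtype.ext
    apply TopologicalSpace.NonemptyCompacts.ext
    show range z = (A.1 : Set E)
    apply Set.Finite.eq_of_subset_of_encard_le
    · exact finite_range z
    · rintro _ ⟨i, rfl⟩
      exact hzA i
    · refine A.2.trans ?_
      have h5 : (range z).encard = m := by
        rw [← image_univ, hzinj.encard_image, encard_univ, ENat.card_eq_coe_fintype_card, hm]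
      rw [h5]
  refine ⟨range g \ O, himc.sdiff hO, ?_, ?_⟩
  · have e : ZE ≃ₜ range g := (hgc.isClosedEmbedding hinj).isEmbedding.toHomeomorph
    exact (hdim.of_homeo e.symm).subset sdiff_subset (himc.sdiff hO)
  · intro hpre
    have hsub : (range g \ O)ᶜ ⊆ O ∪ (range g)ᶜ := by
      intro A hA
      by_cases h3 : A ∈ O
      · exact Or.inl h3
      · exact Or.inr fun h4 => hA ⟨h4, h3⟩
    have hne1 : ((range g \ O)ᶜ ∩ O).Nonempty := by
      choose z hz using hne
      have h3 : toSym hm.le z ∈ O := mem_iInter.2 fun i => ⟨z i, ⟨i, rfl⟩, hz i⟩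
      exact ⟨_, fun h4 => h4.2 h3, h3⟩
    have hne2 : ((range g \ O)ᶜ ∩ (range g)ᶜ).Nonempty := by
      obtain ⟨i, i', hii⟩ := h2
      obtain ⟨e, he⟩ := hne i
      have h3 : toSym hm.le (fun _ : ι => e) ∉ range g := by
        rintro ⟨z, hz⟩
        have h4 : ((g z).1 : Set E) = range (fun _ : ι => e) := by rw [hz]; rfl
        have h4' : range z.1 = range (fun _ : ι => e) := h4
        have h5 : ∀ j, z.1 j = e := by
          intro j
          have : z.1 j ∈ range (fun _ : ι => e) := by
            rw [← h4']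
            exact ⟨j, rfl⟩
          obtain ⟨_, hj⟩ := this
          exact hj.symm
        apply hii
        exact hdisj i i' e (by rw [← h5 i]; exact z.2 i) (by rw [← h5 i']; exact z.2 i')
      exact ⟨_, fun h4 => h3 h4.1, h3⟩
    obtain ⟨A, -, hA1, hA2⟩ := hpre O (range g)ᶜ hO himc.isOpen_compl hsub hne1 hne2
    exact hA2 (hOim hA1)

end Sym

end Pool.Agent.Helper562.CM
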