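import Pool.Agent.Helper562.CMFinB

set_option autoImplicit false

namespace Pool.Agent.Helper562.CM
open Set Topology Filter

/-- the centres of the small discs -/
noncomputable def cuR (j : ℕ) : Fin 4 ⊕ Fin j → ℝ :=
  Sum.elim ![17 / 8, -15 / 8, 15 / 8, -17 / 8] (fun i => ((i.1 : ℝ) + 1) / (2 * ((j : ℝ) + 1)))

/-- the radius of the small discs -/
noncomputable def rad (j : ℕ) : ℝ := 1 / (16 * ((j : ℝ) + 1))

lemma rad_pos (j : ℕ) : 0 < rad j := by
  unfold rad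
  positivity

lemma rad_le (j : ℕ) : rad j ≤ 1 / 16 := by
  unfold rad
  apply one_div_le_one_div_of_le (by norm_num)
  have : (0 : ℝ) ≤ j := Nat.cast_nonneg j
  linarith

lemma cuR_inl_abs (j : ℕ) (i : Fin 4) : 15 / 8 ≤ |cuR j (Sum.inl i)| := by
  unfold cuR
  fin_cases i <;> simp [abs_of_nonpos, abs_div] <;> norm_num

lemma cuR_inr_nonneg (j : ℕ) (i : Fin j) : 0 ≤ cuR j (Sum.inr i) := by
  show 0 ≤ ((i.1 : ℝ) + 1) / (2 * ((j : ℝ) + 1))
  positivity

lemma cuR_inr_le (j : ℕ) (i : Fin j) : cuR j (Sum.inr i) ≤ 1 / 2 := by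
  show ((i.1 : ℝ) + 1) / (2 * ((j : ℝ) + 1)) ≤ 1 / 2
  rw [div_le_div_iff₀ (by positivity) (by norm_num)]
  have : ((i.1 : ℝ) + 1) ≤ j := by exact_mod_cast i.2
  linarith

lemma cuR_sep (j : ℕ) (i i' : Fin 4 ⊕ Fin j) (h : i ≠ i') : 2 * rad j < |cuR j i - cuR j i'| := by
  have hr := rad_le j
  rcases i with i | i <;> rcases i' with i' | i'
  · have h1 : i ≠ i' := fun e => h (by rw [e])
    have h2 : 1 / 4 ≤ |cuR j (Sum.inl i) - cuR j (Sum.inl i')| := by
      unfold cuR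
      fin_cases i <;> fin_cases i' <;>
        first
        | exact absurd rfl h1
        | (simp only [Sum.elim_inl]; rw [le_abs]; norm_num)
    linarith
  · have h1 := cuR_inl_abs j i
    have h2 := cuR_inr_nonneg j i'
    have h3 := cuR_inr_le j i'
    have h4 := abs_sub_abs_le_abs_sub (cuR j (Sum.inl i)) (cuR j (Sum.inr i'))
    rw [abs_of_nonneg h2] at h4
    linarith
  · have h1 := cuR_inl_abs j i'
    have h2 := cuR_inr_nonneg j i
    have h3 := cuR_inr_le j i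
    have h4 := abs_sub_abs_le_abs_sub (cuR j (Sum.inl i')) (cuR j (Sum.inr i))
    rw [abs_of_nonneg h2, abs_sub_comm] at h4
    linarith
  · have h1 : i.1 ≠ i'.1 := fun e => h (by rw [Fin.ext e])
    have h2 : (1 : ℝ) ≤ |(i.1 : ℝ) - i'.1| := by
      have h3 : (i.1 : ℤ) - i'.1 ≠ 0 := by omega
      have h4 := Int.one_le_abs h3
      exact_mod_cast h4
    show 2 * (1 / (16 * ((j : ℝ) + 1))) <
      |((i.1 : ℝ) + 1) / (2 * ((j : ℝ) + 1)) - ((i'.1 : ℝ) + 1) / (2 * ((j : ℝ) + 1))|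
    have e : ((i.1 : ℝ) + 1) / (2 * ((j : ℝ) + 1)) - ((i'.1 : ℝ) + 1) / (2 * ((j : ℝ) + 1)) =
        ((i.1 : ℝ) - i'.1) / (2 * ((j : ℝ) + 1)) := by ring
    rw [e, abs_div, abs_of_pos (show (0 : ℝ) < 2 * ((j : ℝ) + 1) by positivity)]
    rw [lt_div_iff₀ (by positivity)]
    have : 2 * (1 / (16 * ((j : ℝ) + 1))) * (2 * ((j : ℝ) + 1)) = 1 / 4 := by
      field_simp
      norm_num
    rw [this]
    linarith

/-- The Cantor manifold: the union of two minimal essential sets. -/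
lemma exists_minEss : ∃ K₁ K₂ : Set Wsp, MinEss 1 K₁ ∧ MinEss (-1) K₂ := by
  have hc : ∀ c : ℂ, IsClosed {w : Wsp | ‖w.y 0 - c‖ ≤ 2} := fun c =>
    isClosed_le ((Wsp.continuous_y 0).sub continuous_const).norm continuous_const
  obtain ⟨K₁, -, h1, h2, h3⟩ := ess_A.exists_minimal (hc 1)
  obtain ⟨K₂, -, h4, h5, h6⟩ := ess_P.exists_minimal (hc (-1))
  exact ⟨K₁, K₂, ⟨h1, h2, h3⟩, ⟨h4, h5, h6⟩⟩

lemma hits_cuR {K₁ K₂ : Set Wsp} (h₁ : MinEss 1 K₁) (h₂ : MinEss (-1) K₂) (j : ℕ)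
    (i : Fin 4 ⊕ Fin j) : ∃ w ∈ K₁ ∪ K₂, w.y 0 = (cuR j i : ℂ) := by
  have hA : ∀ r : ℝ, |r - 1| < 2 → ∃ w ∈ K₁ ∪ K₂, w.y 0 = (r : ℂ) := by
    intro r hr
    obtain ⟨w, hw, hwr⟩ := h₁.ess.hits (Wsp.continuous_y 0) (p := (r : ℂ)) (by
      have : (r : ℂ) - 1 = ((r - 1 : ℝ) : ℂ) := by push_cast; ring
      rw [this, Complex.norm_real]
      exact hr)
    exact ⟨w, Or.inl hw, hwr⟩
  have hP : ∀ r : ℝ, |r + 1| < 2 → ∃ w ∈ K₁ ∪ K₂, w.y 0 = (r : ℂ) := by
    intro r hr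
    obtain ⟨w, hw, hwr⟩ := h₂.ess.hits (Wsp.continuous_y 0) (p := (r : ℂ)) (by
      have : (r : ℂ) - (-1) = ((r + 1 : ℝ) : ℂ) := by push_cast; ring
      rw [this, Complex.norm_real]
      exact hr)
    exact ⟨w, Or.inr hw, hwr⟩
  rcases i with i | i
  · fin_cases i
    · apply hA
      show |(17 / 8 : ℝ) - 1| < 2
      rw [abs_lt]
      norm_num
    · apply hP
      show |(-15 / 8 : ℝ) + 1| < 2
      rw [abs_lt]
      norm_num
    · apply hA
      show |(15 / 8 : ℝ) - 1| < 2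
      rw [abs_lt]
      norm_num
    · apply hP
      show |(-17 / 8 : ℝ) + 1| < 2
      rw [abs_lt]
      norm_num
  · apply hA
    have h2 := cuR_inr_nonneg j i
    have h3 := cuR_inr_le j i
    rw [abs_lt]
    constructor <;> linarith

/-- the separator in the symmetric product -/
theorem exists_separator {K₁ K₂ : Set Wsp} (h₁ : MinEss 1 K₁) (h₂ : MinEss (-1) K₂) {m : ℕ}
    (hm : 4 ≤ m) : ∃ C : Set (SymProd (K₁ ∪ K₂ : Set Wsp) m), IsClosed C ∧
      DimLE C (2 * m - 2) ∧ ¬ IsPreconnected Cᶜ := by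
  obtain ⟨j, rfl⟩ := Nat.exists_eq_add_of_le hm
  have hcl : IsClosed (K₁ ∪ K₂) := h₁.closed.union h₂.closed
  have : CompactSpace (K₁ ∪ K₂ : Set Wsp) := isCompact_iff_compactSpace.1 hcl.isCompact
  have hcont : ∀ i : Fin 4 ⊕ Fin j, Continuous fun e : (K₁ ∪ K₂ : Set Wsp) =>
      ‖(e : Wsp).y 0 - (cuR j i : ℂ)‖ := fun i =>
    (((Wsp.continuous_y 0).comp continuous_subtype_val).sub continuous_const).norm
  refine separated (ι := Fin 4 ⊕ Fin j) (m := 4 + j) (by simp)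
    (U := fun i => {e : (K₁ ∪ K₂ : Set Wsp) | ‖(e : Wsp).y 0 - (cuR j i : ℂ)‖ < rad j})
    (Fc := fun i => {e : (K₁ ∪ K₂ : Set Wsp) | ‖(e : Wsp).y 0 - (cuR j i : ℂ)‖ ≤ rad j})
    (fun i => isOpen_lt (hcont i) continuous_const)
    (fun i => isClosed_le (hcont i) continuous_const)
    (fun i e he => by
      have he' : ‖(e : Wsp).y 0 - (cuR j i : ℂ)‖ < rad j := he
      exact he'.le) ?_ ?_ ?_ ⟨Sum.inl 0, Sum.inl 1, by simp⟩
  · intro i
    obtain ⟨w, hw, hwc⟩ := hits_cuR h₁ h₂ j i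
    refine ⟨⟨w, hw⟩, ?_⟩
    show ‖w.y 0 - (cuR j i : ℂ)‖ < rad j
    rw [hwc, sub_self, norm_zero]
    exact rad_pos j
  · intro i i' e he he'
    by_contra hne
    have h1 := cuR_sep j i i' hne
    have h2 : |cuR j i - cuR j i'| ≤ ‖(e : Wsp).y 0 - (cuR j i : ℂ)‖ + ‖(e : Wsp).y 0 - (cuR j i' : ℂ)‖ := by
      have e1 : ((cuR j i - cuR j i' : ℝ) : ℂ) =
          ((e : Wsp).y 0 - (cuR j i' : ℂ)) - ((e : Wsp).y 0 - (cuR j i : ℂ)) := by
        push_cast
        ring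
      rw [← Real.norm_eq_abs, ← Complex.norm_real, e1, add_comm]
      exact norm_sub_le _ _
    have h3 : ‖(e : Wsp).y 0 - (cuR j i : ℂ)‖ ≤ rad j := he
    have h4 : ‖(e : Wsp).y 0 - (cuR j i' : ℂ)‖ ≤ rad j := he'
    linarith
  · -- the dimension of the set of tuples
    have hnear : ∀ (e : (K₁ ∪ K₂ : Set Wsp)) (i : Fin 4 ⊕ Fin j) (c : ℂ),
        ‖(e : Wsp).y 0 - (cuR j i : ℂ)‖ ≤ rad j → ‖(cuR j i : ℂ) - c‖ ≤ 1 / 8 →
        ‖(e : Wsp).y 0 - c‖ ≤ 1 / 4 := by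
      intro e i c h1 h2
      have h3 : (e : Wsp).y 0 - c = ((e : Wsp).y 0 - (cuR j i : ℂ)) + ((cuR j i : ℂ) - c) := by ring
      rw [h3]
      refine (norm_add_le _ _).trans ?_
      have := rad_le j
      linarith
    let Z : Set (Fin 4 ⊕ Fin j → (K₁ ∪ K₂ : Set Wsp)) := {z | ∀ i, z i ∈
      {e : (K₁ ∪ K₂ : Set Wsp) | ‖(e : Wsp).y 0 - (cuR j i : ℂ)‖ ≤ rad j}}
    have hZc : IsClosed Z := by
      have : Z = ⋂ i, (fun z : Fin 4 ⊕ Fin j → (K₁ ∪ K₂ : Set Wsp) => z i) ⁻¹'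
          {e : (K₁ ∪ K₂ : Set Wsp) | ‖(e : Wsp).y 0 - (cuR j i : ℂ)‖ ≤ rad j} := by
        ext z
        simp [Z]
      rw [this]
      exact isClosed_iInter fun i => (isClosed_le (hcont i) continuous_const).preimage
        (continuous_apply i)
    have : CompactSpace Z := isCompact_iff_compactSpace.1 hZc.isCompact
    have hreal : ∀ (a b : ℝ), |a - b| ≤ 1 / 8 → ‖(a : ℂ) - (b : ℂ)‖ ≤ 1 / 8 := by
      intro a b h
      rw [← Complex.ofReal_sub, Complex.norm_real]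
      exact h
    let f : Z → ZZ j := fun z => ⟨fun i => ((z.1 i : (K₁ ∪ K₂ : Set Wsp)) : Wsp), by
      have h0 := hnear (z.1 (Sum.inl 0)) (Sum.inl 0) ((2 : ℝ) : ℂ) (z.2 (Sum.inl 0)) (hreal _ _ (by
        show |(17 / 8 : ℝ) - 2| ≤ 1 / 8
        norm_num [abs_le]))
      have h1 := hnear (z.1 (Sum.inl 1)) (Sum.inl 1) ((-2 : ℝ) : ℂ) (z.2 (Sum.inl 1)) (hreal _ _ (by
        show |(-15 / 8 : ℝ) - (-2)| ≤ 1 / 8
        norm_num [abs_le]))
      have h2 := hnear (z.1 (Sum.inl 2)) (Sum.inl 2) ((2 : ℝ) : ℂ) (z.2 (Sum.inl 2)) (hreal _ _ (by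
        show |(15 / 8 : ℝ) - 2| ≤ 1 / 8
        norm_num [abs_le]))
      have h3 := hnear (z.1 (Sum.inl 3)) (Sum.inl 3) ((-2 : ℝ) : ℂ) (z.2 (Sum.inl 3)) (hreal _ _ (by
        show |(-17 / 8 : ℝ) - (-2)| ≤ 1 / 8
        norm_num [abs_le]))
      push_cast at h0 h1 h2 h3
      rw [sub_neg_eq_add] at h1 h3
      exact ⟨h0, h1, h2, h3⟩⟩
    have hf : Continuous f := by
      apply Continuous.subtype_mk
      apply continuous_pi
      intro i
      exact continuous_subtype_val.comp ((continuous_apply i).comp continuous_subtype_val)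
    have hfi : Function.Injective f := by
      intro z z' h
      apply Subtype.ext
      funext i
      apply Subtype.ext
      exact congrFun (congrArg Subtype.val h) i
    have h5 : DimLE Z (6 + 2 * j) := (dimLE_ZZ j).of_isClosedEmbedding (hf.isClosedEmbedding hfi)
    have e6 : (2 * ((4 + j : ℕ) : ℤ) - 2) = 6 + 2 * j := by
      push_cast
      ring
    rw [e6]
    exact h5

/-- the dimension of the symmetric product is at least `2 m` -/
theorem dim_lower {K₁ K₂ : Set Wsp} (h₁ : MinEss 1 K₁) (h₂ : MinEss (-1) K₂) {m : ℕ}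
    (hm : 1 ≤ m) : ¬ DimLE (SymProd (K₁ ∪ K₂ : Set Wsp) m) (2 * m - 1) := by
  intro hd
  have hcl : IsClosed (K₁ ∪ K₂) := h₁.closed.union h₂.closed
  have : CompactSpace (K₁ ∪ K₂ : Set Wsp) := isCompact_iff_compactSpace.1 hcl.isCompact
  have : Nonempty (Fin m) := ⟨⟨0, hm⟩⟩
  have hm0 : (0 : ℝ) < m := by exact_mod_cast hm
  let X : (Fin m × Bool → Icc (0 : ℝ) 1) → Fin m → ℂ := fun p i =>
    ((((i.1 : ℝ) + (p (i, false) : ℝ) / 2) / (4 * m) : ℝ) : ℂ) +
      ((((p (i, true) : ℝ) / 4 : ℝ) : ℂ)) * Complex.I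
  have hre : ∀ p i, (X p i).re = ((i.1 : ℝ) + (p (i, false) : ℝ) / 2) / (4 * m) := by
    intro p i
    simp only [X, Complex.add_re, Complex.ofReal_re, Complex.mul_re, Complex.I_re, Complex.ofReal_im,
      Complex.I_im]
    ring
  have him : ∀ p i, (X p i).im = (p (i, true) : ℝ) / 4 := by
    intro p i
    simp only [X, Complex.add_im, Complex.ofReal_re, Complex.mul_im, Complex.I_re, Complex.ofReal_im,
      Complex.I_im]
    ring
  have hX : ∀ p i, ‖X p i‖ ≤ 1 / 2 := by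
    intro p i
    refine (Complex.norm_le_abs_re_add_abs_im _).trans ?_
    rw [hre, him]
    have a1 := (p (i, false)).2
    have a2 := (p (i, true)).2
    have a3 : (i.1 : ℝ) + 1 ≤ m := by exact_mod_cast i.2
    have a4 : (0 : ℝ) ≤ i.1 := Nat.cast_nonneg _
    have a5 : ((i.1 : ℝ) + (p (i, false) : ℝ) / 2) / (4 * m) ≤ 1 / 4 := by
      rw [div_le_iff₀ (by positivity)]
      linarith [a1.2]
    rw [abs_of_nonneg (div_nonneg (by linarith [a1.1]) (by positivity)),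
      abs_of_nonneg (by linarith [a2.1])]
    linarith [a2.2]
  have hXc : ∀ i, Continuous fun p => X p i := by
    intro i
    simp only [X]
    fun_prop
  let f : (Fin m × Bool → Icc (0 : ℝ) 1) → SymProd (K₁ ∪ K₂ : Set Wsp) m := fun p =>
    toSym (ι := Fin m) (by simp) (fun i => ⟨sec (X p i), Or.inl (h₁.flat (by simp) (hX p i))⟩)
  have hf : Continuous f := by
    apply (continuous_toSym (E := (K₁ ∪ K₂ : Set Wsp)) (ι := Fin m) (m := m) (by simp)).comp
    apply continuous_pi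
    intro i
    apply Continuous.subtype_mk
    have h3 : Continuous fun p : Fin m × Bool → Icc (0 : ℝ) 1 =>
        (⟨X p i, hX p i⟩ : {x : ℂ // ‖x‖ ≤ 1 / 2}) := Continuous.subtype_mk (hXc i) _
    exact continuous_fl.comp h3
  have hfi : Function.Injective f := by
    intro p p' h
    have h3 : ((f p).1 : Set (K₁ ∪ K₂ : Set Wsp)) = ((f p').1 : Set (K₁ ∪ K₂ : Set Wsp)) := by rw [h]
    have h4 : range (fun i : Fin m => (⟨sec (X p i), Or.inl (h₁.flat (by simp) (hX p i))⟩ :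
        (K₁ ∪ K₂ : Set Wsp))) = range (fun i : Fin m => (⟨sec (X p' i),
          Or.inl (h₁.flat (by simp) (hX p' i))⟩ : (K₁ ∪ K₂ : Set Wsp))) := h3
    have h5 : ∀ i : Fin m, X p i = X p' i := by
      intro i
      have h6 : (⟨sec (X p i), Or.inl (h₁.flat (by simp) (hX p i))⟩ : (K₁ ∪ K₂ : Set Wsp)) ∈
          range (fun i : Fin m => (⟨sec (X p' i),
          Or.inl (h₁.flat (by simp) (hX p' i))⟩ : (K₁ ∪ K₂ : Set Wsp))) := by
        rw [← h4]
        exact ⟨i, rfl⟩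
      obtain ⟨i', hi'⟩ := h6
      have h7 : sec (X p' i') = sec (X p i) := congrArg Subtype.val hi'
      have h8 := congrArg (fun w : Wsp => w.y 0) h7
      simp only [sec_flat (hX _ _)] at h8
      have h9 := congrArg Complex.re h8
      rw [hre, hre] at h9
      have h10 : (i'.1 : ℝ) + (p' (i', false) : ℝ) / 2 = (i.1 : ℝ) + (p (i, false) : ℝ) / 2 := by
        have h4m : (4 * (m : ℝ)) ≠ 0 := by positivity
        exact (div_left_inj' h4m).1 h9
      have b1 := (p' (i', false)).2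
      have b2 := (p (i, false)).2
      have h11 : i' = i := by
        apply Fin.ext
        by_contra hne
        have h12 : (i'.1 : ℤ) - i.1 ≠ 0 := by omega
        have h13 := Int.one_le_abs h12
        have h14 : (1 : ℝ) ≤ |(i'.1 : ℝ) - i.1| := by exact_mod_cast h13
        have h15 : (i'.1 : ℝ) - i.1 = ((p (i, false) : ℝ) - (p' (i', false) : ℝ)) / 2 := by linarith
        rw [h15] at h14
        have h16 : |((p (i, false) : ℝ) - (p' (i', false) : ℝ)) / 2| ≤ 1 / 2 := by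
          rw [abs_le]
          constructor <;> linarith [b1.1, b1.2, b2.1, b2.2]
        linarith
      rw [h11] at h8
      exact h8.symm
    funext ⟨i, b⟩
    apply Subtype.ext
    have h6 := congrArg Complex.re (h5 i)
    have h7 := congrArg Complex.im (h5 i)
    rw [hre, hre] at h6
    rw [him, him] at h7
    have h4m : (4 * (m : ℝ)) ≠ 0 := by positivity
    have h8 := (div_left_inj' h4m).1 h6
    cases b <;> linarith
  have h3 : DimLE (Fin m × Bool → Icc (0 : ℝ) 1) (2 * m - 1) :=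
    hd.of_isClosedEmbedding (hf.isClosedEmbedding hfi)
  apply not_dimLE_cube' (Fin m × Bool)
  have h4 : ((Fintype.card (Fin m × Bool) : ℕ) : ℤ) - 1 = 2 * m - 1 := by
    simp
    ring
  rw [h4]
  exact h3

end Pool.Agent.Helper562.CM
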