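import Pool.Agent.Helper562.CMSpace

set_option autoImplicit false

namespace Pool.Agent.Helper562.CM
open Set Topology Filter

lemma lam_le_pow (k : ℕ) : lam k ≤ (1 / 2) ^ k := by
  induction k with
  | zero => rw [lam_zero]; norm_num
  | succ k ih =>
    have := lam_succ k
    rw [pow_succ]
    linarith

namespace Wsp

/-- the limit coordinate -/
noncomputable def yinf (w : Wsp) : ℂ := w.y 0 + ∑' k, (w.y (k + 1) - w.y k)

lemma summable_lam : Summable fun k => lam k :=
  Summable.of_nonneg_of_le (fun k => (lam_pos k).le) lam_le_pow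
    (summable_geometric_of_lt_one (by norm_num) (by norm_num))

lemma continuous_yinf : Continuous yinf := by
  unfold yinf
  apply (continuous_y 0).add
  exact continuous_tsum (fun k => (continuous_y (k + 1)).sub (continuous_y k)) summable_lam
    (fun k w => w.norm_step_le k)

lemma tendsto_yinf (w : Wsp) : Tendsto (fun k => w.y k) atTop (𝓝 w.yinf) := by
  have hs : Summable fun k => w.y (k + 1) - w.y k :=
    Summable.of_norm_bounded summable_lam (fun k => w.norm_step_le k)
  have h1 := hs.hasSum.tendsto_sum_nat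
  have h2 : (fun n => ∑ i ∈ Finset.range n, (w.y (i + 1) - w.y i)) = fun n => w.y n - w.y 0 := by
    funext n
    exact Finset.sum_range_sub _ n
  rw [h2] at h1
  have h3 := h1.const_add (w.y 0)
  unfold yinf
  refine h3.congr ?_
  intro n
  ring

lemma norm_yinf_sub_le (w : Wsp) (k : ℕ) : ‖w.yinf - w.y k‖ ≤ 2 * lam k := by
  have h1 : Tendsto (fun m => ‖w.y (k + m) - w.y k‖) atTop (𝓝 ‖w.yinf - w.y k‖) := by
    have h2 : Tendsto (fun m => w.y (k + m)) atTop (𝓝 w.yinf) :=
      w.tendsto_yinf.comp (tendsto_add_atTop_nat k |>.congr (fun m => by rw [add_comm]))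
    exact (h2.sub_const _).norm
  refine le_of_tendsto h1 (Eventually.of_forall fun m => ?_)
  have := w.norm_y_sub_le k m
  have := lam_pos (k + m)
  linarith

lemma im_yinf (w : Wsp) : (w.yinf).im = (w.y 0).im := by
  have h1 : Tendsto (fun k => (w.y k).im) atTop (𝓝 (w.yinf).im) :=
    (Complex.continuous_im.tendsto _).comp w.tendsto_yinf
  have h2 : (fun k => (w.y k).im) = fun _ => (w.y 0).im := by
    funext k
    exact w.im_y k
  rw [h2] at h1
  exact (tendsto_nhds_unique h1 tendsto_const_nhds)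

end Wsp

/-- the quartic identity inside a disc -/
lemma quartic_id (w : Wsp) {k : ℕ} {q : ℤ × ℤ} (hq : q ∈ F k) (h : ‖w.y k - cen k q‖ ≤ rho k) :
    lam k * (rho k ^ 2 - ((w.y k - cen k q).re ^ 2 + (w.y k - cen k q).im ^ 2)) *
      ((w.y k - cen k q).re ^ 2 - (w.y k - cen k q).im ^ 2) =
    ((w.y (k + 1)).re - (w.y k).re) *
      (((w.y k - cen k q).re ^ 2 + (w.y k - cen k q).im ^ 2) * rho k ^ 2) := by
  have h1 : (w.y (k + 1)).re - (w.y k).re = lam k * (bump k (w.y k) q * (w.Y k q).re) := by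
    rw [w.step k, shift_single _ hq h, Complex.add_re, Complex.ofReal_re]
    ring
  have hr := rho_pos k
  have hsq : ‖w.y k - cen k q‖ ^ 2 = (w.y k - cen k q).re ^ 2 + (w.y k - cen k q).im ^ 2 := by
    rw [← Complex.normSq_eq_norm_sq, Complex.normSq_apply]
    ring
  have h2 : bump k (w.y k) q = 1 - ‖w.y k - cen k q‖ ^ 2 / rho k ^ 2 := by
    unfold bump
    apply max_eq_right
    have : ‖w.y k - cen k q‖ ^ 2 / rho k ^ 2 ≤ 1 := by
      rw [div_le_one (by positivity)]
      have := norm_nonneg (w.y k - cen k q)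
      nlinarith
    linarith
  have h3 : (w.y k - cen k q).re ^ 2 - (w.y k - cen k q).im ^ 2 =
      ‖w.y k - cen k q‖ ^ 2 * (w.Y k q).re := by
    have := congrArg Complex.re (w.dir hq)
    rw [pow_two, Complex.mul_re] at this
    have h4 : ((‖w.y k - cen k q‖ : ℂ) ^ 2 * w.Y k q).re = ‖w.y k - cen k q‖ ^ 2 * (w.Y k q).re := by
      rw [← Complex.ofReal_pow, Complex.re_ofReal_mul]
    rw [h4] at this
    rw [← this]
    ring
  rw [h1, h2, h3, ← hsq]
  field_simp

/-- fourth difference of the quartic -/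
lemma fourth_diff (l r b p a s : ℝ) (Q : ℝ → ℝ)
    (hQ : Q = fun a => l * (r ^ 2 - (a ^ 2 + b ^ 2)) * (a ^ 2 - b ^ 2) + (a - p) * ((a ^ 2 + b ^ 2) * r ^ 2)) :
    Q a - 4 * Q (a + s) + 6 * Q (a + 2 * s) - 4 * Q (a + 3 * s) + Q (a + 4 * s) = -24 * l * s ^ 4 := by
  subst hQ
  simp only
  ring

/-- one step of the lightness estimate -/
lemma light_step {K : Set Wsp} (hK : IsPreconnected K) {b : ℝ} (hb : ∀ w ∈ K, (w.y 0).im = b)
    (k : ℕ) {s : ℝ} (hs : 0 < s) (hsr : 12 * s ≤ rho k) {w₁ w₂ : Wsp} (hw₁ : w₁ ∈ K) (hw₂ : w₂ ∈ K)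
    (hL : 12 * s ≤ (w₂.y k).re - (w₁.y k).re) :
    ∃ w ∈ K, ∃ w' ∈ K, lam k * s ^ 4 ≤ |(w.y (k + 1)).re - (w'.y (k + 1)).re| := by
  by_contra hcon
  push Not at hcon
  have hl := lam_pos k
  have hr := rho_pos k
  have hr4 := rho_le k
  have hl1 := lam_le_lam_zero k
  have hs1 : s < 1 := by linarith
  have hs4 : lam k * s ^ 4 < s := by
    have h1 : s ^ 4 ≤ s := by
      calc s ^ 4 = s ^ 3 * s := by ring
        _ ≤ 1 * s := by gcongr; exact pow_le_one₀ hs.le hs1.le
        _ = s := one_mul s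
    nlinarith
  -- intermediate values
  have hIVT : ∀ t ∈ Icc (w₁.y k).re (w₂.y k).re, ∃ w ∈ K, (w.y k).re = t := by
    have himg : IsPreconnected ((fun w : Wsp => (w.y k).re) '' K) :=
      hK.image _ (Complex.continuous_re.comp (Wsp.continuous_y k)).continuousOn
    intro t ht
    exact himg.ordConnected.out ⟨w₁, hw₁, rfl⟩ ⟨w₂, hw₂, rfl⟩ ht
  set α := (w₁.y k).re with hα
  have him : ∀ w ∈ K, (w.y k).im = b := fun w hw => by rw [w.im_y k, hb w hw]
  let Z : ℝ → ℂ := fun t => ⟨t, b⟩
  have hZ : ∀ w ∈ K, w.y k = Z (w.y k).re := fun w hw => Complex.ext rfl (him w hw)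
  -- a point outside the discs does not move
  let Out : ℝ → Prop := fun t => ∀ q ∈ F k, rho k ≤ ‖Z t - cen k q‖
  have hOut : ∀ t t', t ∈ Icc α (w₂.y k).re → t' ∈ Icc α (w₂.y k).re → t + 4 * s ≤ t' →
      Out t → Out t' → False := by
    intro t t' ht ht' htt o1 o2
    obtain ⟨w, hw, hwt⟩ := hIVT t ht
    obtain ⟨w', hw', hwt'⟩ := hIVT t' ht'
    have e1 : w.y (k + 1) = w.y k := by
      rw [w.step k, shift_zero]
      · simp
      · rw [hZ w hw, hwt]
        exact o1
    have e2 : w'.y (k + 1) = w'.y k := by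
      rw [w'.step k, shift_zero]
      · simp
      · rw [hZ w' hw', hwt']
        exact o2
    have h3 := hcon w' hw' w hw
    rw [e1, e2, hwt, hwt'] at h3
    have h4 : t' - t ≤ |t' - t| := le_abs_self _
    linarith
  -- two nearby points inside discs give a contradiction
  have hIn : ∀ t, t ∈ Icc α (w₂.y k).re → t + 4 * s ∈ Icc α (w₂.y k).re → ¬ Out t →
      ¬ Out (t + 4 * s) → False := by
    intro t ht ht' o1 o2
    simp only [Out] at o1 o2
    push Not at o1 o2
    obtain ⟨q, hq, hq1⟩ := o1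
    obtain ⟨q', hq', hq1'⟩ := o2
    have hqq : q = q' := by
      by_contra hne
      have h1 := cen_sep (k := k) hne
      have h2 : ‖cen k q - cen k q'‖ ≤ ‖Z t - cen k q‖ + ‖Z (t + 4 * s) - cen k q'‖ + 4 * s := by
        have h3 : cen k q - cen k q' = (Z (t + 4 * s) - cen k q') - (Z t - cen k q) -
            (Z (t + 4 * s) - Z t) := by ring
        have h4 : Z (t + 4 * s) - Z t = ((4 * s : ℝ) : ℂ) := by
          apply Complex.ext
          · simp [Z]
          · simp [Z]
        have h5 : ‖Z (t + 4 * s) - Z t‖ = 4 * s := by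
          rw [h4, Complex.norm_real, Real.norm_of_nonneg (by linarith)]
        rw [h3]
        refine (norm_sub_le _ _).trans ?_
        rw [h5]
        have := norm_sub_le (Z (t + 4 * s) - cen k q') (Z t - cen k q)
        linarith
      linarith
    subst hqq
    -- all intermediate points are in the disc
    have hdisc : ∀ j : ℝ, 0 ≤ j → j ≤ 4 → ‖Z (t + j * s) - cen k q‖ ≤ rho k := by
      intro j hj hj4
      have h1 : Z (t + j * s) - cen k q = ((1 - j / 4 : ℝ) : ℂ) * (Z t - cen k q) +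
          ((j / 4 : ℝ) : ℂ) * (Z (t + 4 * s) - cen k q) := by
        apply Complex.ext
        · simp [Z]; ring
        · simp [Z]; ring
      rw [h1]
      refine (norm_add_le _ _).trans ?_
      rw [norm_mul, norm_mul, Complex.norm_real, Complex.norm_real,
        Real.norm_of_nonneg (by linarith), Real.norm_of_nonneg (by linarith)]
      nlinarith
    have hpt : ∀ j : ℝ, 0 ≤ j → j ≤ 4 → ∃ w ∈ K, (w.y k).re = t + j * s := by
      intro j hj hj4
      apply hIVT
      rw [mem_Icc] at ht ht' ⊢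
      constructor
      · nlinarith [ht.1]
      · nlinarith [ht'.2]
    obtain ⟨u, huK, hu⟩ := hpt 0 le_rfl (by norm_num)
    set p := (u.y (k + 1)).re - (cen k q).re with hp
    set bb := b - (cen k q).im with hbb
    let Q : ℝ → ℝ := fun a => lam k * (rho k ^ 2 - (a ^ 2 + bb ^ 2)) * (a ^ 2 - bb ^ 2) +
      (a - p) * ((a ^ 2 + bb ^ 2) * rho k ^ 2)
    have hQ : ∀ j : ℝ, 0 ≤ j → j ≤ 4 → |Q (t - (cen k q).re + j * s)| ≤ lam k * s ^ 4 := by
      intro j hj hj4
      obtain ⟨w, hwK, hw⟩ := hpt j hj hj4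
      have h1 : w.y k = Z (t + j * s) := by rw [hZ w hwK, hw]
      have h2 : ‖w.y k - cen k q‖ ≤ rho k := by rw [h1]; exact hdisc j hj hj4
      have h3 := quartic_id w hq h2
      have h4 : (w.y k - cen k q).re = t - (cen k q).re + j * s := by
        rw [Complex.sub_re, hw]
        ring
      have h5 : (w.y k - cen k q).im = bb := by
        rw [Complex.sub_im, him w hwK]
      have hnsq : ‖w.y k - cen k q‖ ^ 2 = (w.y k - cen k q).re ^ 2 + (w.y k - cen k q).im ^ 2 := by
        rw [← Complex.normSq_eq_norm_sq, Complex.normSq_apply]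
        ring
      rw [h4, h5] at h3 hnsq
      rw [hw] at h3
      set a := t - (cen k q).re + j * s with ha
      have h6 : Q a = ((w.y (k + 1)).re - (u.y (k + 1)).re) * ((a ^ 2 + bb ^ 2) * rho k ^ 2) := by
        simp only [Q]
        rw [h3, hp]
        have : t + j * s = a + (cen k q).re := by rw [ha]; ring
        rw [this]
        ring
      rw [h6, abs_mul]
      have h7 := (hcon w hwK u huK).le
      have h8 : |(a ^ 2 + bb ^ 2) * rho k ^ 2| ≤ 1 := by
        rw [abs_of_nonneg (by positivity), ← hnsq]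
        have h9 : ‖w.y k - cen k q‖ ^ 2 ≤ 1 := by
          have := norm_nonneg (w.y k - cen k q)
          nlinarith
        have h10 : rho k ^ 2 ≤ 1 := by nlinarith
        have : 0 ≤ ‖w.y k - cen k q‖ ^ 2 := by positivity
        nlinarith [sq_nonneg (rho k)]
      calc |(w.y (k + 1)).re - (u.y (k + 1)).re| * |(a ^ 2 + bb ^ 2) * rho k ^ 2|
          ≤ (lam k * s ^ 4) * 1 := mul_le_mul h7 h8 (abs_nonneg _) (by positivity)
        _ = lam k * s ^ 4 := mul_one _
    have hfd := fourth_diff (lam k) (rho k) bb p (t - (cen k q).re) s Q rfl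
    have g0 := abs_le.1 (hQ 0 le_rfl (by norm_num))
    have g1 := abs_le.1 (hQ 1 (by norm_num) (by norm_num))
    have g2 := abs_le.1 (hQ 2 (by norm_num) (by norm_num))
    have g3 := abs_le.1 (hQ 3 (by norm_num) (by norm_num))
    have g4 := abs_le.1 (hQ 4 (by norm_num) (by norm_num))
    rw [zero_mul, add_zero] at g0
    rw [one_mul] at g1
    have hpos : 0 < lam k * s ^ 4 := by positivity
    linarith [g0.1, g1.2, g2.1, g3.2, g4.1]
  have m0 : α ∈ Icc α (w₂.y k).re := ⟨le_rfl, by linarith⟩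
  have m1 : α + 4 * s ∈ Icc α (w₂.y k).re := ⟨by linarith, by linarith⟩
  have m2 : α + 8 * s ∈ Icc α (w₂.y k).re := ⟨by linarith, by linarith⟩
  have m3 : α + 8 * s + 4 * s ∈ Icc α (w₂.y k).re := ⟨by linarith, by linarith⟩
  by_cases o0 : Out α
  · by_cases o2 : Out (α + 8 * s)
    · exact hOut _ _ m0 m2 (by linarith) o0 o2
    · by_cases o3 : Out (α + 8 * s + 4 * s)
      · exact hOut _ _ m0 m3 (by linarith) o0 o3
      · exact hIn _ m2 m3 o2 o3
  · by_cases o1 : Out (α + 4 * s)
    · by_cases o2 : Out (α + 8 * s)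
      · exact hOut _ _ m1 m2 (by linarith) o1 o2
      · by_cases o3 : Out (α + 8 * s + 4 * s)
        · exact hOut _ _ m1 m3 (by linarith) o1 o3
        · exact hIn _ m2 m3 o2 o3
    · exact hIn _ m0 m1 o0 o1

end Pool.Agent.Helper562.CM
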