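import Pool.Agent.Helper562.CMLight

set_option autoImplicit false

namespace Pool.Agent.Helper562.CM
open Set Topology Filter

/-- symmetric form of the step -/
lemma light_step' {K : Set Wsp} (hK : IsPreconnected K) {b : ℝ} (hb : ∀ w ∈ K, (w.y 0).im = b)
    (k : ℕ) {s : ℝ} (hs : 0 < s) (hsr : 12 * s ≤ rho k)
    (hL : ∃ w ∈ K, ∃ w' ∈ K, 12 * s ≤ |(w.y k).re - (w'.y k).re|) :
    ∃ w ∈ K, ∃ w' ∈ K, lam k * s ^ 4 ≤ |(w.y (k + 1)).re - (w'.y (k + 1)).re| := by
  obtain ⟨w, hw, w', hw', h⟩ := hL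
  rcases le_total (w.y k).re (w'.y k).re with h1 | h1
  · rw [abs_of_nonpos (by linarith)] at h
    exact light_step hK hb k hs hsr hw hw' (by linarith)
  · rw [abs_of_nonneg (by linarith)] at h
    exact light_step hK hb k hs hsr hw' hw (by linarith)

lemma re_const {K : Set Wsp} (hK : IsPreconnected K) {p : ℂ} (hp : ∀ w ∈ K, w.yinf = p) (l : ℕ)
    {w₁ w₂ : Wsp} (hw₁ : w₁ ∈ K) (hw₂ : w₂ ∈ K) : (w₁.y l).re = (w₂.y l).re := by
  by_contra hne
  have hb : ∀ w ∈ K, (w.y 0).im = p.im := fun w hw => by rw [← w.im_yinf, hp w hw]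
  have hL : 0 < |(w₁.y l).re - (w₂.y l).re| := abs_pos.2 (sub_ne_zero.2 hne)
  obtain ⟨A, hA⟩ := exists_pow_lt_of_lt_one hL (by norm_num : (1 / 2 : ℝ) < 1)
  -- lower bound for all later levels
  have key : ∀ m, ∃ w ∈ K, ∃ w' ∈ K, (1 / 2 : ℝ) ^ (A * 4 ^ (l + m) + 7 * 8 ^ (l + m)) ≤
      |(w.y (l + m)).re - (w'.y (l + m)).re| := by
    intro m
    induction m with
    | zero =>
      refine ⟨w₁, hw₁, w₂, hw₂, ?_⟩
      refine le_trans ?_ hA.le
      apply pow_le_pow_of_le_one (by norm_num) (by norm_num)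
      have h1 : 1 ≤ 4 ^ (l + 0) := Nat.one_le_pow _ _ (by norm_num)
      have h2 : A * 1 ≤ A * 4 ^ (l + 0) := Nat.mul_le_mul_left A h1
      omega
    | succ m ih =>
      obtain ⟨w, hw, w', hw', h⟩ := ih
      set k := l + m with hk
      set D := A * 4 ^ k + 7 * 8 ^ k with hD
      have h8 : k + 1 ≤ 8 ^ k := by
        have h1 : k < 2 ^ k := Nat.lt_two_pow_self
        have h2 : 2 ^ k ≤ 8 ^ k := Nat.pow_le_pow_left (by norm_num) k
        omega
      have hs : (0 : ℝ) < (1 / 2) ^ (D + 4) := by positivity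
      have hd : (1 / 2 : ℝ) ^ (D + 4) = (1 / 2) ^ D / 16 := by
        rw [pow_add]
        norm_num
        ring
      have hDpos : (0 : ℝ) < (1 / 2) ^ D := by positivity
      have hrho : (1 / 2 : ℝ) ^ D ≤ rho k := by
        have h3 : rho k = (1 / 2) ^ (k + 2) := by
          unfold rho
          rw [one_div_pow]
        rw [h3]
        apply pow_le_pow_of_le_one (by norm_num) (by norm_num)
        have : 0 ≤ A * 4 ^ k := Nat.zero_le _
        omega
      obtain ⟨u, hu, u', hu', h4⟩ := light_step' hK hb k hs (by rw [hd]; linarith)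
        ⟨w, hw, w', hw', by rw [hd]; linarith⟩
      refine ⟨u, hu, u', hu', le_trans ?_ h4⟩
      unfold lam
      rw [← pow_mul, ← pow_add]
      apply pow_le_pow_of_le_one (by norm_num) (by norm_num)
      have h5 : 4 ^ (l + (m + 1)) = 4 * 4 ^ k := by rw [← add_assoc, pow_succ, mul_comm]
      have h6 : 8 ^ (l + (m + 1)) = 8 * 8 ^ k := by rw [← add_assoc, pow_succ, mul_comm]
      have h7 : 8 ^ (k + 1) = 8 * 8 ^ k := by rw [pow_succ, mul_comm]
      rw [h5, h6, h7, hD]
      nlinarith
  -- contradiction for a large level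
  obtain ⟨w, hw, w', hw', h⟩ := key (A + 3)
  set k := l + (A + 3) with hk
  have h1 := w.norm_yinf_sub_le k
  have h2 := w'.norm_yinf_sub_le k
  rw [hp w hw] at h1
  rw [hp w' hw'] at h2
  have h3 : |(w.y k).re - (w'.y k).re| ≤ 4 * lam k := by
    have h4 : (w.y k).re - (w'.y k).re = ((p - w'.y k) - (p - w.y k)).re := by
      simp
    rw [h4]
    refine (Complex.abs_re_le_norm _).trans ((norm_sub_le _ _).trans ?_)
    linarith
  have h4 : (4 : ℝ) * lam k < (1 / 2) ^ (A * 4 ^ k + 7 * 8 ^ k) := by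
    have h5 : A + 3 < 2 ^ k := by
      have : k < 2 ^ k := Nat.lt_two_pow_self
      omega
    have h6 : 8 ^ k = 4 ^ k * 2 ^ k := by rw [← Nat.mul_pow]
    have h7 : 1 ≤ 4 ^ k := Nat.one_le_pow _ _ (by norm_num)
    have h8 : A * 4 ^ k + 7 * 8 ^ k + 3 ≤ 8 ^ (k + 1) := by
      rw [pow_succ, h6]
      nlinarith
    have h9 : lam k ≤ (1 / 2 : ℝ) ^ (A * 4 ^ k + 7 * 8 ^ k + 3) := by
      unfold lam
      exact pow_le_pow_of_le_one (by norm_num) (by norm_num) h8
    have h10 : (0 : ℝ) < (1 / 2) ^ (A * 4 ^ k + 7 * 8 ^ k) := by positivity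
    rw [pow_add] at h9
    have h11 : (1 / 2 : ℝ) ^ 3 = 1 / 8 := by norm_num
    rw [h11] at h9
    linarith
  linarith

/-- the limit coordinate is a light map -/
theorem light {K : Set Wsp} (hK : IsPreconnected K) {p : ℂ} (hp : ∀ w ∈ K, w.yinf = p) :
    K.Subsingleton := by
  intro w₁ hw₁ w₂ hw₂
  have hy : ∀ k, ∀ w ∈ K, ∀ w' ∈ K, w.y k = w'.y k := by
    intro k w hw w' hw'
    apply Complex.ext
    · exact re_const hK hp k hw hw'
    · rw [w.im_y, w'.im_y, ← w.im_yinf, ← w'.im_yinf, hp w hw, hp w' hw']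
  -- continuous functions with constant square are constant
  have hsq : ∀ f : Wsp → ℂ, Continuous f → (∀ w ∈ K, ∀ w' ∈ K, f w ^ 2 = f w' ^ 2) → f w₁ = f w₂ := by
    intro f hf h
    by_cases h0 : f w₁ = 0
    · have := h w₁ hw₁ w₂ hw₂
      rw [h0] at this
      have h2 : f w₂ ^ 2 = 0 := by rw [← this]; simp
      rw [h0]
      exact (pow_eq_zero_iff (by norm_num)).1 h2 |>.symm
    · rcases hK.eq_or_eq_neg_of_sq_eq hf.continuousOn (continuousOn_const (c := f w₁))
        (fun w hw => h w hw w₁ hw₁) (fun {_} _ => h0) with h1 | h1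
      · exact (h1 hw₂).symm
      · have := h1 hw₁
        simp only [Pi.neg_apply] at this
        exfalso
        apply h0
        have h3 : f w₁ + f w₁ = 0 := by
          nth_rewrite 1 [this]
          ring
        have h4 : (2 : ℂ) * f w₁ = 0 := by rw [two_mul]; exact h3
        rcases mul_eq_zero.1 h4 with h5 | h5
        · norm_num at h5
        · exact h5
  apply Wsp.ext'
  · intro k q
    apply hsq _ (Wsp.continuous_v k q)
    intro w hw w' hw'
    rw [w.sheet, w'.sheet, hy 0 w hw w' hw']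
  · intro k
    exact hy k w₁ hw₁ w₂ hw₂
  · intro k q
    by_cases hq : q ∈ F k
    · by_cases hc : w₁.y k = cen k q
      · -- over the centre
        have hc' : ∀ w ∈ K, w.y k = cen k q := fun w hw => (hy k w hw w₁ hw₁).trans hc
        have hre : ∀ w ∈ K, (w.Y k q).re = (w₁.Y k q).re := by
          intro w hw
          have e1 := w.core hq (hc' w hw) 0
          have e2 := w₁.core hq hc 0
          have e3 := hy (k + 1 + 0) w hw w₁ hw₁
          rw [e1, e2] at e3
          have e4 := add_left_cancel e3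
          have e5 : lam k * (w.Y k q).re = lam k * (w₁.Y k q).re := by exact_mod_cast e4
          exact mul_left_cancel₀ (lam_pos k).ne' e5
        have hfin := hsq (fun w => w.Y k q - (((w₁.Y k q).re : ℝ) : ℂ))
          ((Wsp.continuous_Y k q).sub continuous_const) (by
            have hval : ∀ w ∈ K, (w.Y k q - (((w₁.Y k q).re : ℝ) : ℂ)) ^ 2 =
                -(((1 - (w₁.Y k q).re ^ 2 : ℝ)) : ℂ) := by
              intro w hw
              have e1 : w.Y k q - (((w₁.Y k q).re : ℝ) : ℂ) = (((w.Y k q).im : ℝ) : ℂ) * Complex.I := by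
                rw [← hre w hw]
                apply Complex.ext <;> simp
              have e2 : (w.Y k q).im ^ 2 = 1 - (w₁.Y k q).re ^ 2 := by
                have := w.unit k q
                have h5 : ‖w.Y k q‖ ^ 2 = (w.Y k q).re ^ 2 + (w.Y k q).im ^ 2 := by
                  rw [← Complex.normSq_eq_norm_sq, Complex.normSq_apply]
                  ring
                rw [this, hre w hw] at h5
                linarith
              rw [e1, mul_pow, Complex.I_sq, ← Complex.ofReal_pow, e2]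
              ring
            intro w hw w' hw'
            rw [hval w hw, hval w' hw'])
        exact sub_left_injective hfin
      · have hc2 : w₂.y k ≠ cen k q := by rw [← hy k w₁ hw₁ w₂ hw₂]; exact hc
        rw [w₁.Y_eq hq hc, w₂.Y_eq hq hc2, hy k w₁ hw₁ w₂ hw₂]
    · rw [w₁.triv hq, w₂.triv hq]

end Pool.Agent.Helper562.CM
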