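import Pool.Agent.Helper562.CMLightB

set_option autoImplicit false

namespace Pool.Agent.Helper562.CM
open Set Topology Filter

/-- maximum norm of the four real coordinates -/
noncomputable def nn (p : ℂ × ℂ) : ℝ := max (max |p.1.re| |p.1.im|) (max |p.2.re| |p.2.im|)

lemma continuous_nn : Continuous nn := by
  unfold nn
  have := Complex.continuous_re
  have := Complex.continuous_im
  fun_prop

lemma nn_nonneg (p : ℂ × ℂ) : 0 ≤ nn p := (abs_nonneg _).trans ((le_max_left _ _).trans (le_max_left _ _))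
lemma re1_le (p : ℂ × ℂ) : |p.1.re| ≤ nn p := (le_max_left _ _).trans (le_max_left _ _)
lemma im1_le (p : ℂ × ℂ) : |p.1.im| ≤ nn p := (le_max_right _ _).trans (le_max_left _ _)
lemma re2_le (p : ℂ × ℂ) : |p.2.re| ≤ nn p := (le_max_left _ _).trans (le_max_right _ _)
lemma im2_le (p : ℂ × ℂ) : |p.2.im| ≤ nn p := (le_max_right _ _).trans (le_max_right _ _)
lemma nn_lt {p : ℂ × ℂ} {c : ℝ} : nn p < c ↔ |p.1.re| < c ∧ |p.1.im| < c ∧ |p.2.re| < c ∧ |p.2.im| < c := by
  unfold nn
  simp only [max_lt_iff]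
  tauto

lemma nn_cases (p : ℂ × ℂ) : |p.1.re| = nn p ∨ |p.1.im| = nn p ∨ |p.2.re| = nn p ∨ |p.2.im| = nn p := by
  unfold nn
  rcases max_choice (max |p.1.re| |p.1.im|) (max |p.2.re| |p.2.im|) with h | h <;> rw [h]
  · rcases max_choice |p.1.re| |p.1.im| with h | h <;> rw [h] <;> simp
  · rcases max_choice |p.2.re| |p.2.im| with h | h <;> rw [h] <;> simp

lemma nn_eq_zero {p : ℂ × ℂ} (h : nn p = 0) : p = 0 := by
  have h1 := re1_le p
  have h2 := im1_le p
  have h3 := re2_le p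
  have h4 := im2_le p
  rw [h] at h1 h2 h3 h4
  apply Prod.ext
  · exact Complex.ext (abs_nonpos_iff.1 h1) (abs_nonpos_iff.1 h2)
  · exact Complex.ext (abs_nonpos_iff.1 h3) (abs_nonpos_iff.1 h4)

lemma nn_pos {p : ℂ × ℂ} (h : p ≠ 0) : 0 < nn p :=
  lt_of_le_of_ne (nn_nonneg p) (fun h1 => h (nn_eq_zero h1.symm))

lemma two_rho (k : ℕ) : 2 * rho k = 1 / 2 ^ (k + 1) := by
  unfold rho
  rw [show k + 2 = (k + 1) + 1 from rfl, pow_succ _ (k + 1)]
  field_simp

/-- position relative to the centre of a cell -/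
noncomputable def del (k : ℕ) (a q : ℤ × ℤ) (p : Wsp × Wsp) : ℂ × ℂ :=
  (p.1.y 0 - cen k a, p.2.y k - cen k q)

noncomputable def mu (k : ℕ) (a q : ℤ × ℤ) (p : Wsp × Wsp) : ℝ := max 0 (2 * rho k - nn (del k a q p))

noncomputable def vhat (k : ℕ) (a : ℤ × ℤ) (w : Wsp) : ℂ := w.v k a / Real.sqrt (hh (w.y 0))

noncomputable def Hm (k : ℕ) (a q : ℤ × ℤ) (p : Wsp × Wsp) : ℂ × ℂ :=
  ((del k a q p).1 + mu k a q p * (starRingEnd ℂ) (p.2.Y k q),
    (del k a q p).2 + mu k a q p * (vhat k a p.1 * p.2.Y k q))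

lemma vhat_sq (k : ℕ) (a : ℤ × ℤ) {w : Wsp} (h : 0 < hh (w.y 0)) :
    vhat k a w ^ 2 = w.y 0 - cen k a := by
  unfold vhat
  have h1 : ((Real.sqrt (hh (w.y 0)) : ℂ)) ^ 2 = hh (w.y 0) := by
    rw [← Complex.ofReal_pow, Real.sq_sqrt h.le]
  have h2 : (hh (w.y 0) : ℂ) ≠ 0 := by exact_mod_cast h.ne'
  rw [div_pow, h1, w.sheet, mul_div_cancel_right₀ _ h2]

lemma Hm_ne {k : ℕ} {a q : ℤ × ℤ} (hq : q ∈ F k) {p : Wsp × Wsp} (h : 0 < hh (p.1.y 0)) :
    Hm k a q p ≠ 0 := by
  intro h0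
  have h1 : (del k a q p).1 = -(mu k a q p * (starRingEnd ℂ) (p.2.Y k q)) :=
    eq_neg_of_add_eq_zero_left (congrArg Prod.fst h0)
  have h2 : (del k a q p).2 = -(mu k a q p * (vhat k a p.1 * p.2.Y k q)) :=
    eq_neg_of_add_eq_zero_left (congrArg Prod.snd h0)
  have hv := vhat_sq k a h
  have hd := p.2.dir hq
  have hu := p.2.unit k q
  have hmu : 0 ≤ mu k a q p := le_max_left _ _
  have hY : (starRingEnd ℂ) (p.2.Y k q) * p.2.Y k q = 1 := by
    rw [mul_comm, Complex.mul_conj, Complex.normSq_eq_norm_sq, hu]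
    simp
  have hY0 : p.2.Y k q ≠ 0 := norm_ne_zero_iff.1 (by rw [hu]; norm_num)
  have h3 : (del k a q p).2 ^ 2 = -((mu k a q p : ℂ) ^ 3) * p.2.Y k q := by
    rw [h2]
    have h4 : (-((mu k a q p : ℂ) * (vhat k a p.1 * p.2.Y k q))) ^ 2 =
        (mu k a q p : ℂ) ^ 2 * (vhat k a p.1 ^ 2) * p.2.Y k q ^ 2 := by ring
    have h5 : vhat k a p.1 ^ 2 = -(mu k a q p * (starRingEnd ℂ) (p.2.Y k q)) := by
      rw [hv]
      exact h1
    rw [h4, h5]
    linear_combination -((mu k a q p : ℂ) ^ 3 * p.2.Y k q) * hY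
  have h4 : (del k a q p).2 ^ 2 = (‖(del k a q p).2‖ : ℂ) ^ 2 * p.2.Y k q := hd
  rw [h4] at h3
  have h5 := mul_right_cancel₀ hY0 h3
  have h6 : ‖(del k a q p).2‖ ^ 2 = -(mu k a q p ^ 3) := by exact_mod_cast h5
  have h7 : 0 ≤ ‖(del k a q p).2‖ ^ 2 := by positivity
  have h8 : 0 ≤ mu k a q p ^ 3 := by positivity
  have h9 : mu k a q p ^ 3 = 0 := by linarith
  have h10 : mu k a q p = 0 := (pow_eq_zero_iff (by norm_num)).1 h9
  rw [h10] at h1 h2
  have h11 : del k a q p = 0 := by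
    apply Prod.ext
    · simpa using h1
    · simpa using h2
  have h12 : mu k a q p = 2 * rho k := by
    unfold mu
    rw [h11]
    have : nn (0 : ℂ × ℂ) = 0 := by simp [nn]
    rw [this, sub_zero]
    exact max_eq_right (by linarith [rho_pos k])
  rw [h10] at h12
  linarith [rho_pos k]

noncomputable def corr (k : ℕ) (a q : ℤ × ℤ) (p : Wsp × Wsp) : ℂ × ℂ :=
  ((max (2 * rho k) (nn (del k a q p)) / nn (Hm k a q p) : ℝ) : ℂ) • Hm k a q p - del k a q p

lemma corr_zero {k : ℕ} {a q : ℤ × ℤ} {p : Wsp × Wsp} (h : 2 * rho k ≤ nn (del k a q p)) :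
    corr k a q p = 0 := by
  have h1 : mu k a q p = 0 := max_eq_left (by linarith)
  have h2 : Hm k a q p = del k a q p := by
    unfold Hm
    rw [h1]
    simp
  unfold corr
  rw [h2, max_eq_right h, div_self, Complex.ofReal_one, one_smul, sub_self]
  have := rho_pos k
  linarith

lemma finite_G (k : ℕ) : {q : ℤ × ℤ | ‖cen k q - 2‖ < 1 / 2}.Finite := by
  have h := finite_F k
  apply (h.image (fun q : ℤ × ℤ => (-q.1 - 1, -q.2 - 1))).subset
  intro q hq
  refine ⟨(-q.1 - 1, -q.2 - 1), ?_, ?_⟩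
  · have h1 : cen k (-q.1 - 1, -q.2 - 1) = -cen k q := by
      apply Complex.ext
      · simp only [cen, Complex.neg_re]
        push_cast
        ring
      · simp only [cen, Complex.neg_im]
        push_cast
        ring
    have h2 : ‖cen k (-q.1 - 1, -q.2 - 1) + 2‖ = ‖cen k q - 2‖ := by
      rw [h1, ← norm_neg]
      congr 1
      ring
    show ‖cen k (-q.1 - 1, -q.2 - 1) + 2‖ < 1 / 2
    rw [h2]
    exact hq
  · simp

noncomputable def G (k : ℕ) : Finset (ℤ × ℤ) := (finite_G k).toFinset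

lemma mem_G {k : ℕ} {q : ℤ × ℤ} : q ∈ G k ↔ ‖cen k q - 2‖ < 1 / 2 := by
  unfold G
  simp

/-- the push -/
noncomputable def Psi (k : ℕ) (p : Wsp × Wsp) : ℂ × ℂ :=
  (p.1.y 0, p.2.y k) + ∑ a ∈ G k, ∑ q ∈ F k, corr k a q p

lemma continuous_del (k : ℕ) (a q : ℤ × ℤ) : Continuous (del k a q) :=
  (((Wsp.continuous_y 0).comp continuous_fst).sub continuous_const).prodMk
    (((Wsp.continuous_y k).comp continuous_snd).sub continuous_const)

lemma continuousOn_Hm (k : ℕ) (a q : ℤ × ℤ) :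
    ContinuousOn (Hm k a q) {p | 0 < hh (p.1.y 0)} := by
  have h1 := continuous_del k a q
  have h2 : Continuous (mu k a q) := by
    unfold mu
    exact continuous_const.max (continuous_const.sub (continuous_nn.comp h1))
  have h3 : Continuous (fun p : Wsp × Wsp => (mu k a q p : ℂ)) := Complex.continuous_ofReal.comp h2
  have h4 : ContinuousOn (fun p : Wsp × Wsp => vhat k a p.1) {p | 0 < hh (p.1.y 0)} := by
    unfold vhat
    apply ContinuousOn.div
    · exact ((Wsp.continuous_v k a).comp continuous_fst).continuousOn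
    · exact (Complex.continuous_ofReal.comp (Real.continuous_sqrt.comp (continuous_hh.comp
        ((Wsp.continuous_y 0).comp continuous_fst)))).continuousOn
    · intro p hp
      have : 0 < Real.sqrt (hh (p.1.y 0)) := Real.sqrt_pos.2 hp
      exact_mod_cast this.ne'
  have h5 : Continuous (fun p : Wsp × Wsp => p.2.Y k q) := (Wsp.continuous_Y k q).comp continuous_snd
  unfold Hm
  apply ContinuousOn.prodMk
  · apply Continuous.continuousOn
    exact (continuous_fst.comp h1).add (h3.mul (Complex.continuous_conj.comp h5))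
  · exact (continuous_snd.comp h1).continuousOn.add (h3.continuousOn.mul (h4.mul h5.continuousOn))

lemma continuousOn_corr (k : ℕ) (a : ℤ × ℤ) {q : ℤ × ℤ} (hq : q ∈ F k) :
    ContinuousOn (corr k a q) {p | 0 < hh (p.1.y 0)} := by
  have h1 := continuous_del k a q
  have h2 := continuousOn_Hm k a q
  have h3 : ContinuousOn (fun p : Wsp × Wsp =>
      ((max (2 * rho k) (nn (del k a q p)) / nn (Hm k a q p) : ℝ) : ℂ)) {p | 0 < hh (p.1.y 0)} := by
    apply Complex.continuous_ofReal.comp_continuousOn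
    apply ContinuousOn.div
    · exact (continuous_const.max (continuous_nn.comp h1)).continuousOn
    · exact continuous_nn.comp_continuousOn h2
    · intro p hp
      exact (nn_pos (Hm_ne hq hp)).ne'
  exact (h3.smul h2).sub h1.continuousOn

lemma continuousOn_Psi (k : ℕ) : ContinuousOn (Psi k) {p | 0 < hh (p.1.y 0)} := by
  unfold Psi
  apply ContinuousOn.add
  · exact (((Wsp.continuous_y 0).comp continuous_fst).prodMk
      ((Wsp.continuous_y k).comp continuous_snd)).continuousOn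
  · apply continuousOn_finsetSum
    intro a _
    apply continuousOn_finsetSum
    intro q hq
    exact continuousOn_corr k a hq

/-- cells: at most one cell contributes -/
lemma cell_unique {k : ℕ} {a a' : ℤ} {t : ℝ} (h : |t - (2 * a + 1) / 2 ^ (k + 1)| < 2 * rho k)
    (h' : |t - (2 * a' + 1) / 2 ^ (k + 1)| < 2 * rho k) : a = a' := by
  have hp : (0 : ℝ) < 2 ^ (k + 1) := by positivity
  rw [two_rho] at h h'
  have key : ∀ a : ℤ, |t - (2 * a + 1) / 2 ^ (k + 1)| < 1 / 2 ^ (k + 1) →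
      2 * (a : ℝ) < t * 2 ^ (k + 1) ∧ t * 2 ^ (k + 1) < 2 * a + 2 := by
    intro a ha
    have h1 : t - (2 * a + 1) / 2 ^ (k + 1) = (t * 2 ^ (k + 1) - (2 * a + 1)) / 2 ^ (k + 1) := by
      field_simp
    rw [h1, abs_div, abs_of_pos hp, div_lt_div_iff_of_pos_right hp, abs_lt] at ha
    constructor <;> linarith [ha.1, ha.2]
  have h1 := key a h
  have h2 := key a' h'
  have h3 : (a : ℝ) < a' + 1 := by linarith
  have h4 : (a' : ℝ) < a + 1 := by linarith
  have h5 : a < a' + 1 := by exact_mod_cast h3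
  have h6 : a' < a + 1 := by exact_mod_cast h4
  omega

lemma pair_unique {k : ℕ} {a a' q q' : ℤ × ℤ} {p : Wsp × Wsp}
    (h : nn (del k a q p) < 2 * rho k) (h' : nn (del k a' q' p) < 2 * rho k) : a = a' ∧ q = q' := by
  rw [nn_lt] at h h'
  obtain ⟨h1, h2, h3, h4⟩ := h
  obtain ⟨g1, g2, g3, g4⟩ := h'
  simp only [del, cen, Complex.sub_re, Complex.sub_im] at h1 h2 h3 h4 g1 g2 g3 g4
  exact ⟨Prod.ext (cell_unique h1 g1) (cell_unique h2 g2),
    Prod.ext (cell_unique h3 g3) (cell_unique h4 g4)⟩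

lemma exists_cell (k : ℕ) (t : ℝ) (h : ¬ ∃ n : ℤ, t = n * (1 / 2 ^ k)) :
    ∃ a : ℤ, |t - (2 * a + 1) / 2 ^ (k + 1)| < 2 * rho k := by
  have hp : (0 : ℝ) < 2 ^ k := by positivity
  refine ⟨⌊t * 2 ^ k⌋, ?_⟩
  have h1 := Int.floor_le (t * 2 ^ k)
  have h2 := Int.lt_floor_add_one (t * 2 ^ k)
  have h3 : (⌊t * 2 ^ k⌋ : ℝ) ≠ t * 2 ^ k := by
    intro h3
    apply h
    refine ⟨⌊t * 2 ^ k⌋, ?_⟩
    rw [h3]
    field_simp
  have h4 : (⌊t * 2 ^ k⌋ : ℝ) < t * 2 ^ k := lt_of_le_of_ne h1 h3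
  rw [two_rho]
  have h5 : t - (2 * (⌊t * 2 ^ k⌋ : ℝ) + 1) / 2 ^ (k + 1) =
      (2 * (t * 2 ^ k) - (2 * (⌊t * 2 ^ k⌋ : ℝ) + 1)) / 2 ^ (k + 1) := by
    rw [pow_succ]
    field_simp
  have hp' : (0 : ℝ) < 2 ^ (k + 1) := by positivity
  rw [h5, abs_div, abs_of_pos hp', div_lt_div_iff_of_pos_right hp', abs_lt]
  constructor <;> linarith

/-- a boundary point of a cell lies on the grid -/
lemma on_grid {k : ℕ} {a : ℤ} {t : ℝ} (h : |t - (2 * a + 1) / 2 ^ (k + 1)| = 2 * rho k) :
    ∃ n : ℤ, t = n * (1 / 2 ^ k) := by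
  rw [two_rho] at h
  have hp : (2 : ℝ) ^ (k + 1) = 2 ^ k * 2 := pow_succ _ _
  have hp0 : (0 : ℝ) < 2 ^ k := by positivity
  rcases abs_choice (t - (2 * a + 1) / 2 ^ (k + 1)) with h1 | h1
  · refine ⟨a + 1, ?_⟩
    rw [h1] at h
    have : t = (2 * a + 1) / 2 ^ (k + 1) + 1 / 2 ^ (k + 1) := by linarith
    rw [this, hp]
    push_cast
    field_simp
    ring
  · refine ⟨a, ?_⟩
    rw [h1] at h
    have : t = (2 * a + 1) / 2 ^ (k + 1) - 1 / 2 ^ (k + 1) := by linarith
    rw [this, hp]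
    field_simp
    ring

/-- the real coordinates of a pair -/
def GridPt (k : ℕ) (z : ℂ × ℂ) : Prop :=
  ((∃ n : ℤ, z.1.re = n * (1 / 2 ^ k)) ∨ (∃ n : ℤ, z.1.im = n * (1 / 2 ^ k))) ∨
    ((∃ n : ℤ, z.2.re = n * (1 / 2 ^ k)) ∨ (∃ n : ℤ, z.2.im = n * (1 / 2 ^ k)))

lemma norm_le_two_nn (z : ℂ) {c : ℝ} (h1 : |z.re| ≤ c) (h2 : |z.im| ≤ c) : ‖z‖ ≤ 2 * c := by
  have := Complex.norm_le_abs_re_add_abs_im z
  linarith

lemma Psi_spec {k : ℕ} (hk : 3 ≤ k) {p : Wsp × Wsp} (h1 : ‖p.1.y 0 - 2‖ ≤ 1 / 4)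
    (h2 : ‖p.2.y 0 + 2‖ ≤ 1 / 4) :
    GridPt k (Psi k p) ∧ nn (Psi k p - (p.1.y 0, p.2.y k)) ≤ 4 * rho k := by
  have hr := rho_pos k
  have hh1 : 0 < hh (p.1.y 0) := by
    have h3 : |(p.1.y 0 - 2).re| ≤ 1 / 4 := (Complex.abs_re_le_norm _).trans h1
    rw [abs_le, Complex.sub_re] at h3
    unfold hh
    apply lt_max_of_lt_right
    have : (2 : ℂ).re = 2 := rfl
    rw [this] at h3
    linarith [h3.1]
  by_cases hex : ∃ a q, a ∈ G k ∧ q ∈ F k ∧ nn (del k a q p) < 2 * rho k
  · obtain ⟨a, q, ha, hq, hlt⟩ := hex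
    have hsum : ∑ a' ∈ G k, ∑ q' ∈ F k, corr k a' q' p = corr k a q p := by
      rw [Finset.sum_eq_single_of_mem a ha, Finset.sum_eq_single_of_mem q hq]
      · intro q' _ hne
        apply corr_zero
        by_contra hcon
        push Not at hcon
        exact hne (pair_unique hcon hlt).2
      · intro a' _ hne
        apply Finset.sum_eq_zero
        intro q' _
        apply corr_zero
        by_contra hcon
        push Not at hcon
        exact hne (pair_unique hcon hlt).1
    have hHm := Hm_ne (a := a) hq hh1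
    have hnH := nn_pos hHm
    set s : ℝ := 2 * rho k / nn (Hm k a q p) with hs
    have hs0 : 0 < s := by positivity
    have hPsi : Psi k p = (cen k a + (s : ℂ) * (Hm k a q p).1, cen k q + (s : ℂ) * (Hm k a q p).2) := by
      unfold Psi
      rw [hsum]
      unfold corr
      rw [max_eq_left hlt.le]
      apply Prod.ext
      · simp only [del, Prod.fst_add, Prod.fst_sub, Prod.smul_fst, smul_eq_mul]
        ring
      · simp only [del, Prod.snd_add, Prod.snd_sub, Prod.smul_snd, smul_eq_mul]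
        ring
    have hbd : ∀ t : ℝ, |t| ≤ nn (Hm k a q p) → |s * t| ≤ 2 * rho k := by
      intro t ht
      rw [abs_mul, abs_of_pos hs0, hs, div_mul_eq_mul_div, div_le_iff₀ hnH]
      exact mul_le_mul_of_nonneg_left ht (by linarith)
    have hbe : ∀ t : ℝ, |t| = nn (Hm k a q p) → |s * t| = 2 * rho k := by
      intro t ht
      rw [abs_mul, abs_of_pos hs0, hs, ht, div_mul_cancel₀ _ hnH.ne']
    constructor
    · rw [hPsi]
      rcases nn_cases (Hm k a q p) with h | h | h | h
      · left; left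
        apply on_grid (a := a.1)
        have : (cen k a + (s : ℂ) * (Hm k a q p).1).re - (2 * a.1 + 1) / 2 ^ (k + 1) =
            s * (Hm k a q p).1.re := by
          simp [cen]
        rw [this]
        exact hbe _ h
      · left; right
        apply on_grid (a := a.2)
        have : (cen k a + (s : ℂ) * (Hm k a q p).1).im - (2 * a.2 + 1) / 2 ^ (k + 1) =
            s * (Hm k a q p).1.im := by
          simp [cen]
        rw [this]
        exact hbe _ h
      · right; left
        apply on_grid (a := q.1)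
        have : (cen k q + (s : ℂ) * (Hm k a q p).2).re - (2 * q.1 + 1) / 2 ^ (k + 1) =
            s * (Hm k a q p).2.re := by
          simp [cen]
        rw [this]
        exact hbe _ h
      · right; right
        apply on_grid (a := q.2)
        have : (cen k q + (s : ℂ) * (Hm k a q p).2).im - (2 * q.2 + 1) / 2 ^ (k + 1) =
            s * (Hm k a q p).2.im := by
          simp [cen]
        rw [this]
        exact hbe _ h
    · rw [nn_lt] at hlt
      obtain ⟨d1, d2, d3, d4⟩ := hlt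
      simp only [del, Complex.sub_re, Complex.sub_im] at d1 d2 d3 d4
      have e1 := hbd _ (re1_le (Hm k a q p))
      have e2 := hbd _ (im1_le (Hm k a q p))
      have e3 := hbd _ (re2_le (Hm k a q p))
      have e4 := hbd _ (im2_le (Hm k a q p))
      rw [hPsi]
      unfold nn
      simp only [Prod.fst_sub, Prod.snd_sub, Complex.sub_re, Complex.sub_im, Complex.add_re,
        Complex.add_im, Complex.re_ofReal_mul, Complex.im_ofReal_mul]
      rw [abs_lt] at d1 d2 d3 d4
      rw [abs_le] at e1 e2 e3 e4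
      refine max_le (max_le ?_ ?_) (max_le ?_ ?_) <;> rw [abs_le] <;> constructor <;> linarith
  · push Not at hex
    have hsum : ∑ a' ∈ G k, ∑ q' ∈ F k, corr k a' q' p = 0 := by
      apply Finset.sum_eq_zero
      intro a' ha'
      apply Finset.sum_eq_zero
      intro q' hq'
      exact corr_zero (hex a' q' ha' hq')
    have hPsi : Psi k p = (p.1.y 0, p.2.y k) := by
      unfold Psi
      rw [hsum, add_zero]
    rw [hPsi]
    constructor
    · by_contra hcon
      unfold GridPt at hcon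
      push Not at hcon
      obtain ⟨⟨n1, n2⟩, ⟨n3, n4⟩⟩ := hcon
      obtain ⟨a1, ha1⟩ := exists_cell k (p.1.y 0).re (by push Not; exact n1)
      obtain ⟨a2, ha2⟩ := exists_cell k (p.1.y 0).im (by push Not; exact n2)
      obtain ⟨q1, hq1⟩ := exists_cell k (p.2.y k).re (by push Not; exact n3)
      obtain ⟨q2, hq2⟩ := exists_cell k (p.2.y k).im (by push Not; exact n4)
      have hrk : 4 * rho k ≤ 1 / 8 := by
        unfold rho
        have : (2 : ℝ) ^ 5 ≤ 2 ^ (k + 2) := pow_le_pow_right₀ (by norm_num) (by omega)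
        rw [mul_one_div, div_le_div_iff₀ (by positivity) (by norm_num)]
        linarith
      have hlt : nn (del k (a1, a2) (q1, q2) p) < 2 * rho k := by
        rw [nn_lt]
        exact ⟨ha1, ha2, hq1, hq2⟩
      have hda : ‖(del k (a1, a2) (q1, q2) p).1‖ ≤ 2 * (2 * rho k) :=
        norm_le_two_nn _ ((re1_le _).trans hlt.le) ((im1_le _).trans hlt.le)
      have hdq : ‖(del k (a1, a2) (q1, q2) p).2‖ ≤ 2 * (2 * rho k) :=
        norm_le_two_nn _ ((re2_le _).trans hlt.le) ((im2_le _).trans hlt.le)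
      have hG : (a1, a2) ∈ G k := by
        rw [mem_G]
        have e : cen k (a1, a2) - 2 = (p.1.y 0 - 2) - (del k (a1, a2) (q1, q2) p).1 := by
          simp only [del]
          ring
        rw [e]
        refine (norm_sub_le _ _).trans_lt ?_
        linarith
      have hF : (q1, q2) ∈ F k := by
        rw [mem_F]
        have e : cen k (q1, q2) + 2 = (p.2.y 0 + 2) + (p.2.y k - p.2.y 0) -
            (del k (a1, a2) (q1, q2) p).2 := by
          simp only [del]
          ring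
        have h5 := p.2.norm_y_sub_le 0 k
        rw [zero_add] at h5
        have h6 := lam_pos k
        have h7 := lam_zero
        rw [e]
        refine (norm_sub_le _ _).trans_lt ?_
        have := norm_add_le (p.2.y 0 + 2) (p.2.y k - p.2.y 0)
        linarith
      exact absurd hlt (not_lt.2 (hex _ _ hG hF))
    · rw [sub_self]
      have : nn (0 : ℂ × ℂ) = 0 := by simp [nn]
      rw [this]
      linarith

end Pool.Agent.Helper562.CM
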