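import Pool.Agent.Helper562.CMPush
import Pool.Agent.Helper562.CMDim

set_option autoImplicit false

namespace Pool.Agent.Helper562.CM
open Set Topology Filter

/-- real coordinates of a complex number -/
def co (z : ℂ) (b : Bool) : ℝ := if b then z.im else z.re

lemma continuous_co (b : Bool) : Continuous fun z => co z b := by
  unfold co
  cases b
  · simpa using Complex.continuous_re
  · simpa using Complex.continuous_im

lemma abs_co_sub_le (z z' : ℂ) (b : Bool) : |co z b - co z' b| ≤ ‖z - z'‖ := by
  unfold co
  cases b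
  · simpa using Complex.abs_re_le_norm (z - z')
  · simpa using Complex.abs_im_le_norm (z - z')

lemma co_ext {z z' : ℂ} (h : ∀ b, co z b = co z' b) : z = z' :=
  Complex.ext (by simpa [co] using h false) (by simpa [co] using h true)

theorem dimLE_Wsp : DimLE Wsp 2 := by
  have h := dimLE_of_push (κ := Bool) (Z := Wsp) 2 (fun w b => co w.yinf b)
    (continuous_pi fun b => (continuous_co b).comp Wsp.continuous_yinf)
    (by
      intro b t ht hpre
      rcases t.eq_empty_or_nonempty with h0 | ⟨w₀, hw₀⟩
      · rw [h0]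
        exact subsingleton_empty
      · apply light hpre (p := w₀.yinf)
        intro w hw
        apply co_ext
        intro c
        have h1 := congrFun (ht hw) c
        have h2 := congrFun (ht hw₀) c
        simp only at h1 h2
        rw [h1, h2])
    (by
      intro η hη
      refine ⟨η / 2, by positivity, by linarith, fun w b => co w.yinf b,
        (continuous_pi fun b => (continuous_co b).comp Wsp.continuous_yinf), ?_, ?_⟩
      · intro z
        rw [dist_self]
        exact hη
      · intro z
        exact ⟨∅, by simp, by simp⟩)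
  exact_mod_cast h

/-- the closed set of quadruples: points 0 and 2 over the disc around `2`, points 1 and 3 over the
disc around `-2` -/
def Z4 : Set (Fin 4 → Wsp) := {z | ‖(z 0).y 0 - 2‖ ≤ 1 / 4 ∧ ‖(z 1).y 0 + 2‖ ≤ 1 / 4 ∧
  ‖(z 2).y 0 - 2‖ ≤ 1 / 4 ∧ ‖(z 3).y 0 + 2‖ ≤ 1 / 4}

lemma isClosed_Z4 : IsClosed Z4 := by
  have hc : ∀ i, Continuous fun z : Fin 4 → Wsp => (z i).y 0 := fun i =>
    (Wsp.continuous_y 0).comp (continuous_apply i)
  unfold Z4
  apply IsClosed.inter
  · exact isClosed_le ((hc 0).sub continuous_const).norm continuous_const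
  apply IsClosed.inter
  · exact isClosed_le ((hc 1).add continuous_const).norm continuous_const
  apply IsClosed.inter
  · exact isClosed_le ((hc 2).sub continuous_const).norm continuous_const
  · exact isClosed_le ((hc 3).add continuous_const).norm continuous_const

lemma hh_pos_of_near {w : Wsp} (h : ‖w.y 0 - 2‖ ≤ 1 / 4) : 0 < hh (w.y 0) := by
  have h3 : |(w.y 0 - 2).re| ≤ 1 / 4 := (Complex.abs_re_le_norm _).trans h
  rw [abs_le, Complex.sub_re] at h3
  unfold hh
  apply lt_max_of_lt_right
  have : (2 : ℂ).re = 2 := rfl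
  rw [this] at h3
  linarith [h3.1]

lemma Wsp.yinf_eq_of_outside {w : Wsp} (h : 3 / 4 ≤ ‖w.y 0 + 2‖) : w.yinf = w.y 0 := by
  have h1 := w.tendsto_yinf
  have h2 : (fun k => w.y k) = fun _ => w.y 0 := by
    funext k
    exact w.outside h k
  rw [h2] at h1
  exact tendsto_nhds_unique h1 tendsto_const_nhds

lemma outside_of_near {w : Wsp} (h : ‖w.y 0 - 2‖ ≤ 1 / 4) : 3 / 4 ≤ ‖w.y 0 + 2‖ := by
  have h3 : |(w.y 0 - 2).re| ≤ 1 / 4 := (Complex.abs_re_le_norm _).trans h
  rw [abs_le, Complex.sub_re] at h3
  have h4 : (w.y 0 + 2).re ≤ ‖w.y 0 + 2‖ := Complex.re_le_norm _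
  rw [Complex.add_re] at h4
  have : (2 : ℂ).re = 2 := rfl
  rw [this] at h3 h4
  linarith [h3.1]

/-- the four complex numbers given by two pushes -/
noncomputable def vec (k : ℕ) (z : Fin 4 → Wsp) : Fin 4 → ℂ :=
  ![(Psi k (z 0, z 1)).1, (Psi k (z 0, z 1)).2, (Psi k (z 2, z 3)).1, (Psi k (z 2, z 3)).2]

lemma gridPt_co {k : ℕ} {P : ℂ × ℂ} (h : GridPt k P) :
    (∃ b, ∃ n : ℤ, co P.1 b = n * (1 / 2 ^ k)) ∨ ∃ b, ∃ n : ℤ, co P.2 b = n * (1 / 2 ^ k) := by
  rcases h with (h | h) | (h | h)
  · exact Or.inl ⟨false, by simpa [co] using h⟩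
  · exact Or.inl ⟨true, by simpa [co] using h⟩
  · exact Or.inr ⟨false, by simpa [co] using h⟩
  · exact Or.inr ⟨true, by simpa [co] using h⟩

lemma co_dist {k : ℕ} {p : Wsp × Wsp} (h1 : ‖p.1.y 0 - 2‖ ≤ 1 / 4)
    (h : nn (Psi k p - (p.1.y 0, p.2.y k)) ≤ 4 * rho k) (b : Bool) :
    |co (Psi k p).1 b - co p.1.yinf b| ≤ 4 * rho k + 2 * lam k ∧
      |co (Psi k p).2 b - co p.2.yinf b| ≤ 4 * rho k + 2 * lam k := by
  have hl := lam_pos k
  constructor
  · rw [Wsp.yinf_eq_of_outside (outside_of_near h1)]
    have e1 := (re1_le _).trans h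
    have e2 := (im1_le _).trans h
    simp only [Prod.fst_sub, Complex.sub_re, Complex.sub_im] at e1 e2
    cases b
    · simp only [co, Bool.false_eq_true, if_false]
      linarith
    · simp only [co, if_true]
      linarith
  · have e3 := (re2_le _).trans h
    have e4 := (im2_le _).trans h
    simp only [Prod.snd_sub, Complex.sub_re, Complex.sub_im] at e3 e4
    have e5 := (abs_co_sub_le p.2.yinf (p.2.y k) b).trans (p.2.norm_yinf_sub_le k)
    have e6 : |co (Psi k p).2 b - co (p.2.y k) b| ≤ 4 * rho k := by
      cases b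
      · simpa [co] using e3
      · simpa [co] using e4
    have e7 : co (Psi k p).2 b - co p.2.yinf b =
        (co (Psi k p).2 b - co (p.2.y k) b) - (co p.2.yinf b - co (p.2.y k) b) := by ring
    rw [e7]
    exact (abs_sub _ _).trans (add_le_add e6 e5)

theorem dimLE_Z4 : DimLE Z4 6 := by
  have : CompactSpace Z4 := isCompact_iff_compactSpace.1 isClosed_Z4.isCompact
  have hπ : Continuous fun (z : Z4) (i : Fin 4 × Bool) => co ((z : Fin 4 → Wsp) i.1).yinf i.2 := by
    apply continuous_pi
    intro i
    exact (continuous_co i.2).comp (Wsp.continuous_yinf.comp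
      ((continuous_apply i.1).comp continuous_subtype_val))
  have h := dimLE_of_push (κ := Fin 4 × Bool) (Z := Z4) 6
    (fun (z : Z4) (i : Fin 4 × Bool) => co ((z : Fin 4 → Wsp) i.1).yinf i.2) hπ
    (by
      intro b t ht hpre z hz z' hz'
      apply Subtype.ext
      funext j
      have himg : IsPreconnected ((fun u : Z4 => (u : Fin 4 → Wsp) j) '' t) :=
        hpre.image _ ((continuous_apply j).comp continuous_subtype_val).continuousOn
      refine light himg (p := ((z : Fin 4 → Wsp) j).yinf) ?_ ⟨z, hz, rfl⟩ ⟨z', hz', rfl⟩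
      rintro _ ⟨u, hu, rfl⟩
      apply co_ext
      intro c
      have h1 := congrFun (ht hu) (j, c)
      have h2 := congrFun (ht hz) (j, c)
      simp only at h1 h2
      rw [h1, h2])
    (by
      intro η hη
      obtain ⟨m, hm⟩ := exists_pow_lt_of_lt_one (show 0 < η / 3 by positivity)
        (by norm_num : (1 / 2 : ℝ) < 1)
      set k := m + 3 with hk
      have hkm : (1 / 2 : ℝ) ^ k < η / 3 := by
        refine lt_of_le_of_lt ?_ hm
        exact pow_le_pow_of_le_one (by norm_num) (by norm_num) (by omega)
      have h4r : 4 * rho k = (1 / 2) ^ k := by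
        unfold rho
        rw [one_div_pow, pow_add]
        field_simp
        norm_num
      have hlk := lam_le_pow k
      have hpos : (0 : ℝ) < (1 / 2) ^ k := by positivity
      refine ⟨1 / 2 ^ k, by positivity, by rw [← one_div_pow]; linarith,
        fun z i => co (vec k z i.1) i.2, ?_, ?_, ?_⟩
      · have hc01 : Continuous fun z : Z4 => Psi k ((z : Fin 4 → Wsp) 0, (z : Fin 4 → Wsp) 1) := by
          apply (continuousOn_Psi k).comp_continuous
          · exact ((continuous_apply 0).comp continuous_subtype_val).prodMk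
              ((continuous_apply 1).comp continuous_subtype_val)
          · intro z
            exact hh_pos_of_near z.2.1
        have hc23 : Continuous fun z : Z4 => Psi k ((z : Fin 4 → Wsp) 2, (z : Fin 4 → Wsp) 3) := by
          apply (continuousOn_Psi k).comp_continuous
          · exact ((continuous_apply 2).comp continuous_subtype_val).prodMk
              ((continuous_apply 3).comp continuous_subtype_val)
          · intro z
            exact hh_pos_of_near z.2.2.2.1
        apply continuous_pi
        rintro ⟨i, b⟩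
        apply (continuous_co b).comp
        fin_cases i
        · exact continuous_fst.comp hc01
        · exact continuous_snd.comp hc01
        · exact continuous_fst.comp hc23
        · exact continuous_snd.comp hc23
      · intro z
        have s01 := Psi_spec (k := k) (by omega) (p := ((z : Fin 4 → Wsp) 0, (z : Fin 4 → Wsp) 1))
          z.2.1 z.2.2.1
        have s23 := Psi_spec (k := k) (by omega) (p := ((z : Fin 4 → Wsp) 2, (z : Fin 4 → Wsp) 3))
          z.2.2.2.1 z.2.2.2.2
        refine lt_of_le_of_lt (b := 4 * rho k + 2 * lam k) ?_ (by rw [h4r]; linarith)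
        rw [dist_pi_le_iff (by have := rho_pos k; have := lam_pos k; positivity)]
        rintro ⟨i, b⟩
        rw [Real.dist_eq]
        have c01 := co_dist z.2.1 s01.2 b
        have c23 := co_dist z.2.2.2.1 s23.2 b
        fin_cases i
        · exact c01.1
        · exact c01.2
        · exact c23.1
        · exact c23.2
      · intro z
        have s01 := gridPt_co (Psi_spec (k := k) (by omega)
          (p := ((z : Fin 4 → Wsp) 0, (z : Fin 4 → Wsp) 1)) z.2.1 z.2.2.1).1
        have s23 := gridPt_co (Psi_spec (k := k) (by omega)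
          (p := ((z : Fin 4 → Wsp) 2, (z : Fin 4 → Wsp) 3)) z.2.2.2.1 z.2.2.2.2).1
        obtain ⟨i₁, hi₁, b₁, n₁, hn₁⟩ : ∃ i : Fin 4, i < 2 ∧ ∃ b, ∃ n : ℤ,
            co (vec k z i) b = n * (1 / 2 ^ k) := by
          rcases s01 with h | h
          · exact ⟨0, by decide, h⟩
          · exact ⟨1, by decide, h⟩
        obtain ⟨i₂, hi₂, b₂, n₂, hn₂⟩ : ∃ i : Fin 4, 2 ≤ i ∧ ∃ b, ∃ n : ℤ,
            co (vec k z i) b = n * (1 / 2 ^ k) := by
          rcases s23 with h | h
          · exact ⟨2, by decide, h⟩
          · exact ⟨3, by decide, h⟩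
        refine ⟨{(i₁, b₁), (i₂, b₂)}, ?_, ?_⟩
        · rw [Finset.card_pair]
          · simp
          · intro h
            have := congrArg Prod.fst h
            simp only at this
            rw [this] at hi₁
            exact absurd hi₁ (not_lt.2 hi₂)
        · intro i hi
          simp only [Finset.mem_insert, Finset.mem_singleton] at hi
          rcases hi with rfl | rfl
          · exact ⟨n₁, hn₁⟩
          · exact ⟨n₂, hn₂⟩)
  exact_mod_cast h

end Pool.Agent.Helper562.CM
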