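import Pool.Agent.Helper562.CMPushB

set_option autoImplicit false

namespace Pool.Agent.Helper562.CM
open Set Topology Filter

/-- tuples whose first four points are as in `Z4` -/
def ZZ (j : ℕ) : Set (Fin 4 ⊕ Fin j → Wsp) := {z | (fun i => z (Sum.inl i)) ∈ Z4}

lemma isClosed_ZZ (j : ℕ) : IsClosed (ZZ j) :=
  isClosed_Z4.preimage (continuous_pi fun i => continuous_apply (Sum.inl i))

/-- coordinates after the push -/
noncomputable def vecj (k j : ℕ) (z : Fin 4 ⊕ Fin j → Wsp) : Fin 4 ⊕ Fin j → ℂ :=
  Sum.elim (vec k fun i => z (Sum.inl i)) (fun i => (z (Sum.inr i)).yinf)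

theorem dimLE_ZZ (j : ℕ) : DimLE (ZZ j) (6 + 2 * j) := by
  classical
  have : CompactSpace (ZZ j) := isCompact_iff_compactSpace.1 (isClosed_ZZ j).isCompact
  have hπ : Continuous fun (z : ZZ j) (i : (Fin 4 ⊕ Fin j) × Bool) =>
      co ((z : Fin 4 ⊕ Fin j → Wsp) i.1).yinf i.2 := by
    apply continuous_pi
    intro i
    exact (continuous_co i.2).comp (Wsp.continuous_yinf.comp
      ((continuous_apply i.1).comp continuous_subtype_val))
  have h := dimLE_of_push (κ := (Fin 4 ⊕ Fin j) × Bool) (Z := ZZ j) (6 + 2 * j)
    (fun (z : ZZ j) (i : (Fin 4 ⊕ Fin j) × Bool) => co ((z : Fin 4 ⊕ Fin j → Wsp) i.1).yinf i.2) hπ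
    (by
      intro b t ht hpre z hz z' hz'
      apply Subtype.ext
      funext i
      have himg : IsPreconnected ((fun u : ZZ j => (u : Fin 4 ⊕ Fin j → Wsp) i) '' t) :=
        hpre.image _ ((continuous_apply i).comp continuous_subtype_val).continuousOn
      refine light himg (p := ((z : Fin 4 ⊕ Fin j → Wsp) i).yinf) ?_ ⟨z, hz, rfl⟩ ⟨z', hz', rfl⟩
      rintro _ ⟨u, hu, rfl⟩
      apply co_ext
      intro c
      have h1 := congrFun (ht hu) (i, c)
      have h2 := congrFun (ht hz) (i, c)
      simp only at h1 h2
      rw [h1, h2])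
    (by
      intro η hη
      obtain ⟨m, hm⟩ := exists_pow_lt_of_lt_one (show 0 < η / 3 by positivity)
        (by norm_num : (1 / 2 : ℝ) < 1)
      set k := m + 3 with hk
      have hkm : (1 / 2 : ℝ) ^ k < η / 3 := by
        refine lt_of_le_of_lt ?_ hm
        exact pow_le_pow_of_le_one (by norm_num) (by norm_num) (by omega)
      have h4r : 4 * rho k = (1 / 2) ^ k := by
        unfold rho
        rw [one_div_pow, pow_add]
        field_simp
        norm_num
      have hlk := lam_le_pow k
      have hpos : (0 : ℝ) < (1 / 2) ^ k := by positivity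
      refine ⟨1 / 2 ^ k, by positivity, by rw [← one_div_pow]; linarith,
        fun z i => co (vecj k j z i.1) i.2, ?_, ?_, ?_⟩
      · have hc01 : Continuous fun z : ZZ j =>
            Psi k ((z : Fin 4 ⊕ Fin j → Wsp) (Sum.inl 0), (z : Fin 4 ⊕ Fin j → Wsp) (Sum.inl 1)) := by
          apply (continuousOn_Psi k).comp_continuous
          · exact ((continuous_apply _).comp continuous_subtype_val).prodMk
              ((continuous_apply _).comp continuous_subtype_val)
          · intro z
            exact hh_pos_of_near z.2.1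
        have hc23 : Continuous fun z : ZZ j =>
            Psi k ((z : Fin 4 ⊕ Fin j → Wsp) (Sum.inl 2), (z : Fin 4 ⊕ Fin j → Wsp) (Sum.inl 3)) := by
          apply (continuousOn_Psi k).comp_continuous
          · exact ((continuous_apply _).comp continuous_subtype_val).prodMk
              ((continuous_apply _).comp continuous_subtype_val)
          · intro z
            exact hh_pos_of_near z.2.2.2.1
        apply continuous_pi
        rintro ⟨i | i, b⟩
        · apply (continuous_co b).comp
          fin_cases i
          · exact continuous_fst.comp hc01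
          · exact continuous_snd.comp hc01
          · exact continuous_fst.comp hc23
          · exact continuous_snd.comp hc23
        · exact (continuous_co b).comp (Wsp.continuous_yinf.comp
            ((continuous_apply (Sum.inr i)).comp continuous_subtype_val))
      · intro z
        have s01 := Psi_spec (k := k) (by omega)
          (p := ((z : Fin 4 ⊕ Fin j → Wsp) (Sum.inl 0), (z : Fin 4 ⊕ Fin j → Wsp) (Sum.inl 1)))
          z.2.1 z.2.2.1
        have s23 := Psi_spec (k := k) (by omega)
          (p := ((z : Fin 4 ⊕ Fin j → Wsp) (Sum.inl 2), (z : Fin 4 ⊕ Fin j → Wsp) (Sum.inl 3)))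
          z.2.2.2.1 z.2.2.2.2
        have hr := rho_pos k
        have hl := lam_pos k
        refine lt_of_le_of_lt (b := 4 * rho k + 2 * lam k) ?_ (by rw [h4r]; linarith)
        rw [dist_pi_le_iff (by positivity)]
        rintro ⟨i | i, b⟩
        · rw [Real.dist_eq]
          have c01 := co_dist z.2.1 s01.2 b
          have c23 := co_dist z.2.2.2.1 s23.2 b
          fin_cases i
          · exact c01.1
          · exact c01.2
          · exact c23.1
          · exact c23.2
        · have : dist (co (vecj k j z (Sum.inr i)) b)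
              (co ((z : Fin 4 ⊕ Fin j → Wsp) (Sum.inr i)).yinf b) = 0 := dist_self _
          simp only
          rw [this]
          positivity
      · intro z
        have s01 := gridPt_co (Psi_spec (k := k) (by omega)
          (p := ((z : Fin 4 ⊕ Fin j → Wsp) (Sum.inl 0), (z : Fin 4 ⊕ Fin j → Wsp) (Sum.inl 1)))
          z.2.1 z.2.2.1).1
        have s23 := gridPt_co (Psi_spec (k := k) (by omega)
          (p := ((z : Fin 4 ⊕ Fin j → Wsp) (Sum.inl 2), (z : Fin 4 ⊕ Fin j → Wsp) (Sum.inl 3)))
          z.2.2.2.1 z.2.2.2.2).1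
        obtain ⟨i₁, hi₁, b₁, n₁, hn₁⟩ : ∃ i : Fin 4, i < 2 ∧ ∃ b, ∃ n : ℤ,
            co (vecj k j z (Sum.inl i)) b = n * (1 / 2 ^ k) := by
          rcases s01 with h | h
          · exact ⟨0, by decide, h⟩
          · exact ⟨1, by decide, h⟩
        obtain ⟨i₂, hi₂, b₂, n₂, hn₂⟩ : ∃ i : Fin 4, 2 ≤ i ∧ ∃ b, ∃ n : ℤ,
            co (vecj k j z (Sum.inl i)) b = n * (1 / 2 ^ k) := by
          rcases s23 with h | h
          · exact ⟨2, by decide, h⟩
          · exact ⟨3, by decide, h⟩
        refine ⟨{(Sum.inl i₁, b₁), (Sum.inl i₂, b₂)}, ?_, ?_⟩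
        · rw [Finset.card_pair]
          · simp only [Fintype.card_prod, Fintype.card_sum, Fintype.card_fin, Fintype.card_bool]
            omega
          · intro h
            have := Sum.inl_injective (congrArg Prod.fst h)
            rw [this] at hi₁
            exact absurd hi₁ (not_lt.2 hi₂)
        · intro i hi
          simp only [Finset.mem_insert, Finset.mem_singleton] at hi
          rcases hi with rfl | rfl
          · exact ⟨n₁, hn₁⟩
          · exact ⟨n₂, hn₂⟩)
  have h2 : (((6 + 2 * j : ℕ) : ℤ)) = 6 + 2 * j := by push_cast; ring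
  rw [h2] at h
  exact h

end Pool.Agent.Helper562.CM
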