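import Pool.Agent.Helper562.CMEssA

set_option autoImplicit false

namespace Pool.Agent.Helper562.CM
open Set Topology Filter

/-- removal of isolated singularities with local square roots -/
theorem global_root (T : Finset ℂ) : ∀ g : ℂ → ℂ, ContinuousOn g (T : Set ℂ)ᶜ →
    (∀ x, x ∉ T → g x ≠ 0) →
    (∀ e ∈ T, ∃ r > 0, ∃ σ : ℂ → ℂ, ContinuousOn σ (Metric.ball e r \ {e}) ∧
      ∀ x ∈ Metric.ball e r \ {e}, σ x ^ 2 = g x) →
    ∃ S : ℂ → ℂ, ContinuousOn S (T : Set ℂ)ᶜ ∧ ∀ x, x ∉ T → S x ^ 2 = g x := by
  classical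
  induction T using Finset.induction_on with
  | empty =>
    intro g hg hg0 _
    have hsc : IsSimplyConnected (univ : Set ℂ) := by
      have : ContractibleSpace (univ : Set ℂ) := convex_univ.contractibleSpace ⟨0, trivial⟩
      exact SimplyConnectedSpace.ofContractible _
    have hgc : ContinuousOn g univ := by simpa using hg
    obtain ⟨L, hL, hLe⟩ := Complex.exists_continuousOn_eqOn_exp_comp hsc isOpen_univ hgc (by
      rintro ⟨x, -, hx⟩
      exact hg0 x (by simp) hx)
    refine ⟨fun x => Complex.exp (L x / 2), ?_, ?_⟩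
    · have := continuousOn_univ.1 hL
      apply Continuous.continuousOn
      fun_prop
    · intro x _
      rw [← Complex.exp_nat_mul]
      have h1 : Complex.exp (L x) = g x := hLe (mem_univ x)
      rw [← h1]
      congr 1
      push_cast
      ring
  | insert e T he ih =>
    intro g hg hg0 hloc
    obtain ⟨r₀, hr₀, σ, hσ, hσ2⟩ := hloc e (Finset.mem_insert_self e T)
    -- a ball free of other singularities
    obtain ⟨r₁, hr₁, hball⟩ := Metric.isOpen_iff.1 (T.finite_toSet.isClosed.isOpen_compl) e
      (by simpa using he)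
    set r := min r₀ r₁ with hr
    have hrpos : 0 < r := lt_min hr₀ hr₁
    have hgball : ∀ x ∈ Metric.ball e r, x ≠ e → g x ≠ 0 := by
      intro x hx hxe
      apply hg0
      intro hmem
      rcases Finset.mem_insert.1 hmem with h | h
      · exact hxe h
      · exact hball (Metric.ball_subset_ball (min_le_right _ _) hx) (by simpa using h)
    -- radial retraction
    let ρ : ℂ → ℂ := fun x => e + ((min ‖x - e‖ (r / 2) / ‖x - e‖ : ℝ) : ℂ) * (x - e)
    have hρn : ∀ x, x ≠ e → ‖ρ x - e‖ = min ‖x - e‖ (r / 2) := by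
      intro x hx
      have h1 : 0 < ‖x - e‖ := norm_pos_iff.2 (sub_ne_zero.2 hx)
      simp only [ρ]
      rw [add_sub_cancel_left, norm_mul, Complex.norm_real, Real.norm_of_nonneg (by positivity)]
      field_simp
    have hρmem : ∀ x, x ≠ e → ρ x ∈ Metric.ball e r \ {e} := by
      intro x hx
      have h1 : 0 < ‖x - e‖ := norm_pos_iff.2 (sub_ne_zero.2 hx)
      have h2 := hρn x hx
      constructor
      · rw [Metric.mem_ball, dist_eq_norm, h2]
        exact (min_le_right _ _).trans_lt (by linarith)
      · intro h3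
        rw [mem_singleton_iff] at h3
        rw [h3, sub_self, norm_zero] at h2
        have : 0 < min ‖x - e‖ (r / 2) := lt_min h1 (by positivity)
        linarith
    have hρid : ∀ x, x ≠ e → ‖x - e‖ ≤ r / 2 → ρ x = x := by
      intro x hx hxr
      have h1 : ‖x - e‖ ≠ 0 := norm_ne_zero_iff.2 (sub_ne_zero.2 hx)
      simp only [ρ]
      rw [min_eq_left hxr, div_self h1]
      simp
    have hρc : ContinuousOn ρ {e}ᶜ := by
      have h1 : ContinuousOn (fun x : ℂ => min ‖x - e‖ (r / 2) / ‖x - e‖) {e}ᶜ := by
        apply ContinuousOn.div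
        · fun_prop
        · fun_prop
        · intro x hx
          exact norm_ne_zero_iff.2 (sub_ne_zero.2 hx)
      have h2 := Complex.continuous_ofReal.comp_continuousOn h1
      exact continuousOn_const.add (h2.mul (by fun_prop))
    let s : ℂ → ℂ := fun x => σ (ρ x)
    have hsub : Metric.ball e r \ {e} ⊆ Metric.ball e r₀ \ {e} :=
      sdiff_subset_sdiff_left (Metric.ball_subset_ball (min_le_left _ _))
    have hs : ContinuousOn s {e}ᶜ := (hσ.mono hsub).comp hρc (fun x hx => hρmem x hx)
    have hs0 : ∀ x, x ≠ e → s x ≠ 0 := by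
      intro x hx h0
      have h1 := hσ2 (ρ x) (hsub (hρmem x hx))
      have h2 : σ (ρ x) = 0 := h0
      rw [h2] at h1
      have h3 := hρmem x hx
      exact hgball (ρ x) h3.1 h3.2 (by rw [← h1]; simp)
    have hsg : ∀ x, x ≠ e → ‖x - e‖ ≤ r / 2 → s x ^ 2 = g x := by
      intro x hx hxr
      simp only [s]
      rw [hρid x hx hxr]
      apply hσ2
      apply hsub
      rw [← hρid x hx hxr]
      exact hρmem x hx
    -- the function with one singularity less
    let g₁ : ℂ → ℂ := fun x => if x = e then 1 else g x / s x ^ 2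
    have hTe : IsOpen ((T : Set ℂ)ᶜ) := T.finite_toSet.isClosed.isOpen_compl
    have hTe' : IsOpen (((insert e T : Finset ℂ) : Set ℂ)ᶜ) :=
      (insert e T).finite_toSet.isClosed.isOpen_compl
    have hg₁c : ContinuousOn g₁ (T : Set ℂ)ᶜ := by
      intro x hx
      apply ContinuousAt.continuousWithinAt
      by_cases hxe : x = e
      · subst hxe
        have hev : g₁ =ᶠ[𝓝 x] fun _ => 1 := by
          filter_upwards [Metric.ball_mem_nhds x (show 0 < r / 2 by positivity)] with z hz
          by_cases hzx : z = x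
          · simp [g₁, hzx]
          · simp only [g₁, hzx, if_false]
            rw [Metric.mem_ball, dist_eq_norm] at hz
            rw [← hsg z hzx hz.le, div_self]
            exact pow_ne_zero _ (hs0 z hzx)
        exact (continuousAt_const).congr hev.symm
      · have hev : g₁ =ᶠ[𝓝 x] fun z => g z / s z ^ 2 := by
          filter_upwards [isOpen_compl_singleton.mem_nhds (show x ∈ ({e} : Set ℂ)ᶜ from hxe)] with z hz
          have hz' : z ≠ e := hz
          simp [g₁, hz']
        refine ContinuousAt.congr ?_ hev.symm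
        have h1 : ContinuousAt g x := hg.continuousAt (hTe'.mem_nhds (by
          simp only [Finset.coe_insert, mem_compl_iff, mem_insert_iff, not_or]
          exact ⟨hxe, hx⟩))
        have h2 : ContinuousAt s x := hs.continuousAt (isOpen_compl_singleton.mem_nhds hxe)
        exact h1.div (h2.pow 2) (pow_ne_zero _ (hs0 x hxe))
    have hg₁0 : ∀ x, x ∉ T → g₁ x ≠ 0 := by
      intro x hx
      by_cases hxe : x = e
      · simp [g₁, hxe]
      · simp only [g₁, hxe, if_false]
        exact div_ne_zero (hg0 x (by simp [hxe, hx])) (pow_ne_zero _ (hs0 x hxe))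
    obtain ⟨S₁, hS₁, hS₁g⟩ := ih g₁ hg₁c hg₁0 (by
      intro e' he'
      obtain ⟨r', hr', τ, hτ, hτ2⟩ := hloc e' (Finset.mem_insert_of_mem he')
      have hne : e' ≠ e := fun h => he (h ▸ he')
      have hd : 0 < dist e e' := dist_pos.2 hne.symm
      refine ⟨min r' (dist e e'), lt_min hr' hd, fun x => τ x / s x, ?_, ?_⟩
      · apply ContinuousOn.div
        · exact hτ.mono (sdiff_subset_sdiff_left (Metric.ball_subset_ball (min_le_left _ _)))
        · apply hs.mono
          rintro x ⟨hx, -⟩ hxe
          rw [mem_singleton_iff] at hxe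
          rw [hxe, Metric.mem_ball] at hx
          exact absurd (hx.trans_le (min_le_right _ _)) (lt_irrefl _)
        · rintro x ⟨hx, -⟩
          apply hs0
          intro hxe
          rw [hxe, Metric.mem_ball] at hx
          exact absurd (hx.trans_le (min_le_right _ _)) (lt_irrefl _)
      · rintro x ⟨hx, hxe'⟩
        have hxe : x ≠ e := by
          intro hxe
          rw [hxe, Metric.mem_ball] at hx
          exact absurd (hx.trans_le (min_le_right _ _)) (lt_irrefl _)
        simp only [g₁, hxe, if_false]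
        rw [div_pow, hτ2 x ⟨Metric.ball_subset_ball (min_le_left _ _) hx, hxe'⟩])
    refine ⟨fun x => S₁ x * s x, ?_, ?_⟩
    · apply ContinuousOn.mul
      · apply hS₁.mono
        intro x hx h
        apply hx
        simp only [Finset.coe_insert, mem_insert_iff]
        exact Or.inr h
      · apply hs.mono
        intro x hx h
        apply hx
        simp only [Finset.coe_insert, mem_insert_iff]
        exact Or.inl h
    · intro x hx
      have hxe : x ≠ e := fun h => hx (by simp [h])
      have hxT : x ∉ T := fun h => hx (by simp [h])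
      rw [mul_pow, hS₁g x hxT]
      simp only [g₁, hxe, if_false]
      exact div_mul_cancel₀ _ (pow_ne_zero _ (hs0 x hxe))

/-- an even function on the circle has a square root -/
theorem circle_root {Fn : ℂ → ℂ} (hF : ContinuousOn Fn {u | ‖u‖ = 1}) (hF0 : ∀ u, ‖u‖ = 1 → Fn u ≠ 0) :
    ∃ q : ℂ → ℂ, ContinuousOn q {u | ‖u‖ = 1} ∧ ∀ u, ‖u‖ = 1 → q u ^ 2 = Fn (u ^ 2) := by
  have hn : ∀ t : ℝ, ‖Complex.exp (2 * t * Complex.I)‖ = 1 := by
    intro t
    have : (2 * (t : ℂ) * Complex.I) = ((2 * t : ℝ) : ℂ) * Complex.I := by push_cast; ring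
    rw [this, Complex.norm_exp_ofReal_mul_I]
  have hφ : Continuous fun t : ℝ => Fn (Complex.exp (2 * t * Complex.I)) :=
    hF.comp_continuous (by fun_prop) hn
  have hsc : IsSimplyConnected (univ : Set ℝ) := by
    have : ContractibleSpace (univ : Set ℝ) := convex_univ.contractibleSpace ⟨0, trivial⟩
    exact SimplyConnectedSpace.ofContractible _
  obtain ⟨Λ, hΛ, hΛe⟩ := Complex.exists_continuousOn_eqOn_exp_comp hsc isOpen_univ
    hφ.continuousOn (by
      rintro ⟨x, -, hx⟩
      exact hF0 _ (hn x) hx)
  have hΛc : Continuous Λ := continuousOn_univ.1 hΛ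
  have hΛ' : ∀ t : ℝ, Complex.exp (Λ t) = Fn (Complex.exp (2 * t * Complex.I)) := fun t =>
    hΛe (mem_univ t)
  have hper : ∀ t : ℝ, Complex.exp (2 * ((t + Real.pi : ℝ) : ℂ) * Complex.I) =
      Complex.exp (2 * t * Complex.I) := by
    intro t
    have : 2 * ((t + Real.pi : ℝ) : ℂ) * Complex.I = 2 * t * Complex.I + 2 * Real.pi * Complex.I := by
      push_cast
      ring
    rw [this, Complex.exp_add, Complex.exp_two_pi_mul_I, mul_one]
  have h1 : ∀ t : ℝ, Complex.exp (Λ (t + Real.pi) - Λ t) = 1 := by
    intro t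
    rw [Complex.exp_sub, hΛ', hΛ', hper, div_self (hF0 _ (hn t))]
  have hκ : ∀ t : ℝ, Λ (t + Real.pi) - Λ t = Λ (0 + Real.pi) - Λ 0 := fun t =>
    const_of_exp_const (fun t => Λ (t + Real.pi) - Λ t) (by fun_prop) 1 h1 t 0
  let ψ : ℝ → ℂ := fun t => Complex.exp (Λ t / 2)
  have hψc : Continuous ψ := by unfold ψ; fun_prop
  have hψ2 : ∀ t, ψ t ^ 2 = Fn (Complex.exp (2 * t * Complex.I)) := by
    intro t
    simp only [ψ]
    rw [← Complex.exp_nat_mul, ← hΛ']
    congr 1
    push_cast
    ring
  have hψp : Function.Periodic ψ (2 * Real.pi) := by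
    intro t
    have e1 := hκ (t + Real.pi)
    have e2 := hκ t
    have e3 : Λ (t + 2 * Real.pi) = Λ t + 2 * (Λ (0 + Real.pi) - Λ 0) := by
      rw [show t + 2 * Real.pi = t + Real.pi + Real.pi by ring]
      linear_combination e1 + e2
    simp only [ψ]
    rw [e3, show (Λ t + 2 * (Λ (0 + Real.pi) - Λ 0)) / 2 = Λ t / 2 + (Λ (0 + Real.pi) - Λ 0) by ring,
      Complex.exp_add, h1 0, mul_one]
  -- value depends only on the point of the circle
  have hψw : ∀ t t' : ℝ, Complex.exp (t * Complex.I) = Complex.exp (t' * Complex.I) → ψ t = ψ t' := by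
    intro t t' h
    obtain ⟨n, hn⟩ := Complex.exp_eq_exp_iff_exists_int.1 h
    have h2 : t = t' + n * (2 * Real.pi) := by
      have h3 : ((t : ℂ) - (t' + n * (2 * Real.pi))) * Complex.I = 0 := by
        linear_combination hn
      rcases mul_eq_zero.1 h3 with h4 | h4
      · have h5 : ((t - (t' + n * (2 * Real.pi)) : ℝ) : ℂ) = 0 := by
          push_cast
          exact h4
        have h6 : t - (t' + n * (2 * Real.pi)) = 0 := by exact_mod_cast h5
        linarith
      · exact absurd h4 Complex.I_ne_zero
    rw [h2]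
    exact (hψp.int_mul n) t'
  refine ⟨fun u => ψ (Complex.arg u), ?_, ?_⟩
  · intro u₀ hu₀
    have hu₀' : ‖u₀‖ = 1 := hu₀
    have hne : u₀ ≠ 0 := norm_ne_zero_iff.1 (by rw [hu₀']; norm_num)
    have hexp : ∀ u : ℂ, ‖u‖ = 1 → Complex.exp (Complex.arg u * Complex.I) = u := by
      intro u hu
      have := Complex.norm_mul_exp_arg_mul_I u
      rw [hu] at this
      simpa using this
    have hcont : ContinuousAt (fun u => ψ (Complex.arg (u / u₀) + Complex.arg u₀)) u₀ := by
      apply hψc.continuousAt.comp
      apply ContinuousAt.add _ continuousAt_const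
      apply ContinuousAt.comp (f := fun u => u / u₀) (g := Complex.arg)
      · rw [div_self hne]
        exact Complex.continuousAt_arg (by simp)
      · exact (continuous_id.div_const u₀).continuousAt
    refine hcont.continuousWithinAt.congr ?_ ?_
    · intro u hu
      have hu' : ‖u‖ = 1 := hu
      apply hψw
      have h3 : ‖u / u₀‖ = 1 := by rw [norm_div, hu', hu₀', div_one]
      rw [hexp u hu']
      push_cast
      rw [add_mul, Complex.exp_add, hexp _ h3, hexp _ hu₀', div_mul_cancel₀ _ hne]
    · apply hψw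
      rw [div_self hne]
      simp
  · intro u hu
    have hu' : ‖u‖ = 1 := hu
    rw [hψ2]
    congr 1
    have h4 : Complex.exp (Complex.arg u * Complex.I) = u := by
      have := Complex.norm_mul_exp_arg_mul_I u
      rw [hu'] at this
      simpa using this
    rw [← h4, ← Complex.exp_nat_mul, h4]
    congr 1
    push_cast
    ring

end Pool.Agent.Helper562.CM
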