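import Mathlib

set_option autoImplicit false

namespace Pool.Agent.Helper562.CM
open Set Topology

/-- centre of the grid square of level `k` with lower left corner `(a, b) / 2 ^ k` -/
noncomputable def cen (k : ℕ) (q : ℤ × ℤ) : ℂ :=
  ⟨(2 * q.1 + 1) / 2 ^ (k + 1), (2 * q.2 + 1) / 2 ^ (k + 1)⟩

noncomputable def rho (k : ℕ) : ℝ := 1 / 2 ^ (k + 2)

noncomputable def lam (k : ℕ) : ℝ := (1 / 2) ^ (8 ^ (k + 1))

noncomputable def hh (z : ℂ) : ℝ := max 0 (z.re - 1)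

lemma rho_pos (k : ℕ) : 0 < rho k := by unfold rho; positivity
lemma lam_pos (k : ℕ) : 0 < lam k := by unfold lam; positivity

lemma finite_F (k : ℕ) : {q : ℤ × ℤ | ‖cen k q + 2‖ < 1 / 2}.Finite := by
  apply (finite_Icc ((-(3 * 2 ^ (k + 1)) : ℤ), (-(3 * 2 ^ (k + 1)) : ℤ))
    ((3 * 2 ^ (k + 1) : ℤ), (3 * 2 ^ (k + 1) : ℤ))).subset
  intro q hq
  have h1 : ‖cen k q‖ < 3 := by
    have : cen k q = (cen k q + 2) - 2 := by ring
    rw [this]
    have h2 : ‖(2 : ℂ)‖ = 2 := by simp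
    have h3 : ‖cen k q + 2‖ < 1 / 2 := hq
    calc ‖cen k q + 2 - 2‖ ≤ ‖cen k q + 2‖ + ‖(2 : ℂ)‖ := norm_sub_le _ _
      _ < 3 := by rw [h2]; linarith
  have hre := (Complex.abs_re_le_norm (cen k q)).trans_lt h1
  have him := (Complex.abs_im_le_norm (cen k q)).trans_lt h1
  have hp : (0 : ℝ) < 2 ^ (k + 1) := by positivity
  have key : ∀ a : ℤ, |(2 * (a : ℝ) + 1) / 2 ^ (k + 1)| < 3 →
      -(3 * 2 ^ (k + 1)) ≤ a ∧ a ≤ 3 * 2 ^ (k + 1) := by
    intro a ha
    rw [abs_lt, lt_div_iff₀ hp, div_lt_iff₀ hp] at ha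
    obtain ⟨h3, h4⟩ := ha
    have h5 : (-(3 * 2 ^ (k + 1)) : ℤ) < 2 * a + 1 := by
      have : ((-(3 * 2 ^ (k + 1)) : ℤ) : ℝ) < ((2 * a + 1 : ℤ) : ℝ) := by push_cast; linarith
      exact_mod_cast this
    have h6 : (2 * a + 1 : ℤ) < 3 * 2 ^ (k + 1) := by
      have : ((2 * a + 1 : ℤ) : ℝ) < ((3 * 2 ^ (k + 1) : ℤ) : ℝ) := by push_cast; linarith
      exact_mod_cast this
    have h7 : (1 : ℤ) ≤ 2 ^ (k + 1) := by
      exact_mod_cast Nat.one_le_two_pow
    constructor <;> linarith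
  have ha := key q.1 (by simpa [cen] using hre)
  have hb := key q.2 (by simpa [cen] using him)
  exact ⟨⟨ha.1, hb.1⟩, ⟨ha.2, hb.2⟩⟩

/-- the centres of level `k` at which blow-ups take place -/
noncomputable def F (k : ℕ) : Finset (ℤ × ℤ) := (finite_F k).toFinset

lemma mem_F {k : ℕ} {q : ℤ × ℤ} : q ∈ F k ↔ ‖cen k q + 2‖ < 1 / 2 := by
  unfold F
  simp

/-- bump function around a centre -/
noncomputable def bump (k : ℕ) (z : ℂ) (q : ℤ × ℤ) : ℝ := max 0 (1 - ‖z - cen k q‖ ^ 2 / rho k ^ 2)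

/-- total shift -/
noncomputable def shift (k : ℕ) (z : ℂ) (Y : ℤ × ℤ → ℂ) : ℝ :=
  ∑ q ∈ F k, bump k z q * (Y q).re

abbrev Amb : Type := (ℕ × ℤ × ℤ → ℂ) × (ℕ → ℂ) × (ℕ × ℤ × ℤ → ℂ)

/-- the defining relations of the space -/
structure IsPt (w : Amb) : Prop where
  base : ‖w.2.1 0‖ ≤ 3
  sheet : ∀ k q, w.1 (k, q) ^ 2 = (w.2.1 0 - cen k q) * hh (w.2.1 0)
  unit : ∀ k q, ‖w.2.2 (k, q)‖ = 1
  dir : ∀ k, ∀ q ∈ F k, (w.2.1 k - cen k q) ^ 2 = ‖w.2.1 k - cen k q‖ ^ 2 * w.2.2 (k, q)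
  triv : ∀ k, ∀ q, q ∉ F k → w.2.2 (k, q) = 1
  step : ∀ k, w.2.1 (k + 1) = w.2.1 k + ((lam k * shift k (w.2.1 k) (fun q => w.2.2 (k, q)) : ℝ) : ℂ)

/-- the space -/
def Wsp : Type := {w : Amb // IsPt w}

instance : TopologicalSpace Wsp := inferInstanceAs (TopologicalSpace {w : Amb // IsPt w})
instance : T2Space Wsp := inferInstanceAs (T2Space {w : Amb // IsPt w})
instance : SecondCountableTopology Wsp :=
  TopologicalSpace.Subtype.secondCountableTopology {w : Amb | IsPt w}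

namespace Wsp

def v (w : Wsp) (k : ℕ) (q : ℤ × ℤ) : ℂ := w.1.1 (k, q)
def y (w : Wsp) (k : ℕ) : ℂ := w.1.2.1 k
def Y (w : Wsp) (k : ℕ) (q : ℤ × ℤ) : ℂ := w.1.2.2 (k, q)

lemma continuous_v (k : ℕ) (q : ℤ × ℤ) : Continuous fun w : Wsp => w.v k q :=
  (continuous_apply (k, q)).comp (continuous_fst.comp continuous_subtype_val)
lemma continuous_y (k : ℕ) : Continuous fun w : Wsp => w.y k :=
  (continuous_apply k).comp (continuous_fst.comp (continuous_snd.comp continuous_subtype_val))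
lemma continuous_Y (k : ℕ) (q : ℤ × ℤ) : Continuous fun w : Wsp => w.Y k q :=
  (continuous_apply (k, q)).comp (continuous_snd.comp (continuous_snd.comp continuous_subtype_val))

lemma base (w : Wsp) : ‖w.y 0‖ ≤ 3 := w.2.base
lemma sheet (w : Wsp) (k : ℕ) (q : ℤ × ℤ) : w.v k q ^ 2 = (w.y 0 - cen k q) * hh (w.y 0) :=
  w.2.sheet k q
lemma unit (w : Wsp) (k : ℕ) (q : ℤ × ℤ) : ‖w.Y k q‖ = 1 := w.2.unit k q
lemma dir (w : Wsp) {k : ℕ} {q : ℤ × ℤ} (hq : q ∈ F k) :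
    (w.y k - cen k q) ^ 2 = ‖w.y k - cen k q‖ ^ 2 * w.Y k q := w.2.dir k q hq
lemma triv (w : Wsp) {k : ℕ} {q : ℤ × ℤ} (hq : q ∉ F k) : w.Y k q = 1 := w.2.triv k q hq
lemma step (w : Wsp) (k : ℕ) : w.y (k + 1) = w.y k + ((lam k * shift k (w.y k) (w.Y k) : ℝ) : ℂ) :=
  w.2.step k

lemma ext' {w w' : Wsp} (h1 : ∀ k q, w.v k q = w'.v k q) (h2 : ∀ k, w.y k = w'.y k)
    (h3 : ∀ k q, w.Y k q = w'.Y k q) : w = w' := by
  apply Subtype.ext
  apply Prod.ext
  · funext ⟨k, q⟩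
    exact h1 k q
  · apply Prod.ext
    · funext k
      exact h2 k
    · funext ⟨k, q⟩
      exact h3 k q

end Wsp

lemma continuous_bump (k : ℕ) (q : ℤ × ℤ) : Continuous fun z => bump k z q := by
  unfold bump
  fun_prop

lemma continuous_hh : Continuous hh := by
  unfold hh
  have := Complex.continuous_re
  fun_prop

lemma bump_nonneg (k : ℕ) (z : ℂ) (q : ℤ × ℤ) : 0 ≤ bump k z q := le_max_left _ _
lemma bump_le_one (k : ℕ) (z : ℂ) (q : ℤ × ℤ) : bump k z q ≤ 1 := by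
  unfold bump
  apply max_le zero_le_one
  have : 0 ≤ ‖z - cen k q‖ ^ 2 / rho k ^ 2 := by positivity
  linarith

lemma isClosed_pt : IsClosed {w : Amb | IsPt w} := by
  have hv : ∀ i, Continuous fun w : Amb => w.1 i := fun i => by fun_prop
  have hy : ∀ i, Continuous fun w : Amb => w.2.1 i := fun i => by fun_prop
  have hY : ∀ i, Continuous fun w : Amb => w.2.2 i := fun i => by fun_prop
  have : {w : Amb | IsPt w} = {w | ‖w.2.1 0‖ ≤ 3} ∩
      (⋂ k, ⋂ q, {w : Amb | w.1 (k, q) ^ 2 = (w.2.1 0 - cen k q) * hh (w.2.1 0)}) ∩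
      (⋂ k, ⋂ q, {w : Amb | ‖w.2.2 (k, q)‖ = 1}) ∩
      (⋂ k, ⋂ q ∈ F k, {w : Amb | (w.2.1 k - cen k q) ^ 2 =
        ‖w.2.1 k - cen k q‖ ^ 2 * w.2.2 (k, q)}) ∩
      (⋂ k, ⋂ q, ⋂ (_ : q ∉ F k), {w : Amb | w.2.2 (k, q) = 1}) ∩
      (⋂ k, {w : Amb | w.2.1 (k + 1) =
        w.2.1 k + ((lam k * shift k (w.2.1 k) (fun q => w.2.2 (k, q)) : ℝ) : ℂ)}) := by
    ext w
    simp only [mem_ofPred_eq, mem_inter_iff, mem_iInter]
    constructor
    · intro h
      exact ⟨⟨⟨⟨⟨h.base, h.sheet⟩, h.unit⟩, h.dir⟩, h.triv⟩, h.step⟩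
    · rintro ⟨⟨⟨⟨⟨h1, h2⟩, h3⟩, h4⟩, h5⟩, h6⟩
      exact ⟨h1, h2, h3, h4, h5, h6⟩
  rw [this]
  refine ((((IsClosed.inter ?_ ?_).inter ?_).inter ?_).inter ?_).inter ?_
  · exact isClosed_le (hy 0).norm continuous_const
  · refine isClosed_iInter fun k => isClosed_iInter fun q => isClosed_eq ((hv _).pow 2) ?_
    exact ((hy 0).sub continuous_const).mul (Complex.continuous_ofReal.comp (continuous_hh.comp (hy 0)))
  · refine isClosed_iInter fun k => isClosed_iInter fun q => isClosed_eq (hY _).norm continuous_const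
  · refine isClosed_iInter fun k => isClosed_iInter fun q => isClosed_iInter fun _ =>
      isClosed_eq (((hy k).sub continuous_const).pow 2) ?_
    exact ((Complex.continuous_ofReal.comp ((hy k).sub continuous_const).norm).pow 2).mul (hY _)
  · refine isClosed_iInter fun k => isClosed_iInter fun q => isClosed_iInter fun _ =>
      isClosed_eq (hY _) continuous_const
  · refine isClosed_iInter fun k => isClosed_eq (hy _) ?_
    apply (hy k).add
    apply Complex.continuous_ofReal.comp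
    apply Continuous.mul continuous_const
    unfold shift
    apply continuous_finsetSum
    intro q _
    exact ((continuous_bump k q).comp (hy k)).mul (Complex.continuous_re.comp (hY _))

lemma hh_nonneg (z : ℂ) : 0 ≤ hh z := le_max_left _ _
lemma hh_le (z : ℂ) : hh z ≤ ‖z‖ := by
  unfold hh
  apply max_le (norm_nonneg z)
  have := (abs_le.1 (Complex.abs_re_le_norm z)).2
  linarith

lemma abs_shift_le' (k : ℕ) (z : ℂ) (Y : ℤ × ℤ → ℂ) (hY : ∀ q, ‖Y q‖ = 1) :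
    |shift k z Y| ≤ (F k).card := by
  unfold shift
  refine (Finset.abs_sum_le_sum_abs _ _).trans ?_
  rw [← nsmul_one (F k).card]
  apply Finset.sum_le_card_nsmul
  intro q _
  rw [abs_mul, abs_of_nonneg (bump_nonneg k z q)]
  have h1 := bump_le_one k z q
  have h2 : |(Y q).re| ≤ 1 := (Complex.abs_re_le_norm _).trans (hY q).le
  exact mul_le_one₀ h1 (abs_nonneg _) h2

noncomputable def bnd : ℕ → ℝ
  | 0 => 3
  | k + 1 => bnd k + lam k * (F k).card

lemma isCompact_pt : IsCompact {w : Amb | IsPt w} := by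
  have hc : IsCompact ((Set.univ.pi fun i : ℕ × ℤ × ℤ =>
        Metric.closedBall (0 : ℂ) ((3 + ‖cen i.1 i.2‖) * 3 + 1)) ×ˢ
      ((Set.univ.pi fun k : ℕ => Metric.closedBall (0 : ℂ) (bnd k)) ×ˢ
        (Set.univ.pi fun _ : ℕ × ℤ × ℤ => Metric.closedBall (0 : ℂ) 1))) := by
    apply IsCompact.prod
    · exact isCompact_univ_pi fun i => isCompact_closedBall _ _
    · apply IsCompact.prod
      · exact isCompact_univ_pi fun i => isCompact_closedBall _ _
      · exact isCompact_univ_pi fun i => isCompact_closedBall _ _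
  apply hc.of_isClosed_subset isClosed_pt
  intro w hw'
  have hw : IsPt w := hw'
  refine ⟨?_, ?_, ?_⟩
  · rintro ⟨k, q⟩ -
    rw [mem_closedBall_zero_iff]
    have h1 := congrArg norm (hw.sheet k q)
    rw [norm_pow, norm_mul, Complex.norm_real, Real.norm_of_nonneg (hh_nonneg _)] at h1
    have h2 : ‖w.2.1 0 - cen k q‖ ≤ 3 + ‖cen k q‖ :=
      (norm_sub_le _ _).trans (by linarith [hw.base])
    have h3 : hh (w.2.1 0) ≤ 3 := (hh_le _).trans hw.base
    have h4 : ‖w.1 (k, q)‖ ^ 2 ≤ (3 + ‖cen k q‖) * 3 := by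
      rw [h1]
      exact mul_le_mul h2 h3 (hh_nonneg _) (by positivity)
    nlinarith [norm_nonneg (w.1 (k, q)), sq_nonneg (‖w.1 (k, q)‖ - 1)]
  · intro k _
    rw [mem_closedBall_zero_iff]
    induction k with
    | zero => exact hw.base
    | succ k ih =>
      rw [hw.step k, bnd]
      refine (norm_add_le _ _).trans (add_le_add (ih (mem_univ _)) ?_)
      rw [Complex.norm_real, Real.norm_eq_abs, abs_mul, abs_of_pos (lam_pos k)]
      exact mul_le_mul_of_nonneg_left (abs_shift_le' _ _ _ (hw.unit k)) (lam_pos k).le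
  · rintro ⟨k, q⟩ -
    rw [mem_closedBall_zero_iff]
    exact (hw.unit k q).le

instance : CompactSpace Wsp := isCompact_iff_compactSpace.1 isCompact_pt

/-! ### arithmetic of the centres -/

lemma rho_succ (k : ℕ) : rho (k + 1) = rho k / 2 := by
  unfold rho
  rw [pow_succ]
  field_simp

lemma rho_le (k : ℕ) : rho k ≤ 1 / 4 := by
  unfold rho
  apply one_div_le_one_div_of_le (by norm_num)
  have : (1 : ℝ) ≤ 2 ^ k := one_le_pow₀ (by norm_num)
  rw [pow_add]
  linarith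

lemma cen_sep {k : ℕ} {q q' : ℤ × ℤ} (h : q ≠ q') : 4 * rho k ≤ ‖cen k q - cen k q'‖ := by
  have hp : (0 : ℝ) < 2 ^ (k + 1) := by positivity
  have key : ∀ a a' : ℤ, a ≠ a' →
      4 * rho k ≤ |(2 * (a : ℝ) + 1) / 2 ^ (k + 1) - (2 * (a' : ℝ) + 1) / 2 ^ (k + 1)| := by
    intro a a' haa
    rw [← sub_div, abs_div, abs_of_pos hp, le_div_iff₀ hp]
    have h1 : 4 * rho k * 2 ^ (k + 1) = 2 := by
      unfold rho
      rw [pow_add, pow_add]
      field_simp
      norm_num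
    rw [h1]
    have h2 : (2 * (a : ℝ) + 1 - (2 * (a' : ℝ) + 1)) = 2 * ((a - a' : ℤ) : ℝ) := by push_cast; ring
    rw [h2, abs_mul, abs_of_pos (by norm_num : (0 : ℝ) < 2)]
    have h3 : (1 : ℝ) ≤ |((a - a' : ℤ) : ℝ)| := by
      have : 1 ≤ |a - a'| := Int.one_le_abs (sub_ne_zero.2 haa)
      exact_mod_cast this
    linarith
  by_cases h1 : q.1 = q'.1
  · have h2 : q.2 ≠ q'.2 := fun h2 => h (Prod.ext h1 h2)
    refine (key q.2 q'.2 h2).trans ?_
    simpa [cen] using Complex.abs_im_le_norm (cen k q - cen k q')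
  · refine (key q.1 q'.1 h1).trans ?_
    simpa [cen] using Complex.abs_re_le_norm (cen k q - cen k q')

lemma im_sep {l i : ℕ} (hli : l < i) (q q' : ℤ × ℤ) :
    2 * rho i ≤ |(cen l q).im - (cen i q').im| := by
  obtain ⟨m, rfl⟩ : ∃ m, i = l + 1 + m := ⟨i - (l + 1), by omega⟩
  have hp : (0 : ℝ) < 2 ^ (l + 1 + m + 1) := by positivity
  have h1 : (cen l q).im - (cen (l + 1 + m) q').im =
      (((2 * q.2 + 1) * 2 ^ (m + 1) - (2 * q'.2 + 1) : ℤ) : ℝ) / 2 ^ (l + 1 + m + 1) := by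
    simp only [cen]
    have h2 : (2 : ℝ) ^ (l + 1 + m + 1) = 2 ^ (l + 1) * 2 ^ (m + 1) := by
      rw [← pow_add]
      congr 1
    push_cast
    rw [h2]
    field_simp
  rw [h1, abs_div, abs_of_pos hp, le_div_iff₀ hp]
  have h2 : 2 * rho (l + 1 + m) * 2 ^ (l + 1 + m + 1) = 1 := by
    unfold rho
    rw [show l + 1 + m + 2 = (l + 1 + m + 1) + 1 from rfl, pow_succ _ (l + 1 + m + 1)]
    field_simp
  rw [h2]
  have h3 : ((2 * q.2 + 1) * 2 ^ (m + 1) - (2 * q'.2 + 1) : ℤ) ≠ 0 := by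
    intro h
    have h4 : ((2 * q.2 + 1) * 2 ^ (m + 1) : ℤ) = 2 * q'.2 + 1 := by linarith
    have h5 : (2 : ℤ) ∣ 2 * q'.2 + 1 := by
      rw [← h4, pow_succ]
      exact ⟨(2 * q.2 + 1) * 2 ^ m, by ring⟩
    omega
  have h6 : 1 ≤ |((2 * q.2 + 1) * 2 ^ (m + 1) - (2 * q'.2 + 1) : ℤ)| := Int.one_le_abs h3
  exact_mod_cast h6

lemma bump_zero {k : ℕ} {z : ℂ} {q : ℤ × ℤ} (h : rho k ≤ ‖z - cen k q‖) : bump k z q = 0 := by
  unfold bump
  apply max_eq_left
  have h1 := rho_pos k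
  have : 1 ≤ ‖z - cen k q‖ ^ 2 / rho k ^ 2 := by
    rw [le_div_iff₀ (by positivity)]
    nlinarith
  linarith

lemma shift_zero {k : ℕ} {z : ℂ} (Y : ℤ × ℤ → ℂ) (h : ∀ q ∈ F k, rho k ≤ ‖z - cen k q‖) :
    shift k z Y = 0 := by
  unfold shift
  apply Finset.sum_eq_zero
  intro q hq
  rw [bump_zero (h q hq), zero_mul]

lemma shift_single {k : ℕ} {z : ℂ} (Y : ℤ × ℤ → ℂ) {q : ℤ × ℤ} (hq : q ∈ F k)
    (h : ‖z - cen k q‖ ≤ rho k) : shift k z Y = bump k z q * (Y q).re := by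
  unfold shift
  apply Finset.sum_eq_single_of_mem q hq
  intro q' _ hne
  rw [bump_zero, zero_mul]
  have h1 := cen_sep (k := k) hne
  have h2 : ‖cen k q' - cen k q‖ ≤ ‖z - cen k q'‖ + ‖z - cen k q‖ := by
    have : cen k q' - cen k q = (z - cen k q) - (z - cen k q') := by ring
    rw [this]
    exact (norm_sub_le _ _).trans (by linarith)
  have := rho_pos k
  linarith

lemma abs_shift_le (k : ℕ) (z : ℂ) (Y : ℤ × ℤ → ℂ) (hY : ∀ q, ‖Y q‖ = 1) : |shift k z Y| ≤ 1 := by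
  by_cases h : ∀ q ∈ F k, rho k ≤ ‖z - cen k q‖
  · rw [shift_zero Y h]
    norm_num
  · push Not at h
    obtain ⟨q, hq, hlt⟩ := h
    rw [shift_single Y hq hlt.le, abs_mul, abs_of_nonneg (bump_nonneg k z q)]
    exact mul_le_one₀ (bump_le_one k z q) (abs_nonneg _)
      ((Complex.abs_re_le_norm _).trans (hY q).le)

lemma lam_succ (k : ℕ) : lam (k + 1) ≤ lam k / 2 := by
  have h1 : lam (k + 1) ≤ (1 / 2 : ℝ) ^ (8 ^ (k + 1) + 1) := by
    unfold lam
    apply pow_le_pow_of_le_one (by norm_num) (by norm_num)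
    have : 1 ≤ 8 ^ (k + 1) := Nat.one_le_pow _ _ (by norm_num)
    rw [pow_succ 8 (k + 1)]
    omega
  refine h1.trans ?_
  unfold lam
  rw [pow_succ]
  linarith

lemma lam_zero : lam 0 = 1 / 256 := by
  unfold lam
  norm_num

lemma lam_le_lam_zero (k : ℕ) : lam k ≤ 1 / 256 := by
  induction k with
  | zero => exact lam_zero.le
  | succ k ih =>
    have := lam_succ k
    have := lam_pos k
    linarith

namespace Wsp

lemma im_y (w : Wsp) (k : ℕ) : (w.y k).im = (w.y 0).im := by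
  induction k with
  | zero => rfl
  | succ k ih => rw [w.step k, Complex.add_im, Complex.ofReal_im, add_zero, ih]

lemma norm_step_le (w : Wsp) (k : ℕ) : ‖w.y (k + 1) - w.y k‖ ≤ lam k := by
  rw [w.step k, add_sub_cancel_left, Complex.norm_real, Real.norm_eq_abs, abs_mul,
    abs_of_pos (lam_pos k)]
  have := mul_le_mul_of_nonneg_left (abs_shift_le k (w.y k) (w.Y k) (w.unit k)) (lam_pos k).le
  linarith

lemma norm_y_sub_le (w : Wsp) (k m : ℕ) : ‖w.y (k + m) - w.y k‖ ≤ 2 * lam k - 2 * lam (k + m) := by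
  induction m with
  | zero => simp
  | succ m ih =>
    have h1 : w.y (k + (m + 1)) - w.y k = (w.y (k + m + 1) - w.y (k + m)) + (w.y (k + m) - w.y k) := by
      rw [← add_assoc]
      ring
    rw [h1]
    have h2 := w.norm_step_le (k + m)
    have h3 := lam_succ (k + m)
    refine (norm_add_le _ _).trans ?_
    rw [← add_assoc]
    linarith

lemma core (w : Wsp) {l : ℕ} {q : ℤ × ℤ} (hq : q ∈ F l) (h : w.y l = cen l q) (m : ℕ) :
    w.y (l + 1 + m) = cen l q + ((lam l * (w.Y l q).re : ℝ) : ℂ) := by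
  induction m with
  | zero =>
    rw [add_zero, w.step l, shift_single _ hq (by rw [h]; simp [(rho_pos l).le]), h]
    have : bump l (cen l q) q = 1 := by
      unfold bump
      simp
    rw [this, one_mul]
  | succ m ih =>
    rw [← add_assoc, w.step (l + 1 + m), shift_zero, ih]
    · simp
    · intro q' _
      have h1 := im_sep (show l < l + 1 + m by omega) q q'
      have h2 : |(cen l q).im - (cen (l + 1 + m) q').im| ≤ ‖w.y (l + 1 + m) - cen (l + 1 + m) q'‖ := by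
        have := Complex.abs_im_le_norm (w.y (l + 1 + m) - cen (l + 1 + m) q')
        rw [Complex.sub_im, ih, Complex.add_im, Complex.ofReal_im, add_zero] at this
        rw [ih]
        exact this
      have := rho_pos (l + 1 + m)
      linarith

/-- a point over a centre of level `l` is not over a centre of any other level -/
lemma ne_of_lt (w : Wsp) {l i : ℕ} (hli : l < i) {q q' : ℤ × ℤ} (h : w.y l = cen l q) :
    w.y i ≠ cen i q' := by
  intro h2
  have h3 := im_sep hli q q'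
  have h4 := w.im_y l
  have h5 := w.im_y i
  rw [h] at h4
  rw [h2] at h5
  rw [h4, h5, sub_self, abs_zero] at h3
  have := rho_pos i
  linarith

lemma outside (w : Wsp) (h : 3 / 4 ≤ ‖w.y 0 + 2‖) (k : ℕ) : w.y k = w.y 0 := by
  induction k with
  | zero => rfl
  | succ k ih =>
    rw [w.step k, shift_zero, ih]
    · simp
    · intro q hq
      rw [mem_F] at hq
      have h1 : w.y k - cen k q = (w.y 0 + 2) - (cen k q + 2) := by rw [ih]; ring
      have h2 := norm_sub_norm_le (w.y 0 + 2) (cen k q + 2)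
      rw [h1]
      have := rho_le k
      linarith

lemma Y_eq (w : Wsp) {k : ℕ} {q : ℤ × ℤ} (hq : q ∈ F k) (h : w.y k ≠ cen k q) :
    w.Y k q = (w.y k - cen k q) ^ 2 / ‖w.y k - cen k q‖ ^ 2 := by
  have h1 : ((‖w.y k - cen k q‖ : ℂ)) ^ 2 ≠ 0 := by
    apply pow_ne_zero
    rw [Complex.ofReal_ne_zero]
    exact norm_ne_zero_iff.2 (sub_ne_zero.2 h)
  rw [w.dir hq, mul_div_cancel_left₀ _ h1]

end Wsp

open Classical in
/-- direction with an arbitrary choice over the centre -/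
noncomputable def Yd (k : ℕ) (z : ℂ) (q : ℤ × ℤ) : ℂ :=
  if q ∈ F k ∧ z ≠ cen k q then (z - cen k q) ^ 2 / ‖z - cen k q‖ ^ 2 else 1

lemma norm_Yd (k : ℕ) (z : ℂ) (q : ℤ × ℤ) : ‖Yd k z q‖ = 1 := by
  unfold Yd
  split_ifs with h
  · rw [norm_div, norm_pow, norm_pow, Complex.norm_real, norm_norm]
    have : ‖z - cen k q‖ ≠ 0 := norm_ne_zero_iff.2 (sub_ne_zero.2 h.2)
    field_simp
  · simp

noncomputable def yh : ℕ → ℂ → ℂ
  | 0, x => x
  | k + 1, x => yh k x + ((lam k * shift k (yh k x) (Yd k (yh k x)) : ℝ) : ℂ)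

lemma isPt_sec (x : ℂ) (hx : ‖x‖ ≤ 3) :
    IsPt (fun i => ((x - cen i.1 i.2) * hh x) ^ ((2 : ℕ) : ℂ)⁻¹, fun k => yh k x,
      fun i => Yd i.1 (yh i.1 x) i.2) where
  base := hx
  sheet k q := Complex.cpow_nat_inv_pow _ (by norm_num)
  unit k q := norm_Yd _ _ _
  dir k q hq := by
    simp only
    by_cases h : yh k x = cen k q
    · simp [h]
    · have h1 : ((‖yh k x - cen k q‖ : ℂ)) ^ 2 ≠ 0 := by
        apply pow_ne_zero
        rw [Complex.ofReal_ne_zero]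
        exact norm_ne_zero_iff.2 (sub_ne_zero.2 h)
      have h2 : Yd k (yh k x) q = (yh k x - cen k q) ^ 2 / ‖yh k x - cen k q‖ ^ 2 := if_pos ⟨hq, h⟩
      rw [h2, mul_div_cancel₀ _ h1]
  triv k q hq := if_neg (fun h => hq h.1)
  step k := rfl

open Classical in
/-- a (discontinuous) section of the base coordinate -/
noncomputable def sec (x : ℂ) : Wsp := if hx : ‖x‖ ≤ 3 then ⟨_, isPt_sec x hx⟩ else ⟨_, isPt_sec 0 (by simp)⟩

lemma sec_y_zero {x : ℂ} (hx : ‖x‖ ≤ 3) : (sec x).y 0 = x := by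
  unfold sec
  rw [dif_pos hx]
  rfl

end Pool.Agent.Helper562.CM
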