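import Mathlib

open Bundle Bornology Set MeasureTheory Manifold Filter Topology
open scoped ENNReal ContDiff Manifold NNReal

noncomputable section

namespace Pool.Agent.Helper562.Imm
set_option maxSynthPendingDepth 3
set_option linter.unusedSectionVars false
set_option linter.unusedVariables false

variable {E : Type*} [NormedAddCommGroup E] [NormedSpace ℝ E]
  {F : Type*} [NormedAddCommGroup F] [InnerProductSpace ℝ F]
  {M : Type*} [TopologicalSpace M] [ChartedSpace E M]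

/-- the bilinear form pulled back by a linear map. -/
def bil (A : E →L[ℝ] F) : E →L[ℝ] E →L[ℝ] ℝ := (innerSL ℝ (E := F)).bilinearComp A A

lemma bil_apply (A : E →L[ℝ] F) (v w : E) : bil A v w = inner ℝ (A v) (A w) := rfl

lemma contDiff_bil [FiniteDimensional ℝ E] : ContDiff ℝ ∞ (bil : (E →L[ℝ] F) → _) := by
  rw [contDiff_clm_apply_iff]
  intro v
  rw [contDiff_clm_apply_iff]
  intro w
  simp only [bil_apply]
  apply ContDiff.inner ℝ
  · exact (ContinuousLinearMap.apply ℝ F v).contDiff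
  · exact (ContinuousLinearMap.apply ℝ F w).contDiff

/-- the derivative of `i` at `x` as a continuous linear map. -/
def D (i : M → F) (x : M) : E →L[ℝ] F := mfderiv 𝓘(ℝ, E) 𝓘(ℝ, F) i x

/-- the pulled back inner product. -/
def pb (i : M → F) (x : M) : E →L[ℝ] E →L[ℝ] ℝ := bil (D i x)

lemma pb_apply (i : M → F) (x : M) (v w : E) :
    pb i x v w = inner ℝ (D (E := E) i x v) (D (E := E) i x w) := rfl

lemma isVonNBounded_pb [FiniteDimensional ℝ E] (i : M → F) (x : M)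
    (hinj : Function.Injective (D (E := E) i x)) :
    IsVonNBounded ℝ {v : E | pb i x v v < 1} := by
  obtain ⟨K, hK, hA⟩ := (D (E := E) i x).toLinearMap.exists_antilipschitzWith
    (LinearMap.ker_eq_bot.2 hinj)
  rw [NormedSpace.isVonNBounded_iff]
  refine (Metric.isBounded_iff_subset_closedBall 0).2 ⟨K, ?_⟩
  intro v hv
  simp only [mem_ofPred_eq, pb_apply] at hv
  have h1 : ‖D (E := E) i x v‖ < 1 := by
    rw [real_inner_self_eq_norm_sq] at hv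
    nlinarith [norm_nonneg (D (E := E) i x v)]
  have h2 := hA.le_mul_dist v 0
  simp only [dist_zero_right, map_zero] at h2
  rw [mem_closedBall_zero_iff]
  have h3 : ‖(D (E := E) i x).toLinearMap v‖ = ‖D (E := E) i x v‖ := rfl
  rw [h3] at h2
  have : (K : ℝ) * ‖D (E := E) i x v‖ ≤ K * 1 := by gcongr
  linarith

section
variable [FiniteDimensional ℝ E] [IsManifold 𝓘(ℝ, E) ∞ M]

lemma contMDiff_pb (i : M → F) (hi : ContMDiff 𝓘(ℝ, E) 𝓘(ℝ, F) ∞ i) :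
    ContMDiff 𝓘(ℝ, E) (𝓘(ℝ, E).prod 𝓘(ℝ, E →L[ℝ] E →L[ℝ] ℝ)) ∞
    (fun b : M ↦ TotalSpace.mk' (E →L[ℝ] E →L[ℝ] ℝ) (E := fun b => TangentSpace 𝓘(ℝ, E) b →L[ℝ] TangentSpace 𝓘(ℝ, E) b →L[ℝ] ℝ) b (pb (E := E) i b)) := by
  intro x
  rw [contMDiffAt_section]
  have h := ContMDiffAt.mfderiv_const (hi x) (m := ∞) (by simp)
  have h2 : ContMDiffAt 𝓘(ℝ, E) 𝓘(ℝ, E →L[ℝ] E →L[ℝ] ℝ) ∞ (fun b =>
    bil (inTangentCoordinates 𝓘(ℝ, E) 𝓘(ℝ, F) id i
      (fun x => mfderiv 𝓘(ℝ, E) 𝓘(ℝ, F) i x) x b)) x := by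
    exact contDiff_bil.contMDiff.contMDiffAt.comp x h
  refine h2.congr_of_eventuallyEq ?_
  have hx := (trivializationAt E (TangentSpace 𝓘(ℝ, E)) x).open_baseSet.mem_nhds (mem_baseSet_trivializationAt E (TangentSpace 𝓘(ℝ, E)) x)
  filter_upwards [hx] with y hy
  ext v w
  have hy2 : y ∈ (trivializationAt (E →L[ℝ] ℝ) (fun x : M => TangentSpace 𝓘(ℝ, E) x →L[ℝ] ℝ) x).baseSet := by
    simpa using hy
  simp [hom_trivializationAt_apply, ContinuousLinearMap.inCoordinates, inTangentCoordinates, bil_apply, Trivialization.coe_linearMapAt_of_mem _ hy2]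
  rfl

lemma pb_pos (i : M → F) (x : M) (hinj : Function.Injective (D (E := E) i x)) (v : E)
    (hv : v ≠ 0) : 0 < pb i x v v := by
  rw [pb_apply]
  apply real_inner_self_pos.2
  intro h
  apply hv
  apply hinj
  rw [h]
  exact (map_zero _).symm

/-- The pulled back Riemannian metric. -/
def metric (i : M → F) (hi : ContMDiff 𝓘(ℝ, E) 𝓘(ℝ, F) ∞ i)
    (hinj : ∀ x, Function.Injective (D (E := E) i x)) :
    ContMDiffRiemannianMetric 𝓘(ℝ, E) ∞ E (fun x : M => TangentSpace 𝓘(ℝ, E) x) where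
  inner x := pb (E := E) i x
  symm x v w := real_inner_comm _ _
  pos x v hv := pb_pos (E := E) i x (hinj x) v hv
  isVonNBounded x := isVonNBounded_pb (E := E) i x (hinj x)
  contMDiff := contMDiff_pb i hi

end

section
variable [FiniteDimensional ℝ E] [IsManifold 𝓘(ℝ, E) ∞ M]
  [RiemannianBundle (fun x : M => TangentSpace 𝓘(ℝ, E) x)]

lemma pathELength_eq (i : M → F) (hi : ContMDiff 𝓘(ℝ, E) 𝓘(ℝ, F) ∞ i)
    (hiso : ∀ (x : M) (v : TangentSpace 𝓘(ℝ, E) x), ‖v‖ₑ = ‖D (E := E) i x v‖ₑ)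
    (c : ℝ → M) (hc : ContMDiffOn 𝓘(ℝ, ℝ) 𝓘(ℝ, E) 1 c (Icc 0 1)) :
    pathELength 𝓘(ℝ, E) c 0 1 = ∫⁻ t in Icc 0 1, ‖derivWithin (i ∘ c) (Icc 0 1) t‖ₑ := by
  rw [pathELength_eq_lintegral_mfderivWithin_Icc]
  apply setLIntegral_congr_fun measurableSet_Icc (fun t ht ↦ ?_)
  rw [hiso]
  have h1 : mfderivWithin 𝓘(ℝ, ℝ) 𝓘(ℝ, F) (i ∘ c) (Icc 0 1) t =
      (mfderiv 𝓘(ℝ, E) 𝓘(ℝ, F) i (c t)).comp (mfderivWithin 𝓘(ℝ, ℝ) 𝓘(ℝ, E) c (Icc 0 1) t) := by
    apply mfderiv_comp_mfderivWithin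
    · exact (hi (c t)).mdifferentiableAt (by simp)
    · exact (hc t ht).mdifferentiableWithinAt (by simp)
    · rw [uniqueMDiffWithinAt_iff_uniqueDiffWithinAt]
      exact uniqueDiffOn_Icc zero_lt_one t ht
  have h2 : derivWithin (i ∘ c) (Icc 0 1) t = 
    D (E := E) i (c t) (mfderivWithin 𝓘(ℝ, ℝ) 𝓘(ℝ, E) c (Icc 0 1) t (1 : ℝ)) := by
    have := congrArg (fun A => A (1 : ℝ)) h1
    simp only [mfderivWithin_eq_fderivWithin] at this
    rw [← fderivWithin_derivWithin]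
    exact this
  rw [h2]
  rfl

lemma edist_le_riemannianEDist (i : M → F) (hi : ContMDiff 𝓘(ℝ, E) 𝓘(ℝ, F) ∞ i)
    (hiso : ∀ (x : M) (v : TangentSpace 𝓘(ℝ, E) x), ‖v‖ₑ = ‖D (E := E) i x v‖ₑ) (x y : M) :
    edist (i x) (i y) ≤ riemannianEDist 𝓘(ℝ, E) x y := by
  apply le_of_forall_gt
  intro r hr
  obtain ⟨c, h0, h1, hc, hlt⟩ := exists_lt_of_riemannianEDist_lt hr
  rw [pathELength_eq i hi hiso c hc] at hlt
  refine lt_of_le_of_lt ?_ hlt
  have hcd : ContDiffOn ℝ 1 (i ∘ c) (Icc 0 1) := by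
    rw [← contMDiffOn_iff_contDiffOn]
    exact (hi.of_le (by simp)).comp_contMDiffOn hc
  have := enorm_sub_le_lintegral_derivWithin_Icc_of_contDiffOn_Icc hcd zero_le_one
  rw [edist_comm, edist_eq_enorm_sub, ← h0, ← h1]
  exact this

lemma riemannianEDist_le_of_curve (i : M → F) (hi : ContMDiff 𝓘(ℝ, E) 𝓘(ℝ, F) ∞ i)
    (hiso : ∀ (x : M) (v : TangentSpace 𝓘(ℝ, E) x), ‖v‖ₑ = ‖D (E := E) i x v‖ₑ)
    (c : ℝ → M) (hc : ContMDiffOn 𝓘(ℝ, ℝ) 𝓘(ℝ, E) 1 c (Icc 0 1)) (C : ℝ≥0∞)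
    (hC : ∀ t ∈ Icc (0 : ℝ) 1, ‖derivWithin (i ∘ c) (Icc 0 1) t‖ₑ ≤ C) :
    riemannianEDist 𝓘(ℝ, E) (c 0) (c 1) ≤ C := by
  refine (riemannianEDist_le_pathELength hc rfl rfl zero_le_one).trans ?_
  rw [pathELength_eq i hi hiso c hc]
  calc ∫⁻ t in Icc 0 1, ‖derivWithin (i ∘ c) (Icc 0 1) t‖ₑ ≤ ∫⁻ t in Icc (0 : ℝ) 1, C :=
        setLIntegral_mono' measurableSet_Icc hC
    _ = C := by simp

end

end Pool.Agent.Helper562.Imm
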