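import Mathlib

open Set Topology unitInterval

namespace Pool.Agent.Helper562.VK

variable {X : Type*} [TopologicalSpace X]

/-- Two paths inside a simply connected subset with the same endpoints are homotopic. -/
lemma homotopic_of_subset {S : Set X} (hS : SimplyConnectedSpace S) {a b : X} (p q : Path a b)
    (hp : ∀ t, p t ∈ S) (hq : ∀ t, q t ∈ S) : Path.Homotopic p q := by
  have ha : a ∈ S := by simpa using hp 0
  have hb : b ∈ S := by simpa using hp 1
  let p' : Path (⟨a, ha⟩ : S) ⟨b, hb⟩ :=
    { toFun := fun t => ⟨p t, hp t⟩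
      continuous_toFun := by fun_prop
      source' := by simp
      target' := by simp }
  let q' : Path (⟨a, ha⟩ : S) ⟨b, hb⟩ :=
    { toFun := fun t => ⟨q t, hq t⟩
      continuous_toFun := by fun_prop
      source' := by simp
      target' := by simp }
  have h : Path.Homotopic p' q' := SimplyConnectedSpace.paths_homotopic p' q'
  have h2 := h.map (⟨Subtype.val, continuous_subtype_val⟩ : C(S, X))
  exact h2

/-- paths from a base point inside `U` or inside `V` with the same end are homotopic. -/
lemma canon {U V : Set X} (hU : SimplyConnectedSpace U) (hV : SimplyConnectedSpace V)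
    (hI : IsPathConnected (U ∩ V)) {x y : X} (hx : x ∈ U ∩ V) (p q : Path x y)
    (hp : (∀ t, p t ∈ U) ∨ (∀ t, p t ∈ V)) (hq : (∀ t, q t ∈ U) ∨ (∀ t, q t ∈ V)) :
    Path.Homotopic p q := by
  rcases hp with hp | hp <;> rcases hq with hq | hq
  · exact homotopic_of_subset hU p q hp hq
  · have hy : y ∈ U ∩ V := ⟨by simpa using hp 1, by simpa using hq 1⟩
    obtain ⟨r, hr⟩ := hI.joinedIn x hx y hy
    exact (homotopic_of_subset hU p r hp fun t => (hr t).1).trans
      (homotopic_of_subset hV r q (fun t => (hr t).2) hq)
  · have hy : y ∈ U ∩ V := ⟨by simpa using hq 1, by simpa using hp 1⟩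
    obtain ⟨r, hr⟩ := hI.joinedIn x hx y hy
    exact (homotopic_of_subset hV p r hp fun t => (hr t).2).trans
      (homotopic_of_subset hU r q (fun t => (hr t).1) hq)
  · exact homotopic_of_subset hV p q hp hq

lemma base_paths {U V : Set X} (hUo : IsOpen U) (hVo : IsOpen V) (hUV : U ∪ V = univ)
    (hU : SimplyConnectedSpace U) (hV : SimplyConnectedSpace V)
    (hI : IsPathConnected (U ∩ V)) {x y : X} (hx : x ∈ U ∩ V) (γ : Path x y) (q : Path x y)
    (hq : (∀ t, q t ∈ U) ∨ (∀ t, q t ∈ V)) : Path.Homotopic γ q := by
  obtain ⟨t, ht0, htm, ⟨n, hn⟩, hc⟩ := exists_monotone_Icc_subset_open_cover_unitInterval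
    (c := fun b : Bool => γ ⁻¹' (if b then U else V))
    (fun b => by cases b <;> simp [hVo.preimage γ.continuous, hUo.preimage γ.continuous])
    (by
      intro s _
      have : γ s ∈ U ∪ V := by rw [hUV]; trivial
      rcases this with h | h
      · exact mem_iUnion.2 ⟨true, by simpa using h⟩
      · exact mem_iUnion.2 ⟨false, by simpa using h⟩)
  let p : ∀ s : I, Path x (γ s) := fun s => (γ.subpath 0 s).cast γ.source.symm rfl
  have key : ∀ m : ℕ, ∀ q : Path x (γ (t m)), ((∀ t, q t ∈ U) ∨ (∀ t, q t ∈ V)) →
      Path.Homotopic (p (t m)) q := by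
    intro m
    induction m with
    | zero =>
      intro q hq
      apply canon hU hV hI hx _ _ _ hq
      left
      intro s
      have : p (t 0) s = x := by
        simp only [p, Path.cast_coe]
        rw [ht0]
        simp
      rw [this]
      exact hx.1
    | succ m ih =>
      intro q hq
      obtain ⟨b, hb⟩ := hc m
      have hle : t m ≤ t (m + 1) := htm (Nat.le_succ m)
      -- the subpath lies in the set
      have hsub : ∀ s, (γ.subpath (t m) (t (m + 1))) s ∈ (if b then U else V : Set X) := by
        intro s
        have h1 : (γ.subpath (t m) (t (m + 1))) s ∈ range (γ.subpath (t m) (t (m + 1))) :=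
          mem_range_self s
        rw [Path.range_subpath_of_le _ _ _ hle] at h1
        obtain ⟨w, hw, hw2⟩ := h1
        rw [← hw2]
        exact hb hw
      have hmem : γ (t m) ∈ (if b then U else V : Set X) := by
        exact hb (left_mem_Icc.2 hle)
      obtain ⟨r, hr⟩ : ∃ r : Path x (γ (t m)), ∀ s, r s ∈ (if b then U else V : Set X) := by
        cases b with
        | true =>
          have hp : IsPathConnected U := isPathConnected_iff_pathConnectedSpace.2 inferInstance
          obtain ⟨r, hr⟩ := hp.joinedIn x hx.1 (γ (t m)) (by simpa using hmem)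
          exact ⟨r, by simpa using hr⟩
        | false =>
          have hp : IsPathConnected V := isPathConnected_iff_pathConnectedSpace.2 inferInstance
          obtain ⟨r, hr⟩ := hp.joinedIn x hx.2 (γ (t m)) (by simpa using hmem)
          exact ⟨r, by simpa using hr⟩
      have h1 : Path.Homotopic (p (t m)) r := by
        apply ih
        cases b with
        | true => left; simpa using hr
        | false => right; simpa using hr
      have h2 : Path.Homotopic (p (t (m + 1))) ((p (t m)).trans (γ.subpath (t m) (t (m + 1)))) := by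
        have h3 : Path.Homotopic ((γ.subpath 0 (t m)).trans (γ.subpath (t m) (t (m + 1))))
          (γ.subpath 0 (t (m + 1))) := ⟨Path.Homotopy.subpathTransSubpath γ 0 (t m) (t (m + 1))⟩
        have h4 := h3.symm.pathCast γ.source.symm rfl
        exact h4
      have h5 : Path.Homotopic (p (t (m + 1))) (r.trans (γ.subpath (t m) (t (m + 1)))) :=
        h2.trans (h1.hcomp (Path.Homotopic.refl _))
      refine h5.trans (canon hU hV hI hx _ _ ?_ hq)
      have h6 : ∀ s, (r.trans (γ.subpath (t m) (t (m + 1)))) s ∈ (if b then U else V : Set X) := by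
        intro s
        have : (r.trans (γ.subpath (t m) (t (m + 1)))) s ∈
            range (r.trans (γ.subpath (t m) (t (m + 1)))) := mem_range_self s
        rw [Path.trans_range] at this
        rcases this with ⟨w, hw⟩ | ⟨w, hw⟩
        · rw [← hw]; exact hr w
        · rw [← hw]; exact hsub w
      cases b with
      | true => left; simpa using h6
      | false => right; simpa using h6
  have h1 := key n
  have hn' := hn n le_rfl
  rw [hn'] at h1
  have hy : γ 1 = y := γ.target
  have h2 := h1 (q.cast rfl hy) (by simpa using hq)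
  have h3 := h2.pathCast rfl hy.symm
  have e1 : (p 1).cast rfl hy.symm = γ := by
    ext s
    simp [p]
  have e2 : (q.cast rfl hy).cast rfl hy.symm = q := by
    ext s
    simp
  rwa [e1, e2] at h3

/-- A space which is the union of two open simply connected subsets with path connected
intersection is simply connected. -/
theorem simplyConnected_of_union {U V : Set X} (hUo : IsOpen U) (hVo : IsOpen V)
    (hUV : U ∪ V = univ) (hU : SimplyConnectedSpace U) (hV : SimplyConnectedSpace V)
    (hI : IsPathConnected (U ∩ V)) : SimplyConnectedSpace X := by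
  obtain ⟨x, hx⟩ := hI.nonempty
  have hUp : IsPathConnected U := isPathConnected_iff_pathConnectedSpace.2 inferInstance
  have hVp : IsPathConnected V := isPathConnected_iff_pathConnectedSpace.2 inferInstance
  have hq : ∀ y : X, ∃ q : Path x y, ((∀ t, q t ∈ U) ∨ (∀ t, q t ∈ V)) := by
    intro y
    have : y ∈ U ∪ V := by rw [hUV]; trivial
    rcases this with h | h
    · obtain ⟨r, hr⟩ := hUp.joinedIn x hx.1 y h
      exact ⟨r, Or.inl hr⟩
    · obtain ⟨r, hr⟩ := hVp.joinedIn x hx.2 y h
      exact ⟨r, Or.inr hr⟩
  have hX : PathConnectedSpace X := by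
    refine ⟨⟨x⟩, fun a b => ?_⟩
    obtain ⟨p, -⟩ := hq a
    obtain ⟨q, -⟩ := hq b
    exact ⟨p.symm.trans q⟩
  have hb : ∀ y (p q : Path x y), Path.Homotopic p q := by
    intro y p q
    obtain ⟨r, hr⟩ := hq y
    exact (base_paths hUo hVo hUV hU hV hI hx p r hr).trans
      (base_paths hUo hVo hUV hU hV hI hx q r hr).symm
  rw [simply_connected_iff_paths_homotopic']
  refine ⟨hX, fun {a b} p q => ?_⟩
  obtain ⟨r, -⟩ := hq a
  have h1 := hb b (r.trans p) (r.trans q)
  have h2 : Path.Homotopic (r.symm.trans (r.trans p)) (r.symm.trans (r.trans q)) :=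
    (Path.Homotopic.refl _).hcomp h1
  have h3 : ∀ w : Path a b, Path.Homotopic (r.symm.trans (r.trans w)) w := by
    intro w
    have e1 : Path.Homotopic (r.symm.trans (r.trans w)) ((r.symm.trans r).trans w) :=
      ⟨(Path.Homotopy.transAssoc r.symm r w).symm⟩
    have e2 : Path.Homotopic (r.symm.trans r) (Path.refl a) :=
      ⟨(Path.Homotopy.reflSymmTrans r).symm⟩
    have e3 : Path.Homotopic ((Path.refl a).trans w) w := ⟨Path.Homotopy.reflTrans w⟩
    exact e1.trans ((e2.hcomp (Path.Homotopic.refl _)).trans e3)
  exact (h3 p).symm.trans (h2.trans (h3 q))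

end Pool.Agent.Helper562.VK
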