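import Mathlib
import Pool.Agent.Helper562.Imm
import Pool.Agent.Helper562.VK

open Bundle Bornology Set MeasureTheory Manifold Filter Topology
open scoped ENNReal ContDiff Manifold NNReal ComplexConjugate

noncomputable section

namespace Pool.Agent.Helper562.Quad
set_option maxSynthPendingDepth 3
set_option linter.unusedSectionVars false
set_option linter.unusedVariables false

/-- The affine quadric `P ^ 2 - q r = 1 / 4` in `ℂ ^ 3`. -/
def Q : Type := {x : ℂ × ℂ × ℂ // x.1 ^ 2 - x.2.1 * x.2.2 = 1 / 4}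

instance : TopologicalSpace Q := instTopologicalSpaceSubtype
instance : T3Space Q := inferInstanceAs (T3Space {x : ℂ × ℂ × ℂ // x.1 ^ 2 - x.2.1 * x.2.2 = 1 / 4})
instance : SecondCountableTopology Q :=
  inferInstanceAs (SecondCountableTopology {x : ℂ × ℂ × ℂ // x.1 ^ 2 - x.2.1 * x.2.2 = 1 / 4})

/-- real four dimensional space. -/
abbrev E4 := EuclideanSpace ℝ (Fin 4)

/-- a linear identification of `ℂ × ℂ` with `E4`. -/
def L : (ℂ × ℂ) ≃L[ℝ] E4 :=
  ContinuousLinearEquiv.ofFinrankEq (by
    rw [Module.finrank_prod, Complex.finrank_real_complex]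
    simp)

def eps (b : Bool) : ℝ := if b then 1 / 2 else -(1 / 2)

lemma eps_sq (b : Bool) : ((eps b : ℝ) : ℂ) ^ 2 = 1 / 4 := by
  cases b <;> simp [eps] <;> norm_num

lemma eps_ne (b : Bool) : ((eps b : ℝ) : ℂ) ≠ 0 := by
  cases b <;> simp [eps]

/-- the inverse chart. -/
def psi (b : Bool) (w : ℂ × ℂ) : ℂ × ℂ × ℂ :=
  (eps b + w.1 * w.2, w.1, w.2 * (2 * eps b + w.1 * w.2))

/-- the denominator. -/
def den (b : Bool) (x : ℂ × ℂ × ℂ) : ℂ :=
  x.2.1 * conj x.2.1 + (x.1 + eps b) * conj (x.1 + eps b)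

def num (b : Bool) (x : ℂ × ℂ × ℂ) : ℂ :=
  (x.1 - eps b) * conj x.2.1 + x.2.2 * conj (x.1 + eps b)

/-- the chart, as a map on the ambient space. -/
def phi (b : Bool) (x : ℂ × ℂ × ℂ) : ℂ × ℂ := (x.2.1, num b x / den b x)

lemma den_eq_zero_iff (b : Bool) (x : ℂ × ℂ × ℂ) :
    den b x = 0 ↔ x.2.1 = 0 ∧ x.1 = -eps b := by
  unfold den
  rw [Complex.mul_conj, Complex.mul_conj, ← Complex.ofReal_add, Complex.ofReal_eq_zero]
  constructor
  · intro h
    have h1 := Complex.normSq_nonneg x.2.1
    have h2 := Complex.normSq_nonneg (x.1 + eps b)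
    have h3 : Complex.normSq x.2.1 = 0 := by linarith
    have h4 : Complex.normSq (x.1 + eps b) = 0 := by linarith
    rw [Complex.normSq_eq_zero] at h3 h4
    exact ⟨h3, by linear_combination h4⟩
  · rintro ⟨h1, h2⟩
    rw [h1, h2]
    simp

lemma psi_mem (b : Bool) (w : ℂ × ℂ) :
    (psi b w).1 ^ 2 - (psi b w).2.1 * (psi b w).2.2 = 1 / 4 := by
  simp only [psi]
  linear_combination eps_sq b

lemma den_psi (b : Bool) (w : ℂ × ℂ) : den b (psi b w) ≠ 0 := by
  intro h
  rw [den_eq_zero_iff] at h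
  obtain ⟨h1, h2⟩ := h
  simp only [psi] at h1 h2
  rw [h1] at h2
  have := eps_ne b
  apply this
  linear_combination (1 / 2) * h2

lemma phi_psi (b : Bool) (w : ℂ × ℂ) : phi b (psi b w) = w := by
  have h := den_psi b w
  unfold phi
  ext1
  · rfl
  · change num b (psi b w) / den b (psi b w) = w.2
    rw [div_eq_iff h]
    simp only [num, den, psi, map_add, map_mul]
    ring

lemma psi_phi (b : Bool) (x : ℂ × ℂ × ℂ) (hx : x.1 ^ 2 - x.2.1 * x.2.2 = 1 / 4)
    (hd : den b x ≠ 0) : psi b (phi b x) = x := by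
  have he := eps_sq b
  have hf : x.2.1 * x.2.2 = (x.1 - eps b) * (x.1 + eps b) := by linear_combination he - hx
  have h1 : x.2.1 * (num b x / den b x) = x.1 - eps b := by
    rw [mul_div_assoc', div_eq_iff hd]
    simp only [num, den]
    linear_combination (conj (x.1 + eps b)) * hf
  have h2 : (num b x / den b x) * (x.1 + eps b) = x.2.2 := by
    rw [div_mul_eq_mul_div, div_eq_iff hd]
    simp only [num, den]
    linear_combination -(conj x.2.1) * hf
  unfold psi phi
  ext1
  · change eps b + x.2.1 * (num b x / den b x) = x.1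
    rw [h1]; ring
  · ext1
    · rfl
    · change (num b x / den b x) * (2 * eps b + x.2.1 * (num b x / den b x)) = x.2.2
      rw [h1, ← h2]; ring

lemma contDiff_conj {V : Type*} [NormedAddCommGroup V] [NormedSpace ℝ V] {f : V → ℂ}
    {n : ℕ∞ω} (hf : ContDiff ℝ n f) : ContDiff ℝ n (fun x => conj (f x)) :=
  Complex.conjCLE.contDiff.comp hf

lemma contDiff_num (b : Bool) : ContDiff ℝ ∞ (num b) := by
  unfold num
  apply ContDiff.add
  · apply ContDiff.mul
    · fun_prop
    · apply contDiff_conj; fun_prop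
  · apply ContDiff.mul
    · fun_prop
    · apply contDiff_conj; fun_prop

lemma contDiff_den (b : Bool) : ContDiff ℝ ∞ (den b) := by
  unfold den
  apply ContDiff.add
  · apply ContDiff.mul
    · fun_prop
    · apply contDiff_conj; fun_prop
  · apply ContDiff.mul
    · fun_prop
    · apply contDiff_conj; fun_prop

lemma contDiff_psi (b : Bool) : ContDiff ℝ ∞ (psi b) := by
  unfold psi
  fun_prop

lemma contDiffAt_phi (b : Bool) (x : ℂ × ℂ × ℂ) (hx : den b x ≠ 0) :
    ContDiffAt ℝ ∞ (phi b) x := by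
  unfold phi
  apply ContDiffAt.prodMk
  · fun_prop
  · simp only [div_eq_mul_inv]
    exact (contDiff_num b).contDiffAt.mul ((contDiff_den b).contDiffAt.inv hx)

/-- the two charts of the quadric. -/
def chart (b : Bool) : OpenPartialHomeomorph Q E4 where
  toFun x := L (phi b x.1)
  invFun y := ⟨psi b (L.symm y), psi_mem b _⟩
  source := {x | den b x.1 ≠ 0}
  target := univ
  map_source' x hx := mem_univ _
  map_target' y hy := den_psi b _
  left_inv' x hx := by
    apply Subtype.ext
    simp only [ContinuousLinearEquiv.symm_apply_apply]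
    exact psi_phi b x.1 x.2 hx
  right_inv' y hy := by
    simp only [phi_psi, ContinuousLinearEquiv.apply_symm_apply]
  open_source := by
    have h : Continuous (fun x : Q => den b x.1) :=
      (contDiff_den b).continuous.comp continuous_subtype_val
    exact isOpen_ne_fun h continuous_const
  open_target := isOpen_univ
  continuousOn_toFun := by
    apply L.continuous.comp_continuousOn
    intro x hx
    have h1 : ContinuousAt (phi b) x.1 := (contDiffAt_phi b x.1 hx).continuousAt
    exact (h1.comp continuous_subtype_val.continuousAt).continuousWithinAt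
  continuousOn_invFun := by
    apply Continuous.continuousOn
    apply Continuous.subtype_mk
    exact (contDiff_psi b).continuous.comp L.symm.continuous

lemma exists_chart (x : Q) : ∃ b, den b x.1 ≠ 0 := by
  by_contra h
  push Not at h
  have h1 := (den_eq_zero_iff true x.1).1 (h true)
  have h2 := (den_eq_zero_iff false x.1).1 (h false)
  have h3 : (-(eps true : ℝ) : ℂ) = -(eps false : ℝ) := h1.2.symm.trans h2.2
  simp only [eps] at h3
  norm_num at h3

/-- index of the preferred chart. -/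
def idx (x : Q) : Bool := (exists_chart x).choose

lemma idx_spec (x : Q) : den (idx x) x.1 ≠ 0 := (exists_chart x).choose_spec

instance : ChartedSpace E4 Q where
  atlas := range chart
  chartAt x := chart (idx x)
  mem_chart_source x := idx_spec x
  chart_mem_atlas x := mem_range_self _

lemma chartAt_eq (x : Q) : chartAt E4 x = chart (idx x) := rfl

instance : IsManifold 𝓘(ℝ, E4) ∞ Q := by
  apply isManifold_of_contDiffOn
  rintro _ _ ⟨b, rfl⟩ ⟨c, rfl⟩
  simp only [modelWithCornersSelf_coe, modelWithCornersSelf_coe_symm, Function.comp_id,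
    Function.id_comp, range_id, inter_univ, preimage_id]
  intro y hy
  apply ContDiffAt.contDiffWithinAt
  have hy2 : den c (psi b (L.symm y)) ≠ 0 := hy.2
  have h1 : ContDiffAt ℝ ∞ (fun y => L (phi c (psi b (L.symm y)))) y := by
    apply L.contDiff.contDiffAt.comp
    apply ContDiffAt.comp (g := phi c) (f := fun y => psi b (L.symm y))
    · exact contDiffAt_phi c _ hy2
    · exact ((contDiff_psi b).comp L.symm.contDiff).contDiffAt
  exact h1

/-- the inclusion of the quadric in `ℂ ^ 3`. -/
def inc (x : Q) : ℂ × ℂ × ℂ := x.1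

lemma continuous_inc : Continuous inc := continuous_subtype_val

lemma contMDiff_inc : ContMDiff 𝓘(ℝ, E4) 𝓘(ℝ, ℂ × ℂ × ℂ) ∞ inc := by
  intro x
  rw [contMDiffAt_iff]
  refine ⟨continuous_inc.continuousAt, ?_⟩
  simp only [mfld_simps]
  apply ContDiff.contDiffWithinAt
  exact (contDiff_psi (idx x)).comp L.symm.contDiff

/-- A continuous map into the quadric is smooth as soon as it is smooth in the ambient space. -/
lemma contMDiffAt_of_inc {V : Type*} [NormedAddCommGroup V] [NormedSpace ℝ V] {g : V → Q}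
    {s : Set V} {t : V} {n : ℕ∞ω} (hn : n ≤ (∞ : ℕ∞ω)) (hg : ContDiffWithinAt ℝ n (fun y => inc (g y)) s t) :
    ContMDiffWithinAt 𝓘(ℝ, V) 𝓘(ℝ, E4) n g s t := by
  rw [contMDiffWithinAt_iff_target]
  constructor
  · have h1 : ContinuousWithinAt (fun y => inc (g y)) s t := hg.continuousWithinAt
    exact (IsInducing.subtypeVal.continuousWithinAt_iff).2 h1
  · rw [contMDiffWithinAt_iff_contDiffWithinAt]
    have h2 : ContDiffWithinAt ℝ n (fun y => L (phi (idx (g t)) (inc (g y)))) s t := by
      apply L.contDiff.contDiffAt.comp_contDiffWithinAt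
      apply ContDiffAt.comp_contDiffWithinAt (g := phi (idx (g t))) (f := fun y => inc (g y))
      · exact (contDiffAt_phi _ _ (idx_spec (g t))).of_le hn
      · exact hg
    exact h2

/-- the ambient Euclidean space. -/
abbrev F8 := EuclideanSpace ℂ (Fin 4)

/-- the linear map `(P, q, r) ↦ (q, P, P, r)`. -/
def T : (ℂ × ℂ × ℂ) →L[ℝ] F8 :=
  LinearMap.toContinuousLinearMap
    { toFun := fun x => !₂[x.2.1, x.1, x.1, x.2.2]
      map_add' := fun x y => by
        ext i; fin_cases i <;> simp
      map_smul' := fun c x => by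
        ext i; fin_cases i <;> simp }

lemma T_apply (x : ℂ × ℂ × ℂ) : T x = !₂[x.2.1, x.1, x.1, x.2.2] := rfl

lemma T_inj : Function.Injective T := by
  intro x y h
  rw [T_apply, T_apply] at h
  have h0 := congrArg (fun z : F8 => z 0) h
  have h1 := congrArg (fun z : F8 => z 1) h
  have h3 := congrArg (fun z : F8 => z 3) h
  simp at h0 h1 h3
  ext1
  · exact h1
  · ext1
    · exact h0
    · exact h3

/-- the embedding of the quadric in the Euclidean space. -/
def emb (x : Q) : F8 := T (inc x)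

lemma contMDiff_emb : ContMDiff 𝓘(ℝ, E4) 𝓘(ℝ, F8) ∞ emb :=
  T.contDiff.contMDiff.comp contMDiff_inc

lemma emb_inj : Function.Injective emb := fun x y h => Subtype.ext (T_inj h)

lemma D_emb_inj (x : Q) : Function.Injective (Imm.D (E := E4) emb x) := by
  have hx : x ∈ (chartAt E4 x).source := mem_chart_source E4 x
  have h1 := (mdifferentiable_chart (I := 𝓘(ℝ, E4)) x).mfderiv_injective hx
  have hev : (chartAt E4 x : Q → E4) = fun y => L (phi (idx x) (inc y)) := rfl
  have hd : DifferentiableAt ℝ (fun z => L (phi (idx x) z)) (inc x) := by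
    apply L.differentiableAt.comp
    exact (contDiffAt_phi _ _ (idx_spec x)).differentiableAt (by simp)
  have hi : MDifferentiableAt 𝓘(ℝ, E4) 𝓘(ℝ, ℂ × ℂ × ℂ) inc x :=
    (contMDiff_inc x).mdifferentiableAt (by simp)
  have h2 : mfderiv 𝓘(ℝ, E4) 𝓘(ℝ, E4) (chartAt E4 x : Q → E4) x =
      (mfderiv 𝓘(ℝ, ℂ × ℂ × ℂ) 𝓘(ℝ, E4) (fun z => L (phi (idx x) z)) (inc x)).comp
        (mfderiv 𝓘(ℝ, E4) 𝓘(ℝ, ℂ × ℂ × ℂ) inc x) := by
    rw [hev]
    exact mfderiv_comp (I' := 𝓘(ℝ, ℂ × ℂ × ℂ)) x hd.mdifferentiableAt hi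
  have h3 : mfderiv 𝓘(ℝ, E4) 𝓘(ℝ, F8) emb x =
      (mfderiv 𝓘(ℝ, ℂ × ℂ × ℂ) 𝓘(ℝ, F8) T (inc x)).comp
        (mfderiv 𝓘(ℝ, E4) 𝓘(ℝ, ℂ × ℂ × ℂ) inc x) :=
    mfderiv_comp (I' := 𝓘(ℝ, ℂ × ℂ × ℂ)) x T.differentiableAt.mdifferentiableAt hi
  have h4 : mfderiv 𝓘(ℝ, ℂ × ℂ × ℂ) 𝓘(ℝ, F8) T (inc x) = T := by
    rw [mfderiv_eq_fderiv]
    exact T.fderiv
  intro v w hvw
  apply h1
  have h5 : T (mfderiv 𝓘(ℝ, E4) 𝓘(ℝ, ℂ × ℂ × ℂ) inc x v) =
      T (mfderiv 𝓘(ℝ, E4) 𝓘(ℝ, ℂ × ℂ × ℂ) inc x w) := by
    have e1 := congrArg (fun A => A v) h3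
    have e2 := congrArg (fun A => A w) h3
    simp only [h4] at e1 e2
    have e3 : mfderiv 𝓘(ℝ, E4) 𝓘(ℝ, F8) emb x v = mfderiv 𝓘(ℝ, E4) 𝓘(ℝ, F8) emb x w := hvw
    exact e1.symm.trans (e3.trans e2)
  have h6 := T_inj h5
  rw [h2]
  exact congrArg (mfderiv 𝓘(ℝ, ℂ × ℂ × ℂ) 𝓘(ℝ, E4) (fun z => L (phi (idx x) z)) (inc x)) h6

/-- the induced Riemannian metric. -/
def gQ : ContMDiffRiemannianMetric 𝓘(ℝ, E4) ∞ E4 (fun x : Q => TangentSpace 𝓘(ℝ, E4) x) :=
  Imm.metric emb contMDiff_emb D_emb_inj

lemma sc_source (b : Bool) : SimplyConnectedSpace (chart b).source := by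
  have h1 : ContractibleSpace (univ : Set E4) :=
    (Homeomorph.Set.univ E4).contractibleSpace
  have h3 : ContractibleSpace (chart b).target := h1
  have h2 : ContractibleSpace (chart b).source :=
    (chart b).toHomeomorphSourceTarget.contractibleSpace
  infer_instance

lemma inter_source : (chart true).source ∩ (chart false).source =
    (chart true).symm '' (L '' (({0}ᶜ : Set ℂ) ×ˢ (univ : Set ℂ))) := by
  ext x
  constructor
  · rintro ⟨h1, h2⟩
    refine ⟨chart true x, ⟨phi true x.1, ?_, rfl⟩, (chart true).left_inv h1⟩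
    refine ⟨?_, mem_univ _⟩
    intro hq
    have hq' : x.1.2.1 = 0 := hq
    have h3 : ¬ (x.1.2.1 = 0 ∧ x.1.1 = -eps true) := fun h => h1 ((den_eq_zero_iff _ _).2 h)
    have h4 : ¬ (x.1.2.1 = 0 ∧ x.1.1 = -eps false) := fun h => h2 ((den_eq_zero_iff _ _).2 h)
    have h5 := x.2
    rw [hq'] at h5
    have h6 : (x.1.1 + eps true) * (x.1.1 + eps false) = 0 := by
      have e1 : ((eps true : ℝ) : ℂ) = 1 / 2 := by simp [eps]
      have e2 : ((eps false : ℝ) : ℂ) = -(1 / 2) := by simp [eps]
      rw [e1, e2]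
      linear_combination h5
    rcases mul_eq_zero.1 h6 with h | h
    · exact h3 ⟨hq', by linear_combination h⟩
    · exact h4 ⟨hq', by linear_combination h⟩
  · rintro ⟨_, ⟨w, ⟨hw, -⟩, rfl⟩, rfl⟩
    have hw' : w.1 ≠ 0 := hw
    have key : ∀ b, den b (psi true w) ≠ 0 := by
      intro b h
      rw [den_eq_zero_iff] at h
      exact hw' h.1
    constructor
    · change den true (psi true (L.symm (L w))) ≠ 0
      rw [L.symm_apply_apply]; exact key _
    · change den false (psi true (L.symm (L w))) ≠ 0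
      rw [L.symm_apply_apply]; exact key _

lemma pc_inter : IsPathConnected ((chart true).source ∩ (chart false).source) := by
  rw [inter_source]
  have h0 : IsPathConnected ({0}ᶜ : Set ℂ) := by
    apply isPathConnected_compl_singleton_of_one_lt_rank
    rw [Complex.rank_real_complex]
    norm_num
  have h1 : IsPathConnected (({0}ᶜ : Set ℂ) ×ˢ (univ : Set ℂ)) := h0.prod isPathConnected_univ
  have h2 := h1.image L.continuous
  have h3 : Continuous (chart true).symm := by
    rw [← continuousOn_univ]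
    exact (chart true).continuousOn_symm
  exact h2.image h3

instance : SimplyConnectedSpace Q := by
  apply VK.simplyConnected_of_union (U := (chart true).source) (V := (chart false).source)
  · exact (chart true).open_source
  · exact (chart false).open_source
  · ext x
    simp only [mem_union, mem_univ, iff_true]
    obtain ⟨b, hb⟩ := exists_chart x
    cases b
    · right; exact hb
    · left; exact hb
  · exact sc_source true
  · exact sc_source false
  · exact pc_inter

end Pool.Agent.Helper562.Quad
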