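import Mathlib
import Pool.Agent.Helper562.Quad

open Bundle Bornology Set MeasureTheory Manifold Filter Topology
open scoped ENNReal ContDiff Manifold NNReal ComplexConjugate

noncomputable section

namespace Pool.Agent.Helper562.Quad
set_option maxSynthPendingDepth 3
set_option linter.unusedSectionVars false
set_option linter.unusedVariables false

/-- first complex coordinate. -/
def ca (x : E4) : ℂ := (x 0 : ℂ) + (x 1 : ℂ) * Complex.I
/-- second complex coordinate. -/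
def cb (x : E4) : ℂ := (x 2 : ℂ) + (x 3 : ℂ) * Complex.I

lemma ca_add (x y : E4) : ca (x + y) = ca x + ca y := by
  simp [ca]; ring
lemma cb_add (x y : E4) : cb (x + y) = cb x + cb y := by
  simp [cb]; ring
lemma ca_sub (x y : E4) : ca (x - y) = ca x - ca y := by
  simp [ca]; ring
lemma cb_sub (x y : E4) : cb (x - y) = cb x - cb y := by
  simp [cb]; ring
lemma ca_neg (x : E4) : ca (-x) = -ca x := by
  simp [ca]; ring
lemma cb_neg (x : E4) : cb (-x) = -cb x := by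
  simp [cb]; ring
lemma ca_smul (t : ℝ) (x : E4) : ca (t • x) = t * ca x := by
  simp [ca]; ring
lemma cb_smul (t : ℝ) (x : E4) : cb (t • x) = t * cb x := by
  simp [cb]; ring

lemma normSq_ca_cb (x : E4) : Complex.normSq (ca x) + Complex.normSq (cb x) = ‖x‖ ^ 2 := by
  rw [EuclideanSpace.norm_sq_eq, Fin.sum_univ_four]
  simp [ca, cb, Complex.normSq_apply]
  ring

lemma contDiff_coord (i : Fin 4) : ContDiff ℝ ∞ (fun x : E4 => ((x i : ℝ) : ℂ)) := by
  have h : ContDiff ℝ ∞ (fun x : E4 => x i) :=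
    (EuclideanSpace.proj (𝕜 := ℝ) i : E4 →L[ℝ] ℝ).contDiff
  exact Complex.ofRealCLM.contDiff.comp h

lemma contDiff_ca : ContDiff ℝ ∞ ca := by
  unfold ca
  exact (contDiff_coord 0).add ((contDiff_coord 1).mul contDiff_const)

lemma contDiff_cb : ContDiff ℝ ∞ cb := by
  unfold cb
  exact (contDiff_coord 2).add ((contDiff_coord 3).mul contDiff_const)

/-- the map in ambient coordinates. -/
def amb (x : E4) : ℂ × ℂ × ℂ :=
  (ca x * cb x * ((((‖x‖ ^ 2) ^ 2)⁻¹ : ℝ) : ℂ) + conj (ca x) * conj (cb x) / 4,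
    ca x ^ 2 * ((((‖x‖ ^ 2) ^ 2)⁻¹ : ℝ) : ℂ) - conj (cb x) ^ 2 / 4,
    cb x ^ 2 * ((((‖x‖ ^ 2) ^ 2)⁻¹ : ℝ) : ℂ) - conj (ca x) ^ 2 / 4)

lemma amb_neg (x : E4) : amb (-x) = amb x := by
  unfold amb
  simp only [ca_neg, cb_neg, norm_neg, map_neg, neg_mul_neg, neg_sq]

lemma amb_mem {x : E4} (hx : x ≠ 0) :
    (amb x).1 ^ 2 - (amb x).2.1 * (amb x).2.2 = 1 / 4 := by
  have h1 : ((‖x‖ ^ 2 : ℝ) : ℂ) = ca x * conj (ca x) + cb x * conj (cb x) := by
    rw [Complex.mul_conj, Complex.mul_conj, ← Complex.ofReal_add, normSq_ca_cb]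
  have h2 : ((‖x‖ ^ 2 : ℝ) : ℂ) ≠ 0 := by
    have : ‖x‖ ≠ 0 := norm_ne_zero_iff.2 hx
    exact_mod_cast pow_ne_zero 2 this
  unfold amb
  simp only [Complex.ofReal_inv, Complex.ofReal_pow (‖x‖ ^ 2)]
  generalize ((‖x‖ ^ 2 : ℝ) : ℂ) = R at h1 h2
  generalize conj (ca x) = A at h1
  generalize conj (cb x) = B at h1
  field_simp
  rw [h1]
  ring

lemma contDiffAt_amb {x : E4} (hx : x ≠ 0) : ContDiffAt ℝ ∞ amb x := by
  have hn : ContDiffAt ℝ ∞ (fun x : E4 => (((((‖x‖ ^ 2) ^ 2)⁻¹ : ℝ)) : ℂ)) x := by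
    apply Complex.ofRealCLM.contDiff.contDiffAt.comp
    apply ContDiffAt.inv
    · exact ((contDiff_norm_sq ℝ).pow 2).contDiffAt
    · have : ‖x‖ ≠ 0 := norm_ne_zero_iff.2 hx
      positivity
  have h1 := contDiff_ca
  have h2 := contDiff_cb
  have h3 := contDiff_conj h1
  have h4 := contDiff_conj h2
  unfold amb
  apply ContDiffAt.prodMk
  · exact ((h1.mul h2).contDiffAt.mul hn).add ((h3.mul h4).div_const 4).contDiffAt
  · apply ContDiffAt.prodMk
    · exact ((h1.pow 2).contDiffAt.mul hn).sub ((h4.pow 2).div_const 4).contDiffAt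
    · exact ((h2.pow 2).contDiffAt.mul hn).sub ((h3.pow 2).div_const 4).contDiffAt

/-- the local homeomorphism of the punctured ball into the quadric. -/
def f (x : E4) : Q :=
  if hx : x ≠ 0 then ⟨amb x, amb_mem hx⟩ else ⟨(1 / 2, 0, 0), by norm_num⟩

lemma inc_f {x : E4} (hx : x ≠ 0) : inc (f x) = amb x := by
  unfold f inc
  rw [dif_pos hx]

lemma f_neg (x : E4) : f (-x) = f x := by
  by_cases hx : x = 0
  · rw [hx, neg_zero]
  · apply Subtype.ext
    have h1 : inc (f (-x)) = amb (-x) := inc_f (neg_ne_zero.2 hx)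
    have h2 : inc (f x) = amb x := inc_f hx
    have h3 : inc (f (-x)) = inc (f x) := by rw [h1, h2, amb_neg]
    exact h3

/-- the tensor square. -/
def tens (a b : ℂ) : F8 := !₂[a ^ 2, a * b, a * b, b ^ 2]

lemma norm_tens_sub (a b c d : ℂ) : ‖tens c d - tens a b‖ ^ 2 =
    Complex.normSq (c ^ 2 - a ^ 2) + 2 * Complex.normSq (c * d - a * b) +
      Complex.normSq (d ^ 2 - b ^ 2) := by
  rw [EuclideanSpace.norm_sq_eq, Fin.sum_univ_four]
  simp [tens, Complex.sq_norm]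
  ring

lemma tens_upper (a b c d : ℂ) : ‖tens c d - tens a b‖ ^ 2 ≤
    (Complex.normSq (c + a) + Complex.normSq (d + b)) *
      (Complex.normSq (c - a) + Complex.normSq (d - b)) := by
  rw [norm_tens_sub]
  obtain ⟨a1, a2⟩ := a
  obtain ⟨b1, b2⟩ := b
  obtain ⟨c1, c2⟩ := c
  obtain ⟨d1, d2⟩ := d
  simp only [Complex.normSq_apply, Complex.sub_re, Complex.sub_im, Complex.add_re, Complex.add_im,
    Complex.mul_re, Complex.mul_im, pow_two]
  nlinarith [sq_nonneg ((c1 + a1) * (d1 - b1) - (c2 + a2) * (d2 - b2) - ((d1 + b1) * (c1 - a1) - (d2 + b2) * (c2 - a2))),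
    sq_nonneg ((c1 + a1) * (d2 - b2) + (c2 + a2) * (d1 - b1) - ((d1 + b1) * (c2 - a2) + (d2 + b2) * (c1 - a1)))]

lemma tens_lower (a b c d : ℂ) :
    (Complex.normSq (c + a) + Complex.normSq (d + b)) *
      (Complex.normSq (c - a) + Complex.normSq (d - b)) ≤ 2 * ‖tens c d - tens a b‖ ^ 2 := by
  rw [norm_tens_sub]
  obtain ⟨a1, a2⟩ := a
  obtain ⟨b1, b2⟩ := b
  obtain ⟨c1, c2⟩ := c
  obtain ⟨d1, d2⟩ := d
  simp only [Complex.normSq_apply, Complex.sub_re, Complex.sub_im, Complex.add_re, Complex.add_im,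
    Complex.mul_re, Complex.mul_im, pow_two]
  nlinarith [sq_nonneg ((c1 + a1) * (c1 - a1) + (c2 + a2) * (c2 - a2) + ((d1 + b1) * (d1 - b1) + (d2 + b2) * (d2 - b2))),
    sq_nonneg ((c2 + a2) * (c1 - a1) - (c1 + a1) * (c2 - a2) + ((d2 + b2) * (d1 - b1) - (d1 + b1) * (d2 - b2)))]

/-- inversion. -/
def inv (x : E4) : E4 := (‖x‖ ^ 2)⁻¹ • x

/-- first tensor map. -/
def t1 (x : E4) : F8 := tens (ca x) (cb x)
/-- second tensor map. -/
def t2 (x : E4) : F8 := tens (conj (cb x)) (-conj (ca x))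

lemma t1_upper (x y : E4) : ‖t1 y - t1 x‖ ≤ ‖y + x‖ * ‖y - x‖ := by
  have h := tens_upper (ca x) (cb x) (ca y) (cb y)
  rw [← ca_add, ← cb_add, ← ca_sub, ← cb_sub, normSq_ca_cb, normSq_ca_cb, ← mul_pow] at h
  exact le_of_sq_le_sq h (by positivity)

lemma t2_upper (x y : E4) : ‖t2 y - t2 x‖ ≤ ‖y + x‖ * ‖y - x‖ := by
  have h := tens_upper (conj (cb x)) (-conj (ca x)) (conj (cb y)) (-conj (ca y))
  rw [show -conj (ca y) + -conj (ca x) = -conj (ca (y + x)) by rw [ca_add, map_add]; ring,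
    show conj (cb y) + conj (cb x) = conj (cb (y + x)) by rw [cb_add, map_add],
    show -conj (ca y) - -conj (ca x) = -conj (ca (y - x)) by rw [ca_sub, map_sub]; ring,
    show conj (cb y) - conj (cb x) = conj (cb (y - x)) by rw [cb_sub, map_sub],
    Complex.normSq_neg, Complex.normSq_neg, Complex.normSq_conj, Complex.normSq_conj,
    Complex.normSq_conj, Complex.normSq_conj, add_comm (Complex.normSq (cb (y + x))),
    add_comm (Complex.normSq (cb (y - x))), normSq_ca_cb, normSq_ca_cb, ← mul_pow] at h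
  exact le_of_sq_le_sq h (by positivity)

lemma t1_lower (x y : E4) : 7 / 10 * (‖y + x‖ * ‖y - x‖) ≤ ‖t1 y - t1 x‖ := by
  have h := tens_lower (ca x) (cb x) (ca y) (cb y)
  rw [← ca_add, ← cb_add, ← ca_sub, ← cb_sub, normSq_ca_cb, normSq_ca_cb, ← mul_pow] at h
  change (‖y + x‖ * ‖y - x‖) ^ 2 ≤ 2 * ‖t1 y - t1 x‖ ^ 2 at h
  apply le_of_sq_le_sq _ (norm_nonneg _)
  nlinarith [sq_nonneg (‖y + x‖ * ‖y - x‖)]

lemma norm_inv_sub {x y : E4} (hx : x ≠ 0) (hy : y ≠ 0) :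
    ‖inv y - inv x‖ = ‖y - x‖ / (‖x‖ * ‖y‖) := by
  have hx' : ‖x‖ ≠ 0 := norm_ne_zero_iff.2 hx
  have hy' : ‖y‖ ≠ 0 := norm_ne_zero_iff.2 hy
  rw [← sq_eq_sq₀ (norm_nonneg _) (by positivity), div_pow, norm_sub_sq_real, norm_sub_sq_real]
  unfold inv
  rw [norm_smul, norm_smul, real_inner_smul_left, real_inner_smul_right]
  simp only [norm_inv, norm_pow, norm_norm]
  field_simp
  ring

lemma emb_f {x : E4} (hx : x ≠ 0) : emb (f x) = t1 (inv x) - (1 / 4 : ℝ) • t2 x := by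
  unfold emb
  rw [inc_f hx, T_apply]
  unfold t1 t2 tens inv amb
  rw [ca_smul, cb_smul]
  ext i
  fin_cases i <;> simp <;> ring

lemma emb_f_upper {x y : E4} (hx : x ≠ 0) (hy : y ≠ 0) :
    ‖emb (f y) - emb (f x)‖ ≤
      (‖inv y + inv x‖ / (‖x‖ * ‖y‖) + ‖y + x‖ / 4) * ‖y - x‖ := by
  rw [emb_f hx, emb_f hy]
  have h1 := t1_upper (inv x) (inv y)
  have h2 := t2_upper x y
  rw [norm_inv_sub hx hy] at h1
  have h3 : t1 (inv y) - (1 / 4 : ℝ) • t2 y - (t1 (inv x) - (1 / 4 : ℝ) • t2 x) =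
      (t1 (inv y) - t1 (inv x)) - (1 / 4 : ℝ) • (t2 y - t2 x) := by
    rw [smul_sub]; abel
  rw [h3]
  refine (norm_sub_le _ _).trans ?_
  rw [norm_smul]
  have h4 : ‖(1 / 4 : ℝ)‖ = 1 / 4 := by norm_num
  rw [h4]
  calc _ ≤ ‖inv y + inv x‖ * (‖y - x‖ / (‖x‖ * ‖y‖)) + 1 / 4 * (‖y + x‖ * ‖y - x‖) := by gcongr
    _ = _ := by ring

lemma emb_f_lower {x y : E4} (hx : x ≠ 0) (hy : y ≠ 0) :
    (7 / 10 * (‖inv y + inv x‖ / (‖x‖ * ‖y‖)) - ‖y + x‖ / 4) * ‖y - x‖ ≤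
      ‖emb (f y) - emb (f x)‖ := by
  rw [emb_f hx, emb_f hy]
  have h1 := t1_lower (inv x) (inv y)
  have h2 := t2_upper x y
  rw [norm_inv_sub hx hy] at h1
  have h3 : t1 (inv y) - (1 / 4 : ℝ) • t2 y - (t1 (inv x) - (1 / 4 : ℝ) • t2 x) =
      (t1 (inv y) - t1 (inv x)) - (1 / 4 : ℝ) • (t2 y - t2 x) := by
    rw [smul_sub]; abel
  rw [h3]
  refine le_trans ?_ (norm_sub_norm_le _ _)
  rw [norm_smul]
  have h4 : ‖(1 / 4 : ℝ)‖ = 1 / 4 := by norm_num
  rw [h4]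
  calc _ = 7 / 10 * (‖inv y + inv x‖ * (‖y - x‖ / (‖x‖ * ‖y‖))) -
        1 / 4 * (‖y + x‖ * ‖y - x‖) := by ring
    _ ≤ _ := by gcongr

lemma continuousAt_inv {x : E4} (hx : x ≠ 0) : ContinuousAt inv x := by
  unfold inv
  have : ‖x‖ ^ 2 ≠ 0 := pow_ne_zero 2 (norm_ne_zero_iff.2 hx)
  exact ((continuous_norm.pow 2).continuousAt.inv₀ this).smul continuousAt_id

lemma norm_inv_add_self {x : E4} (hx : x ≠ 0) : ‖inv x + inv x‖ = 2 / ‖x‖ := by
  have : ‖x‖ ≠ 0 := norm_ne_zero_iff.2 hx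
  rw [← two_smul ℝ (inv x), norm_smul]
  unfold inv
  rw [norm_smul]
  simp only [norm_inv, norm_pow, norm_norm, Real.norm_ofNat]
  field_simp

lemma norm_add_self' (x : E4) : ‖x + x‖ = 2 * ‖x‖ := by
  rw [← two_smul ℝ x, norm_smul]
  simp

lemma ev_lower {x : E4} (hx : x ≠ 0) (hx1 : ‖x‖ < 1) : ∀ᶠ y in 𝓝 x,
    17 / 20 * (‖x‖ ^ 3)⁻¹ * ‖y - x‖ ≤ ‖emb (f y) - emb (f x)‖ := by
  have hpos : 0 < ‖x‖ := norm_pos_iff.2 hx
  have hc : ContinuousAt (fun y : E4 => 7 / 10 * (‖inv y + inv x‖ / (‖x‖ * ‖y‖)) - ‖y + x‖ / 4) x := by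
    have h1 : ContinuousAt inv x := continuousAt_inv hx
    have h2 : ContinuousAt (fun y : E4 => ‖inv y + inv x‖) x := (h1.add continuousAt_const).norm
    have h3 : ContinuousAt (fun y : E4 => ‖x‖ * ‖y‖) x := by fun_prop
    exact ((h2.div h3 (by positivity)).const_mul _).sub (by fun_prop)
  have hv : 17 / 20 * (‖x‖ ^ 3)⁻¹ <
      7 / 10 * (‖inv x + inv x‖ / (‖x‖ * ‖x‖)) - ‖x + x‖ / 4 := by
    rw [norm_inv_add_self hx, norm_add_self']
    have h4 : ‖x‖ ^ 4 < 1 := pow_lt_one₀ hpos.le hx1 (by norm_num)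
    have e : 7 / 10 * (2 / ‖x‖ / (‖x‖ * ‖x‖)) - 2 * ‖x‖ / 4 - 17 / 20 * (‖x‖ ^ 3)⁻¹ =
        (11 / 20 - ‖x‖ ^ 4 / 2) * (‖x‖ ^ 3)⁻¹ := by field_simp; ring
    have h5 : 0 < (11 / 20 - ‖x‖ ^ 4 / 2) * (‖x‖ ^ 3)⁻¹ := by
      apply mul_pos
      · linarith
      · positivity
    linarith
  have hev := hc.eventually (lt_mem_nhds hv)
  filter_upwards [hev, isOpen_ne.mem_nhds hx] with y hy hy0
  exact (mul_le_mul_of_nonneg_right hy.le (norm_nonneg _)).trans (emb_f_lower hx hy0)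

lemma ev_upper {x : E4} (hx : x ≠ 0) (hx1 : ‖x‖ < 1) : ∃ δ > 0, ∀ y ∈ Metric.ball x δ,
    y ≠ 0 ∧ ∀ z ∈ Metric.ball x δ,
    ‖emb (f z) - emb (f y)‖ ≤ 51 / 20 * (‖x‖ ^ 3)⁻¹ * ‖z - y‖ := by
  have hpos : 0 < ‖x‖ := norm_pos_iff.2 hx
  have hc : ContinuousAt (fun p : E4 × E4 => ‖inv p.2 + inv p.1‖ / (‖p.1‖ * ‖p.2‖) +
      ‖p.2 + p.1‖ / 4) (x, x) := by
    have h1 : ContinuousAt (fun p : E4 × E4 => inv p.1) (x, x) :=
      ContinuousAt.comp (g := inv) (f := Prod.fst) (continuousAt_inv hx) continuousAt_fst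
    have h1' : ContinuousAt (fun p : E4 × E4 => inv p.2) (x, x) :=
      ContinuousAt.comp (g := inv) (f := Prod.snd) (continuousAt_inv hx) continuousAt_snd
    have h3 : ContinuousAt (fun p : E4 × E4 => ‖p.1‖ * ‖p.2‖) (x, x) := by fun_prop
    exact ((h1'.add h1).norm.div h3 (by positivity)).add (by fun_prop)
  have hv : ‖inv x + inv x‖ / (‖x‖ * ‖x‖) + ‖x + x‖ / 4 < 51 / 20 * (‖x‖ ^ 3)⁻¹ := by
    rw [norm_inv_add_self hx, norm_add_self']
    have h4 : ‖x‖ ^ 4 < 1 := pow_lt_one₀ hpos.le hx1 (by norm_num)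
    have e : 51 / 20 * (‖x‖ ^ 3)⁻¹ - (2 / ‖x‖ / (‖x‖ * ‖x‖) + 2 * ‖x‖ / 4) =
        (11 / 20 - ‖x‖ ^ 4 / 2) * (‖x‖ ^ 3)⁻¹ := by field_simp; ring
    have h5 : 0 < (11 / 20 - ‖x‖ ^ 4 / 2) * (‖x‖ ^ 3)⁻¹ := by
      apply mul_pos
      · linarith
      · positivity
    linarith
  have hev := hc.eventually (gt_mem_nhds hv)
  have hne : ∀ᶠ p : E4 × E4 in 𝓝 (x, x), p.1 ≠ 0 ∧ p.2 ≠ 0 := by
    have h1 : ∀ᶠ p : E4 × E4 in 𝓝 (x, x), p.1 ≠ 0 :=
      (continuous_fst.continuousAt (x := (x, x))).eventually_ne hx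
    have h2 : ∀ᶠ p : E4 × E4 in 𝓝 (x, x), p.2 ≠ 0 :=
      (continuous_snd.continuousAt (x := (x, x))).eventually_ne hx
    exact h1.and h2
  have hb := hev.and hne
  rw [Metric.eventually_nhds_iff_ball] at hb
  obtain ⟨δ, hδ, hb⟩ := hb
  refine ⟨δ, hδ, fun y hy => ⟨?_, fun z hz => ?_⟩⟩
  · exact (hb (y, y) (by rw [← ball_prod_same]; exact ⟨hy, hy⟩)).2.1
  · have h1 := hb (y, z) (by rw [← ball_prod_same]; exact ⟨hy, hz⟩)
    exact (emb_f_upper h1.2.1 h1.2.2).trans (mul_le_mul_of_nonneg_right h1.1.le (norm_nonneg _))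

lemma contDiffAt_inc_f {x : E4} (hx : x ≠ 0) : ContDiffAt ℝ ∞ (fun y => inc (f y)) x := by
  refine (contDiffAt_amb hx).congr_of_eventuallyEq ?_
  filter_upwards [isOpen_ne.mem_nhds hx] with y hy
  exact inc_f hy

lemma contDiffAt_emb_f {x : E4} (hx : x ≠ 0) : ContDiffAt ℝ ∞ (fun y => emb (f y)) x :=
  T.contDiff.contDiffAt.comp x (contDiffAt_inc_f hx)

lemma fderiv_emb_f_lower {x : E4} (hx : x ≠ 0) (hx1 : ‖x‖ < 1) (v : E4) (hv : v ≠ 0) :
    fderiv ℝ (fun y => emb (f y)) x v ≠ 0 := by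
  intro h0
  have hd : HasFDerivAt (fun y => emb (f y)) (fderiv ℝ (fun y => emb (f y)) x) x :=
    ((contDiffAt_emb_f hx).differentiableAt (by simp)).hasFDerivAt
  have hl : HasDerivAt (fun t : ℝ => x + t • v) v 0 := by
    simpa using ((hasDerivAt_id (0 : ℝ)).smul_const v).const_add x
  have hd' : HasFDerivAt (fun y => emb (f y)) (fderiv ℝ (fun y => emb (f y)) x)
      (x + (0 : ℝ) • v) := by simpa using hd
  have h1 := hd'.comp_hasDerivAt (0 : ℝ) hl
  rw [h0, hasDerivAt_iff_tendsto_slope] at h1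
  have h2 := h1.norm
  rw [norm_zero] at h2
  have hpos : 0 < 17 / 20 * (‖x‖ ^ 3)⁻¹ * ‖v‖ := by
    have : 0 < ‖x‖ := norm_pos_iff.2 hx
    have : 0 < ‖v‖ := norm_pos_iff.2 hv
    positivity
  have hle : 17 / 20 * (‖x‖ ^ 3)⁻¹ * ‖v‖ ≤ 0 := by
    apply ge_of_tendsto h2
    have hc : ContinuousAt (fun t : ℝ => x + t • v) 0 := by fun_prop
    have hx0 : x = x + (0 : ℝ) • v := by simp
    have hlow := ev_lower hx hx1
    rw [hx0] at hlow
    have hev := (hc.eventually hlow).filter_mono (nhdsWithin_le_nhds (s := {0}ᶜ))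
    filter_upwards [hev, self_mem_nhdsWithin] with t ht ht0
    have ht0' : t ≠ 0 := ht0
    simp only [slope, Function.comp_apply, zero_smul, add_zero, sub_zero, vsub_eq_sub, norm_smul,
      norm_inv, add_sub_cancel_left] at ht ⊢
    have htp : 0 < ‖t‖ := norm_pos_iff.2 ht0'
    rw [inv_mul_eq_div, le_div_iff₀ htp]
    calc _ = 17 / 20 * (‖x‖ ^ 3)⁻¹ * (‖t‖ * ‖v‖) := by ring
      _ ≤ _ := ht
  linarith

/-- `f` is a local homeomorphism on the punctured unit ball. -/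
lemma localHomeo : IsLocalHomeomorphOn f {x : E4 | 0 < ‖x‖ ∧ ‖x‖ < 1} := by
  apply IsLocalHomeomorphOn.mk
  rintro x ⟨hx0, hx1⟩
  have hx : x ≠ 0 := norm_pos_iff.1 hx0
  obtain ⟨b, hb⟩ := exists_chart (f x)
  let g : E4 → E4 := fun y => L (phi b (inc (f y)))
  have hg : ContDiffAt ℝ ∞ g x := by
    apply L.contDiff.contDiffAt.comp
    exact ContDiffAt.comp (g := phi b) (f := fun y => inc (f y)) x
      (contDiffAt_phi b _ hb) (contDiffAt_inc_f hx)
  have hcf : ContinuousAt f x := by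
    have h1 : ContinuousAt (fun y => inc (f y)) x := (contDiffAt_inc_f hx).continuousAt
    exact IsInducing.subtypeVal.continuousAt_iff.2 h1
  have hsrc : ∀ᶠ y in 𝓝 x, f y ∈ (chart b).source :=
    hcf.eventually ((chart b).open_source.mem_nhds hb)
  -- the derivative is injective
  have hfac : (fun y => emb (f y)) =ᶠ[𝓝 x] fun y => T (psi b (L.symm (g y))) := by
    filter_upwards [hsrc] with y hy
    change T (inc (f y)) = T (psi b (L.symm (L (phi b (inc (f y))))))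
    rw [L.symm_apply_apply]
    exact congrArg T (psi_phi b _ (f y).2 hy).symm
  have hinj : Function.Injective (fderiv ℝ g x) := by
    rw [injective_iff_map_eq_zero]
    intro v hv
    by_contra hv0
    apply fderiv_emb_f_lower hx hx1 v hv0
    rw [hfac.fderiv_eq]
    have hd1 : DifferentiableAt ℝ (fun z => T (psi b (L.symm z))) (g x) := by
      apply T.differentiableAt.comp
      apply ((contDiff_psi b).differentiable (by simp)).differentiableAt.comp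
      exact L.symm.differentiableAt
    have hd2 : DifferentiableAt ℝ g x := hg.differentiableAt (by simp)
    have := fderiv_comp (g := fun z => T (psi b (L.symm z))) (f := g) x hd1 hd2
    change fderiv ℝ ((fun z => T (psi b (L.symm z))) ∘ g) x v = 0
    rw [this, ContinuousLinearMap.comp_apply, hv, map_zero]
  let A : E4 ≃L[ℝ] E4 :=
    (LinearEquiv.ofInjectiveEndo (fderiv ℝ g x).toLinearMap hinj).toContinuousLinearEquiv
  have hA : HasFDerivAt g (A : E4 →L[ℝ] E4) x := by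
    have : (A : E4 →L[ℝ] E4) = fderiv ℝ g x := by
      ext v; rfl
    rw [this]
    exact (hg.differentiableAt (by simp)).hasFDerivAt
  let e := hg.toOpenPartialHomeomorph g hA (by simp)
  have hxe : x ∈ e.source := hg.mem_toOpenPartialHomeomorph_source hA (by simp)
  have he : ∀ y, e y = g y := fun y => rfl
  obtain ⟨s, hs, hso, hxs⟩ := mem_nhds_iff.1 hsrc
  refine ⟨(e.restrOpen s hso).trans (chart b).symm, ?_, ?_⟩
  · rw [OpenPartialHomeomorph.trans_source]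
    refine ⟨⟨hxe, hxs⟩, mem_univ _⟩
  · intro y hy
    rw [OpenPartialHomeomorph.trans_source] at hy
    have hys : y ∈ s := hy.1.2
    have h1 : f y ∈ (chart b).source := hs hys
    have h2 := (chart b).left_inv h1
    exact h2.symm

end Pool.Agent.Helper562.Quad
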