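import Mathlib
import Pool.Agent.Helper562.QMap

open Bundle Bornology Set MeasureTheory Manifold Filter Topology
open scoped ENNReal ContDiff Manifold NNReal ComplexConjugate

noncomputable section

namespace Pool.Agent.Helper562.Quad
set_option maxSynthPendingDepth 3
set_option linter.unusedSectionVars false
set_option linter.unusedVariables false

/-- the Riemannian bundle structure. -/
@[reducible] def rb : RiemannianBundle (fun x : Q => TangentSpace 𝓘(ℝ, E4) x) :=
  ⟨gQ.toRiemannianMetric⟩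

attribute [local instance] rb

lemma enorm_eq (x : Q) (v : TangentSpace 𝓘(ℝ, E4) x) : ‖v‖ₑ = ‖Imm.D (E := E4) emb x v‖ₑ := by
  have h : ‖v‖ = ‖Imm.D (E := E4) emb x v‖ := by
    rw [norm_eq_sqrt_real_inner, norm_eq_sqrt_real_inner]
    rfl
  rw [← ofReal_norm, ← ofReal_norm, h]

instance cb' : IsContinuousRiemannianBundle E4 (fun x : Q => TangentSpace 𝓘(ℝ, E4) x) :=
  ⟨gQ.inner, gQ.contMDiff.continuous, fun _ _ _ => rfl⟩

/-- the extended metric. -/
@[reducible] def emQ : EMetricSpace Q := EMetricSpace.ofRiemannianMetric 𝓘(ℝ, E4) Q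

lemma lower (x y : Q) : edist (emb x) (emb y) ≤ riemannianEDist 𝓘(ℝ, E4) x y :=
  Imm.edist_le_riemannianEDist emb contMDiff_emb enorm_eq x y

/-- a segment in the domain gives an upper bound of the distance of the images. -/
lemma upper {x h : E4} {K : ℝ} (hK : 0 ≤ K) (hne : ∀ t ∈ Icc (0 : ℝ) 1, x + t • h ≠ 0)
    (hd : ∀ t ∈ Icc (0 : ℝ) 1, ‖fderiv ℝ (fun y => emb (f y)) (x + t • h)‖ ≤ K) :
    riemannianEDist 𝓘(ℝ, E4) (f x) (f (x + h)) ≤ ENNReal.ofReal (K * ‖h‖) := by
  have hl : ∀ t : ℝ, HasDerivAt (fun t : ℝ => x + t • h) h t := by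
    intro t
    simpa using ((hasDerivAt_id t).smul_const h).const_add x
  have hc : ContMDiffOn 𝓘(ℝ, ℝ) 𝓘(ℝ, E4) 1 (fun t : ℝ => f (x + t • h)) (Icc 0 1) := by
    intro t ht
    apply contMDiffAt_of_inc (by exact_mod_cast le_top)
    have h1 : ContDiffAt ℝ 1 (fun y => inc (f y)) (x + t • h) :=
      (contDiffAt_inc_f (hne t ht)).of_le (by exact_mod_cast le_top)
    have h2 : ContDiff ℝ 1 (fun t : ℝ => x + t • h) := by fun_prop
    exact (h1.comp t h2.contDiffAt).contDiffWithinAt
  have h0 := Imm.riemannianEDist_le_of_curve emb contMDiff_emb enorm_eq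
    (fun t : ℝ => f (x + t • h)) hc (ENNReal.ofReal (K * ‖h‖)) ?_
  · simpa using h0
  · intro t ht
    have h1 : HasFDerivAt (fun y => emb (f y)) (fderiv ℝ (fun y => emb (f y)) (x + t • h))
        (x + t • h) := ((contDiffAt_emb_f (hne t ht)).differentiableAt (by simp)).hasFDerivAt
    have h2 := (h1.comp_hasDerivAt t (hl t)).hasDerivWithinAt (s := Icc 0 1)
    have h3 := h2.derivWithin (uniqueDiffOn_Icc zero_lt_one t ht)
    have h4 : derivWithin (emb ∘ fun t : ℝ => f (x + t • h)) (Icc 0 1) t =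
        fderiv ℝ (fun y => emb (f y)) (x + t • h) h := h3
    rw [h4, ← ofReal_norm]
    apply ENNReal.ofReal_le_ofReal
    refine (ContinuousLinearMap.le_opNorm _ _).trans ?_
    gcongr
    exact hd t ht

lemma edistQ (x y : Q) : emQ.edist x y = riemannianEDist 𝓘(ℝ, E4) x y := rfl

lemma edist_ne_top (x y : Q) : emQ.edist x y ≠ ⊤ := by
  let _ : EMetricSpace Q := emQ
  have h1 : IsClopen (Metric.eball x ⊤) := ⟨Metric.isClosed_eball_top, Metric.isOpen_eball⟩
  have h3 : PreconnectedSpace Q := inferInstance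
  have h2 : Metric.eball x ⊤ = univ := by
    apply h1.eq_univ
    exact ⟨x, by simp⟩
  have h4 : y ∈ Metric.eball x ⊤ := by rw [h2]; trivial
  have h5 : edist y x < ⊤ := h4
  rw [edist_comm] at h5
  exact h5.ne

/-- the Riemannian distance makes the quadric a metric space. -/
@[reducible] def mQ : MetricSpace Q := @EMetricSpace.toMetricSpace Q emQ edist_ne_top

lemma edist_mQ (x y : Q) : mQ.toPseudoMetricSpace.toPseudoEMetricSpace.edist x y =
    riemannianEDist 𝓘(ℝ, E4) x y := rfl

lemma closedEmb : IsClosedEmbedding emb := by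
  have h1 : IsClosedEmbedding T := by
    have := LinearMap.isClosedEmbedding_of_injective (f := T.toLinearMap)
      (LinearMap.ker_eq_bot.2 T_inj)
    exact this
  have h2 : IsClosedEmbedding inc := by
    have hc : IsClosed {x : ℂ × ℂ × ℂ | x.1 ^ 2 - x.2.1 * x.2.2 = 1 / 4} :=
      isClosed_eq (by fun_prop) continuous_const
    exact hc.isClosedEmbedding_subtypeVal
  exact h1.comp h2

lemma completeQ : @CompleteSpace Q mQ.toPseudoMetricSpace.toUniformSpace := by
  let _ : MetricSpace Q := mQ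
  have hlip : LipschitzWith 1 emb := by
    intro x y
    rw [ENNReal.coe_one, one_mul]
    exact lower x y
  apply Metric.complete_of_cauchySeq_tendsto
  intro u hu
  have h1 : CauchySeq (emb ∘ u) := hlip.uniformContinuous.comp_cauchySeq hu
  obtain ⟨z, hz⟩ := cauchySeq_tendsto_of_complete h1
  have hz2 : z ∈ range emb := by
    have hcl : IsClosed (range emb) := closedEmb.isClosed_range
    exact hcl.mem_of_tendsto hz (Eventually.of_forall fun n => mem_range_self _)
  obtain ⟨q, rfl⟩ := hz2
  refine ⟨q, ?_⟩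
  exact closedEmb.isInducing.tendsto_nhds_iff.2 hz

end Pool.Agent.Helper562.Quad
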