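import Mathlib

open Set

namespace Pool.Agent.Helper562.STLC

/-- The Euclidean space of dimension `n`. -/
abbrev E (n : ℕ) := EuclideanSpace ℝ (Fin n)

/-- The point `x` is reachable from the origin in time less than `t` with at most `N`
switchings: there are times `0 = τ 0 < τ 1 < ... < τ (N + 1) < t`, indices `i 0, ..., i N` and
curves `ξ j` on `[τ j, τ (j + 1)]` with derivative `f (i j) (ξ j)`, which start at the origin,
match at the switching times and end at `x`. -/
def Reachable {n k : ℕ} (f : Fin k → E n → E n) (t : ℝ) (N : ℕ) (x : E n) : Prop :=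
  ∃ (τ : ℕ → ℝ) (i : ℕ → Fin k) (ξ : ℕ → ℝ → E n),
    τ 0 = 0 ∧ (∀ j ≤ N, τ j < τ (j + 1)) ∧ τ (N + 1) < t ∧
    (∀ j ≤ N, ∀ s ∈ Icc (τ j) (τ (j + 1)),
      HasDerivWithinAt (ξ j) (f (i j) (ξ j s)) (Icc (τ j) (τ (j + 1))) s) ∧
    ξ 0 0 = 0 ∧ (∀ j < N, ξ j (τ (j + 1)) = ξ (j + 1) (τ (j + 1))) ∧ ξ N (τ (N + 1)) = x

/-- The set of the points reachable from the origin in time less than `t`. -/
def Attainable {n k : ℕ} (f : Fin k → E n → E n) (t : ℝ) : Set (E n) :=
  {x | ∃ N, Reachable f t N x}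

/-- Small-time local controllability at the origin. -/
def STLC {n k : ℕ} (f : Fin k → E n → E n) : Prop :=
  ∀ t > 0, (0 : E n) ∈ interior (Attainable f t)

/-- The two families agree to order `m` at the origin: the Taylor polynomials of degree `m` at
the origin coincide, that is all derivatives of order at most `m`. -/
def AgreeToOrder {n k : ℕ} (m : ℕ) (f g : Fin k → E n → E n) : Prop :=
  ∀ i, ∀ j ≤ m, iteratedFDeriv ℝ j (f i) 0 = iteratedFDeriv ℝ j (g i) 0

/-- A polynomial vector field. -/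
def IsPolynomialField {n : ℕ} (f : E n → E n) : Prop :=
  ∃ P : Fin n → MvPolynomial (Fin n) ℝ, ∀ x j, f x j = MvPolynomial.eval (fun l => x l) (P j)

end Pool.Agent.Helper562.STLC
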