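import Mathlib
import Pool.Agent.Helper562.STLCDefs

open Set Filter Topology

namespace Pool.Agent.Helper562.STLC

lemma glue {n k : ℕ} {f : Fin k → E n → E n} {t : ℝ} {N : ℕ} {x : E n}
    (h : Reachable f t N x) : ∃ T, 0 < T ∧ T < t ∧ ∃ q : ℝ → E n, ContinuousOn q (Icc 0 T) ∧
      q 0 = 0 ∧ q T = x ∧ ∀ s ∈ Ico 0 T, ∃ i, HasDerivWithinAt q (f i (q s)) (Ici s) s := by
  obtain ⟨τ, i, ξ, h0, hτ, hlt, hd, hξ0, hm, hx⟩ := h
  have hpos : ∀ M ≤ N, 0 < τ (M + 1) := by
    intro M
    induction M with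
    | zero => intro hM; have := hτ 0 hM; rw [h0] at this; exact this
    | succ M ih => intro hM; exact (ih (by omega)).trans (hτ (M + 1) hM)
  have key : ∀ M ≤ N, ∃ q : ℝ → E n, ContinuousOn q (Icc 0 (τ (M + 1))) ∧ q 0 = 0 ∧
      q (τ (M + 1)) = ξ M (τ (M + 1)) ∧
      ∀ s ∈ Ico 0 (τ (M + 1)), ∃ i, HasDerivWithinAt q (f i (q s)) (Ici s) s := by
    intro M
    induction M with
    | zero =>
      intro hM
      refine ⟨ξ 0, ?_, hξ0, rfl, ?_⟩
      · intro s hs
        have := (hd 0 hM s (by rw [h0]; exact hs)).continuousWithinAt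
        rw [h0] at this
        exact this
      · intro s hs
        refine ⟨i 0, ?_⟩
        have h1 := hd 0 hM s (by rw [h0]; exact Ico_subset_Icc_self hs)
        rw [h0] at h1
        exact h1.mono_of_mem_nhdsWithin (Icc_mem_nhdsGE_of_mem hs)
    | succ M ih =>
      intro hM
      obtain ⟨q, hqc, hq0, hqT, hqd⟩ := ih (by omega)
      have hMM : τ (M + 1) < τ (M + 2) := hτ (M + 1) hM
      have hM0 : 0 < τ (M + 1) := hpos M (by omega)
      have hmatch : ξ M (τ (M + 1)) = ξ (M + 1) (τ (M + 1)) := hm M (by omega)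
      let r : ℝ → E n := fun s => if s < τ (M + 1) then q s else ξ (M + 1) s
      have hrge : ∀ s, τ (M + 1) ≤ s → r s = ξ (M + 1) s := by
        intro s hs
        simp only [r, if_neg (not_lt.2 hs)]
      have hrlt : ∀ s, s < τ (M + 1) → r s = q s := by
        intro s hs
        simp only [r, if_pos hs]
      have hrle : ∀ s, s ≤ τ (M + 1) → r s = q s := by
        intro s hs
        rcases hs.lt_or_eq with h | h
        · exact hrlt s h
        · rw [h, hrge _ le_rfl, hqT, hmatch]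
      refine ⟨r, ?_, ?_, ?_, ?_⟩
      · have hu : Icc 0 (τ (M + 1 + 1)) = Icc 0 (τ (M + 1)) ∪ Icc (τ (M + 1)) (τ (M + 2)) :=
          (Icc_union_Icc_eq_Icc hM0.le hMM.le).symm
        rw [hu]
        apply ContinuousOn.union_of_isClosed _ _ isClosed_Icc isClosed_Icc
        · exact hqc.congr (fun s hs => hrle s hs.2)
        · have hc : ContinuousOn (ξ (M + 1)) (Icc (τ (M + 1)) (τ (M + 2))) :=
            fun s hs => (hd (M + 1) hM s hs).continuousWithinAt
          exact hc.congr (fun s hs => hrge s hs.1)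
      · rw [hrlt 0 hM0, hq0]
      · exact hrge _ hMM.le
      · intro s hs
        by_cases hs1 : s < τ (M + 1)
        · obtain ⟨l, hl⟩ := hqd s ⟨hs.1, hs1⟩
          refine ⟨l, ?_⟩
          rw [hrlt s hs1]
          refine hl.congr_of_eventuallyEq ?_ (hrlt s hs1)
          have : Iio (τ (M + 1)) ∈ 𝓝[≥] s := mem_nhdsWithin_of_mem_nhds (Iio_mem_nhds hs1)
          filter_upwards [this] with u hu
          exact hrlt u hu
        · push Not at hs1
          refine ⟨i (M + 1), ?_⟩
          rw [hrge s hs1]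
          have h1 := (hd (M + 1) hM s ⟨hs1, hs.2.le⟩).mono_of_mem_nhdsWithin
            (Icc_mem_nhdsGE_of_mem ⟨hs1, hs.2⟩)
          exact h1.congr (fun u hu => hrge u (hs1.trans hu)) (hrge s hs1)
  obtain ⟨q, hqc, hq0, hqT, hqd⟩ := key N le_rfl
  exact ⟨τ (N + 1), hpos N le_rfl, hlt, q, hqc, hq0, by rw [hqT, hx], hqd⟩

/-- lower bound from the right derivative. -/
lemma le_of_right_deriv {f : ℝ → ℝ} {a b C : ℝ} (hab : a ≤ b) (hf : ContinuousOn f (Icc a b))
    (hd : ∀ s ∈ Ico a b, ∃ d, C ≤ d ∧ HasDerivWithinAt f d (Ici s) s) :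
    C * (b - a) ≤ f b - f a := by
  choose! d hd1 hd2 using hd
  have h := image_le_of_deriv_right_le_deriv_boundary (f := fun s => -f s) (f' := fun s => -d s)
    (a := a) (b := b) (B := fun s => -f a - C * (s - a)) (B' := fun s => -C)
    hf.neg (fun s hs => (hd2 s hs).neg) (by simp) (by fun_prop)
    (fun s hs => by
      have h1 : HasDerivAt (fun s => -f a - C * (s - a)) (-C) s := by
        have := (((hasDerivAt_id s).sub_const a).const_mul C).const_sub (-f a)
        simpa using this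
      exact h1.hasDerivWithinAt)
    (fun s hs => by have := hd1 s hs; linarith) (right_mem_Icc.2 hab)
  linarith

lemma abs_le_of_right_deriv {f : ℝ → ℝ} {a b C : ℝ} (hf : ContinuousOn f (Icc a b))
    (hd : ∀ s ∈ Ico a b, ∃ d, |d| ≤ C ∧ HasDerivWithinAt f d (Ici s) s) :
    ∀ s ∈ Icc a b, |f s - f a| ≤ C * (s - a) := by
  choose! d hd1 hd2 using hd
  exact norm_image_sub_le_of_norm_deriv_right_le_segment hf hd2 hd1

end Pool.Agent.Helper562.STLC
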