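import Mathlib
import Pool.Agent.Helper562.STLCGlue

open Set Filter Topology

namespace Pool.Agent.Helper562.STLC

noncomputable section

/-- the weight `L`. -/
def LL (δ x : ℝ) : ℝ := 8 + Real.log (1 + x ^ 2 / δ ^ 2)

/-- the multiplier. -/
def GG (δ x : ℝ) : ℝ := -x / LL δ x

/-- its derivative. -/
def GG' (δ x : ℝ) : ℝ := -(1 / LL δ x) + 2 * (x ^ 2 / (δ ^ 2 + x ^ 2)) * (1 / LL δ x) ^ 2

lemma LL_ge (δ x : ℝ) : 8 ≤ LL δ x := by
  have : 0 ≤ Real.log (1 + x ^ 2 / δ ^ 2) := Real.log_nonneg (by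
    have : 0 ≤ x ^ 2 / δ ^ 2 := by positivity
    linarith)
  unfold LL
  linarith

lemma hasDerivAt_GG {δ : ℝ} (hδ : 0 < δ) (x : ℝ) : HasDerivAt (GG δ) (GG' δ x) x := by
  have hL : HasDerivAt (LL δ) (2 * x / (δ ^ 2 + x ^ 2)) x := by
    have h1 : HasDerivAt (fun x : ℝ => 1 + x ^ 2 / δ ^ 2) (2 * x / δ ^ 2) x := by
      have := ((hasDerivAt_pow 2 x).div_const (δ ^ 2)).const_add 1
      simpa using this
    have h2 : (1 + x ^ 2 / δ ^ 2) ≠ 0 := by positivity
    have h3 := (h1.log h2).const_add 8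
    refine h3.congr_deriv ?_
    field_simp
  have hpos : LL δ x ≠ 0 := by have := LL_ge δ x; linarith
  have hn : HasDerivAt (fun x : ℝ => -x) (-1) x := hasDerivAt_neg x
  have h := hn.div hL hpos
  refine h.congr_deriv ?_
  unfold GG'
  have : δ ^ 2 + x ^ 2 ≠ 0 := by positivity
  field_simp
  ring

/-- The pointwise inequality. -/
lemma pointwise {κ V x p y a : ℝ} (hκ : 0 < κ) (hκ1 : κ ≤ 1 / 20) (hV : V = κ ^ 2)
    (hx : |x| ≤ 1) (hp : |p| ≤ 1) (ha : |a| ≤ 1) :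
    -12 * Real.exp (-(1 / (8 * κ))) ^ 2 ≤ (x * p + y / 2) ^ 2 - V * y ^ 2 +
      (GG' (Real.exp (-(1 / (8 * κ)))) x * a * y ^ 2 +
        GG (Real.exp (-(1 / (8 * κ)))) x * (2 * y * p)) := by
  set δ := Real.exp (-(1 / (8 * κ))) with hδdef
  have hδ : 0 < δ := Real.exp_pos _
  have hδ1 : δ ≤ 1 := by
    rw [hδdef]; apply Real.exp_le_one_iff.2
    have : 0 < 1 / (8 * κ) := by positivity
    linarith
  have hL := LL_ge δ x
  set η := 1 / LL δ x with hη
  have hη0 : 0 < η := by positivity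
  have hη8 : η ≤ 1 / 8 := by
    rw [hη]; exact one_div_le_one_div_of_le (by norm_num) hL
  set ρ := x ^ 2 / (δ ^ 2 + x ^ 2) with hρ
  have hρ0 : 0 ≤ ρ := by positivity
  have hρ1 : ρ ≤ 1 := by
    rw [hρ, div_le_one (by positivity)]
    nlinarith
  have hG : GG δ x = -(η * x) := by unfold GG; rw [hη]; ring
  have hG' : GG' δ x = -η + 2 * ρ * η ^ 2 := by unfold GG'; rw [hη, hρ]
  have hG'0 : GG' δ x ≤ 0 := by
    rw [hG']
    nlinarith [mul_nonneg (sub_nonneg.2 hρ1) (sq_nonneg η)]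
  have hG'1 : -(1 / 8) ≤ GG' δ x := by
    rw [hG']
    nlinarith [mul_nonneg hρ0 (sq_nonneg η)]
  obtain ⟨ha1, ha2⟩ := abs_le.1 ha
  have hVpos : 0 < V := by rw [hV]; positivity
  have hV4 : V ≤ 1 / 400 := by rw [hV]; nlinarith
  -- complete the square
  have hsq : (x * p + y / 2) ^ 2 - V * y ^ 2 + (GG' δ x * a * y ^ 2 + GG δ x * (2 * y * p)) =
      (x * p + (1 / 2 - η) * y) ^ 2 + (GG' δ x * a + η - η ^ 2 - V) * y ^ 2 := by
    rw [hG]; ring
  by_cases hcase : 3 / 4 ≤ ρ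
  · have h1 : GG' δ x ≤ GG' δ x * a := by nlinarith
    have hLκ : LL δ x ≤ 7 / 10 / κ := by
      have hx2 : x ^ 2 ≤ 1 := by
        rw [← sq_abs]; nlinarith [abs_nonneg x]
      have h2 : 1 + x ^ 2 / δ ^ 2 ≤ 2 / δ ^ 2 := by
        rw [le_div_iff₀ (by positivity)]
        have : (1 + x ^ 2 / δ ^ 2) * δ ^ 2 = δ ^ 2 + x ^ 2 := by field_simp
        rw [this]
        nlinarith
      have h3 : Real.log (1 + x ^ 2 / δ ^ 2) ≤ Real.log 2 + 1 / (4 * κ) := by
        refine (Real.log_le_log (by positivity) h2).trans ?_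
        rw [Real.log_div (by norm_num) (by positivity), Real.log_pow, hδdef, Real.log_exp]
        have : (2 : ℕ) * -(1 / (8 * κ)) = -(1 / (4 * κ)) := by
          push_cast; field_simp; ring
        rw [this]
        linarith
      have h4 : Real.log 2 ≤ 1 := by
        have := Real.log_two_lt_d9; linarith
      have h5 : LL δ x ≤ 9 + 1 / (4 * κ) := by unfold LL; linarith
      refine h5.trans ?_
      rw [le_div_iff₀ hκ]
      have : (9 + 1 / (4 * κ)) * κ = 9 * κ + 1 / 4 := by field_simp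
      rw [this]
      linarith
    have h6 : 10 / 7 * κ ≤ η := by
      rw [hη, le_div_iff₀ (by linarith)]
      calc 10 / 7 * κ * LL δ x ≤ 10 / 7 * κ * (7 / 10 / κ) := by gcongr
        _ = 1 := by field_simp
    have h7 : 2 * V ≤ η ^ 2 := by
      rw [hV]; nlinarith
    have h8 : 0 ≤ GG' δ x * a + η - η ^ 2 - V := by
      have : GG' δ x + η - η ^ 2 - V ≤ GG' δ x * a + η - η ^ 2 - V := by linarith
      refine le_trans ?_ this
      rw [hG']
      nlinarith [sq_nonneg η]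
    rw [hsq]
    have h9 : 0 ≤ (GG' δ x * a + η - η ^ 2 - V) * y ^ 2 := by positivity
    have h10 : 0 ≤ δ ^ 2 := by positivity
    nlinarith [sq_nonneg (x * p + (1 / 2 - η) * y)]
  · push Not at hcase
    have hx3 : x ^ 2 ≤ 3 * δ ^ 2 := by
      rw [hρ, div_lt_iff₀ (by positivity)] at hcase
      nlinarith
    have hp2 : p ^ 2 ≤ 1 := by
      rw [← sq_abs]; nlinarith [abs_nonneg p]
    have hu : (x * p) ^ 2 ≤ 3 * δ ^ 2 := by
      rw [mul_pow]
      nlinarith [sq_nonneg x]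
    have hGa : -(1 / 8) ≤ GG' δ x * a := by nlinarith
    have hexp : (x * p + y / 2) ^ 2 - V * y ^ 2 + (GG' δ x * a * y ^ 2 + GG δ x * (2 * y * p)) =
        (x * p) ^ 2 + (1 - 2 * η) * (x * p) * y + (1 / 4 - V + GG' δ x * a) * y ^ 2 := by
      rw [hG]; ring
    rw [hexp]
    have h1 : 0 ≤ (1 / 4 - V + GG' δ x * a - 3 / 25) * y ^ 2 := by
      apply mul_nonneg _ (sq_nonneg y)
      linarith
    have h2 : 0 ≤ 3 * (x * p) ^ 2 + (1 - 2 * η) * (x * p) * y + 3 / 25 * y ^ 2 := by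
      have hc0 : 0 ≤ 1 - 2 * η := by linarith
      have hc1 : 1 - 2 * η ≤ 1 := by linarith
      have hc2 : (1 - 2 * η) ^ 2 ≤ 1 := by nlinarith
      nlinarith [sq_nonneg (y + 25 / 6 * (1 - 2 * η) * (x * p)), sq_nonneg (x * p),
        mul_nonneg (sub_nonneg.2 hc2) (sq_nonneg (x * p))]
    nlinarith

end

end Pool.Agent.Helper562.STLC
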