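import Mathlib
import Pool.Agent.Helper562.STLCHardy

open Set Filter Topology

namespace Pool.Agent.Helper562.STLC

noncomputable section

lemma exists_threshold (m : ℕ) : ∃ T₀ : ℝ, 0 < T₀ ∧ T₀ ≤ 1 / 400 ∧ ∀ V, 0 < V → V ≤ T₀ →
    12 * Real.exp (-(1 / (8 * √V))) ^ 2 ≤ (V / 2) ^ (2 * m + 1) := by
  have h := Real.tendsto_pow_mul_exp_neg_atTop_nhds_zero (2 * (2 * m + 1))
  have hc : (0 : ℝ) < 1 / (12 * 32 ^ (2 * m + 1)) := by positivity
  have hev := (h.eventually (ge_mem_nhds hc)).and (eventually_ge_atTop (1 : ℝ))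
  obtain ⟨x₀, hx₀⟩ := eventually_atTop.1 hev
  set x₁ := max x₀ 1 with hx₁
  have hx₁1 : 1 ≤ x₁ := le_max_right _ _
  refine ⟨min (1 / 400) (1 / (16 * x₁ ^ 2)), by positivity, min_le_left _ _, ?_⟩
  intro V hV hVT
  have hV2 : V ≤ 1 / (16 * x₁ ^ 2) := hVT.trans (min_le_right _ _)
  set κ := √V with hκ
  have hκpos : 0 < κ := Real.sqrt_pos.2 hV
  have hκ2 : κ ^ 2 = V := Real.sq_sqrt hV.le
  set x := 1 / (4 * κ) with hx
  have hxpos : 0 < x := by positivity
  have hκle : κ ≤ 1 / (4 * x₁) := by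
    apply Real.sqrt_le_iff.2
    refine ⟨by positivity, ?_⟩
    calc V ≤ 1 / (16 * x₁ ^ 2) := hV2
      _ = (1 / (4 * x₁)) ^ 2 := by field_simp; ring
  have hx1 : x₁ ≤ x := by
    rw [hx, le_div_iff₀ (by positivity)]
    rw [le_div_iff₀ (by positivity)] at hκle
    linarith
  have h1 := (hx₀ x ((le_max_left _ _).trans hx1)).1
  have h2 : Real.exp (-(1 / (8 * κ))) ^ 2 = Real.exp (-x) := by
    rw [← Real.exp_nat_mul]
    congr 1
    rw [hx]; push_cast; field_simp; ring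
  have h3 : V / 2 = 1 / (32 * x ^ 2) := by
    rw [hx, ← hκ2]; field_simp; ring
  rw [h2, h3]
  have h4 : (1 / (32 * x ^ 2)) ^ (2 * m + 1) = 1 / (32 ^ (2 * m + 1) * x ^ (2 * (2 * m + 1))) := by
    rw [div_pow, one_pow, mul_pow, ← pow_mul]
  rw [h4, le_div_iff₀ (by positivity)]
  have h5 : x ^ (2 * (2 * m + 1)) * Real.exp (-x) * (12 * 32 ^ (2 * m + 1)) ≤ 1 := by
    rw [← le_div_iff₀ (by positivity)]
    exact h1
  calc 12 * Real.exp (-x) * (32 ^ (2 * m + 1) * x ^ (2 * (2 * m + 1))) =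
      x ^ (2 * (2 * m + 1)) * Real.exp (-x) * (12 * 32 ^ (2 * m + 1)) := by ring
    _ ≤ 1 := h5

lemma end_nonneg {m : ℕ} {T₀ : ℝ} (hT₀ : T₀ ≤ 1 / 400)
    (hthr : ∀ V, 0 < V → V ≤ T₀ → 12 * Real.exp (-(1 / (8 * √V))) ^ 2 ≤ (V / 2) ^ (2 * m + 1))
    {T : ℝ} (hT : 0 < T) (hTT : T < T₀) {x p v y z : ℝ → ℝ}
    (hxc : ContinuousOn x (Icc 0 T)) (hpc : ContinuousOn p (Icc 0 T))
    (hvc : ContinuousOn v (Icc 0 T)) (hyc : ContinuousOn y (Icc 0 T))
    (hzc : ContinuousOn z (Icc 0 T)) (hx0 : x 0 = 0) (hp0 : p 0 = 0) (hv0 : v 0 = 0)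
    (hy0 : y 0 = 0) (hz0 : z 0 = 0)
    (hd : ∀ s ∈ Ico 0 T, ∃ a b c, |a| ≤ 1 ∧ |b| ≤ 1 ∧ |c| ≤ 1 ∧
      HasDerivWithinAt x a (Ici s) s ∧ HasDerivWithinAt p b (Ici s) s ∧
      HasDerivWithinAt v c (Ici s) s ∧ HasDerivWithinAt y (p s) (Ici s) s ∧
      HasDerivWithinAt z ((x s * p s + y s / 2) ^ 2 - v s * y s ^ 2 + v s ^ (2 * m)) (Ici s) s)
    (hxT : x T = 0) : 0 ≤ z T := by
  -- elementary bounds
  have hxb : ∀ s ∈ Icc 0 T, |x s| ≤ s := by
    intro s hs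
    have := abs_le_of_right_deriv (C := 1) hxc (fun s hs => by
      obtain ⟨a, b, c, ha, hb, hc, h1, h2, h3, h4, h5⟩ := hd s hs
      exact ⟨a, ha, h1⟩) s hs
    simpa [hx0] using this
  have hpb : ∀ s ∈ Icc 0 T, |p s| ≤ s := by
    intro s hs
    have := abs_le_of_right_deriv (C := 1) hpc (fun s hs => by
      obtain ⟨a, b, c, ha, hb, hc, h1, h2, h3, h4, h5⟩ := hd s hs
      exact ⟨b, hb, h2⟩) s hs
    simpa [hp0] using this
  have hvl : ∀ r ∈ Icc 0 T, ∀ s ∈ Icc r T, |v s - v r| ≤ s - r := by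
    intro r hr s hs
    have := abs_le_of_right_deriv (C := 1) (hvc.mono (Icc_subset_Icc_left hr.1)) (fun s hs => by
      obtain ⟨a, b, c, ha, hb, hc, h1, h2, h3, h4, h5⟩ := hd s ⟨hr.1.trans hs.1, hs.2⟩
      exact ⟨c, hc, h3⟩) s hs
    simpa using this
  obtain ⟨s₁, hs₁, hmax⟩ := isCompact_Icc.exists_isMaxOn (nonempty_Icc.2 hT.le) hvc.abs
  set V := |v s₁| with hVdef
  have hVmax : ∀ s ∈ Icc 0 T, |v s| ≤ V := fun s hs => hmax hs
  have hVnn : 0 ≤ V := abs_nonneg _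
  rcases hVnn.eq_or_lt with hV0 | hVpos
  · -- no coupling at all
    have h := le_of_right_deriv (C := 0) hT.le hzc (fun s hs => by
      obtain ⟨a, b, c, ha, hb, hc, h1, h2, h3, h4, h5⟩ := hd s hs
      refine ⟨_, ?_, h5⟩
      have hvs : v s = 0 := by
        have := hVmax s (Ico_subset_Icc_self hs)
        rw [← hV0] at this
        exact abs_nonpos_iff.1 this
      rw [hvs]
      have : (0 : ℝ) ≤ 0 ^ (2 * m) := by positivity
      nlinarith [sq_nonneg (x s * p s + y s / 2)])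
    linarith
  · -- the main case
    have hV_le_s : V ≤ s₁ := by
      have := hvl 0 (left_mem_Icc.2 hT.le) s₁ hs₁
      simpa [hv0] using this
    have hVT₀ : V ≤ T₀ := by linarith [hs₁.2]
    have hsmall := hthr V hVpos hVT₀
    set κ := √V with hκ
    have hκpos : 0 < κ := Real.sqrt_pos.2 hVpos
    have hκ2 : V = κ ^ 2 := (Real.sq_sqrt hVpos.le).symm
    have hκ1 : κ ≤ 1 / 20 := by
      apply Real.sqrt_le_iff.2
      exact ⟨by norm_num, by norm_num; linarith⟩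
    set δ := Real.exp (-(1 / (8 * κ))) with hδ
    have hδpos : 0 < δ := Real.exp_pos _
    have hδ1 : δ ≤ 1 := by
      rw [hδ]; apply Real.exp_le_one_iff.2
      have : 0 < 1 / (8 * κ) := by positivity
      linarith
    let Ψ : ℝ → ℝ := fun s => z s + GG δ (x s) * y s ^ 2
    have hGc : Continuous (GG δ) :=
      continuous_iff_continuousAt.2 fun u => (hasDerivAt_GG hδpos u).continuousAt
    have hΨc : ContinuousOn Ψ (Icc 0 T) :=
      hzc.add ((hGc.comp_continuousOn hxc).mul (hyc.pow 2))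
    have hΨd : ∀ s ∈ Ico 0 T, ∃ d, -12 * δ ^ 2 + v s ^ (2 * m) ≤ d ∧
        HasDerivWithinAt Ψ d (Ici s) s := by
      intro s hs
      have hsI := Ico_subset_Icc_self hs
      obtain ⟨a, b, c, ha, hb, hc, h1, h2, h3, h4, h5⟩ := hd s hs
      have hG := (hasDerivAt_GG hδpos (x s)).comp_hasDerivWithinAt s h1
      have hy2 := h4.pow 2
      refine ⟨_, ?_, h5.add (hG.mul hy2)⟩
      have hx1 : |x s| ≤ 1 := by have := hxb s hsI; linarith [hs.2]
      have hp1 : |p s| ≤ 1 := by have := hpb s hsI; linarith [hs.2]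
      have hpt := pointwise (y := y s) hκpos hκ1 hκ2 hx1 hp1 ha
      have hvV : v s * y s ^ 2 ≤ V * y s ^ 2 := by
        have : v s ≤ V := (le_abs_self _).trans (hVmax s hsI)
        gcongr
      simp only [Function.comp_apply] at *
      have e : GG' δ (x s) * a * y s ^ 2 + GG δ (x s) * (((2 : ℕ) : ℝ) * y s ^ (2 - 1) * p s) =
          GG' δ (x s) * a * y s ^ 2 + GG δ (x s) * (2 * y s * p s) := by
        norm_num
      rw [e]
      linarith
    have hΨ0 : Ψ 0 = 0 := by simp [Ψ, hz0, hy0]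
    have hΨT : Ψ T = z T := by simp [Ψ, hxT, GG]
    have hpow : ∀ s, 0 ≤ v s ^ (2 * m) := fun s => by
      rw [pow_mul]; positivity
    -- three intervals
    have hs₁0 : 0 ≤ s₁ - V / 2 := by linarith
    have hI1 := le_of_right_deriv (C := -12 * δ ^ 2) hs₁0
      (hΨc.mono (Icc_subset_Icc_right (by linarith [hs₁.2]))) (fun s hs => by
        obtain ⟨d, hd1, hd2⟩ := hΨd s ⟨hs.1, by linarith [hs.2, hs₁.2]⟩
        exact ⟨d, by linarith [hpow s], hd2⟩)
    have hI2 := le_of_right_deriv (f := Ψ) (a := s₁ - V / 2) (b := s₁)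
      (C := -12 * δ ^ 2 + (V / 2) ^ (2 * m)) (by linarith)
      (hΨc.mono (Icc_subset_Icc hs₁0 hs₁.2)) (fun s hs => by
        have hsI : s ∈ Ico 0 T := ⟨hs₁0.trans hs.1, hs.2.trans_le hs₁.2⟩
        obtain ⟨d, hd1, hd2⟩ := hΨd s hsI
        refine ⟨d, ?_, hd2⟩
        have hvs : V / 2 ≤ |v s| := by
          have h1 := hvl s (Ico_subset_Icc_self hsI) s₁ ⟨hs.2.le, hs₁.2⟩
          have h2 : |v s₁| ≤ |v s₁ - v s| + |v s| := by
            have := abs_add_le (v s₁ - v s) (v s)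
            simpa using this
          have h3 := hs.1
          rw [← hVdef] at h2
          linarith
        have : (V / 2) ^ (2 * m) ≤ v s ^ (2 * m) := by
          rw [← Even.pow_abs (even_two_mul m) (v s)]
          gcongr
        linarith)
    have hI3 := le_of_right_deriv (f := Ψ) (a := s₁) (b := T) (C := -12 * δ ^ 2) hs₁.2
      (hΨc.mono (Icc_subset_Icc_left hs₁.1)) (fun s hs => by
        obtain ⟨d, hd1, hd2⟩ := hΨd s ⟨hs₁.1.trans hs.1, hs.2⟩
        exact ⟨d, by linarith [hpow s], hd2⟩)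
    rw [hΨT] at hI3
    rw [hΨ0] at hI1
    have hsum : -12 * δ ^ 2 * T + (V / 2) ^ (2 * m) * (V / 2) ≤ z T := by nlinarith
    have hTδ : 12 * δ ^ 2 * T ≤ 12 * δ ^ 2 := by
      have : 0 ≤ 12 * δ ^ 2 := by positivity
      nlinarith
    have : (V / 2) ^ (2 * m) * (V / 2) = (V / 2) ^ (2 * m + 1) := by rw [pow_succ]
    rw [this] at hsum
    linarith

end

end Pool.Agent.Helper562.STLC
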