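import Mathlib
import Pool.Agent.Helper562.STLCLower

open Set Filter Topology

namespace Pool.Agent.Helper562.STLC

noncomputable section

/-- The eight values of the control `(x', p', v')`. -/
def ctl : Fin 8 → ℝ × ℝ × ℝ :=
  ![(1, 0, 0), (-1, 0, 0), (0, 1, 0), (0, -1, 0), (0, 0, 1), (0, 0, -1), (1, 1, 0), (1, -1, 0)]

/-- The vector fields; the coordinates are `x, p, v, y, z`. -/
def fld (e : ℝ) (m : ℕ) (i : Fin 8) (q : E 5) : E 5 :=
  !₂[(ctl i).1, (ctl i).2.1, (ctl i).2.2, q 1,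
    (q 0 * q 1 + q 3 / 2) ^ 2 - q 2 * q 3 ^ 2 + e * q 2 ^ (2 * m)]

lemma ctl_bound (i : Fin 8) : |(ctl i).1| ≤ 1 ∧ |(ctl i).2.1| ≤ 1 ∧ |(ctl i).2.2| ≤ 1 := by
  fin_cases i <;> simp [ctl]

lemma comp_deriv {q : ℝ → E 5} {w : E 5} {S : Set ℝ} {s : ℝ} (h : HasDerivWithinAt q w S s)
    (j : Fin 5) : HasDerivWithinAt (fun u => q u j) (w j) S s :=
  ((EuclideanSpace.proj j : E 5 →L[ℝ] ℝ).hasFDerivAt.comp_hasDerivWithinAt s h)

lemma comp_cont {q : ℝ → E 5} {S : Set ℝ} (h : ContinuousOn q S) (j : Fin 5) :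
    ContinuousOn (fun u => q u j) S :=
  (EuclideanSpace.proj j : E 5 →L[ℝ] ℝ).continuous.comp_continuousOn h

lemma reachable_nonneg {m : ℕ} {T₀ : ℝ} (hT₀ : T₀ ≤ 1 / 400)
    (hthr : ∀ V, 0 < V → V ≤ T₀ → 12 * Real.exp (-(1 / (8 * √V))) ^ 2 ≤ (V / 2) ^ (2 * m + 1))
    {w : E 5} (hw : w ∈ Attainable (fld 1 m) T₀) (hw0 : w 0 = 0) : 0 ≤ w 4 := by
  obtain ⟨N, hN⟩ := hw
  obtain ⟨T, hT, hTT, q, hqc, hq0, hqT, hqd⟩ := glue hN
  have := end_nonneg (m := m) hT₀ hthr hT hTT (x := fun s => q s 0) (p := fun s => q s 1)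
    (v := fun s => q s 2) (y := fun s => q s 3) (z := fun s => q s 4)
    (comp_cont hqc 0) (comp_cont hqc 1) (comp_cont hqc 2) (comp_cont hqc 3) (comp_cont hqc 4)
    (by simp [hq0]) (by simp [hq0]) (by simp [hq0]) (by simp [hq0]) (by simp [hq0])
    (fun s hs => by
      obtain ⟨i, hi⟩ := hqd s hs
      obtain ⟨hb1, hb2, hb3⟩ := ctl_bound i
      refine ⟨(ctl i).1, (ctl i).2.1, (ctl i).2.2, hb1, hb2, hb3, ?_, ?_, ?_, ?_, ?_⟩
      · exact comp_deriv hi 0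
      · exact comp_deriv hi 1
      · exact comp_deriv hi 2
      · exact comp_deriv hi 3
      · have := comp_deriv hi 4
        simpa [fld] using this)
    (by simp [hqT, hw0])
  simpa [hqT] using this

lemma not_STLC (m : ℕ) : ¬ STLC (fld 1 m) := by
  intro h
  obtain ⟨T₀, hT₀, hT₀', hthr⟩ := exists_threshold m
  have h1 := h T₀ hT₀
  rw [mem_interior_iff_mem_nhds, Metric.mem_nhds_iff] at h1
  obtain ⟨r, hr, hball⟩ := h1
  let w : E 5 := EuclideanSpace.single 4 (-(r / 2))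
  have hw : w ∈ Metric.ball (0 : E 5) r := by
    rw [mem_ball_zero_iff, show ‖w‖ = ‖-(r / 2)‖ from PiLp.norm_single 2 _ _ _, norm_neg,
      Real.norm_eq_abs, abs_of_pos (by linarith)]
    linarith
  have h2 := reachable_nonneg hT₀' hthr (hball hw) (by simp [w])
  simp [w] at h2
  linarith

end

end Pool.Agent.Helper562.STLC
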