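import Mathlib
import Pool.Agent.Helper562.STLCField

open Set Filter Topology

namespace Pool.Agent.Helper562.STLC

noncomputable section

/-- `Conn f a T b`: the point `b` is reached from `a` in time exactly `T`. -/
inductive Conn {n k : ℕ} (f : Fin k → E n → E n) (a : E n) : ℝ → E n → Prop
  | refl : Conn f a 0 a
  | step {T θ : ℝ} {b : E n} (h : Conn f a T b) (hθ : 0 < θ) (i : Fin k) (η : ℝ → E n)
      (h0 : η 0 = b)
      (hd : ∀ s ∈ Icc 0 θ, HasDerivWithinAt η (f i (η s)) (Icc 0 θ) s) : Conn f a (T + θ) (η θ)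

/-- a nonempty concatenation gives a reachable point. -/
lemma Conn.exists_data {n k : ℕ} {f : Fin k → E n → E n} {T : ℝ} {b : E n}
    (h : Conn f 0 T b) : (T = 0 ∧ b = 0) ∨ ∃ (N : ℕ) (τ : ℕ → ℝ) (i : ℕ → Fin k) (ξ : ℕ → ℝ → E n),
    τ 0 = 0 ∧ (∀ j ≤ N, τ j < τ (j + 1)) ∧ τ (N + 1) = T ∧
    (∀ j ≤ N, ∀ s ∈ Icc (τ j) (τ (j + 1)),
      HasDerivWithinAt (ξ j) (f (i j) (ξ j s)) (Icc (τ j) (τ (j + 1))) s) ∧
    ξ 0 0 = 0 ∧ (∀ j < N, ξ j (τ (j + 1)) = ξ (j + 1) (τ (j + 1))) ∧ ξ N (τ (N + 1)) = b := by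
  induction h with
  | refl => left; exact ⟨rfl, rfl⟩
  | @step T θ b h hθ i η h0 hd ih =>
    right
    rcases ih with ⟨hT, hb⟩ | ⟨N, τ, l, ξ, hτ0, hτ, hT, hξ, hξ0, hm, hb⟩
    · subst hT
      refine ⟨0, fun j => if j = 0 then 0 else θ, fun _ => i, fun _ => η, ?_, ?_, ?_, ?_, ?_, ?_, ?_⟩
      · simp
      · intro j hj
        have : j = 0 := by omega
        subst this
        simpa using hθ
      · simp
      · intro j hj
        have : j = 0 := by omega
        subst this
        simpa using hd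
      · change η 0 = 0
        rw [h0, hb]
      · intro j hj; omega
      · simp
    · refine ⟨N + 1, fun j => if j ≤ N + 1 then τ j else T + θ, fun j => if j ≤ N then l j else i,
        fun j => if j ≤ N then ξ j else fun s => η (s - T), ?_, ?_, ?_, ?_, ?_, ?_, ?_⟩
      · simp [hτ0]
      · intro j hj
        rcases hj.lt_or_eq with h | h
        · have h1 : j ≤ N + 1 := hj
          have h2 : j + 1 ≤ N + 1 := by omega
          simp only [h1, h2, if_true]
          exact hτ j (by omega)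
        · subst h
          have h2 : ¬ (N + 1 + 1 ≤ N + 1) := by omega
          simp only [le_refl, h2, if_true, if_false, hT]
          linarith
      · simp
      · intro j hj
        rcases hj.lt_or_eq with h | h
        · have h0 : j ≤ N := by omega
          have h1 : j ≤ N + 1 := hj
          have h2 : j + 1 ≤ N + 1 := by omega
          simp only [h0, h1, h2, if_true]
          exact hξ j h0
        · subst h
          have h2 : ¬ (N + 1 + 1 ≤ N + 1) := by omega
          have h3 : ¬ (N + 1 ≤ N) := by omega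
          simp only [le_refl, h2, h3, if_true, if_false, hT]
          intro s hs
          have h4 := hd (s - T) ⟨by linarith [hs.1], by linarith [hs.2]⟩
          have h5 : HasDerivWithinAt (fun s : ℝ => s - T) 1 (Icc T (T + θ)) s :=
            ((hasDerivAt_id s).sub_const T).hasDerivWithinAt
          have h6 : MapsTo (fun s : ℝ => s - T) (Icc T (T + θ)) (Icc 0 θ) := by
            intro u hu
            exact ⟨by linarith [hu.1], by linarith [hu.2]⟩
          have h7 := h4.scomp s h5 h6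
          rw [one_smul] at h7
          exact h7
      · have h0 : (0 : ℕ) ≤ N := by omega
        simp only [h0, if_true, hξ0]
      · intro j hj
        rcases (Nat.lt_succ_iff.1 hj).lt_or_eq with h | h
        · have e1 : j ≤ N := by omega
          have e2 : j + 1 ≤ N := by omega
          have e3 : j + 1 ≤ N + 1 := by omega
          simp only [e1, e2, e3, if_true]
          exact hm j h
        · subst h
          have e2 : ¬ (j + 1 ≤ j) := by omega
          simp only [le_refl, e2, if_true, if_false, hT, sub_self]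
          rw [h0, ← hb, hT]
      · have e2 : ¬ (N + 1 + 1 ≤ N + 1) := by omega
        have e3 : ¬ (N + 1 ≤ N) := by omega
        simp only [e2, e3, if_false]
        congr 1
        ring

lemma Conn.mem_attainable {n k : ℕ} {f : Fin k → E n → E n} {T t : ℝ} {b : E n}
    (h : Conn f 0 T b) (hT : 0 < T) (hTt : T < t) : b ∈ Attainable f t := by
  rcases h.exists_data with ⟨h0, -⟩ | ⟨N, τ, i, ξ, h1, h2, h3, h4, h5, h6, h7⟩
  · exact absurd h0 hT.ne'
  · exact ⟨N, τ, i, ξ, h1, h2, by rw [h3]; exact hTt, h4, h5, h6, h7⟩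

/-- the running cost. -/
def H (x p v y : ℝ) : ℝ := (x * p + y / 2) ^ 2 - v * y ^ 2

/-- the unperturbed family. -/
def f0 : Fin 8 → E 5 → E 5 := fld 0 0

/-- a state. -/
def st (x p v y z : ℝ) : E 5 := !₂[x, p, v, y, z]

/-- cost of a single control. -/
def fc (A B C x p v y θ : ℝ) : ℝ :=
  ∫ s in (0 : ℝ)..θ, H (x + A * s) (p + B * s) (v + C * s) (y + p * s + B * s ^ 2 / 2)

lemma continuous_H_flow (A B C x p v y : ℝ) : Continuous (fun s : ℝ =>
    H (x + A * s) (p + B * s) (v + C * s) (y + p * s + B * s ^ 2 / 2)) := by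
  unfold H; fun_prop

lemma flow_deriv (i : Fin 8) (x p v y z s : ℝ) {S : Set ℝ} :
    HasDerivWithinAt (fun s => st (x + (ctl i).1 * s) (p + (ctl i).2.1 * s) (v + (ctl i).2.2 * s)
      (y + p * s + (ctl i).2.1 * s ^ 2 / 2)
      (z + fc (ctl i).1 (ctl i).2.1 (ctl i).2.2 x p v y s))
    (f0 i (st (x + (ctl i).1 * s) (p + (ctl i).2.1 * s) (v + (ctl i).2.2 * s)
      (y + p * s + (ctl i).2.1 * s ^ 2 / 2)
      (z + fc (ctl i).1 (ctl i).2.1 (ctl i).2.2 x p v y s))) S s := by
  rw [hasDerivWithinAt_iff_hasFDerivWithinAt, hasFDerivWithinAt_euclidean]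
  intro j
  have hlin : ∀ (a b : ℝ), HasDerivAt (fun s : ℝ => a + b * s) b s := by
    intro a b
    have := ((hasDerivAt_id s).const_mul b).const_add a
    simpa using this
  fin_cases j
  · refine ((hlin x (ctl i).1).hasDerivWithinAt.hasFDerivWithinAt).congr_fderiv ?_
    ext; simp [f0, fld]
  · refine ((hlin p (ctl i).2.1).hasDerivWithinAt.hasFDerivWithinAt).congr_fderiv ?_
    ext; simp [f0, fld]
  · refine ((hlin v (ctl i).2.2).hasDerivWithinAt.hasFDerivWithinAt).congr_fderiv ?_
    ext; simp [f0, fld]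
  · have h1 : HasDerivAt (fun s : ℝ => y + p * s + (ctl i).2.1 * s ^ 2 / 2)
        (p + (ctl i).2.1 * s) s := by
      have h2 := ((hlin y p).add ((((hasDerivAt_pow 2 s).const_mul (ctl i).2.1)).div_const 2))
      refine h2.congr_deriv ?_
      push_cast; ring
    refine (h1.hasDerivWithinAt.hasFDerivWithinAt).congr_fderiv ?_
    ext; simp [f0, fld, st]
  · have h1 : HasDerivAt (fun s => fc (ctl i).1 (ctl i).2.1 (ctl i).2.2 x p v y s)
        (H (x + (ctl i).1 * s) (p + (ctl i).2.1 * s) (v + (ctl i).2.2 * s)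
          (y + p * s + (ctl i).2.1 * s ^ 2 / 2)) s :=
      (continuous_H_flow _ _ _ x p v y).integral_hasStrictDerivAt 0 s |>.hasDerivAt
    refine ((h1.const_add z).hasDerivWithinAt.hasFDerivWithinAt).congr_fderiv ?_
    ext; simp [f0, fld, st, H]

/-- Applying one control during time `θ ≥ 0`. -/
lemma Conn.ctl {a : E 5} {T x p v y z : ℝ} (h : Conn f0 a T (st x p v y z)) (i : Fin 8) {θ : ℝ}
    (hθ : 0 ≤ θ) : Conn f0 a (T + θ) (st (x + (ctl i).1 * θ) (p + (ctl i).2.1 * θ)
      (v + (ctl i).2.2 * θ) (y + p * θ + (ctl i).2.1 * θ ^ 2 / 2)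
      (z + fc (ctl i).1 (ctl i).2.1 (ctl i).2.2 x p v y θ)) := by
  rcases hθ.eq_or_lt with h0 | h0
  · subst h0
    simpa [fc] using h
  · exact h.step h0 i (fun s => st (x + (STLC.ctl i).1 * s) (p + (STLC.ctl i).2.1 * s)
      (v + (STLC.ctl i).2.2 * s) (y + p * s + (STLC.ctl i).2.1 * s ^ 2 / 2)
      (z + fc (STLC.ctl i).1 (STLC.ctl i).2.1 (STLC.ctl i).2.2 x p v y s)) (by simp [fc])
      (fun s _ => flow_deriv i x p v y z s)

end

end Pool.Agent.Helper562.STLC
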