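import Mathlib
import Pool.Agent.Helper562.STLCConn

open Set Filter Topology

namespace Pool.Agent.Helper562.STLC

noncomputable section

/-- A motion of duration `T` from the state `(x, p, v, y)` to the state `(x', p', v', y')` which
changes the coordinate `z` by `c`. -/
def Mv (T x p v y x' p' v' y' c : ℝ) : Prop :=
  ∀ (a : E 5) (S z : ℝ), Conn f0 a S (st x p v y z) → Conn f0 a (S + T) (st x' p' v' y' (z + c))

lemma Mv.trans {T₁ T₂ x p v y x' p' v' y' x'' p'' v'' y'' c₁ c₂ : ℝ}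
    (h₁ : Mv T₁ x p v y x' p' v' y' c₁) (h₂ : Mv T₂ x' p' v' y' x'' p'' v'' y'' c₂) :
    Mv (T₁ + T₂) x p v y x'' p'' v'' y'' (c₁ + c₂) := by
  intro a S z h
  have := h₂ a _ _ (h₁ a S z h)
  rwa [add_assoc, add_assoc] at this

lemma Mv.congr {T x p v y x' p' v' y' c T₂ x₂ p₂ v₂ y₂ c₂ : ℝ}
    (h : Mv T x p v y x' p' v' y' c) (hT : T = T₂) (hx : x' = x₂) (hp : p' = p₂) (hv : v' = v₂)
    (hy : y' = y₂) (hc : c = c₂) : Mv T₂ x p v y x₂ p₂ v₂ y₂ c₂ := by
  subst hT hx hp hv hy hc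
  exact h

lemma Mv.single (i : Fin 8) (x p v y : ℝ) {θ : ℝ} (hθ : 0 ≤ θ) :
    Mv θ x p v y (x + (ctl i).1 * θ) (p + (ctl i).2.1 * θ) (v + (ctl i).2.2 * θ)
      (y + p * θ + (ctl i).2.1 * θ ^ 2 / 2)
      (fc (ctl i).1 (ctl i).2.1 (ctl i).2.2 x p v y θ) :=
  fun _ _ _ h => h.ctl i hθ

lemma abs_H_le {x p v y : ℝ} (hx : |x| ≤ 1) (hp : |p| ≤ 1) (hv : |v| ≤ 1) (hy : |y| ≤ 1) :
    |H x p v y| ≤ 4 := by
  unfold H
  have h1 : |x * p| ≤ 1 := by
    rw [abs_mul]; exact mul_le_one₀ hx (abs_nonneg _) hp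
  obtain ⟨h1a, h1b⟩ := abs_le.1 h1
  obtain ⟨h2a, h2b⟩ := abs_le.1 hy
  obtain ⟨h3a, h3b⟩ := abs_le.1 hv
  have hy2 : y ^ 2 ≤ 1 := by nlinarith
  have hy0 : 0 ≤ y ^ 2 := sq_nonneg y
  have h4 : |v * y ^ 2| ≤ 1 := by
    rw [abs_mul, abs_of_nonneg hy0]
    exact mul_le_one₀ hv hy0 hy2
  obtain ⟨h4a, h4b⟩ := abs_le.1 h4
  have h5 : (x * p + y / 2) ^ 2 ≤ 3 := by nlinarith
  have h6 : 0 ≤ (x * p + y / 2) ^ 2 := sq_nonneg _
  rw [abs_le]
  constructor <;> linarith

lemma abs_fc_le {A B C x p v y θ K : ℝ} (hθ : 0 ≤ θ)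
    (h : ∀ s ∈ Icc 0 θ, |H (x + A * s) (p + B * s) (v + C * s) (y + p * s + B * s ^ 2 / 2)| ≤ K) :
    |fc A B C x p v y θ| ≤ K * θ := by
  have := intervalIntegral.norm_integral_le_of_norm_le_const (a := 0) (b := θ) (C := K)
    (f := fun s => H (x + A * s) (p + B * s) (v + C * s) (y + p * s + B * s ^ 2 / 2)) (by
      intro s hs
      rw [uIoc_of_le hθ] at hs
      exact h s (Ioc_subset_Icc_self hs))
  rw [sub_zero, abs_of_nonneg hθ] at this
  exact this

lemma fc_zero_of_H {A B C x p v y θ : ℝ}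
    (h : ∀ s, H (x + A * s) (p + B * s) (v + C * s) (y + p * s + B * s ^ 2 / 2) = 0) :
    fc A B C x p v y θ = 0 := by
  unfold fc
  simp [h]

lemma xmove (x x' v : ℝ) : Mv |x' - x| x 0 v 0 x' 0 v 0 0 := by
  rcases le_total x x' with h | h
  · have h1 := Mv.single 0 x 0 v 0 (θ := x' - x) (by linarith)
    refine h1.congr ?_ ?_ ?_ ?_ ?_ ?_
    · rw [abs_of_nonneg (by linarith)]
    · simp [ctl]
    · simp [ctl]
    · simp [ctl]
    · simp [ctl]
    · apply fc_zero_of_H; intro s; simp [ctl, H]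
  · have h1 := Mv.single 1 x 0 v 0 (θ := x - x') (by linarith)
    refine h1.congr ?_ ?_ ?_ ?_ ?_ ?_
    · rw [abs_of_nonpos (by linarith)]; ring
    · simp [ctl]
    · simp [ctl]
    · simp [ctl]
    · simp [ctl]
    · apply fc_zero_of_H; intro s; simp [ctl, H]

lemma vmove (x v v' : ℝ) : Mv |v' - v| x 0 v 0 x 0 v' 0 0 := by
  rcases le_total v v' with h | h
  · have h1 := Mv.single 4 x 0 v 0 (θ := v' - v) (by linarith)
    refine h1.congr ?_ ?_ ?_ ?_ ?_ ?_
    · rw [abs_of_nonneg (by linarith)]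
    · simp [ctl]
    · simp [ctl]
    · simp [ctl]
    · simp [ctl]
    · apply fc_zero_of_H; intro s; simp [ctl, H]
  · have h1 := Mv.single 5 x 0 v 0 (θ := v - v') (by linarith)
    refine h1.congr ?_ ?_ ?_ ?_ ?_ ?_
    · rw [abs_of_nonpos (by linarith)]; ring
    · simp [ctl]
    · simp [ctl]
    · simp [ctl]
    · simp [ctl]
    · apply fc_zero_of_H; intro s; simp [ctl, H]

lemma pmove {x v y p₁ : ℝ} (hx : |x| ≤ 1) (hv : |v| ≤ 1) (hy : |y| ≤ 1 / 2) (hp : |p₁| ≤ 1 / 2) :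
    ∃ c, |c| ≤ 4 * |p₁| ∧ Mv |p₁| x 0 v y x p₁ v (y + p₁ * |p₁| / 2) c := by
  obtain ⟨hy1, hy2⟩ := abs_le.1 hy
  rcases le_total 0 p₁ with h | h
  · have h1 := Mv.single 2 x 0 v y h
    rw [abs_of_nonneg h] at hp ⊢
    refine ⟨_, ?_, h1.congr rfl ?_ ?_ ?_ ?_ rfl⟩
    · apply abs_fc_le h
      intro s hs
      apply abs_H_le
      · simpa [ctl] using hx
      · simp only [ctl]
        rw [abs_le]
        simp
        constructor <;> linarith [hs.1, hs.2]
      · simpa [ctl] using hv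
      · simp only [ctl]
        rw [abs_le]
        simp
        constructor <;> nlinarith [hs.1, hs.2]
    · simp [ctl]
    · simp [ctl]
    · simp [ctl]
    · simp [ctl]; ring
  · have h1 := Mv.single 3 x 0 v y (θ := -p₁) (by linarith)
    rw [abs_of_nonpos h] at hp ⊢
    refine ⟨_, ?_, h1.congr rfl ?_ ?_ ?_ ?_ rfl⟩
    · apply abs_fc_le (by linarith)
      intro s hs
      apply abs_H_le
      · simpa [ctl] using hx
      · simp only [ctl]
        rw [abs_le]
        simp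
        constructor <;> linarith [hs.1, hs.2]
      · simpa [ctl] using hv
      · simp only [ctl]
        rw [abs_le]
        simp
        constructor <;> nlinarith [hs.1, hs.2]
    · simp [ctl]
    · simp [ctl]
    · simp [ctl]
    · simp [ctl]; ring

/-- back to `p = 0` from `p = a`. -/
lemma pback {x v y a : ℝ} (hx : |x| ≤ 1) (hv : |v| ≤ 1) (hy : |y| ≤ 3 / 4) (ha : |a| ≤ 1 / 2) :
    ∃ c, |c| ≤ 4 * |a| ∧ Mv |a| x a v y x 0 v (y + a * |a| / 2) c := by
  obtain ⟨hy1, hy2⟩ := abs_le.1 hy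
  rcases le_total 0 a with h | h
  · have h1 := Mv.single 3 x a v y h
    rw [abs_of_nonneg h] at ha ⊢
    refine ⟨_, ?_, h1.congr rfl ?_ ?_ ?_ ?_ rfl⟩
    · apply abs_fc_le h
      intro s hs
      apply abs_H_le
      · simpa [ctl] using hx
      · simp only [ctl]
        rw [abs_le]
        simp
        constructor <;> linarith [hs.1, hs.2]
      · simpa [ctl] using hv
      · simp only [ctl]
        rw [abs_le]
        simp
        constructor <;> nlinarith [hs.1, hs.2]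
    · simp [ctl]
    · simp [ctl]
    · simp [ctl]
    · simp [ctl]; ring
  · have h1 := Mv.single 2 x a v y (θ := -a) (by linarith)
    rw [abs_of_nonpos h] at ha ⊢
    refine ⟨_, ?_, h1.congr rfl ?_ ?_ ?_ ?_ rfl⟩
    · apply abs_fc_le (by linarith)
      intro s hs
      apply abs_H_le
      · simpa [ctl] using hx
      · simp only [ctl]
        rw [abs_le]
        simp
        constructor <;> linarith [hs.1, hs.2]
      · simpa [ctl] using hv
      · simp only [ctl]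
        rw [abs_le]
        simp
        constructor <;> nlinarith [hs.1, hs.2]
    · simp [ctl]
    · simp [ctl]
    · simp [ctl]
    · simp [ctl]; ring

/-- changing `y` by `d`. -/
lemma ybump {x v y d : ℝ} (hx : |x| ≤ 1) (hv : |v| ≤ 1) (hy : |y| ≤ 1 / 2) (hd : |d| ≤ 1 / 4) :
    ∃ c, |c| ≤ 8 * √|d| ∧ Mv (2 * √|d|) x 0 v y x 0 v (y + d) c := by
  have hr : √|d| ≤ 1 / 2 := by
    apply Real.sqrt_le_iff.2
    exact ⟨by norm_num, by norm_num; linarith⟩
  have hr0 : 0 ≤ √|d| := Real.sqrt_nonneg _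
  have hr2 : √|d| * √|d| = |d| := Real.mul_self_sqrt (abs_nonneg _)
  -- the amplitude with sign
  obtain ⟨a, ha, had⟩ : ∃ a : ℝ, |a| = √|d| ∧ a * |a| = d := by
    rcases le_total 0 d with h | h
    · exact ⟨√|d|, abs_of_nonneg hr0, by rw [abs_of_nonneg hr0, hr2, abs_of_nonneg h]⟩
    · exact ⟨-√|d|, by rw [abs_neg, abs_of_nonneg hr0],
        by rw [abs_neg, abs_of_nonneg hr0, neg_mul, hr2, abs_of_nonpos h, neg_neg]⟩
  obtain ⟨c₁, hc₁, h₁⟩ := pmove hx hv hy (p₁ := a) (by rw [ha]; exact hr)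
  obtain ⟨c₂, hc₂, h₂⟩ := pback (x := x) (v := v) (y := y + a * |a| / 2) (a := a) hx hv
    (by
      rw [had]
      calc |y + d / 2| ≤ |y| + |d / 2| := abs_add_le _ _
        _ ≤ 1 / 2 + 1 / 8 := by
          gcongr
          rw [abs_div, abs_two]; linarith
        _ ≤ 3 / 4 := by norm_num) (by rw [ha]; exact hr)
  refine ⟨c₁ + c₂, ?_, (h₁.trans h₂).congr ?_ rfl rfl rfl ?_ rfl⟩
  · calc |c₁ + c₂| ≤ |c₁| + |c₂| := abs_add_le _ _
      _ ≤ 4 * |a| + 4 * |a| := by gcongr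
      _ = 8 * √|d| := by rw [ha]; ring
  · rw [ha]; ring
  · linarith [had]

/-- the loop at the origin with positive cost. -/
lemma ploop {a : ℝ} (ha : 0 ≤ a) : Mv (4 * a) 0 0 0 0 0 0 0 0 (23 / 60 * a ^ 5) := by
  have h1 := Mv.single 2 0 0 0 0 ha
  have h2 := Mv.single 3 0 a 0 (a ^ 2 / 2) (θ := 2 * a) (by positivity)
  have h3 := Mv.single 2 0 (-a) 0 (a ^ 2 / 2) ha
  have h1' : Mv a 0 0 0 0 0 a 0 (a ^ 2 / 2) (a ^ 5 / 80) := by
    refine h1.congr rfl ?_ ?_ ?_ ?_ ?_
    · simp [ctl]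
    · simp [ctl]
    · simp [ctl]
    · simp [ctl]
    · simp only [ctl, fc, H]
      simp
      have : ∀ s : ℝ, (s ^ 2 / 2 / 2) ^ 2 = s ^ 4 / 16 := by intro s; ring
      simp only [this, intervalIntegral.integral_div, integral_pow]
      norm_num; ring
  have h2' : Mv (2 * a) 0 a 0 (a ^ 2 / 2) 0 (-a) 0 (a ^ 2 / 2) (43 / 120 * a ^ 5) := by
    refine h2.congr rfl ?_ ?_ ?_ ?_ ?_
    · simp [ctl]
    · simp [ctl]; ring
    · simp [ctl]
    · simp [ctl]; ring
    · simp only [ctl, fc, H]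
      simp
      have : ∀ s : ℝ, ((a ^ 2 / 2 + a * s + -s ^ 2 / 2) / 2) ^ 2 =
          (a ^ 4 / 16 + a ^ 3 / 4 * s ^ 1 + a ^ 2 / 8 * s ^ 2 + s ^ 4 / 16 - a / 4 * s ^ 3) := by
        intro s; ring
      simp only [this]
      rw [intervalIntegral.integral_sub, intervalIntegral.integral_add,
        intervalIntegral.integral_add, intervalIntegral.integral_add]
      · simp only [intervalIntegral.integral_const, intervalIntegral.integral_const_mul,
          intervalIntegral.integral_div, integral_pow, smul_eq_mul]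
        norm_num; ring
      all_goals exact Continuous.intervalIntegrable (by fun_prop) _ _
  have h3' : Mv a 0 (-a) 0 (a ^ 2 / 2) 0 0 0 0 (a ^ 5 / 80) := by
    refine h3.congr rfl ?_ ?_ ?_ ?_ ?_
    · simp [ctl]
    · simp [ctl]
    · simp [ctl]
    · simp [ctl]; ring
    · simp only [ctl, fc, H]
      simp
      have : ∀ s : ℝ, ((a ^ 2 / 2 + -(a * s) + s ^ 2 / 2) / 2) ^ 2 =
          (a ^ 4 / 16 - a ^ 3 / 4 * s ^ 1 + 3 * a ^ 2 / 8 * s ^ 2 + s ^ 4 / 16 - a / 4 * s ^ 3) := by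
        intro s; ring
      simp only [this]
      rw [intervalIntegral.integral_sub, intervalIntegral.integral_add,
        intervalIntegral.integral_add, intervalIntegral.integral_sub]
      · simp only [intervalIntegral.integral_const, intervalIntegral.integral_const_mul,
          intervalIntegral.integral_div, integral_pow, smul_eq_mul]
        norm_num; ring
      all_goals exact Continuous.intervalIntegrable (by fun_prop) _ _
  refine ((h1'.trans h2').trans h3').congr ?_ rfl rfl rfl rfl ?_ <;> ring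

end

end Pool.Agent.Helper562.STLC
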