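import Mathlib
import Pool.Agent.Helper562.STLCMoves

open Set Filter Topology

namespace Pool.Agent.Helper562.STLC

noncomputable section

lemma H_lip {x p x' p' v y y' D : ℝ} (hx' : |x'| ≤ 1) (hp : |p| ≤ 1) (hp' : |p'| ≤ 1)
    (hx : |x| ≤ 1) (hv : |v| ≤ 1) (hy : |y| ≤ 1) (hy' : |y'| ≤ 1)
    (h1 : |x - x'| ≤ D) (h2 : |p - p'| ≤ D) (h3 : |y - y'| ≤ 3 * D) :
    |H x p v y - H x' p' v y'| ≤ 20 * D := by
  have hD : 0 ≤ D := (abs_nonneg _).trans h1
  have e : H x p v y - H x' p' v y' =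
      ((x - x') * p + x' * (p - p') + (y - y') / 2) * (x * p + y / 2 + x' * p' + y' / 2) -
        v * ((y - y') * (y + y')) := by
    unfold H; ring
  rw [e]
  have a1 : |(x - x') * p + x' * (p - p') + (y - y') / 2| ≤ 7 / 2 * D := by
    calc _ ≤ |(x - x') * p| + |x' * (p - p')| + |(y - y') / 2| := abs_add_three _ _ _
      _ = |x - x'| * |p| + |x'| * |p - p'| + |y - y'| / 2 := by
          rw [abs_mul, abs_mul, abs_div, abs_two]
      _ ≤ D * 1 + 1 * D + 3 * D / 2 := by gcongr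
      _ = 7 / 2 * D := by ring
  have a2 : |x * p + y / 2 + x' * p' + y' / 2| ≤ 3 := by
    calc _ ≤ |x * p| + |y / 2| + |x' * p'| + |y' / 2| := by
            refine (abs_add_le _ _).trans ?_
            gcongr
            exact abs_add_three _ _ _
      _ = |x| * |p| + |y| / 2 + |x'| * |p'| + |y'| / 2 := by
          rw [abs_mul, abs_mul, abs_div, abs_div, abs_two]
      _ ≤ 1 * 1 + 1 / 2 + 1 * 1 + 1 / 2 := by gcongr
      _ = 3 := by norm_num
  have a3 : |y + y'| ≤ 2 := (abs_add_le _ _).trans (by linarith)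
  calc _ ≤ |((x - x') * p + x' * (p - p') + (y - y') / 2) * (x * p + y / 2 + x' * p' + y' / 2)| +
        |v * ((y - y') * (y + y'))| := abs_sub _ _
    _ = |(x - x') * p + x' * (p - p') + (y - y') / 2| * |x * p + y / 2 + x' * p' + y' / 2| +
        |v| * (|y - y'| * |y + y'|) := by rw [abs_mul, abs_mul, abs_mul]
    _ ≤ 7 / 2 * D * 3 + 1 * (3 * D * 2) := by gcongr
    _ ≤ 20 * D := by linarith

lemma abs_fc_sub_le {A B C x p v y θ K h₀ : ℝ} (hθ : 0 ≤ θ)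
    (h : ∀ s ∈ Icc 0 θ,
      |H (x + A * s) (p + B * s) (v + C * s) (y + p * s + B * s ^ 2 / 2) - h₀| ≤ K) :
    |fc A B C x p v y θ - h₀ * θ| ≤ K * θ := by
  have h1 : fc A B C x p v y θ - h₀ * θ = ∫ s in (0 : ℝ)..θ,
      (H (x + A * s) (p + B * s) (v + C * s) (y + p * s + B * s ^ 2 / 2) - h₀) := by
    rw [intervalIntegral.integral_sub ((continuous_H_flow A B C x p v y).intervalIntegrable _ _)
      (by simp)]
    simp [fc, mul_comm]
  rw [h1]
  have := intervalIntegral.norm_integral_le_of_norm_le_const (a := 0) (b := θ) (C := K)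
    (f := fun s => H (x + A * s) (p + B * s) (v + C * s) (y + p * s + B * s ^ 2 / 2) - h₀) (by
      intro s hs
      rw [uIoc_of_le hθ] at hs
      exact h s (Ioc_subset_Icc_self hs))
  rw [sub_zero, abs_of_nonneg hθ] at this
  exact this

/-- one step of the chattering control. -/
lemma chatter_step {x P v y Δ d : ℝ} (hΔ0 : 0 < Δ) (hΔ : Δ ≤ 1 / 8) (hd : |d| ≤ Δ / 2)
    (hx0 : 0 ≤ x) (hx : x + Δ ≤ 1) (hv : |v| ≤ 1) (hP : |P| ≤ 1 / 2) (hy : |y| ≤ 3 / 4) :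
    ∃ y' c, |y' - y - P * Δ| ≤ Δ ^ 2 ∧ |c - H x P v y * Δ| ≤ 20 * Δ ^ 2 ∧
      Mv Δ x P v y (x + Δ) (P + d) v y' c := by
  obtain ⟨hd1, hd2⟩ := abs_le.1 hd
  obtain ⟨hP1, hP2⟩ := abs_le.1 hP
  obtain ⟨hy1, hy2⟩ := abs_le.1 hy
  set τ₁ := (Δ + d) / 2 with hτ₁
  set τ₂ := (Δ - d) / 2 with hτ₂
  have hτ₁0 : 0 ≤ τ₁ := by rw [hτ₁]; linarith
  have hτ₂0 : 0 ≤ τ₂ := by rw [hτ₂]; linarith
  have hsum : τ₁ + τ₂ = Δ := by rw [hτ₁, hτ₂]; ring
  have hdiff : τ₁ - τ₂ = d := by rw [hτ₁, hτ₂]; ring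
  have h1 := Mv.single 6 x P v y hτ₁0
  have h2 := Mv.single 7 (x + τ₁) (P + τ₁) v (y + P * τ₁ + τ₁ ^ 2 / 2) hτ₂0
  have h1' := h1.congr (T₂ := τ₁) (x₂ := x + τ₁) (p₂ := P + τ₁) (v₂ := v)
    (y₂ := y + P * τ₁ + τ₁ ^ 2 / 2) (c₂ := fc 1 1 0 x P v y τ₁) rfl (by simp [ctl])
    (by simp [ctl]) (by simp [ctl]) (by simp [ctl]) (by simp [ctl])
  have h2' := h2.congr (T₂ := τ₂) (x₂ := x + Δ) (p₂ := P + d) (v₂ := v)
    (y₂ := y + P * τ₁ + τ₁ ^ 2 / 2 + (P + τ₁) * τ₂ - τ₂ ^ 2 / 2)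
    (c₂ := fc 1 (-1) 0 (x + τ₁) (P + τ₁) v (y + P * τ₁ + τ₁ ^ 2 / 2) τ₂) rfl
    (by simp [ctl]; linarith) (by simp [ctl]; linarith) (by simp [ctl])
    (by simp [ctl]; ring) (by simp [ctl])
  have hpt : ∀ r, |P * r| ≤ 1 / 2 * |r| := by
    intro r; rw [abs_mul]; gcongr
  refine ⟨_, _, ?_, ?_, (h1'.trans h2').congr hsum rfl rfl rfl rfl rfl⟩
  · have e : y + P * τ₁ + τ₁ ^ 2 / 2 + (P + τ₁) * τ₂ - τ₂ ^ 2 / 2 - y - P * Δ =
        τ₁ ^ 2 / 2 + τ₁ * τ₂ - τ₂ ^ 2 / 2 := by rw [← hsum]; ring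
    rw [e, ← hsum, abs_le]
    constructor <;> nlinarith [mul_nonneg hτ₁0 hτ₂0]
  · have b1 : |fc 1 1 0 x P v y τ₁ - H x P v y * τ₁| ≤ 20 * Δ * τ₁ := by
      apply abs_fc_sub_le hτ₁0
      intro s hs
      have hs0 := hs.1
      have hs1 : s ≤ Δ := by linarith [hs.2]
      have hPs := hpt s
      rw [abs_of_nonneg hs0] at hPs
      obtain ⟨q1, q2⟩ := abs_le.1 hPs
      have hs2 : s ^ 2 ≤ Δ * s := by nlinarith
      rw [show v + 0 * s = v by ring]
      apply H_lip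
      · rw [abs_of_nonneg hx0]; linarith
      · rw [abs_le]; constructor <;> linarith
      · rw [abs_le]; constructor <;> linarith
      · rw [abs_le]; constructor <;> linarith
      · exact hv
      · rw [abs_le]; constructor <;> nlinarith
      · rw [abs_le]; constructor <;> linarith
      · rw [abs_le]; constructor <;> linarith
      · rw [abs_le]; constructor <;> linarith
      · rw [abs_le]; constructor <;> nlinarith
    have b2 : |fc 1 (-1) 0 (x + τ₁) (P + τ₁) v (y + P * τ₁ + τ₁ ^ 2 / 2) τ₂ - H x P v y * τ₂| ≤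
        20 * Δ * τ₂ := by
      apply abs_fc_sub_le hτ₂0
      intro s hs
      have hs0 := hs.1
      have hs1 : τ₁ + s ≤ Δ := by linarith [hs.2]
      have hPs := hpt (τ₁ + s)
      rw [abs_of_nonneg (by linarith : 0 ≤ τ₁ + s)] at hPs
      obtain ⟨q1, q2⟩ := abs_le.1 hPs
      have hτ₁2 : τ₁ ^ 2 ≤ Δ * τ₁ := by nlinarith
      have hs2 : s ^ 2 ≤ Δ * s := by nlinarith
      have hts : τ₁ * s ≤ Δ * s := by nlinarith
      have hts0 : 0 ≤ τ₁ * s := by positivity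
      rw [show v + 0 * s = v by ring]
      apply H_lip
      · rw [abs_of_nonneg hx0]; linarith
      · rw [abs_le]; constructor <;> linarith
      · rw [abs_le]; constructor <;> linarith
      · rw [abs_le]; constructor <;> linarith
      · exact hv
      · rw [abs_le]; constructor <;> nlinarith
      · rw [abs_le]; constructor <;> linarith
      · rw [abs_le]; constructor <;> linarith
      · rw [abs_le]; constructor <;> linarith
      · rw [abs_le]; constructor <;> nlinarith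
    calc _ = |(fc 1 1 0 x P v y τ₁ - H x P v y * τ₁) +
          (fc 1 (-1) 0 (x + τ₁) (P + τ₁) v (y + P * τ₁ + τ₁ ^ 2 / 2) τ₂ - H x P v y * τ₂)| := by
            congr 1; rw [← hsum]; ring
      _ ≤ 20 * Δ * τ₁ + 20 * Δ * τ₂ := (abs_add_le _ _).trans (by linarith)
      _ = 20 * Δ ^ 2 := by rw [← mul_add, hsum]; ring

end

end Pool.Agent.Helper562.STLC
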