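import Mathlib
import Pool.Agent.Helper562.STLCChatter

open Set Filter Topology

namespace Pool.Agent.Helper562.STLC

noncomputable section

lemma Mv.refl (x p v y : ℝ) : Mv 0 x p v y x p v y 0 := by
  intro a S z h
  simpa using h

/-- mean value estimate. -/
lemma mean_value {F F' : ℝ → ℝ} {a b h₀ K : ℝ} (hab : a ≤ b)
    (hF : ∀ s ∈ Icc a b, HasDerivAt F (F' s) s) (hK : ∀ s ∈ Icc a b, |F' s - h₀| ≤ K) :
    |F b - F a - h₀ * (b - a)| ≤ K * (b - a) := by
  have h := abs_le_of_right_deriv (f := fun s => F s - h₀ * s) (a := a) (b := b) (C := K)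
    (fun s hs => ((hF s hs).continuousAt.sub (by fun_prop)).continuousWithinAt)
    (fun s hs => ⟨F' s - h₀, hK s (Ico_subset_Icc_self hs), by
      have h1 : HasDerivAt (fun s : ℝ => h₀ * s) h₀ s := by
        simpa using (hasDerivAt_id s).const_mul h₀
      exact ((hF s (Ico_subset_Icc_self hs)).sub h1).hasDerivWithinAt⟩)
    b (right_mem_Icc.2 hab)
  have e : F b - F a - h₀ * (b - a) = F b - h₀ * b - (F a - h₀ * a) := by ring
  rw [e]
  exact h

lemma chatter {V α β : ℝ} {P Y Z : ℝ → ℝ} (hV : |V| ≤ 1) (hα : 0 < α) (hαβ : α < β)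
    (hβ : β ≤ 1)
    (hP : ∀ s ∈ Icc α β, ∀ s' ∈ Icc α β, |P s - P s'| ≤ |s - s'| / 2)
    (hPα : P α = 0) (hPβ : P β = 0)
    (hY : ∀ s ∈ Icc α β, HasDerivAt Y (P s) s) (hYα : Y α = 0)
    (hZ : ∀ s ∈ Icc α β, HasDerivAt Z (H s (P s) V (Y s)) s) (hZα : Z α = 0)
    {ε : ℝ} (hε : 0 < ε) :
    ∃ e c, |e - Y β| ≤ ε ∧ |c - Z β| ≤ ε ∧ Mv (β - α) α 0 V 0 β 0 V e c := by
  have hα' : α ∈ Icc α β := left_mem_Icc.2 hαβ.le
  have hℓ0 : 0 < β - α := by linarith
  have hℓ1 : β - α ≤ 1 := by linarith
  have hPb : ∀ s ∈ Icc α β, |P s| ≤ 1 / 2 := by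
    intro s hs
    have := hP s hs α hα'
    rw [hPα, sub_zero, abs_of_nonneg (by linarith [hs.1] : 0 ≤ s - α)] at this
    linarith [hs.2]
  have hYb : ∀ s ∈ Icc α β, |Y s| ≤ 1 / 2 := by
    intro s hs
    have := mean_value (F := Y) (F' := P) (h₀ := 0) (K := 1 / 2) hs.1
      (fun u hu => hY u ⟨hu.1, hu.2.trans hs.2⟩)
      (fun u hu => by rw [sub_zero]; exact hPb u ⟨hu.1, hu.2.trans hs.2⟩)
    rw [hYα, sub_zero, zero_mul, sub_zero] at this
    linarith [hs.2]
  obtain ⟨n, hn⟩ := exists_nat_gt (max (8 : ℝ) (60 / ε))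
  have hn8 : (8 : ℝ) < n := (le_max_left _ _).trans_lt hn
  have hnε : 60 / ε < n := (le_max_right _ _).trans_lt hn
  have hn0 : (0 : ℝ) < n := by linarith
  set Δ := (β - α) / n with hΔ
  have hΔ0 : 0 < Δ := by positivity
  have hΔn : n * Δ = β - α := by rw [hΔ]; field_simp
  have hΔ8 : Δ ≤ 1 / 8 := by
    rw [hΔ, div_le_div_iff₀ hn0 (by norm_num)]
    linarith
  have hΔε : 60 * Δ ≤ ε := by
    rw [hΔ, mul_div_assoc', div_le_iff₀ hn0]
    rw [div_lt_iff₀ hε] at hnε
    nlinarith
  have key : ∀ i : ℕ, i ≤ n → ∃ y c, |y - Y (α + i * Δ)| ≤ 2 * i * Δ ^ 2 ∧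
      |c - Z (α + i * Δ)| ≤ 60 * i * Δ ^ 2 ∧
      Mv (i * Δ) α 0 V 0 (α + i * Δ) (P (α + i * Δ)) V y c := by
    intro i
    induction i with
    | zero =>
      intro _
      refine ⟨0, 0, by simp [hYα], by simp [hZα], ?_⟩
      have := Mv.refl α 0 V 0
      simpa [hPα] using this
    | succ i ih =>
      intro hi
      obtain ⟨y, c, hy, hc, hM⟩ := ih (by omega)
      have hi' : (i : ℝ) + 1 ≤ n := by exact_mod_cast hi
      have hi0 : (0 : ℝ) ≤ i := Nat.cast_nonneg i
      have hiΔ : i * Δ + Δ ≤ β - α := by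
        rw [← hΔn]; nlinarith
      have hiΔ0 : 0 ≤ i * Δ := by positivity
      set s := α + i * Δ with hs
      have hsI : s ∈ Icc α β := ⟨by linarith, by linarith⟩
      have hs'I : s + Δ ∈ Icc α β := ⟨by linarith, by linarith⟩
      have hnext : α + ((i + 1 : ℕ) : ℝ) * Δ = s + Δ := by rw [hs]; push_cast; ring
      have hsub : ∀ u ∈ Icc s (s + Δ), u ∈ Icc α β := fun u hu =>
        ⟨hsI.1.trans hu.1, hu.2.trans hs'I.2⟩
      have hsum1 : 2 * i * Δ ^ 2 ≤ 2 * Δ := by
        have : i * Δ ≤ 1 := by linarith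
        nlinarith
      have hy34 : |y| ≤ 3 / 4 := by
        have h1 := hYb s hsI
        have h2 : |y| ≤ |y - Y s| + |Y s| := by
          have := abs_add_le (y - Y s) (Y s)
          simpa using this
        linarith
      have hd : |P (s + Δ) - P s| ≤ Δ / 2 := by
        have := hP (s + Δ) hs'I s hsI
        rwa [add_sub_cancel_left, abs_of_pos hΔ0] at this
      obtain ⟨y', c', h1, h2, h3⟩ := chatter_step (x := s) (P := P s) (v := V) (y := y)
        (d := P (s + Δ) - P s) hΔ0 hΔ8 hd (hα.le.trans hsI.1) (hs'I.2.trans hβ) hV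
        (hPb s hsI) hy34
      have hPs : ∀ u ∈ Icc s (s + Δ), |P u - P s| ≤ Δ / 2 := by
        intro u hu
        have := hP u (hsub u hu) s hsI
        rw [abs_of_nonneg (by linarith [hu.1] : 0 ≤ u - s)] at this
        linarith [hu.2]
      have hYs : ∀ u ∈ Icc s (s + Δ), |Y u - Y s| ≤ Δ := by
        intro u hu
        have := mean_value (F := Y) (F' := P) (h₀ := 0) (K := 1 / 2) hu.1
          (fun w hw => hY w (hsub w ⟨hw.1, hw.2.trans hu.2⟩))
          (fun w hw => by rw [sub_zero]; exact hPb w (hsub w ⟨hw.1, hw.2.trans hu.2⟩))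
        rw [zero_mul, sub_zero] at this
        linarith [hu.2]
      have hYstep : |Y (s + Δ) - Y s - P s * Δ| ≤ Δ ^ 2 := by
        have := mean_value (F := Y) (F' := P) (h₀ := P s) (K := Δ / 2)
          (by linarith : s ≤ s + Δ) (fun u hu => hY u (hsub u hu)) hPs
        rw [add_sub_cancel_left] at this
        nlinarith
      have hZstep : |Z (s + Δ) - Z s - H s (P s) V (Y s) * Δ| ≤ 20 * Δ ^ 2 := by
        have := mean_value (F := Z) (F' := fun u => H u (P u) V (Y u))
          (h₀ := H s (P s) V (Y s)) (K := 20 * Δ)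
          (by linarith : s ≤ s + Δ) (fun u hu => hZ u (hsub u hu)) (by
            intro u hu
            have huI := hsub u hu
            apply H_lip
            · rw [abs_of_nonneg (hα.le.trans hsI.1)]; exact hsI.2.trans hβ
            · linarith [hPb u huI]
            · linarith [hPb s hsI]
            · rw [abs_of_nonneg (hα.le.trans huI.1)]; exact huI.2.trans hβ
            · exact hV
            · linarith [hYb u huI]
            · linarith [hYb s hsI]
            · rw [abs_of_nonneg (by linarith [hu.1])]; linarith [hu.2]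
            · linarith [hPs u hu]
            · linarith [hYs u hu])
        rw [add_sub_cancel_left] at this
        linarith
      have hHs : |H s (P s) V y - H s (P s) V (Y s)| ≤ 20 * Δ := by
        apply H_lip
        · rw [abs_of_nonneg (hα.le.trans hsI.1)]; exact hsI.2.trans hβ
        · linarith [hPb s hsI]
        · linarith [hPb s hsI]
        · rw [abs_of_nonneg (hα.le.trans hsI.1)]; exact hsI.2.trans hβ
        · exact hV
        · linarith
        · linarith [hYb s hsI]
        · simpa using hΔ0.le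
        · simpa using hΔ0.le
        · linarith
      refine ⟨y', c + c', ?_, ?_, ?_⟩
      · rw [hnext]
        have e : y' - Y (s + Δ) = (y' - y - P s * Δ) + (y - Y s) -
            (Y (s + Δ) - Y s - P s * Δ) := by ring
        rw [e]
        have t1 := abs_sub (y' - y - P s * Δ + (y - Y s)) (Y (s + Δ) - Y s - P s * Δ)
        have t2 := abs_add_le (y' - y - P s * Δ) (y - Y s)
        push_cast
        linarith
      · rw [hnext]
        have e : c + c' - Z (s + Δ) = (c' - H s (P s) V y * Δ) + (c - Z s) -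
            (Z (s + Δ) - Z s - H s (P s) V (Y s) * Δ) +
            (H s (P s) V y - H s (P s) V (Y s)) * Δ := by ring
        rw [e]
        have t1 := abs_add_le ((c' - H s (P s) V y * Δ) + (c - Z s) -
            (Z (s + Δ) - Z s - H s (P s) V (Y s) * Δ))
            ((H s (P s) V y - H s (P s) V (Y s)) * Δ)
        have t2 := abs_sub ((c' - H s (P s) V y * Δ) + (c - Z s))
          (Z (s + Δ) - Z s - H s (P s) V (Y s) * Δ)
        have t3 := abs_add_le (c' - H s (P s) V y * Δ) (c - Z s)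
        have t4 : |(H s (P s) V y - H s (P s) V (Y s)) * Δ| ≤ 20 * Δ ^ 2 := by
          rw [abs_mul, abs_of_pos hΔ0, pow_two, ← mul_assoc]
          gcongr
        push_cast
        linarith
      · rw [hnext]
        refine (hM.trans h3).congr ?_ rfl ?_ rfl rfl rfl
        · push_cast; ring
        · ring
  obtain ⟨y, c, hy, hc, hM⟩ := key n le_rfl
  have hend : α + n * Δ = β := by rw [hΔn]; ring
  rw [hend, hPβ] at hM
  rw [hend] at hy hc
  have hb : n * Δ ^ 2 ≤ Δ := by
    have : n * Δ ^ 2 = (n * Δ) * Δ := by ring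
    rw [this, hΔn]
    nlinarith
  refine ⟨y, c, ?_, ?_, ?_⟩
  · refine hy.trans ?_
    nlinarith
  · refine hc.trans ?_
    nlinarith
  · rw [hΔn] at hM
    exact hM

end

end Pool.Agent.Helper562.STLC
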