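import Mathlib
import Pool.Agent.Helper562.STLCIdeal

open Set Filter Topology

namespace Pool.Agent.Helper562.STLC

noncomputable section

def w (N τ : ℝ) : ℝ := τ ^ 2 * (N - τ) ^ 2
def w' (N τ : ℝ) : ℝ := 2 * τ * (N - τ) * (N - 2 * τ)
def AA (N V τ : ℝ) : ℝ :=
  4 / 3 * N ^ 4 * τ ^ 3 - 6 * N ^ 3 * τ ^ 4 + 52 / 5 * N ^ 2 * τ ^ 5 - 8 * N * τ ^ 6 +
    16 / 7 * τ ^ 7 - V * (N ^ 4 * τ ^ 5 / 5 - 2 / 3 * N ^ 3 * τ ^ 6 + 6 / 7 * N ^ 2 * τ ^ 7 -
    N * τ ^ 8 / 2 + τ ^ 9 / 9)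

lemma hasDerivAt_w (N τ : ℝ) : HasDerivAt (w N) (w' N τ) τ := by
  have h1 : HasDerivAt (fun τ : ℝ => N - τ) (-1) τ := by
    simpa using (hasDerivAt_id τ).const_sub N
  have h := (hasDerivAt_pow 2 τ).mul (h1.pow 2)
  refine h.congr_deriv ?_
  unfold w'
  simp only [Pi.pow_apply]
  push_cast
  ring

lemma hasDerivAt_AA (N V τ : ℝ) :
    HasDerivAt (AA N V) (w' N τ ^ 2 - V * w N τ ^ 2) τ := by
  have hp : ∀ k : ℕ, ∀ a : ℝ, HasDerivAt (fun τ : ℝ => a * τ ^ (k + 1)) (a * ((k + 1) * τ ^ k)) τ := by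
    intro k a
    have := (hasDerivAt_pow (k + 1) τ).const_mul a
    refine this.congr_deriv ?_
    push_cast; simp
  have h : HasDerivAt (fun τ : ℝ => (4 / 3 * N ^ 4) * τ ^ (2 + 1) - (6 * N ^ 3) * τ ^ (3 + 1) +
      (52 / 5 * N ^ 2) * τ ^ (4 + 1) - (8 * N) * τ ^ (5 + 1) + (16 / 7) * τ ^ (6 + 1) -
      V * ((N ^ 4 / 5) * τ ^ (4 + 1) - (2 / 3 * N ^ 3) * τ ^ (5 + 1) +
        (6 / 7 * N ^ 2) * τ ^ (6 + 1) - (N / 2) * τ ^ (7 + 1) + (1 / 9) * τ ^ (8 + 1)))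
      _ τ :=
    (((((hp 2 _).sub (hp 3 _)).add (hp 4 _)).sub (hp 5 _)).add (hp 6 _)).sub
      ((((((hp 4 _).sub (hp 5 _)).add (hp 6 _)).sub (hp 7 _)).add (hp 8 _)).const_mul V)
  have e : AA N V = (fun τ : ℝ => (4 / 3 * N ^ 4) * τ ^ (2 + 1) - (6 * N ^ 3) * τ ^ (3 + 1) +
      (52 / 5 * N ^ 2) * τ ^ (4 + 1) - (8 * N) * τ ^ (5 + 1) + (16 / 7) * τ ^ (6 + 1) -
      V * ((N ^ 4 / 5) * τ ^ (4 + 1) - (2 / 3 * N ^ 3) * τ ^ (5 + 1) +
        (6 / 7 * N ^ 2) * τ ^ (6 + 1) - (N / 2) * τ ^ (7 + 1) + (1 / 9) * τ ^ (8 + 1))) := by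
    funext τ; unfold AA; ring
  rw [e]
  refine h.congr_deriv ?_
  unfold w w'
  push_cast
  ring

lemma AA_end (N V : ℝ) : AA N V N = 2 / 105 * N ^ 7 - V * N ^ 9 / 630 := by
  unfold AA; ring

/-- the profile. -/
def Y0 (N α s : ℝ) : ℝ := w N (Real.log s - Real.log α) / √s
def P0 (N α s : ℝ) : ℝ :=
  (w' N (Real.log s - Real.log α) - w N (Real.log s - Real.log α) / 2) / (s * √s)

lemma hasDerivAt_log_sub {α s : ℝ} (hs : 0 < s) :
    HasDerivAt (fun s => Real.log s - Real.log α) (1 / s) s := by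
  simpa using (Real.hasDerivAt_log hs.ne').sub_const (Real.log α)

lemma hasDerivAt_Y0 {N α s : ℝ} (hs : 0 < s) : HasDerivAt (Y0 N α) (P0 N α s) s := by
  have h1 := (hasDerivAt_w N (Real.log s - Real.log α)).comp s (hasDerivAt_log_sub (α := α) hs)
  have h2 := Real.hasDerivAt_sqrt hs.ne'
  have hsq : √s ≠ 0 := (Real.sqrt_pos.2 hs).ne'
  have h := h1.div h2 hsq
  refine h.congr_deriv ?_
  unfold P0
  have hss : √s ^ 2 = s := Real.sq_sqrt hs.le
  simp only [Function.comp_apply]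
  rw [hss]
  field_simp
  rw [hss]
  ring

lemma hasDerivAt_Z0 {N V α s : ℝ} (hs : 0 < s) :
    HasDerivAt (fun s => AA N V (Real.log s - Real.log α))
      (H s (P0 N α s) V (Y0 N α s)) s := by
  have h1 := (hasDerivAt_AA N V (Real.log s - Real.log α)).comp s
    (hasDerivAt_log_sub (α := α) hs)
  refine h1.congr_deriv ?_
  have hsq : √s ≠ 0 := (Real.sqrt_pos.2 hs).ne'
  have hss : √s ^ 2 = s := Real.sq_sqrt hs.le
  unfold H P0 Y0
  generalize w' N (Real.log s - Real.log α) = a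
  generalize w N (Real.log s - Real.log α) = b
  have e1 : s * ((a - b / 2) / (s * √s)) + b / √s / 2 = a / √s := by
    field_simp; ring
  rw [e1, div_pow, div_pow, hss]
  ring

lemma contDiffOn_P0 (N α : ℝ) : ContDiffOn ℝ 1 (P0 N α) (Ioi 0) := by
  intro s hs
  have hs' : (0 : ℝ) < s := hs
  apply ContDiffAt.contDiffWithinAt
  have hlog : ContDiffAt ℝ 1 (fun s => Real.log s - Real.log α) s :=
    (Real.contDiffAt_log.2 hs'.ne').sub contDiffAt_const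
  have hsqrt : ContDiffAt ℝ 1 (fun s => √s) s := contDiffAt_id.sqrt hs'.ne'
  have hne : s * √s ≠ 0 := (mul_pos hs' (Real.sqrt_pos.2 hs')).ne'
  unfold P0 w w'
  apply ContDiffAt.div _ (contDiffAt_id.mul hsqrt) hne
  apply ContDiffAt.sub
  · exact ((contDiffAt_const.mul hlog).mul (contDiffAt_const.sub hlog)).mul
      (contDiffAt_const.sub (contDiffAt_const.mul hlog))
  · exact ((hlog.pow 2).mul ((contDiffAt_const.sub hlog).pow 2)).div_const 2

lemma lipschitz_P0 (N : ℝ) {α β : ℝ} (hα : 0 < α) : ∃ K : ℝ, 0 < K ∧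
    ∀ s ∈ Icc α β, ∀ s' ∈ Icc α β, |P0 N α s - P0 N α s'| ≤ K * |s - s'| := by
  have hsub : Icc α β ⊆ Ioi 0 := fun s hs => hα.trans_le hs.1
  have hc : ContinuousOn (deriv (P0 N α)) (Icc α β) :=
    ((contDiffOn_P0 N α).continuousOn_deriv_of_isOpen isOpen_Ioi le_rfl).mono hsub
  obtain ⟨K, hK⟩ := isCompact_Icc.exists_bound_of_continuousOn hc
  refine ⟨max K 1, by positivity, ?_⟩
  intro s hs s' hs'
  have := Convex.norm_image_sub_le_of_norm_deriv_le (f := P0 N α) (s := Icc α β) (C := max K 1)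
    (x := s') (y := s)
    (fun u hu => ((contDiffOn_P0 N α).differentiableOn one_ne_zero u (hsub hu)).differentiableAt
      (Ioi_mem_nhds (hsub hu)))
    (fun u hu => (hK u hu).trans (le_max_left _ _)) (convex_Icc _ _) hs' hs
  exact this

/-- existence of a loop with negative cost for a positive value of the coupling. -/
lemma exists_ideal {V β : ℝ} (hV : 0 < V) (hβ : 0 < β) :
    ∃ α, 0 < α ∧ α < β ∧ ∀ ζ₀ > 0, ∃ P Y Z : ℝ → ℝ,
      (∀ s ∈ Icc α β, ∀ s' ∈ Icc α β, |P s - P s'| ≤ |s - s'| / 2) ∧ P α = 0 ∧ P β = 0 ∧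
      (∀ s ∈ Icc α β, HasDerivAt Y (P s) s) ∧ Y α = 0 ∧ Y β = 0 ∧
      (∀ s ∈ Icc α β, HasDerivAt Z (H s (P s) V (Y s)) s) ∧ Z α = 0 ∧ Z β < 0 ∧ -ζ₀ < Z β := by
  set N := √(24 / V) with hN
  have hN0 : 0 < N := Real.sqrt_pos.2 (by positivity)
  have hN2 : V * N ^ 2 = 24 := by
    rw [hN, Real.sq_sqrt (by positivity)]; field_simp
  set α := β * Real.exp (-N) with hα
  have hα0 : 0 < α := by positivity
  have hαβ : α < β := by
    rw [hα]
    have : Real.exp (-N) < 1 := by rw [Real.exp_lt_one_iff]; linarith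
    nlinarith
  have hlog : Real.log β - Real.log α = N := by
    rw [hα, Real.log_mul hβ.ne' (Real.exp_pos _).ne', Real.log_exp]; ring
  refine ⟨α, hα0, hαβ, ?_⟩
  intro ζ₀ hζ₀
  obtain ⟨K, hK0, hK⟩ := lipschitz_P0 N (β := β) hα0
  set A := 2 / 105 * N ^ 7 with hA
  have hA0 : 0 < A := by positivity
  have hAend : AA N V N = -A := by
    rw [AA_end, hA]
    have : V * N ^ 9 = 24 * N ^ 7 := by rw [← hN2]; ring
    rw [this]; ring
  -- choice of the amplitude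
  obtain ⟨ε, hε0, hεK, hεζ⟩ : ∃ ε : ℝ, 0 < ε ∧ ε * K ≤ 1 / 2 ∧ ε ^ 2 * A < ζ₀ := by
    refine ⟨min (1 / (2 * K)) (min 1 (ζ₀ / (2 * A))), by positivity, ?_, ?_⟩
    · calc min (1 / (2 * K)) (min 1 (ζ₀ / (2 * A))) * K ≤ 1 / (2 * K) * K := by
            gcongr; exact min_le_left _ _
        _ = 1 / 2 := by field_simp
    · set ε := min (1 / (2 * K)) (min 1 (ζ₀ / (2 * A))) with hε
      have h0 : 0 < ε := by positivity
      have h1 : ε ≤ 1 := (min_le_right _ _).trans (min_le_left _ _)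
      have h2 : ε ≤ ζ₀ / (2 * A) := (min_le_right _ _).trans (min_le_right _ _)
      have h3 : ε ^ 2 ≤ ε := by nlinarith
      calc ε ^ 2 * A ≤ ε * A := mul_le_mul_of_nonneg_right h3 hA0.le
        _ ≤ ζ₀ / (2 * A) * A := by gcongr
        _ = ζ₀ / 2 := by field_simp
        _ < ζ₀ := by linarith
  refine ⟨fun s => ε * P0 N α s, fun s => ε * Y0 N α s,
    fun s => ε ^ 2 * AA N V (Real.log s - Real.log α), ?_, ?_, ?_, ?_, ?_, ?_, ?_, ?_, ?_, ?_⟩
  · intro s hs s' hs'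
    rw [← mul_sub, abs_mul, abs_of_pos hε0]
    have h1 := hK s hs s' hs'
    calc ε * |P0 N α s - P0 N α s'| ≤ ε * (K * |s - s'|) := by gcongr
      _ = (ε * K) * |s - s'| := by ring
      _ ≤ 1 / 2 * |s - s'| := by gcongr
      _ = |s - s'| / 2 := by ring
  · simp [P0, w, w']
  · simp [P0, w, w', hlog]
  · intro s hs
    exact (hasDerivAt_Y0 (hα0.trans_le hs.1)).const_mul ε
  · simp [Y0, w]
  · simp [Y0, w, hlog]
  · intro s hs
    refine ((hasDerivAt_Z0 (N := N) (V := V) (α := α) (hα0.trans_le hs.1)).const_mul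
      (ε ^ 2)).congr_deriv ?_
    unfold H; ring
  · simp [AA]
  · simp only [hlog, hAend]
    have : 0 < ε ^ 2 * A := by positivity
    linarith
  · simp only [hlog, hAend]
    linarith

end

end Pool.Agent.Helper562.STLC
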