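import Mathlib
import Pool.Agent.Helper562.STLCProfile

open Set Filter Topology

namespace Pool.Agent.Helper562.STLC

noncomputable section

/-- arbitrarily fast loops at the origin with negative cost. -/
lemma neg_loop {t ζ₀ : ℝ} (ht : 0 < t) (hζ₀ : 0 < ζ₀) :
    ∃ T ζ, 0 < T ∧ T < t ∧ 0 < ζ ∧ ζ < ζ₀ ∧ Mv T 0 0 0 0 0 0 0 0 (-ζ) := by
  obtain ⟨b, hb0, hb1, hbt⟩ : ∃ b : ℝ, 0 < b ∧ b ≤ 1 / 2 ∧ 4 * b ≤ t / 4 :=
    ⟨min (1 / 2) (t / 16), by positivity, min_le_left _ _, by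
      have := min_le_right (1 / 2) (t / 16); linarith⟩
  obtain ⟨α, hα0, hαb, hid⟩ := exists_ideal hb0 hb0
  obtain ⟨P, Y, Z, hP, hPα, hPβ, hY, hYα, hYβ, hZ, hZα, hZβ, hZβ'⟩ := hid (ζ₀ / 2) (by linarith)
  set ζ₁ := -Z b with hζ₁
  have hζ₁0 : 0 < ζ₁ := by linarith
  have hζ₁1 : ζ₁ < ζ₀ / 2 := by linarith
  obtain ⟨ε, hε0, hε1, hε2, hε3, hε4⟩ : ∃ ε : ℝ, 0 < ε ∧ ε ≤ 1 / 4 ∧ ε ≤ ζ₁ / 4 ∧
      √ε ≤ ζ₁ / 32 ∧ √ε ≤ t / 4 := by
    refine ⟨min (min (1 / 4) (ζ₁ / 4)) (min ((ζ₁ / 32) ^ 2) ((t / 4) ^ 2)), by positivity,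
      (min_le_left _ _).trans (min_le_left _ _), (min_le_left _ _).trans (min_le_right _ _),
      ?_, ?_⟩
    · apply Real.sqrt_le_iff.2
      exact ⟨by positivity, (min_le_right _ _).trans (min_le_left _ _)⟩
    · apply Real.sqrt_le_iff.2
      exact ⟨by positivity, (min_le_right _ _).trans (min_le_right _ _)⟩
  obtain ⟨e, c, he, hc, hM⟩ := chatter (V := b) (α := α) (β := b) (P := P) (Y := Y) (Z := Z)
    (by rw [abs_of_pos hb0]; linarith) hα0 hαb (by linarith) hP hPα hPβ hY hYα hZ hZα hε0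
  rw [hYβ, sub_zero] at he
  have hse : √|e| ≤ √ε := Real.sqrt_le_sqrt he
  obtain ⟨c₂, hc₂, hM₂⟩ := ybump (x := b) (v := b) (y := e) (d := -e)
    (by rw [abs_of_pos hb0]; linarith) (by rw [abs_of_pos hb0]; linarith) (by linarith)
    (by rw [abs_neg]; linarith)
  rw [abs_neg] at hc₂ hM₂
  have m1 := vmove 0 0 b
  have m2 := xmove 0 α b
  have m3 := xmove b 0 b
  have m4 := vmove 0 b 0
  rw [add_neg_cancel] at hM₂
  have hall := ((((m1.trans m2).trans hM).trans hM₂).trans m3).trans m4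
  obtain ⟨hc1, hc2⟩ := abs_le.1 hc
  obtain ⟨hd1, hd2⟩ := abs_le.1 hc₂
  have hT : |b - 0| + |α - 0| + (b - α) + 2 * √|e| + |0 - b| + |0 - b| = 4 * b + 2 * √|e| := by
    rw [sub_zero, sub_zero, zero_sub, abs_neg, abs_of_pos hb0, abs_of_pos hα0]
    ring
  refine ⟨4 * b + 2 * √|e|, -(c + c₂), ?_, ?_, ?_, ?_, ?_⟩
  · have := Real.sqrt_nonneg |e|
    linarith
  · linarith
  · linarith
  · linarith
  · refine hall.congr hT rfl rfl rfl rfl ?_
    ring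

lemma abs_coord_le (w : E 5) (j : Fin 5) : |w j| ≤ ‖w‖ := by
  have := PiLp.norm_apply_le w j
  simpa using this

lemma eq_st (w : E 5) : w = st (w 0) (w 1) (w 2) (w 3) (w 4) := by
  ext j
  fin_cases j <;> simp [st]

/-- The unperturbed family is small-time locally controllable at the origin. -/
lemma stlc_f0 : STLC f0 := by
  intro t ht
  set D₀ : ℝ := 23 / 60 * (t / 16) ^ 5 with hD₀
  have hD₀0 : 0 < D₀ := by positivity
  obtain ⟨T₁, ζ, hT₁0, hT₁, hζ0, hζ, hneg⟩ := neg_loop (t := t / 4) (ζ₀ := D₀ / 2)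
    (by linarith) (by linarith)
  obtain ⟨u, hu0, hu1, huζ, hut⟩ : ∃ u : ℝ, 0 < u ∧ u ≤ 1 / 2 ∧ 40 * u ≤ ζ ∧ 40 * u ≤ t :=
    ⟨min (1 / 2) (min (ζ / 40) (t / 40)), by positivity, min_le_left _ _, by
      have := (min_le_right (1 / 2) (min (ζ / 40) (t / 40))).trans (min_le_left _ _)
      linarith, by
      have := (min_le_right (1 / 2) (min (ζ / 40) (t / 40))).trans (min_le_right _ _)
      linarith⟩
  rw [mem_interior_iff_mem_nhds, Metric.mem_nhds_iff]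
  refine ⟨u ^ 2 / 2, by positivity, ?_⟩
  intro w hw
  rw [mem_ball_zero_iff] at hw
  have hcoord : ∀ j, |w j| < u ^ 2 / 2 := fun j => (abs_coord_le w j).trans_lt hw
  have hu2 : u ^ 2 / 2 ≤ u / 4 := by nlinarith
  have h0 := hcoord 0
  have h1 := hcoord 1
  have h2 := hcoord 2
  have h3 := hcoord 3
  have h4 := hcoord 4
  set d := w 3 - w 1 * |w 1| / 2 with hd
  have hd2 : |d| ≤ u ^ 2 := by
    have e1 : |w 1 * |w 1| / 2| = |w 1| * |w 1| / 2 := by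
      rw [abs_div, abs_mul, abs_abs, abs_two]
    have e2 : |d| ≤ |w 3| + |w 1 * |w 1| / 2| := abs_sub _ _
    rw [e1] at e2
    have e3 := abs_nonneg (w 1)
    nlinarith
  have hsd : √|d| ≤ u := Real.sqrt_le_iff.2 ⟨hu0.le, hd2⟩
  have hsd0 := Real.sqrt_nonneg |d|
  obtain ⟨c₁, hc₁, m3⟩ := ybump (x := w 0) (v := w 2) (y := 0) (d := d) (by linarith)
    (by linarith) (by simp) (by nlinarith)
  obtain ⟨c₂, hc₂, m4⟩ := pmove (x := w 0) (v := w 2) (y := 0 + d) (p₁ := w 1) (by linarith)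
    (by linarith) (by rw [zero_add]; nlinarith) (by linarith)
  have m1 := xmove 0 (w 0) 0
  have m2 := vmove (w 0) 0 (w 2)
  have hfin := ((m1.trans m2).trans m3).trans m4
  obtain ⟨a1, a2⟩ := abs_le.1 hc₁
  obtain ⟨b1, b2⟩ := abs_le.1 hc₂
  obtain ⟨z1, z2⟩ := abs_le.1 h4.le
  set D := w 4 + ζ - (c₁ + c₂) with hD
  have hD1 : 0 ≤ D := by linarith
  have hD2 : D ≤ D₀ := by linarith
  set a := (60 * D / 23) ^ ((5 : ℕ) : ℝ)⁻¹ with ha
  have ha5 : a ^ 5 = 60 * D / 23 := Real.rpow_inv_natCast_pow (by positivity) (by norm_num)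
  have ha0 : 0 ≤ a := by positivity
  have hat : a ≤ t / 16 := by
    rw [← pow_le_pow_iff_left₀ ha0 (by positivity) (by norm_num : (5 : ℕ) ≠ 0), ha5]
    rw [hD₀] at hD2
    linarith
  have hloop := ploop ha0
  have hcost : 23 / 60 * a ^ 5 = D := by rw [ha5]; ring
  rw [hcost] at hloop
  have hall := (hloop.trans hneg).trans hfin
  have hstart : Conn f0 (0 : E 5) 0 (st 0 0 0 0 0) := by
    have : (st 0 0 0 0 0 : E 5) = 0 := by
      ext j; fin_cases j <;> simp [st]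
    rw [this]
    exact Conn.refl
  have hend := hall 0 0 0 hstart
  have hy : (0 : ℝ) + d + w 1 * |w 1| / 2 = w 3 := by rw [hd]; ring
  have hz : (0 : ℝ) + (D + -ζ + (0 + 0 + c₁ + c₂)) = w 4 := by rw [hD]; ring
  rw [hy, hz, ← eq_st w] at hend
  apply hend.mem_attainable
  · have := abs_nonneg (w 0 - 0)
    have := abs_nonneg (w 2 - 0)
    have := abs_nonneg (w 1)
    linarith
  · rw [sub_zero, sub_zero]
    linarith

end

end Pool.Agent.Helper562.STLC
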