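import Mathlib
import Pool.Agent.Helper562.STLCMain

open Set Filter Topology

namespace Pool.Agent.Helper562.STLC

noncomputable section

/-- projection on the third coordinate. -/
def pr2 : E 5 →L[ℝ] ℝ := EuclideanSpace.proj 2

/-- the line in the direction of `z`. -/
def lz : ℝ →L[ℝ] E 5 := ContinuousLinearMap.toSpanSingleton ℝ (EuclideanSpace.single 4 (1 : ℝ))

lemma fld_eq (m : ℕ) (i : Fin 8) :
    fld 1 m i = fld 0 0 i + lz ∘ ((fun u : ℝ => u ^ (2 * m)) ∘ pr2) := by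
  funext q
  ext j
  fin_cases j <;> simp [fld, lz, pr2]

lemma contDiff_fld (i : Fin 8) {n : WithTop ℕ∞} : ContDiff ℝ n (fld 0 0 i) := by
  rw [contDiff_euclidean]
  intro j
  have hc : ∀ l : Fin 5, ContDiff ℝ n (fun q : E 5 => q l) := fun l =>
    (EuclideanSpace.proj l : E 5 →L[ℝ] ℝ).contDiff
  fin_cases j
  · simpa [fld] using contDiff_const
  · simpa [fld] using contDiff_const
  · simpa [fld] using contDiff_const
  · simpa [fld] using hc 1
  · have h : ContDiff ℝ n (fun q : E 5 => (q 0 * q 1 + q 3 / 2) ^ 2 - q 2 * q 3 ^ 2) :=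
      ((((hc 0).mul (hc 1)).add ((hc 3).div_const 2)).pow 2).sub ((hc 2).mul ((hc 3).pow 2))
    simpa [fld] using h

lemma iteratedFDeriv_pow_zero {j k : ℕ} (h : j < k) :
    iteratedFDeriv ℝ j (fun u : ℝ => u ^ k) 0 = 0 := by
  ext
  rw [iteratedFDeriv_apply_eq_iteratedDeriv_mul_prod, iteratedDeriv_fun_pow_zero]
  simp [h.ne]

lemma agree (N : ℕ) : AgreeToOrder N f0 (fld 1 (N + 1)) := by
  intro i j hj
  rw [fld_eq]
  have hp : ContDiff ℝ j (fun u : ℝ => u ^ (2 * (N + 1))) := by fun_prop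
  have h1 : ContDiff ℝ j ((fun u : ℝ => u ^ (2 * (N + 1))) ∘ pr2) := hp.comp pr2.contDiff
  have h2 : ContDiff ℝ j (lz ∘ ((fun u : ℝ => u ^ (2 * (N + 1))) ∘ pr2)) := lz.contDiff.comp h1
  rw [iteratedFDeriv_add_apply (contDiff_fld i).contDiffAt h2.contDiffAt]
  have h3 : iteratedFDeriv ℝ j (lz ∘ ((fun u : ℝ => u ^ (2 * (N + 1))) ∘ pr2)) 0 = 0 := by
    rw [lz.iteratedFDeriv_comp_left h1.contDiffAt le_rfl,
      pr2.iteratedFDeriv_comp_right hp _ le_rfl]
    rw [map_zero, iteratedFDeriv_pow_zero (by omega)]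
    ext m
    simp
  rw [h3, add_zero]
  rfl

lemma isPolynomial_fld (e : ℝ) (m : ℕ) (i : Fin 8) : IsPolynomialField (fld e m i) := by
  refine ⟨![MvPolynomial.C (ctl i).1, MvPolynomial.C (ctl i).2.1, MvPolynomial.C (ctl i).2.2,
    MvPolynomial.X 1, (MvPolynomial.X 0 * MvPolynomial.X 1 + MvPolynomial.C (1 / 2) *
      MvPolynomial.X 3) ^ 2 - MvPolynomial.X 2 * MvPolynomial.X 3 ^ 2 +
      MvPolynomial.C e * MvPolynomial.X 2 ^ (2 * m)], ?_⟩
  intro q j
  fin_cases j <;> simp [fld]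
  ring

end

end Pool.Agent.Helper562.STLC
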