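import Mathlib

/-!
# Sliced link diagrams, determinant and signature

Link diagrams are given in sliced (Morse) form: a list of elementary pieces, read from bottom to
top. Strands at a level are numbered `0, 1, …` from the left, regions are numbered `0, 1, …` from
the left (region `j` lies between strand `j - 1` and strand `j`), and the checkerboard colouring
makes the regions of even index white; the unbounded region is white.
-/

namespace Pool.Agent.Helper562.Sliced

/-- Elementary pieces of a sliced link diagram. `cup i` is a local minimum creating the strands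
`i, i+1`; `cap i` is a local maximum joining the strands `i, i+1`; `cross i e` is a crossing of the
strands `i, i+1`, where for `e = 1` the strand going from lower left to upper right is the over
strand and for `e = -1` it is the under strand. -/
inductive Piece
  | cup (i : ℕ)
  | cap (i : ℕ)
  | cross (i : ℕ) (e : ℤˣ)

/-- `Admissible n w`: the pieces of `w` can be stacked on top of `n` strands, and no strand is left
at the top. A link diagram is a list `w` with `Admissible 0 w`. -/
def Admissible : ℕ → List Piece → Prop
  | n, [] => n = 0
  | n, .cup i :: w => i ≤ n ∧ Admissible (n + 2) w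
  | n, .cap i :: w => i + 2 ≤ n ∧ Admissible (n - 2) w
  | n, .cross i _ :: w => i + 2 ≤ n ∧ Admissible n w

/-- How the directions of the strands (`1` or `-1`, up or down) change across a piece, from `s`
below to `s'` above it: the two strands at a cup or cap have opposite directions, the strands keep
their directions (and change places) at a crossing, all other strands are carried along. -/
def StrandStep : Piece → (ℕ → ℤ) → (ℕ → ℤ) → Prop
  | .cup i, s, s' => (∀ j < i, s' j = s j) ∧ (∀ j ≥ i, s' (j + 2) = s j) ∧
      (s' i = 1 ∨ s' i = -1) ∧ s' (i + 1) = - s' i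
  | .cap i, s, s' => (∀ j < i, s j = s' j) ∧ (∀ j ≥ i, s (j + 2) = s' j) ∧
      (s i = 1 ∨ s i = -1) ∧ s (i + 1) = - s i
  | .cross i _, s, s' => s' i = s (i + 1) ∧ s' (i + 1) = s i ∧
      ∀ j, j ≠ i → j ≠ i + 1 → s' j = s j

/-- An orientation of the link diagram `w`: `o t j` is the direction of strand `j` at level `t`
(and `0` if there is no such strand). -/
def IsOrientation (w : List Piece) (o : ℕ → ℕ → ℤ) : Prop :=
  o 0 = 0 ∧ (∀ t, w.length < t → o t = 0) ∧
    ∀ t : Fin w.length, StrandStep (w.get t) (o t) (o (t + 1))

/-- `w` is a knot diagram: a link diagram with exactly two orientations (a link diagram with `c`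
components has `2 ^ c` orientations). -/
def IsKnot (w : List Piece) : Prop :=
  Admissible 0 w ∧ {o | IsOrientation w o}.ncard = 2

/-- How labels of regions change across a piece: regions that are connected through the piece
carry equal labels. -/
def RegionStep : Piece → (ℕ → ℤ) → (ℕ → ℤ) → Prop
  | .cup i, r, r' => (∀ j ≤ i, r' j = r j) ∧ ∀ j ≥ i, r' (j + 2) = r j
  | .cap i, r, r' => (∀ j ≤ i, r j = r' j) ∧ ∀ j ≥ i, r (j + 2) = r' j
  | .cross i _, r, r' => ∀ j, j ≠ i + 1 → r' j = r j

/-- `r` is an integer labelling of the white regions of `w` with label `0` on the unbounded region: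
`r t j` is the label of the region of index `j` at level `t`; regions of odd index (black) and
levels above the diagram carry `0`. -/
def IsWhiteLabelling (w : List Piece) (r : ℕ → ℕ → ℤ) : Prop :=
  r 0 = 0 ∧ (∀ t, w.length < t → r t = 0) ∧ (∀ t j, j % 2 = 1 → r t j = 0) ∧
    ∀ t : Fin w.length, RegionStep (w.get t) (r t) (r (t + 1))

/-- The contribution of a piece to the Goeritz form, for two labellings `r` and `s` (`r', s'` are
the labels above the piece): at a crossing, the incidence number times the product of the
differences of the labels of the two white regions at the crossing (left and right of it if `i` is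
even, below and above it if `i` is odd). -/
def goeritzTerm : Piece → (ℕ → ℤ) → (ℕ → ℤ) → (ℕ → ℤ) → (ℕ → ℤ) → ℤ
  | .cross i e, r, r', s, s' =>
      if i % 2 = 0 then (e : ℤ) * ((r i - r (i + 2)) * (s i - s (i + 2)))
      else -(e : ℤ) * ((r (i + 1) - r' (i + 1)) * (s (i + 1) - s' (i + 1)))
  | _, _, _, _, _ => 0

/-- The Goeritz form of the link diagram `w`. -/
def goeritz (w : List Piece) (r s : ℕ → ℕ → ℤ) : ℤ :=
  ∑ t : Fin w.length, goeritzTerm (w.get t) (r t) (r (t + 1)) (s t) (s (t + 1))

/-- `A` is a Goeritz matrix of `w`: the matrix of the Goeritz form in a basis of the free abelian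
group of labellings of the white regions. -/
def IsGoeritzMatrix (w : List Piece) {m : ℕ} (A : Matrix (Fin m) (Fin m) ℤ) : Prop :=
  ∃ b : Fin m → ℕ → ℕ → ℤ, (∀ i, IsWhiteLabelling w (b i)) ∧
    (∀ r, IsWhiteLabelling w r → ∃! c : Fin m → ℤ, ∀ t j, r t j = ∑ i, c i * b i t j) ∧
    ∀ i j, A i j = goeritz w (b i) (b j)

/-- The incidence number of a crossing of type II, and `0` for crossings of type I and other
pieces; `s` are the directions of the strands below the crossing. A crossing is of type I if the
orientation of the diagram is the boundary orientation of the black band at the crossing: for `i`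
even, if the two strands have opposite directions, and for `i` odd, if they have equal
directions. -/
def typeTwo : Piece → (ℕ → ℤ) → ℤ
  | .cross i e, s =>
      if i % 2 = 0 then (if s i = s (i + 1) then (e : ℤ) else 0)
      else (if s i = s (i + 1) then 0 else -(e : ℤ))
  | _, _ => 0

/-- The Gordon-Litherland correction: the sum of the incidence numbers of the crossings of
type II. -/
def correction (w : List Piece) (o : ℕ → ℕ → ℤ) : ℤ :=
  ∑ t : Fin w.length, typeTwo (w.get t) (o t)

/-- the signature of a symmetric integer matrix -/
noncomputable def matrixSignature {m : ℕ} (A : Matrix (Fin m) (Fin m) ℤ) : ℤ :=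
  (sigPos (A.map (Int.cast : ℤ → ℝ)).toQuadraticForm' : ℤ) -
    (sigNeg (A.map (Int.cast : ℤ → ℝ)).toQuadraticForm' : ℤ)

end Pool.Agent.Helper562.Sliced
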