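import Pool.Agent.Helper562.Sliced

/-!
# A family of knot diagrams

The diagrams `diagram c₁ d₁ c₂ d₂ c₃ d₃ c₄`, their orientations, labellings and Goeritz matrices.
-/

namespace Pool.Agent.Helper562.Sliced

/-- Recursive form of `∀ t : Fin w.length, R (w.get t) (r t) (r (t + 1))`. -/
def Chain (R : Piece → (ℕ → ℤ) → (ℕ → ℤ) → Prop) : List Piece → (ℕ → ℕ → ℤ) → Prop
  | [], _ => True
  | p :: w, r => R p (r 0) (r 1) ∧ Chain R w (fun t => r (t + 1))

theorem chain_iff (R : Piece → (ℕ → ℤ) → (ℕ → ℤ) → Prop) (w : List Piece) :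
    ∀ r : ℕ → ℕ → ℤ, (∀ t : Fin w.length, R (w.get t) (r t) (r (t + 1))) ↔ Chain R w r := by
  induction w with
  | nil => intro r; exact ⟨fun _ => trivial, fun _ t => absurd t.2 (by simp)⟩
  | cons p w ih =>
    intro r
    change _ ↔ R p (r 0) (r 1) ∧ Chain R w (fun t => r (t + 1))
    rw [← ih]
    constructor
    · intro h
      refine ⟨h ⟨0, by simp⟩, fun t => h ⟨t + 1, by simp⟩⟩
    · rintro ⟨h0, h⟩ ⟨t, ht⟩
      rcases t with _ | t
      · exact h0
      · exact h ⟨t, by simpa using ht⟩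

theorem goeritz_cons (p : Piece) (w : List Piece) (r s : ℕ → ℕ → ℤ) :
    goeritz (p :: w) r s = goeritzTerm p (r 0) (r 1) (s 0) (s 1) +
      goeritz w (fun t => r (t + 1)) (fun t => s (t + 1)) := by
  exact Fin.sum_univ_succ (n := w.length) (fun t : Fin (w.length + 1) =>
    goeritzTerm ((p :: w).get t) (r t) (r (t + 1)) (s t) (s (t + 1)))

theorem correction_cons (p : Piece) (w : List Piece) (o : ℕ → ℕ → ℤ) :
    correction (p :: w) o = typeTwo p (o 0) + correction w (fun t => o (t + 1)) := by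
  exact Fin.sum_univ_succ (n := w.length) (fun t : Fin (w.length + 1) =>
    typeTwo ((p :: w).get t) (o t))

theorem goeritz_cup (i : ℕ) (w : List Piece) (r s : ℕ → ℕ → ℤ) :
    goeritz (.cup i :: w) r s = goeritz w (fun t => r (t + 1)) (fun t => s (t + 1)) := by
  rw [goeritz_cons]; simp [goeritzTerm]

theorem goeritz_cap (i : ℕ) (w : List Piece) (r s : ℕ → ℕ → ℤ) :
    goeritz (.cap i :: w) r s = goeritz w (fun t => r (t + 1)) (fun t => s (t + 1)) := by
  rw [goeritz_cons]; simp [goeritzTerm]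

theorem goeritz_nil (r s : ℕ → ℕ → ℤ) : goeritz [] r s = 0 := rfl

theorem correction_cup (i : ℕ) (w : List Piece) (o : ℕ → ℕ → ℤ) :
    correction (.cup i :: w) o = correction w (fun t => o (t + 1)) := by
  rw [correction_cons]; simp [typeTwo]

theorem correction_cap (i : ℕ) (w : List Piece) (o : ℕ → ℕ → ℤ) :
    correction (.cap i :: w) o = correction w (fun t => o (t + 1)) := by
  rw [correction_cons]; simp [typeTwo]

theorem correction_nil (o : ℕ → ℕ → ℤ) : correction [] o = 0 := rfl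

/-! ### the diagrams -/

def twist (i : ℕ) (c : ℤ) : List Piece :=
  List.replicate c.natAbs (.cross i (if 0 ≤ c then 1 else -1))

def fin (c : ℤ) : List Piece := twist 0 c ++ [.cap 1, .cap 0]

def blk (c d : ℤ) (v : List Piece) : List Piece :=
  twist 0 c ++ .cup 3 :: (twist 2 d ++ .cap 1 :: v)

def diagram (c₁ d₁ c₂ d₂ c₃ d₃ c₄ : ℤ) : List Piece :=
  .cup 0 :: .cup 1 :: blk c₁ d₁ (blk c₂ d₂ (blk c₃ d₃ (fin c₄)))

theorem natAbs_mul_unit (c : ℤ) : (c.natAbs : ℤ) * ((if 0 ≤ c then 1 else -1 : ℤˣ) : ℤ) = c := by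
  by_cases h : 0 ≤ c
  · simp [h, abs_of_nonneg h]
  · simp only [h, if_false]
    simp
    rw [abs_of_neg (by omega)]
    ring

/-! ### admissibility -/

theorem admissible_replicate (n i : ℕ) (hi : i + 2 ≤ n) (e : ℤˣ) (k : ℕ) (v : List Piece)
    (hv : Admissible n v) : Admissible n (List.replicate k (.cross i e) ++ v) := by
  induction k with
  | zero => simpa using hv
  | succ k ih => exact ⟨hi, ih⟩

theorem admissible_fin (c : ℤ) : Admissible 4 (fin c) := by
  refine admissible_replicate 4 0 (by norm_num) _ _ _ ?_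
  simp [Admissible]

theorem admissible_blk (c d : ℤ) (v : List Piece) (hv : Admissible 4 v) :
    Admissible 4 (blk c d v) := by
  refine admissible_replicate 4 0 (by norm_num) _ _ _ ?_
  refine ⟨by norm_num, ?_⟩
  refine admissible_replicate 6 2 (by norm_num) _ _ _ ?_
  exact ⟨by norm_num, hv⟩

theorem admissible_diagram (c₁ d₁ c₂ d₂ c₃ d₃ c₄ : ℤ) :
    Admissible 0 (diagram c₁ d₁ c₂ d₂ c₃ d₃ c₄) :=
  ⟨le_rfl, by norm_num, admissible_blk _ _ _ (admissible_blk _ _ _ (admissible_blk _ _ _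
    (admissible_fin _)))⟩

/-! ### white labelings -/

def st (a b : ℤ) : ℕ → ℤ := fun j => if j = 2 then a else if j = 4 then b else 0

def conc (n : ℕ) (s : ℕ → ℤ) (r : ℕ → ℕ → ℤ) : ℕ → ℕ → ℤ :=
  fun t => if t < n then s else r (t - n)

theorem conc_lt {n t : ℕ} (h : t < n) (s : ℕ → ℤ) (r : ℕ → ℕ → ℤ) : conc n s r t = s := by
  simp [conc, h]

theorem conc_add (n t : ℕ) (s : ℕ → ℤ) (r : ℕ → ℕ → ℤ) : conc n s r (t + n) = r t := by
  simp [conc]

theorem eq_conc {n : ℕ} {s : ℕ → ℤ} {r r' : ℕ → ℕ → ℤ} (h : ∀ t < n, r t = s)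
    (h' : ∀ t, r (t + n) = r' t) : r = conc n s r' := by
  funext t
  by_cases ht : t < n
  · rw [conc_lt ht, h t ht]
  · obtain ⟨u, rfl⟩ : ∃ u, t = u + n := ⟨t - n, by omega⟩
    rw [conc_add, h']

theorem chain_twist (i : ℕ) (hi : i % 2 = 0) (e : ℤˣ) (v : List Piece) (n : ℕ) :
    ∀ r : ℕ → ℕ → ℤ, (∀ t j, j % 2 = 1 → r t j = 0) →
    (Chain RegionStep (List.replicate n (.cross i e) ++ v) r ↔
      (∀ t ≤ n, r t = r 0) ∧ Chain RegionStep v (fun t => r (t + n))) := by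
  induction n with
  | zero =>
    intro r hr
    simp
  | succ n ih =>
    intro r hr
    rw [List.replicate_succ, List.cons_append]
    change (RegionStep (.cross i e) (r 0) (r 1) ∧ _) ↔ _
    rw [ih _ (fun t j hj => hr (t + 1) j hj)]
    constructor
    · rintro ⟨h1, h2, h3⟩
      have h01 : r 1 = r 0 := by
        funext j
        by_cases hj : j = i + 1
        · rw [hr 1 j (by omega), hr 0 j (by omega)]
        · exact h1 j hj
      refine ⟨?_, h3⟩
      intro t ht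
      rcases t with _ | t
      · rfl
      · exact (show r (t + 1) = r 1 from h2 t (by omega)).trans h01
    · rintro ⟨h1, h2⟩
      refine ⟨?_, ?_, h2⟩
      · intro j hj
        rw [h1 1 (by omega)]
      · intro t ht
        simp only [zero_add]
        rw [h1 (t + 1) (by omega), h1 1 (by omega)]

theorem goeritz_twist (i : ℕ) (hi : i % 2 = 0) (e : ℤˣ) (v : List Piece) (n : ℕ) :
    ∀ r s : ℕ → ℕ → ℤ, (∀ t < n, r t = r 0) → (∀ t < n, s t = s 0) →
    goeritz (List.replicate n (.cross i e) ++ v) r s =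
      n * e * ((r 0 i - r 0 (i + 2)) * (s 0 i - s 0 (i + 2))) +
        goeritz v (fun t => r (t + n)) (fun t => s (t + n)) := by
  induction n with
  | zero =>
    intro r s _ _
    simp
  | succ n ih =>
    intro r s hr hs
    rw [List.replicate_succ, List.cons_append, goeritz_cons]
    simp only [goeritzTerm, hi, if_true]
    rcases n with _ | n
    · simp
    · rw [ih]
      · have h1 : r 1 = r 0 := hr 1 (by omega)
        have h2 : s 1 = s 0 := hs 1 (by omega)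
        change _ + (_ + goeritz v (fun t => r (t + (n + 1 + 1))) (fun t => s (t + (n + 1 + 1)))) = _
        generalize goeritz v (fun t => r (t + (n + 1 + 1))) (fun t => s (t + (n + 1 + 1))) = G
        simp only [zero_add, h1, h2]
        push_cast
        ring
      · intro t ht
        rw [hr (t + 1) (by omega), zero_add, hr 1 (by omega)]
      · intro t ht
        rw [hs (t + 1) (by omega), zero_add, hs 1 (by omega)]


theorem st_zero : st 0 0 = 0 := by
  funext j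
  simp [st]

theorem st_odd (a b : ℤ) (j : ℕ) (hj : j % 2 = 1) : st a b j = 0 := by
  have h2 : j ≠ 2 := by omega
  have h4 : j ≠ 4 := by omega
  simp [st, h2, h4]

theorem step_cup0 (s : ℕ → ℤ) (hs : ∀ j, j % 2 = 1 → s j = 0) :
    RegionStep (.cup 0) 0 s ↔ s = 0 := by
  constructor
  · rintro ⟨h1, h2⟩
    funext j
    rcases j with _ | _ | j
    · exact h1 0 le_rfl
    · exact hs 1 rfl
    · exact h2 j (Nat.zero_le _)
  · rintro rfl
    exact ⟨fun _ _ => rfl, fun _ _ => rfl⟩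

theorem step_cup1 (s : ℕ → ℤ) (hs : ∀ j, j % 2 = 1 → s j = 0) :
    RegionStep (.cup 1) 0 s ↔ ∃ a, s = st a 0 := by
  constructor
  · rintro ⟨h1, h2⟩
    refine ⟨s 2, ?_⟩
    funext j
    rcases j with _ | _ | _ | j
    · exact h1 0 (by norm_num)
    · exact h1 1 le_rfl
    · rfl
    · rw [h2 (j + 1) (by omega)]
      simp [st]
  · rintro ⟨a, rfl⟩
    refine ⟨fun j hj => ?_, fun j hj => ?_⟩
    · have : j ≠ 2 := by omega
      simp [st, this]
    · have : j ≠ 0 := by omega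
      simp [st, this]

theorem step_cup3 (a : ℤ) (s : ℕ → ℤ) (hs : ∀ j, j % 2 = 1 → s j = 0) :
    RegionStep (.cup 3) (st a 0) s ↔ ∃ b, s = st a b := by
  constructor
  · rintro ⟨h1, h2⟩
    refine ⟨s 4, ?_⟩
    funext j
    rcases j with _ | _ | _ | _ | _ | j
    · exact h1 0 (by norm_num)
    · exact h1 1 (by norm_num)
    · exact h1 2 (by norm_num)
    · exact hs 3 rfl
    · rfl
    · rw [h2 (j + 3) (by omega)]
      simp [st]
  · rintro ⟨b, rfl⟩
    refine ⟨fun j hj => ?_, fun j hj => ?_⟩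
    · have : j ≠ 4 := by omega
      simp [st, this]
    · have h2 : j + 2 ≠ 2 := by omega
      have h4 : j + 2 ≠ 4 := by omega
      have h6 : j ≠ 2 := by omega
      simp [st, h4, h6]
      omega

theorem step_cap1 (a b : ℤ) (s : ℕ → ℤ) :
    RegionStep (.cap 1) (st a b) s ↔ s = st b 0 := by
  constructor
  · rintro ⟨h1, h2⟩
    funext j
    rcases j with _ | _ | _ | j
    · exact (h1 0 (by norm_num)).symm
    · exact (h1 1 le_rfl).symm
    · exact (h2 2 (by norm_num)).symm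
    · rw [← h2 (j + 3) (by omega)]
      simp [st]
  · rintro rfl
    refine ⟨fun j hj => ?_, fun j hj => ?_⟩
    · have h2 : j ≠ 2 := by omega
      have h4 : j ≠ 4 := by omega
      simp [st, h2, h4]
    · have h2 : j ≠ 0 := by omega
      simp [st, h2]

theorem step_cap0 (s : ℕ → ℤ) : RegionStep (.cap 0) 0 s ↔ s = 0 := by
  constructor
  · rintro ⟨h1, h2⟩
    funext j
    exact (h2 j (Nat.zero_le _)).symm
  · rintro rfl
    exact ⟨fun _ _ => rfl, fun _ _ => rfl⟩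

def IsSol (v : List Piece) (a : ℤ) (r : ℕ → ℕ → ℤ) : Prop :=
  r 0 = st a 0 ∧ (∀ t, v.length < t → r t = 0) ∧ (∀ t j, j % 2 = 1 → r t j = 0) ∧
    Chain RegionStep v r

theorem twist_length (i : ℕ) (c : ℤ) : (twist i c).length = c.natAbs := by simp [twist]

theorem isSol_fin (c a : ℤ) (r : ℕ → ℕ → ℤ) :
    IsSol (fin c) a r ↔ r = conc (c.natAbs + 1) (st a 0) 0 := by
  constructor
  · rintro ⟨h0, hlen, hodd, hch⟩
    rw [fin, twist, chain_twist 0 rfl _ _ _ r hodd] at hch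
    obtain ⟨hc, h1, h2, _⟩ := hch
    simp only [zero_add] at h1 h2
    rw [hc _ le_rfl, h0] at h1
    have e1 := (step_cap1 a 0 _).mp h1
    rw [st_zero] at e1
    have e1' : r (1 + c.natAbs) = 0 := e1
    have h2' : RegionStep (.cap 0) (r (1 + c.natAbs)) (r (1 + 1 + c.natAbs)) := h2
    rw [e1'] at h2'
    have e2 := (step_cap0 _).mp h2'
    refine eq_conc (fun t ht => ?_) (fun t => ?_)
    · rw [hc t (by omega), h0]
    · rcases t with _ | _ | t
      · have : 0 + (c.natAbs + 1) = 1 + c.natAbs := by omega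
        rw [this, e1']; rfl
      · have : 0 + 1 + (c.natAbs + 1) = 1 + 1 + c.natAbs := by omega
        rw [this, e2]; rfl
      · refine hlen _ ?_
        simp [fin, twist_length]
        omega
  · rintro rfl
    have hodd : ∀ t j, j % 2 = 1 → conc (c.natAbs + 1) (st a 0) 0 t j = 0 := by
      intro t j hj
      unfold conc
      split_ifs
      · exact st_odd _ _ _ hj
      · rfl
    refine ⟨conc_lt (by omega) _ _, fun t ht => ?_, hodd, ?_⟩
    · simp [fin, twist_length] at ht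
      have : ¬ t < c.natAbs + 1 := by omega
      simp [conc, this]
    · rw [fin, twist, chain_twist 0 rfl _ _ _ _ hodd]
      have e0 : conc (c.natAbs + 1) (st a 0) 0 (0 + c.natAbs) = st a 0 := conc_lt (by omega) _ _
      have e1 : conc (c.natAbs + 1) (st a 0) 0 (1 + c.natAbs) = 0 := by
        have : 1 + c.natAbs = 0 + (c.natAbs + 1) := by omega
        rw [this, conc_add]; rfl
      have e2 : conc (c.natAbs + 1) (st a 0) 0 (1 + 1 + c.natAbs) = 0 := by
        have : 1 + 1 + c.natAbs = 1 + (c.natAbs + 1) := by omega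
        rw [this, conc_add]; rfl
      refine ⟨fun t ht => ?_, ?_, ?_, trivial⟩
      · rw [conc_lt (by omega), conc_lt (by omega)]
      · change RegionStep (.cap 1) (conc (c.natAbs + 1) (st a 0) 0 (0 + c.natAbs))
          (conc (c.natAbs + 1) (st a 0) 0 (1 + c.natAbs))
        rw [e0, e1, step_cap1, st_zero]
      · change RegionStep (.cap 0) (conc (c.natAbs + 1) (st a 0) 0 (1 + c.natAbs))
          (conc (c.natAbs + 1) (st a 0) 0 (1 + 1 + c.natAbs))
        rw [e1, e2, step_cap0]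

theorem isSol_blk (c d a : ℤ) (v : List Piece) (r : ℕ → ℕ → ℤ) :
    IsSol (blk c d v) a r ↔ ∃ b r', IsSol v b r' ∧
      r = conc (c.natAbs + 1) (st a 0) (conc (d.natAbs + 1) (st a b) r') := by
  constructor
  · rintro ⟨h0, hlen, hodd, hch⟩
    rw [blk, twist, chain_twist 0 rfl _ _ _ r hodd] at hch
    obtain ⟨hc, h1, h2⟩ := hch
    simp only [zero_add] at h1
    rw [hc _ le_rfl, h0] at h1
    obtain ⟨b, hb⟩ := (step_cup3 a _ (hodd _)).mp h1
    rw [twist, chain_twist 2 rfl _ _ _ _ (fun t j hj => hodd _ j hj)] at h2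
    obtain ⟨hd, h3, h4⟩ := h2
    have hb' : r (1 + c.natAbs) = st a b := hb
    have hd' : ∀ t ≤ d.natAbs, r (t + 1 + c.natAbs) = st a b := by
      intro t ht
      have := hd t ht
      rw [← hb']
      have e : (0 : ℕ) + 1 = 1 := rfl
      rw [e] at this
      exact this
    have h3' : RegionStep (.cap 1) (r (d.natAbs + 1 + c.natAbs)) (r (1 + d.natAbs + 1 + c.natAbs)) := by
      have e : (0 : ℕ) + d.natAbs + 1 + c.natAbs = d.natAbs + 1 + c.natAbs := by omega
      have h3'' : RegionStep (.cap 1) (r (0 + d.natAbs + 1 + c.natAbs))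
        (r (1 + d.natAbs + 1 + c.natAbs)) := h3
      rwa [e] at h3''
    rw [hd' _ le_rfl, step_cap1] at h3'
    refine ⟨b, fun t => r (t + 1 + d.natAbs + 1 + c.natAbs), ⟨?_, ?_, ?_, ?_⟩, ?_⟩
    · simpa using h3'
    · intro t ht
      apply hlen
      simp [blk, twist_length]
      omega
    · intro t j hj
      exact hodd _ j hj
    · exact h4
    · refine eq_conc (fun t ht => ?_) (fun t => ?_)
      · rw [hc t (by omega), h0]
      · unfold conc
        split_ifs with ht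
        · have := hd' t (by omega)
          rw [← this]
          congr 1
          omega
        · have : t - (d.natAbs + 1) + 1 + d.natAbs + 1 + c.natAbs = t + (c.natAbs + 1) := by omega
          change r (t + (c.natAbs + 1)) = r (t - (d.natAbs + 1) + 1 + d.natAbs + 1 + c.natAbs)
          rw [this]
  · rintro ⟨b, r', ⟨h0, hlen, hodd', hch⟩, rfl⟩
    set r := conc (c.natAbs + 1) (st a 0) (conc (d.natAbs + 1) (st a b) r') with hr
    have hodd : ∀ t j, j % 2 = 1 → r t j = 0 := by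
      intro t j hj
      rw [hr]
      unfold conc
      split_ifs
      · exact st_odd _ _ _ hj
      · exact st_odd _ _ _ hj
      · exact hodd' _ _ hj
    have r1 : ∀ t ≤ c.natAbs, r t = st a 0 := fun t ht => conc_lt (by omega) _ _
    have r2 : ∀ t ≤ d.natAbs, r (t + 1 + c.natAbs) = st a b := by
      intro t ht
      have e : t + 1 + c.natAbs = t + (c.natAbs + 1) := by omega
      rw [e, hr, conc_add, conc_lt (by omega)]
    have r3 : ∀ t, r (t + 1 + d.natAbs + 1 + c.natAbs) = r' t := by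
      intro t
      have e : t + 1 + d.natAbs + 1 + c.natAbs = t + (d.natAbs + 1) + (c.natAbs + 1) := by omega
      rw [e, hr, conc_add, conc_add]
    refine ⟨r1 0 (by omega), fun t ht => ?_, hodd, ?_⟩
    · simp [blk, twist_length] at ht
      obtain ⟨u, rfl⟩ : ∃ u, t = u + 1 + d.natAbs + 1 + c.natAbs :=
        ⟨t - (1 + d.natAbs + 1 + c.natAbs), by omega⟩
      rw [r3]
      exact hlen u (by omega)
    · rw [blk, twist, chain_twist 0 rfl _ _ _ _ hodd]
      refine ⟨fun t ht => by rw [r1 t ht, r1 0 (by omega)], ?_, ?_⟩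
      · change RegionStep (.cup 3) (r (0 + c.natAbs)) (r (1 + c.natAbs))
        rw [zero_add, r1 _ le_rfl, step_cup3 a _ (hodd _)]
        exact ⟨b, by simpa using r2 0 (by omega)⟩
      · rw [twist, chain_twist 2 rfl _ _ _ _ (fun t j hj => hodd _ j hj)]
        refine ⟨fun t ht => by rw [r2 t ht, r2 0 (by omega)], ?_, ?_⟩
        · change RegionStep (.cap 1) (r (0 + d.natAbs + 1 + c.natAbs))
            (r (1 + d.natAbs + 1 + c.natAbs))
          rw [zero_add, r2 _ le_rfl, step_cap1]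
          have := r3 0
          rw [h0] at this
          simpa using this
        · have : (fun t => r (t + 1 + d.natAbs + 1 + c.natAbs)) = r' := funext r3
          change Chain RegionStep v (fun t => r (t + 1 + d.natAbs + 1 + c.natAbs))
          rw [this]
          exact hch


theorem goeritz_fin (c a a' : ℤ) :
    goeritz (fin c) (conc (c.natAbs + 1) (st a 0) 0) (conc (c.natAbs + 1) (st a' 0) 0) =
      c * (a * a') := by
  rw [fin, twist, goeritz_twist 0 rfl]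
  · rw [natAbs_mul_unit, goeritz_cap, goeritz_cap, goeritz_nil]
    simp [conc, st]
  · intro t ht
    rw [conc_lt (by omega), conc_lt (by omega)]
  · intro t ht
    rw [conc_lt (by omega), conc_lt (by omega)]

theorem goeritz_blk (c d a b a' b' : ℤ) (v : List Piece) (r s : ℕ → ℕ → ℤ) :
    goeritz (blk c d v) (conc (c.natAbs + 1) (st a 0) (conc (d.natAbs + 1) (st a b) r))
      (conc (c.natAbs + 1) (st a' 0) (conc (d.natAbs + 1) (st a' b') s)) =
      c * (a * a') + d * ((a - b) * (a' - b')) + goeritz v r s := by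
  rw [blk, twist, goeritz_twist 0 rfl]
  · rw [natAbs_mul_unit, goeritz_cup]
    have e : ∀ (x y : ℤ) (u : ℕ → ℕ → ℤ), (fun t => conc (c.natAbs + 1) (st x 0)
        (conc (d.natAbs + 1) (st x y) u) (t + 1 + c.natAbs)) = conc (d.natAbs + 1) (st x y) u := by
      intro x y u
      funext t
      have : t + 1 + c.natAbs = t + (c.natAbs + 1) := by omega
      rw [this, conc_add]
    rw [e, e, twist, goeritz_twist 2 rfl]
    · rw [natAbs_mul_unit, goeritz_cap]
      have e' : ∀ (x y : ℤ) (u : ℕ → ℕ → ℤ), (fun t => conc (d.natAbs + 1) (st x y) u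
        (t + 1 + d.natAbs)) = u := by
        intro x y u
        funext t
        have : t + 1 + d.natAbs = t + (d.natAbs + 1) := by omega
        rw [this, conc_add]
      rw [e', e']
      simp [conc, st]
      ring
    · intro t ht
      rw [conc_lt (by omega), conc_lt (by omega)]
    · intro t ht
      rw [conc_lt (by omega), conc_lt (by omega)]
  · intro t ht
    rw [conc_lt (by omega), conc_lt (by omega)]
  · intro t ht
    rw [conc_lt (by omega), conc_lt (by omega)]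

theorem conc_map_add (n : ℕ) (s s' : ℕ → ℤ) (r r' : ℕ → ℕ → ℤ) :
    conc n (s + s') (r + r') = conc n s r + conc n s' r' := by
  funext t
  simp only [Pi.add_apply]
  unfold conc
  split_ifs <;> rfl

theorem conc_map_smul (n : ℕ) (c : ℤ) (s : ℕ → ℤ) (r : ℕ → ℕ → ℤ) :
    conc n (c • s) (c • r) = c • conc n s r := by
  funext t
  simp only [Pi.smul_apply]
  unfold conc
  split_ifs <;> rfl

theorem st_add (a b a' b' : ℤ) : st (a + a') (b + b') = st a b + st a' b' := by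
  funext j
  simp only [st, Pi.add_apply]
  split_ifs <;> simp

theorem st_smul (c a b : ℤ) : st (c * a) (c * b) = c • st a b := by
  funext j
  simp only [st, Pi.smul_apply]
  split_ifs <;> simp

section lab

variable (c₁ d₁ c₂ d₂ c₃ d₃ c₄ : ℤ)

def lab₁ (a : ℤ) : ℕ → ℕ → ℤ := conc (c₄.natAbs + 1) (st a 0) 0

def lab₂ (a b : ℤ) : ℕ → ℕ → ℤ :=
  conc (c₃.natAbs + 1) (st a 0) (conc (d₃.natAbs + 1) (st a b) (lab₁ c₄ b))

def lab₃ (a b c : ℤ) : ℕ → ℕ → ℤ :=
  conc (c₂.natAbs + 1) (st a 0) (conc (d₂.natAbs + 1) (st a b) (lab₂ c₃ d₃ c₄ b c))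

def lab₄ (a b c d : ℤ) : ℕ → ℕ → ℤ :=
  conc (c₁.natAbs + 1) (st a 0) (conc (d₁.natAbs + 1) (st a b) (lab₃ c₂ d₂ c₃ d₃ c₄ b c d))

def lab (f : Fin 4 → ℤ) : ℕ → ℕ → ℤ :=
  conc 2 0 (lab₄ c₁ d₁ c₂ d₂ c₃ d₃ c₄ (f 0) (f 1) (f 2) (f 3))

theorem st_add' (a a' : ℤ) : st (a + a') 0 = st a 0 + st a' 0 := by
  have := st_add a 0 a' 0
  simpa using this

theorem st_smul' (c a : ℤ) : st (c * a) 0 = c • st a 0 := by
  have := st_smul c a 0
  simpa using this

theorem conc_map_add' (n : ℕ) (s s' : ℕ → ℤ) :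
    conc n (s + s') 0 = conc n s 0 + conc n s' 0 := by
  have := conc_map_add n s s' 0 0
  simpa using this

theorem conc_map_smul' (n : ℕ) (c : ℤ) (s : ℕ → ℤ) :
    conc n (c • s) 0 = c • conc n s 0 := by
  have := conc_map_smul n c s 0
  simpa using this

theorem conc_map_add₀ (n : ℕ) (r r' : ℕ → ℕ → ℤ) :
    conc n 0 (r + r') = conc n 0 r + conc n 0 r' := by
  have := conc_map_add n 0 0 r r'
  simpa using this

theorem conc_map_smul₀ (n : ℕ) (c : ℤ) (r : ℕ → ℕ → ℤ) :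
    conc n 0 (c • r) = c • conc n 0 r := by
  have := conc_map_smul n c 0 r
  simpa using this

theorem lab_add (f g : Fin 4 → ℤ) :
    lab c₁ d₁ c₂ d₂ c₃ d₃ c₄ (f + g) =
      lab c₁ d₁ c₂ d₂ c₃ d₃ c₄ f + lab c₁ d₁ c₂ d₂ c₃ d₃ c₄ g := by
  simp only [lab, lab₄, lab₃, lab₂, lab₁, Pi.add_apply, st_add, st_add', conc_map_add',
    conc_map_add, conc_map_add₀]

theorem lab_smul (c : ℤ) (f : Fin 4 → ℤ) :
    lab c₁ d₁ c₂ d₂ c₃ d₃ c₄ (c • f) = c • lab c₁ d₁ c₂ d₂ c₃ d₃ c₄ f := by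
  simp only [lab, lab₄, lab₃, lab₂, lab₁, Pi.smul_apply, smul_eq_mul, st_smul, st_smul',
    conc_map_smul', conc_map_smul, conc_map_smul₀]

def labHom : (Fin 4 → ℤ) →ₗ[ℤ] (ℕ → ℕ → ℤ) where
  toFun := lab c₁ d₁ c₂ d₂ c₃ d₃ c₄
  map_add' := lab_add c₁ d₁ c₂ d₂ c₃ d₃ c₄
  map_smul' := lab_smul c₁ d₁ c₂ d₂ c₃ d₃ c₄

theorem labHom_injective : Function.Injective (labHom c₁ d₁ c₂ d₂ c₃ d₃ c₄) := by
  rw [injective_iff_map_eq_zero]
  intro f hf
  have hf' : lab c₁ d₁ c₂ d₂ c₃ d₃ c₄ f = 0 := hf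
  have h4 : ∀ t, lab₄ c₁ d₁ c₂ d₂ c₃ d₃ c₄ (f 0) (f 1) (f 2) (f 3) t = 0 := by
    intro t
    have := congrFun hf' (t + 2)
    rw [lab, conc_add] at this
    exact this
  have h3 : ∀ t, lab₃ c₂ d₂ c₃ d₃ c₄ (f 1) (f 2) (f 3) t = 0 := by
    intro t
    have := h4 (t + (d₁.natAbs + 1) + (c₁.natAbs + 1))
    rw [lab₄, conc_add, conc_add] at this
    exact this
  have h2 : ∀ t, lab₂ c₃ d₃ c₄ (f 2) (f 3) t = 0 := by
    intro t
    have := h3 (t + (d₂.natAbs + 1) + (c₂.natAbs + 1))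
    rw [lab₃, conc_add, conc_add] at this
    exact this
  have h1 : ∀ t, lab₁ c₄ (f 3) t = 0 := by
    intro t
    have := h2 (t + (d₃.natAbs + 1) + (c₃.natAbs + 1))
    rw [lab₂, conc_add, conc_add] at this
    exact this
  have f0 : f 0 = 0 := by
    have := congrFun (h4 0) 2
    rw [lab₄, conc_lt (by omega)] at this
    simpa [st] using this
  have f1 : f 1 = 0 := by
    have := congrFun (h3 0) 2
    rw [lab₃, conc_lt (by omega)] at this
    simpa [st] using this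
  have f2 : f 2 = 0 := by
    have := congrFun (h2 0) 2
    rw [lab₂, conc_lt (by omega)] at this
    simpa [st] using this
  have f3 : f 3 = 0 := by
    have := congrFun (h1 0) 2
    rw [lab₁, conc_lt (by omega)] at this
    simpa [st] using this
  funext i
  fin_cases i
  · exact f0
  · exact f1
  · exact f2
  · exact f3

theorem isWhiteLabelling_iff (r : ℕ → ℕ → ℤ) :
    IsWhiteLabelling (diagram c₁ d₁ c₂ d₂ c₃ d₃ c₄) r ↔
      ∃ f, r = lab c₁ d₁ c₂ d₂ c₃ d₃ c₄ f := by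
  rw [IsWhiteLabelling, chain_iff]
  constructor
  · rintro ⟨h0, hlen, hodd, hc0, hc1, hch⟩
    rw [h0] at hc0
    have e1 : r 1 = 0 := (step_cup0 _ (hodd 1)).mp hc0
    have hc1' : RegionStep (.cup 1) (r 1) (r 2) := hc1
    rw [e1] at hc1'
    obtain ⟨a, ha⟩ := (step_cup1 _ (hodd 2)).mp hc1'
    have hsol : IsSol (blk c₁ d₁ (blk c₂ d₂ (blk c₃ d₃ (fin c₄)))) a (fun t => r (t + 2)) := by
      refine ⟨ha, fun t ht => hlen _ ?_, fun t j hj => hodd _ j hj, hch⟩
      simp only [diagram, List.length_cons]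
      omega
    rw [isSol_blk] at hsol
    obtain ⟨b, r1, hsol, hr⟩ := hsol
    rw [isSol_blk] at hsol
    obtain ⟨c, r2, hsol, hr'⟩ := hsol
    rw [isSol_blk] at hsol
    obtain ⟨d, r3, hsol, hr''⟩ := hsol
    rw [isSol_fin] at hsol
    refine ⟨![a, b, c, d], eq_conc (fun t ht => ?_) (fun t => ?_)⟩
    · have : t = 0 ∨ t = 1 := by omega
      rcases this with rfl | rfl
      · exact h0
      · exact e1
    · have := congrFun hr t
      rw [hr', hr'', hsol] at this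
      exact this
  · rintro ⟨f, rfl⟩
    have hsol : IsSol (blk c₁ d₁ (blk c₂ d₂ (blk c₃ d₃ (fin c₄)))) (f 0)
        (lab₄ c₁ d₁ c₂ d₂ c₃ d₃ c₄ (f 0) (f 1) (f 2) (f 3)) := by
      rw [isSol_blk]
      refine ⟨f 1, _, ?_, rfl⟩
      rw [isSol_blk]
      refine ⟨f 2, _, ?_, rfl⟩
      rw [isSol_blk]
      refine ⟨f 3, _, ?_, rfl⟩
      rw [isSol_fin]
      rfl
    obtain ⟨h0, hlen, hodd, hch⟩ := hsol
    have e : (fun t => lab c₁ d₁ c₂ d₂ c₃ d₃ c₄ f (t + 2)) =
      lab₄ c₁ d₁ c₂ d₂ c₃ d₃ c₄ (f 0) (f 1) (f 2) (f 3) := by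
      funext t
      rw [lab, conc_add]
    have l0 : lab c₁ d₁ c₂ d₂ c₃ d₃ c₄ f 0 = 0 := conc_lt (by norm_num) _ _
    have l1 : lab c₁ d₁ c₂ d₂ c₃ d₃ c₄ f 1 = 0 := conc_lt (by norm_num) _ _
    have l2 : lab c₁ d₁ c₂ d₂ c₃ d₃ c₄ f 2 = st (f 0) 0 := by
      rw [← h0, ← e]
    have hodd' : ∀ t j, j % 2 = 1 → lab c₁ d₁ c₂ d₂ c₃ d₃ c₄ f t j = 0 := by
      intro t j hj
      rw [lab]
      unfold conc
      split_ifs
      · rfl
      · exact hodd _ j hj
    refine ⟨l0, fun t ht => ?_, hodd', ?_, ?_, ?_⟩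
    · simp only [diagram, List.length_cons] at ht
      obtain ⟨u, rfl⟩ : ∃ u, t = u + 2 := ⟨t - 2, by omega⟩
      rw [lab, conc_add]
      exact hlen u (by omega)
    · rw [l0, step_cup0 _ (hodd' 1)]
      exact l1
    · change RegionStep (.cup 1) (lab c₁ d₁ c₂ d₂ c₃ d₃ c₄ f 1) (lab c₁ d₁ c₂ d₂ c₃ d₃ c₄ f 2)
      rw [l1, l2, step_cup1 _ (fun j hj => st_odd _ _ j hj)]
      exact ⟨_, rfl⟩
    · change Chain RegionStep _ (fun t => lab c₁ d₁ c₂ d₂ c₃ d₃ c₄ f (t + 2))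
      rw [e]
      exact hch

theorem lab_eq_sum (f : Fin 4 → ℤ) : lab c₁ d₁ c₂ d₂ c₃ d₃ c₄ f =
    ∑ i, f i • lab c₁ d₁ c₂ d₂ c₃ d₃ c₄ (Pi.single i 1) := by
  have h := congrArg (labHom c₁ d₁ c₂ d₂ c₃ d₃ c₄) (pi_eq_sum_univ' f)
  rw [map_sum] at h
  simp only [map_smul] at h
  exact h

theorem goeritz_lab (f g : Fin 4 → ℤ) :
    goeritz (diagram c₁ d₁ c₂ d₂ c₃ d₃ c₄) (lab c₁ d₁ c₂ d₂ c₃ d₃ c₄ f)
      (lab c₁ d₁ c₂ d₂ c₃ d₃ c₄ g) =
      c₁ * (f 0 * g 0) + d₁ * ((f 0 - f 1) * (g 0 - g 1)) + (c₂ * (f 1 * g 1) +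
      d₂ * ((f 1 - f 2) * (g 1 - g 2)) + (c₃ * (f 2 * g 2) + d₃ * ((f 2 - f 3) * (g 2 - g 3)) +
      c₄ * (f 3 * g 3))) := by
  have e : ∀ f : Fin 4 → ℤ, (fun t => lab c₁ d₁ c₂ d₂ c₃ d₃ c₄ f (t + 2)) =
      lab₄ c₁ d₁ c₂ d₂ c₃ d₃ c₄ (f 0) (f 1) (f 2) (f 3) := by
    intro f
    funext t
    rw [lab, conc_add]
  rw [diagram, goeritz_cup, goeritz_cup]
  change goeritz (blk c₁ d₁ (blk c₂ d₂ (blk c₃ d₃ (fin c₄))))
    (fun t => lab c₁ d₁ c₂ d₂ c₃ d₃ c₄ f (t + 2)) (fun t => lab c₁ d₁ c₂ d₂ c₃ d₃ c₄ g (t + 2)) = _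
  rw [e, e, lab₄, lab₄, goeritz_blk, lab₃, lab₃, goeritz_blk, lab₂, lab₂, goeritz_blk, lab₁, lab₁,
    goeritz_fin]

theorem isGoeritzMatrix_diagram : IsGoeritzMatrix (diagram c₁ d₁ c₂ d₂ c₃ d₃ c₄)
    !![c₁ + d₁, -d₁, 0, 0; -d₁, d₁ + c₂ + d₂, -d₂, 0; 0, -d₂, d₂ + c₃ + d₃, -d₃;
      0, 0, -d₃, d₃ + c₄] := by
  refine ⟨fun i => lab c₁ d₁ c₂ d₂ c₃ d₃ c₄ (Pi.single i 1),
    fun i => (isWhiteLabelling_iff _ _ _ _ _ _ _ _).mpr ⟨_, rfl⟩, fun r hr => ?_, fun i j => ?_⟩
  · obtain ⟨f, rfl⟩ := (isWhiteLabelling_iff _ _ _ _ _ _ _ _).mp hr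
    refine ⟨f, fun t j => ?_, fun g hg => ?_⟩
    · have := congrFun (congrFun (lab_eq_sum c₁ d₁ c₂ d₂ c₃ d₃ c₄ f) t) j
      simpa using this
    · apply labHom_injective c₁ d₁ c₂ d₂ c₃ d₃ c₄
      change lab c₁ d₁ c₂ d₂ c₃ d₃ c₄ g = lab c₁ d₁ c₂ d₂ c₃ d₃ c₄ f
      funext t j
      rw [hg t j, lab_eq_sum]
      simp
  · rw [goeritz_lab]
    fin_cases i <;> fin_cases j <;> simp <;> ring

end lab

/-! ### orientations -/

def fn (l : List ℤ) : ℕ → ℤ := fun j => l.getD j 0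

theorem ostep_cross0 (e : ℤˣ) (a b : ℤ) (l : List ℤ) (s : ℕ → ℤ) :
    StrandStep (.cross 0 e) (fn (a :: b :: l)) s ↔ s = fn (b :: a :: l) := by
  constructor
  · rintro ⟨h1, h2, h3⟩
    funext j
    rcases j with _ | _ | j
    · exact h1
    · exact h2
    · rw [h3 (j + 2) (by omega) (by omega)]
      simp [fn]
  · rintro rfl
    refine ⟨rfl, rfl, fun j h1 h2 => ?_⟩
    rcases j with _ | _ | j
    · exact absurd rfl h1
    · exact absurd rfl h2
    · simp [fn]

theorem ostep_cross2 (e : ℤˣ) (x y a b : ℤ) (l : List ℤ) (s : ℕ → ℤ) :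
    StrandStep (.cross 2 e) (fn (x :: y :: a :: b :: l)) s ↔ s = fn (x :: y :: b :: a :: l) := by
  constructor
  · rintro ⟨h1, h2, h3⟩
    funext j
    rcases j with _ | _ | _ | _ | j
    · exact h3 0 (by omega) (by omega)
    · exact h3 1 (by omega) (by omega)
    · exact h1
    · exact h2
    · rw [h3 (j + 4) (by omega) (by omega)]
      simp [fn]
  · rintro rfl
    refine ⟨rfl, rfl, fun j h1 h2 => ?_⟩
    rcases j with _ | _ | _ | _ | j
    · rfl
    · rfl
    · exact absurd rfl h1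
    · exact absurd rfl h2
    · simp [fn]

theorem ostep_cup0 (s : ℕ → ℤ) :
    StrandStep (.cup 0) 0 s ↔ ∃ a, (a = 1 ∨ a = -1) ∧ s = fn [a, -a] := by
  constructor
  · rintro ⟨h1, h2, h3, h4⟩
    refine ⟨s 0, h3, ?_⟩
    funext j
    rcases j with _ | _ | j
    · rfl
    · exact h4
    · rw [h2 j (by omega)]
      simp [fn]
  · rintro ⟨a, ha, rfl⟩
    refine ⟨fun j hj => absurd hj (by omega), fun j hj => ?_, ha, rfl⟩
    simp [fn]

theorem ostep_cup1 (a b : ℤ) (s : ℕ → ℤ) :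
    StrandStep (.cup 1) (fn [a, b]) s ↔ ∃ t, (t = 1 ∨ t = -1) ∧ s = fn [a, t, -t, b] := by
  constructor
  · rintro ⟨h1, h2, h3, h4⟩
    refine ⟨s 1, h3, ?_⟩
    funext j
    rcases j with _ | _ | _ | _ | j
    · exact h1 0 (by omega)
    · rfl
    · exact h4
    · exact h2 1 (by omega)
    · rw [h2 (j + 2) (by omega)]
      simp [fn]
  · rintro ⟨t, ht, rfl⟩
    refine ⟨fun j hj => ?_, fun j hj => ?_, ht, rfl⟩
    · have : j = 0 := by omega
      subst this
      rfl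
    · obtain ⟨j, rfl⟩ : ∃ k, j = k + 1 := ⟨j - 1, by omega⟩
      rcases j with _ | j
      · rfl
      · simp [fn]

theorem ostep_cup3 (a b c d : ℤ) (s : ℕ → ℤ) :
    StrandStep (.cup 3) (fn [a, b, c, d]) s ↔
      ∃ t, (t = 1 ∨ t = -1) ∧ s = fn [a, b, c, t, -t, d] := by
  constructor
  · rintro ⟨h1, h2, h3, h4⟩
    refine ⟨s 3, h3, ?_⟩
    funext j
    rcases j with _ | _ | _ | _ | _ | _ | j
    · exact h1 0 (by omega)
    · exact h1 1 (by omega)
    · exact h1 2 (by omega)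
    · rfl
    · exact h4
    · exact h2 3 (by omega)
    · rw [h2 (j + 4) (by omega)]
      simp [fn]
  · rintro ⟨t, ht, rfl⟩
    refine ⟨fun j hj => ?_, fun j hj => ?_, ht, rfl⟩
    · have : j = 0 ∨ j = 1 ∨ j = 2 := by omega
      rcases this with rfl | rfl | rfl <;> rfl
    · obtain ⟨j, rfl⟩ : ∃ k, j = k + 3 := ⟨j - 3, by omega⟩
      rcases j with _ | j
      · rfl
      · simp [fn]

theorem ostep_cap1_six (a b c d e f : ℤ) (s : ℕ → ℤ) :
    StrandStep (.cap 1) (fn [a, b, c, d, e, f]) s ↔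
      (b = 1 ∨ b = -1) ∧ c = -b ∧ s = fn [a, d, e, f] := by
  constructor
  · rintro ⟨h1, h2, h3, h4⟩
    refine ⟨h3, h4, ?_⟩
    funext j
    rcases j with _ | _ | _ | _ | j
    · exact (h1 0 (by omega)).symm
    · exact (h2 1 (by omega)).symm
    · exact (h2 2 (by omega)).symm
    · exact (h2 3 (by omega)).symm
    · rw [← h2 (j + 4) (by omega)]
      simp [fn]
  · rintro ⟨hb, hc, rfl⟩
    refine ⟨fun j hj => ?_, fun j hj => ?_, hb, hc⟩
    · have : j = 0 := by omega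
      subst this
      rfl
    · obtain ⟨j, rfl⟩ : ∃ k, j = k + 1 := ⟨j - 1, by omega⟩
      rcases j with _ | _ | _ | j
      · rfl
      · rfl
      · rfl
      · simp [fn]

theorem ostep_cap1_four (a b c d : ℤ) (s : ℕ → ℤ) :
    StrandStep (.cap 1) (fn [a, b, c, d]) s ↔
      (b = 1 ∨ b = -1) ∧ c = -b ∧ s = fn [a, d] := by
  constructor
  · rintro ⟨h1, h2, h3, h4⟩
    refine ⟨h3, h4, ?_⟩
    funext j
    rcases j with _ | _ | j
    · exact (h1 0 (by omega)).symm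
    · exact (h2 1 (by omega)).symm
    · rw [← h2 (j + 2) (by omega)]
      simp [fn]
  · rintro ⟨hb, hc, rfl⟩
    refine ⟨fun j hj => ?_, fun j hj => ?_, hb, hc⟩
    · have : j = 0 := by omega
      subst this
      rfl
    · obtain ⟨j, rfl⟩ : ∃ k, j = k + 1 := ⟨j - 1, by omega⟩
      rcases j with _ | j
      · rfl
      · simp [fn]

theorem ostep_cap0 (a b : ℤ) (s : ℕ → ℤ) :
    StrandStep (.cap 0) (fn [a, b]) s ↔ (a = 1 ∨ a = -1) ∧ b = -a ∧ s = 0 := by
  constructor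
  · rintro ⟨h1, h2, h3, h4⟩
    refine ⟨h3, h4, ?_⟩
    funext j
    rw [← h2 j (by omega)]
    simp [fn]
  · rintro ⟨ha, hb, rfl⟩
    refine ⟨fun j hj => absurd hj (by omega), fun j hj => ?_, ha, hb⟩
    simp [fn]

def alt (n : ℕ) (s s' : ℕ → ℤ) (o : ℕ → ℕ → ℤ) : ℕ → ℕ → ℤ :=
  fun t => if t < n then (if t % 2 = 0 then s else s') else o (t - n)

theorem alt_lt {n t : ℕ} (h : t < n) (s s' : ℕ → ℤ) (o : ℕ → ℕ → ℤ) :
    alt n s s' o t = if t % 2 = 0 then s else s' := by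
  simp [alt, h]

theorem alt_add (n t : ℕ) (s s' : ℕ → ℤ) (o : ℕ → ℕ → ℤ) : alt n s s' o (t + n) = o t := by
  simp [alt]

theorem eq_alt {n : ℕ} {s s' : ℕ → ℤ} {o o' : ℕ → ℕ → ℤ}
    (h : ∀ t < n, o t = if t % 2 = 0 then s else s')
    (h' : ∀ t, o (t + n) = o' t) : o = alt n s s' o' := by
  funext t
  by_cases ht : t < n
  · rw [alt_lt ht, h t ht]
  · obtain ⟨u, rfl⟩ : ∃ u, t = u + n := ⟨t - n, by omega⟩
    rw [alt_add, h']

theorem chain_otwist (i : ℕ) (e : ℤˣ) (v : List Piece) (n : ℕ) :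
    ∀ (s s' : ℕ → ℤ), (∀ x, StrandStep (.cross i e) s x ↔ x = s') →
    (∀ x, StrandStep (.cross i e) s' x ↔ x = s) → ∀ o : ℕ → ℕ → ℤ, o 0 = s →
    (Chain StrandStep (List.replicate n (.cross i e) ++ v) o ↔
      (∀ t ≤ n, o t = if t % 2 = 0 then s else s') ∧
        Chain StrandStep v (fun t => o (t + n))) := by
  induction n with
  | zero =>
    intro s s' _ _ o h0
    simp [h0]
  | succ n ih =>
    intro s s' h h' o h0
    rw [List.replicate_succ, List.cons_append]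
    change (StrandStep (.cross i e) (o 0) (o 1) ∧ _) ↔ _
    rw [h0, h]
    constructor
    · rintro ⟨h1, h2⟩
      have h2' := (ih s' s h' h (fun t => o (t + 1)) h1).mp h2
      refine ⟨?_, h2'.2⟩
      intro t ht
      rcases t with _ | t
      · simpa using h0
      · have h3 : o (t + 1) = if t % 2 = 0 then s' else s := h2'.1 t (by omega)
        rw [h3]
        rcases Nat.mod_two_eq_zero_or_one t with ht2 | ht2
        · rw [if_pos ht2, if_neg (by omega)]
        · rw [if_neg (by omega), if_pos (by omega)]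
    · rintro ⟨h1, h2⟩
      have h3 : o 1 = s' := by simpa using h1 1 (by omega)
      refine ⟨h3, (ih s' s h' h (fun t => o (t + 1)) h3).mpr ⟨?_, h2⟩⟩
      intro t ht
      rw [h1 (t + 1) (by omega)]
      rcases Nat.mod_two_eq_zero_or_one t with ht2 | ht2
      · rw [if_neg (by omega), if_pos ht2]
      · rw [if_pos (by omega), if_neg (by omega)]

def OSol (v : List Piece) (l : List ℤ) (o : ℕ → ℕ → ℤ) : Prop :=
  o 0 = fn l ∧ (∀ t, v.length < t → o t = 0) ∧ Chain StrandStep v o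

theorem osol_fin (c : ℤ) (hc : c.natAbs % 2 = 1) (a b x y : ℤ) (o : ℕ → ℕ → ℤ) :
    OSol (fin c) [a, b, x, y] o ↔ (a = 1 ∨ a = -1) ∧ x = -a ∧ (b = 1 ∨ b = -1) ∧ y = -b ∧
      o = alt (c.natAbs + 1) (fn [a, b, x, y]) (fn [b, a, x, y]) (conc 1 (fn [b, y]) 0) := by
  have key : ∀ o : ℕ → ℕ → ℤ, o 0 = fn [a, b, x, y] → (Chain StrandStep (fin c) o ↔
      (∀ t ≤ c.natAbs, o t = if t % 2 = 0 then fn [a, b, x, y] else fn [b, a, x, y]) ∧
      (StrandStep (.cap 1) (o (0 + c.natAbs)) (o (1 + c.natAbs)) ∧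
      StrandStep (.cap 0) (o (1 + c.natAbs)) (o (1 + 1 + c.natAbs)) ∧ True)) := by
    intro o h0
    rw [fin, twist, chain_otwist 0 _ _ _ _ _ (fun z => ostep_cross0 _ _ _ _ z)
      (fun z => ostep_cross0 _ _ _ _ z) o h0]
    rfl
  constructor
  · rintro ⟨h0, hlen, hch⟩
    rw [key o h0] at hch
    obtain ⟨h1, h2, h3, _⟩ := hch
    rw [zero_add, h1 _ le_rfl, if_neg (by omega), ostep_cap1_four] at h2
    obtain ⟨ha, hx, h2⟩ := h2
    rw [h2, ostep_cap0] at h3
    obtain ⟨hb, hy, h3⟩ := h3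
    refine ⟨ha, hx, hb, hy, eq_alt (fun t ht => h1 t (by omega)) (fun t => ?_)⟩
    rcases t with _ | _ | t
    · have e : 0 + (c.natAbs + 1) = 1 + c.natAbs := by omega
      rw [e, h2, conc_lt (by omega)]
    · have e : 0 + 1 + (c.natAbs + 1) = 1 + 1 + c.natAbs := by omega
      rw [e, h3]
      rfl
    · rw [hlen]
      · rfl
      · simp [fin, twist_length]
        omega
  · rintro ⟨ha, hx, hb, hy, rfl⟩
    have e1 : alt (c.natAbs + 1) (fn [a, b, x, y]) (fn [b, a, x, y]) (conc 1 (fn [b, y]) 0)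
        (1 + c.natAbs) = fn [b, y] := by
      have e : 1 + c.natAbs = 0 + (c.natAbs + 1) := by omega
      rw [e, alt_add, conc_lt (by omega)]
    have e2 : alt (c.natAbs + 1) (fn [a, b, x, y]) (fn [b, a, x, y]) (conc 1 (fn [b, y]) 0)
        (1 + 1 + c.natAbs) = 0 := by
      have e : 1 + 1 + c.natAbs = 1 + (c.natAbs + 1) := by omega
      rw [e, alt_add]
      rfl
    refine ⟨by rw [alt_lt (by omega)]; rfl, fun t ht => ?_, ?_⟩
    · simp [fin, twist_length] at ht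
      obtain ⟨u, rfl⟩ : ∃ u, t = u + 1 + (c.natAbs + 1) := ⟨t - 1 - (c.natAbs + 1), by omega⟩
      rw [alt_add, conc_add]
      rfl
    · rw [key _ (by rw [alt_lt (by omega)]; rfl)]
      refine ⟨fun t ht => by rw [alt_lt (by omega)], ?_, ?_, trivial⟩
      · rw [e1, zero_add, alt_lt (by omega), if_neg (by omega), ostep_cap1_four]
        exact ⟨ha, hx, rfl⟩
      · rw [e1, e2, ostep_cap0]
        exact ⟨hb, hy, rfl⟩

theorem osol_blk (c d : ℤ) (hd : d.natAbs % 2 = 1) (a b x y p q : ℤ)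
    (hpq : (if c.natAbs % 2 = 0 then fn [a, b, x, y] else fn [b, a, x, y]) = fn [p, q, x, y])
    (v : List Piece) (o : ℕ → ℕ → ℤ) :
    OSol (blk c d v) [a, b, x, y] o ↔ (q = 1 ∨ q = -1) ∧ ∃ o', OSol v [p, x, q, y] o' ∧
      o = alt (c.natAbs + 1) (fn [a, b, x, y]) (fn [b, a, x, y])
        (alt (d.natAbs + 1) (fn [p, q, x, -q, q, y]) (fn [p, q, -q, x, q, y]) o') := by
  have key : ∀ o : ℕ → ℕ → ℤ, o 0 = fn [a, b, x, y] → (Chain StrandStep (blk c d v) o ↔
      (∀ t ≤ c.natAbs, o t = if t % 2 = 0 then fn [a, b, x, y] else fn [b, a, x, y]) ∧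
      (StrandStep (.cup 3) (o (0 + c.natAbs)) (o (1 + c.natAbs)) ∧
      Chain StrandStep (twist 2 d ++ .cap 1 :: v) (fun t => o (t + 1 + c.natAbs)))) := by
    intro o h0
    rw [blk, twist, chain_otwist 0 _ _ _ _ _ (fun z => ostep_cross0 _ _ _ _ z)
      (fun z => ostep_cross0 _ _ _ _ z) o h0]
    rfl
  have key2 : ∀ (o : ℕ → ℕ → ℤ) (u : ℤ), o (1 + c.natAbs) = fn [p, q, x, u, -u, y] →
      (Chain StrandStep (twist 2 d ++ .cap 1 :: v) (fun t => o (t + 1 + c.natAbs)) ↔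
      (∀ t ≤ d.natAbs, o (t + 1 + c.natAbs) = if t % 2 = 0 then fn [p, q, x, u, -u, y] else
        fn [p, q, u, x, -u, y]) ∧
      (StrandStep (.cap 1) (o (0 + d.natAbs + 1 + c.natAbs)) (o (1 + d.natAbs + 1 + c.natAbs)) ∧
      Chain StrandStep v (fun t => o (t + 1 + d.natAbs + 1 + c.natAbs)))) := by
    intro o u h1
    rw [twist, chain_otwist 2 _ _ _ _ _ (fun z => ostep_cross2 _ _ _ _ _ _ z)
      (fun z => ostep_cross2 _ _ _ _ _ _ z) (fun t => o (t + 1 + c.natAbs))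
      (by simpa using h1)]
    rfl
  constructor
  · rintro ⟨h0, hlen, hch⟩
    rw [key o h0] at hch
    obtain ⟨h1, h2, h3⟩ := hch
    rw [zero_add, h1 _ le_rfl, hpq, ostep_cup3] at h2
    obtain ⟨u, hu, h2⟩ := h2
    rw [key2 o u h2] at h3
    obtain ⟨h3, h4, h5⟩ := h3
    rw [zero_add, h3 _ le_rfl, if_neg (by omega), ostep_cap1_six] at h4
    obtain ⟨hq, hu', h4⟩ := h4
    subst hu'
    rw [neg_neg] at h3 h4
    refine ⟨hq, fun t => o (t + 1 + d.natAbs + 1 + c.natAbs), ⟨?_, ?_, h5⟩, ?_⟩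
    · rw [← h4]
    · intro t ht
      apply hlen
      simp [blk, twist_length]
      omega
    · refine eq_alt (fun t ht => h1 t (by omega)) (fun t => ?_)
      by_cases ht : t < d.natAbs + 1
      · rw [alt_lt ht, ← h3 t (by omega)]
        congr 1
        omega
      · obtain ⟨w, rfl⟩ : ∃ w, t = w + (d.natAbs + 1) := ⟨t - (d.natAbs + 1), by omega⟩
        rw [alt_add]
        congr 1
        omega
  · rintro ⟨hq, o', ⟨h0, hlen, hch⟩, ho⟩
    have r1 : ∀ t ≤ c.natAbs, o t = if t % 2 = 0 then fn [a, b, x, y] else fn [b, a, x, y] := by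
      intro t ht
      rw [ho, alt_lt (by omega)]
    have r2 : ∀ t ≤ d.natAbs, o (t + 1 + c.natAbs) = if t % 2 = 0 then
        fn [p, q, x, -q, - -q, y] else fn [p, q, -q, x, - -q, y] := by
      intro t ht
      have e : t + 1 + c.natAbs = t + (c.natAbs + 1) := by omega
      rw [e, ho, alt_add, alt_lt (by omega), neg_neg]
    have r3 : ∀ t, o (t + 1 + d.natAbs + 1 + c.natAbs) = o' t := by
      intro t
      have e : t + 1 + d.natAbs + 1 + c.natAbs = t + (d.natAbs + 1) + (c.natAbs + 1) := by omega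
      rw [e, ho, alt_add, alt_add]
    have r20 : o (1 + c.natAbs) = fn [p, q, x, -q, - -q, y] := by
      simpa using r2 0 (by omega)
    have h00 : o 0 = fn [a, b, x, y] := by simpa using r1 0 (by omega)
    refine ⟨h00, fun t ht => ?_, ?_⟩
    · simp [blk, twist_length] at ht
      obtain ⟨u, rfl⟩ : ∃ u, t = u + 1 + d.natAbs + 1 + c.natAbs :=
        ⟨t - (1 + d.natAbs + 1 + c.natAbs), by omega⟩
      rw [r3]
      exact hlen u (by omega)
    · rw [key o h00]
      refine ⟨r1, ?_, ?_⟩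
      · rw [zero_add, r1 _ le_rfl, hpq, ostep_cup3]
        refine ⟨-q, by omega, r20⟩
      · rw [key2 o (-q) r20]
        refine ⟨r2, ?_, ?_⟩
        · rw [zero_add, r2 _ le_rfl, if_neg (by omega), ostep_cap1_six, neg_neg]
          refine ⟨hq, rfl, ?_⟩
          have := r3 0
          rw [h0] at this
          simpa using this
        · have : (fun t => o (t + 1 + d.natAbs + 1 + c.natAbs)) = o' := funext r3
          rw [this]
          exact hch

section orient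

variable (c₁ d₁ c₂ d₂ c₃ d₃ c₄ : ℤ)

def ori₁ (s : ℤ) : ℕ → ℕ → ℤ :=
  alt (c₄.natAbs + 1) (fn [-s, s, s, -s]) (fn [s, -s, s, -s]) (conc 1 (fn [s, -s]) 0)

def ori₂ (s : ℤ) : ℕ → ℕ → ℤ :=
  alt (c₃.natAbs + 1) (fn [-s, s, -s, s]) (fn [s, -s, -s, s]) (ori₁ c₄ s)

def ori₄ (s : ℤ) : ℕ → ℕ → ℤ :=
  alt (c₁.natAbs + 1) (fn [s, -s, s, -s]) (fn [-s, s, s, -s])
    (alt (d₁.natAbs + 1) (fn [-s, s, s, -s, s, -s]) (fn [-s, s, -s, s, s, -s])
      (alt (c₂.natAbs + 1) (fn [-s, s, s, -s]) (fn [s, -s, s, -s])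
        (alt (d₂.natAbs + 1) (fn [-s, s, s, -s, s, -s]) (fn [-s, s, -s, s, s, -s])
          (alt (c₃.natAbs + 1) (fn [-s, s, s, -s]) (fn [s, -s, s, -s])
            (alt (d₃.natAbs + 1) (fn [-s, s, s, -s, s, -s]) (fn [-s, s, -s, s, s, -s])
              (ori₁ c₄ s))))))

def ori (s : ℤ) : ℕ → ℕ → ℤ :=
  conc 1 0 (conc 1 (fn [s, -s]) (ori₄ c₁ d₁ c₂ d₂ c₃ d₃ c₄ s))

variable (hc₁ : c₁.natAbs % 2 = 1) (hd₁ : d₁.natAbs % 2 = 1) (hc₂ : c₂.natAbs % 2 = 0)
  (hd₂ : d₂.natAbs % 2 = 1) (hc₃ : c₃.natAbs % 2 = 0) (hd₃ : d₃.natAbs % 2 = 1)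
  (hc₄ : c₄.natAbs % 2 = 1)

include hc₁ hd₁ hc₂ hd₂ hc₃ hd₃ hc₄ in
theorem osol_main (s t : ℤ) (hs : s = 1 ∨ s = -1) (ht : t = 1 ∨ t = -1) (o : ℕ → ℕ → ℤ) :
    OSol (blk c₁ d₁ (blk c₂ d₂ (blk c₃ d₃ (fin c₄)))) [s, t, -t, -s] o ↔
      t = -s ∧ o = ori₄ c₁ d₁ c₂ d₂ c₃ d₃ c₄ s := by
  have e1 := fun o => osol_blk c₁ d₁ hd₁ s t (-t) (-s) t s (by rw [if_neg (by omega)])
    (blk c₂ d₂ (blk c₃ d₃ (fin c₄))) o
  have e2 := fun o => osol_blk c₂ d₂ hd₂ t (-t) s (-s) t (-t) (by rw [if_pos hc₂])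
    (blk c₃ d₃ (fin c₄)) o
  have e3 := fun o => osol_blk c₃ d₃ hd₃ t s (-t) (-s) t s (by rw [if_pos hc₃]) (fin c₄) o
  have e4 := fun o => osol_fin c₄ hc₄ t (-t) s (-s) o
  constructor
  · intro h
    obtain ⟨_, o1, h1, rfl⟩ := (e1 o).mp h
    obtain ⟨_, o2, h2, rfl⟩ := (e2 o1).mp h1
    obtain ⟨_, o3, h3, rfl⟩ := (e3 o2).mp h2
    obtain ⟨_, h4, _, _, rfl⟩ := (e4 o3).mp h3
    have ht' : t = -s := by omega
    subst ht'
    refine ⟨rfl, ?_⟩
    simp only [neg_neg]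
    rfl
  · rintro ⟨rfl, rfl⟩
    refine (e1 _).mpr ⟨hs, _, (e2 _).mpr ⟨by omega, _, (e3 _).mpr ⟨hs, _, (e4 _).mpr
      ⟨ht, by omega, by omega, by omega, rfl⟩, rfl⟩, rfl⟩, ?_⟩
    simp only [neg_neg]
    rfl

include hc₁ hd₁ hc₂ hd₂ hc₃ hd₃ hc₄ in
theorem isOrientation_iff (o : ℕ → ℕ → ℤ) :
    IsOrientation (diagram c₁ d₁ c₂ d₂ c₃ d₃ c₄) o ↔
      ∃ s, (s = 1 ∨ s = -1) ∧ o = ori c₁ d₁ c₂ d₂ c₃ d₃ c₄ s := by
  rw [IsOrientation, chain_iff]
  constructor
  · rintro ⟨h0, hlen, h1, h2, h3⟩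
    rw [h0, ostep_cup0] at h1
    obtain ⟨s, hs, h1⟩ := h1
    have h2' : StrandStep (.cup 1) (o 1) (o 2) := h2
    rw [h1, ostep_cup1] at h2'
    obtain ⟨t, ht, h2'⟩ := h2'
    have hsol : OSol (blk c₁ d₁ (blk c₂ d₂ (blk c₃ d₃ (fin c₄)))) [s, t, -t, -s]
        (fun t => o (t + 2)) := by
      refine ⟨h2', fun t ht => hlen _ ?_, h3⟩
      simp only [diagram, List.length_cons]
      omega
    rw [osol_main c₁ d₁ c₂ d₂ c₃ d₃ c₄ hc₁ hd₁ hc₂ hd₂ hc₃ hd₃ hc₄ s t hs ht] at hsol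
    obtain ⟨_, hsol⟩ := hsol
    refine ⟨s, hs, eq_conc (fun t ht => ?_) (fun t => ?_)⟩
    · have : t = 0 := by omega
      subst this
      exact h0
    · rcases t with _ | t
      · rw [conc_lt (by omega)]
        exact h1
      · rw [conc_add]
        exact congrFun hsol t
  · rintro ⟨s, hs, rfl⟩
    have hsol := (osol_main c₁ d₁ c₂ d₂ c₃ d₃ c₄ hc₁ hd₁ hc₂ hd₂ hc₃ hd₃ hc₄ s (-s) hs
      (by omega) _).mpr ⟨rfl, rfl⟩
    obtain ⟨h0, hlen, hch⟩ := hsol
    refine ⟨rfl, fun t ht => ?_, ?_, ?_, hch⟩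
    · simp only [diagram, List.length_cons] at ht
      obtain ⟨u, rfl⟩ : ∃ u, t = u + 1 + 1 := ⟨t - 2, by omega⟩
      rw [ori, conc_add, conc_add]
      exact hlen u (by omega)
    · exact (ostep_cup0 _).mpr ⟨s, hs, rfl⟩
    · exact (ostep_cup1 _ _ _).mpr ⟨-s, by omega, h0⟩

include hc₁ hd₁ hc₂ hd₂ hc₃ hd₃ hc₄ in
theorem isKnot_diagram : IsKnot (diagram c₁ d₁ c₂ d₂ c₃ d₃ c₄) := by
  refine ⟨admissible_diagram _ _ _ _ _ _ _, ?_⟩
  have : {o | IsOrientation (diagram c₁ d₁ c₂ d₂ c₃ d₃ c₄) o} =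
      {ori c₁ d₁ c₂ d₂ c₃ d₃ c₄ 1, ori c₁ d₁ c₂ d₂ c₃ d₃ c₄ (-1)} := by
    ext o
    simp only [Set.mem_ofPred_eq, Set.mem_insert_iff, Set.mem_singleton_iff]
    rw [isOrientation_iff c₁ d₁ c₂ d₂ c₃ d₃ c₄ hc₁ hd₁ hc₂ hd₂ hc₃ hd₃ hc₄]
    constructor
    · rintro ⟨s, rfl | rfl, rfl⟩
      · exact Or.inl rfl
      · exact Or.inr rfl
    · rintro (rfl | rfl)
      · exact ⟨1, Or.inl rfl, rfl⟩
      · exact ⟨-1, Or.inr rfl, rfl⟩
  rw [this, Set.ncard_pair]
  intro h
  have := congrFun (congrFun h 1) 0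
  simp [ori, conc, fn] at this

end orient

/-! ### all crossings are of type I -/

/-- Recursive form of `∀ t : Fin w.length, typeTwo (w.get t) (o t) = 0`. -/
def AllTypeOne : List Piece → (ℕ → ℕ → ℤ) → Prop
  | [], _ => True
  | p :: w, o => typeTwo p (o 0) = 0 ∧ AllTypeOne w (fun t => o (t + 1))

theorem allTypeOne_iff (w : List Piece) :
    ∀ o : ℕ → ℕ → ℤ, (∀ t : Fin w.length, typeTwo (w.get t) (o t) = 0) ↔ AllTypeOne w o := by
  induction w with
  | nil => intro r; exact ⟨fun _ => trivial, fun _ t => absurd t.2 (by simp)⟩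
  | cons p w ih =>
    intro r
    change _ ↔ typeTwo p (r 0) = 0 ∧ AllTypeOne w (fun t => r (t + 1))
    rw [← ih]
    constructor
    · intro h
      refine ⟨h ⟨0, by simp⟩, fun t => h ⟨t + 1, by simp⟩⟩
    · rintro ⟨h0, h⟩ ⟨t, ht⟩
      rcases t with _ | t
      · exact h0
      · exact h ⟨t, by simpa using ht⟩

theorem typeOne_twist (i : ℕ) (hi : i % 2 = 0) (e : ℤˣ) (v : List Piece) (n : ℕ) :
    ∀ o : ℕ → ℕ → ℤ, (∀ t < n, o t i ≠ o t (i + 1)) → AllTypeOne v (fun t => o (t + n)) →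
    AllTypeOne (List.replicate n (.cross i e) ++ v) o := by
  induction n with
  | zero =>
    intro o _ h
    simpa using h
  | succ n ih =>
    intro o ho h
    rw [List.replicate_succ, List.cons_append]
    refine ⟨?_, ih _ (fun t ht => ho (t + 1) (by omega)) h⟩
    simp only [typeTwo, hi, if_true]
    rw [if_neg (ho 0 (by omega))]

theorem typeOne_fin (c : ℤ) (s s' : ℕ → ℤ) (o : ℕ → ℕ → ℤ) (h : s 0 ≠ s 1) (h' : s' 0 ≠ s' 1) :
    AllTypeOne (fin c) (alt (c.natAbs + 1) s s' o) := by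
  rw [fin, twist]
  refine typeOne_twist 0 rfl _ _ _ _ ?_ ⟨rfl, rfl, trivial⟩
  intro t ht
  rw [alt_lt (by omega)]
  split_ifs
  · exact h
  · exact h'

theorem typeOne_blk (c d : ℤ) (v : List Piece) (s s' u u' : ℕ → ℤ) (o : ℕ → ℕ → ℤ)
    (h : s 0 ≠ s 1) (h' : s' 0 ≠ s' 1) (g : u 2 ≠ u 3) (g' : u' 2 ≠ u' 3) (hv : AllTypeOne v o) :
    AllTypeOne (blk c d v) (alt (c.natAbs + 1) s s' (alt (d.natAbs + 1) u u' o)) := by
  rw [blk, twist]
  refine typeOne_twist 0 rfl _ _ _ _ ?_ ⟨rfl, ?_⟩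
  · intro t ht
    rw [alt_lt (by omega)]
    split_ifs
    · exact h
    · exact h'
  · have e : (fun t => alt (c.natAbs + 1) s s' (alt (d.natAbs + 1) u u' o) (t + 1 + c.natAbs)) =
        alt (d.natAbs + 1) u u' o := by
      funext t
      have : t + 1 + c.natAbs = t + (c.natAbs + 1) := by omega
      rw [this, alt_add]
    change AllTypeOne _ (fun t => alt (c.natAbs + 1) s s' (alt (d.natAbs + 1) u u' o)
      (t + 1 + c.natAbs))
    rw [e, twist]
    refine typeOne_twist 2 rfl _ _ _ _ ?_ ⟨rfl, ?_⟩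
    · intro t ht
      rw [alt_lt (by omega)]
      split_ifs
      · exact g
      · exact g'
    · have e' : (fun t => alt (d.natAbs + 1) u u' o (t + 1 + d.natAbs)) = o := by
        funext t
        have : t + 1 + d.natAbs = t + (d.natAbs + 1) := by omega
        rw [this, alt_add]
      change AllTypeOne _ (fun t => alt (d.natAbs + 1) u u' o (t + 1 + d.natAbs))
      rw [e']
      exact hv

theorem typeOne_diagram (c₁ d₁ c₂ d₂ c₃ d₃ c₄ : ℤ)
    (t : Fin (diagram c₁ d₁ c₂ d₂ c₃ d₃ c₄).length) :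
    typeTwo ((diagram c₁ d₁ c₂ d₂ c₃ d₃ c₄).get t) (ori c₁ d₁ c₂ d₂ c₃ d₃ c₄ 1 t) = 0 := by
  revert t
  rw [allTypeOne_iff]
  refine ⟨rfl, rfl, ?_⟩
  have e : (fun t => ori c₁ d₁ c₂ d₂ c₃ d₃ c₄ 1 (t + 1 + 1)) =
      ori₄ c₁ d₁ c₂ d₂ c₃ d₃ c₄ 1 := by
    funext t
    rw [ori, conc_add, conc_add]
  change AllTypeOne _ (fun t => ori c₁ d₁ c₂ d₂ c₃ d₃ c₄ 1 (t + 1 + 1))
  rw [e, ori₄]
  refine typeOne_blk _ _ _ _ _ _ _ _ ?_ ?_ ?_ ?_ (typeOne_blk _ _ _ _ _ _ _ _ ?_ ?_ ?_ ?_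
    (typeOne_blk _ _ _ _ _ _ _ _ ?_ ?_ ?_ ?_ (typeOne_fin _ _ _ _ ?_ ?_)))
  all_goals simp [fn]

theorem correction_eq_zero (w : List Piece) (o : ℕ → ℕ → ℤ)
    (h : ∀ t : Fin w.length, typeTwo (w.get t) (o t) = 0) : correction w o = 0 :=
  Finset.sum_eq_zero fun t _ => h t

theorem correction_diagram (c₁ d₁ c₂ d₂ c₃ d₃ c₄ : ℤ) :
    correction (diagram c₁ d₁ c₂ d₂ c₃ d₃ c₄) (ori c₁ d₁ c₂ d₂ c₃ d₃ c₄ 1) = 0 :=
  correction_eq_zero _ _ (typeOne_diagram _ _ _ _ _ _ _)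

/-! ### number theory -/

theorem exists_aux (p : ℕ) (hp : p.Prime) (hp4 : p % 4 = 1) :
    ∃ q : ℕ, q.Prime ∧ q % 4 = 3 ∧ ∃ g : ℕ, g % 2 = 1 ∧ q ∣ p + g ^ 2 := by
  have : Fact p.Prime := ⟨hp⟩
  have hp2 : p ≠ 2 := by rintro rfl; simp at hp4
  obtain ⟨u, hu⟩ : ∃ u : ZMod p, ¬ IsSquare u := by
    apply FiniteField.exists_nonsquare
    rw [ZMod.ringChar_zmod_n]
    exact hp2
  have hcop : Nat.Coprime 4 p := by
    rw [Nat.coprime_comm]
    have : Nat.Coprime p (2 ^ 2) := Nat.Coprime.pow_right 2 ((Nat.coprime_primes hp Nat.prime_two).mpr hp2)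
    simpa using this
  obtain ⟨m, hm4, hmp⟩ := Nat.chineseRemainder hcop 3 u.val
  have hmu : (m : ZMod p) = u := by
    have : (m : ZMod p) = ((u.val : ℕ) : ZMod p) := (ZMod.natCast_eq_natCast_iff _ _ _).mpr hmp
    rw [this, ZMod.natCast_zmod_val]
  have hm4' : m % 4 = 3 := hm4
  have hmcop : m.Coprime (4 * p) := by
    apply Nat.Coprime.mul_right
    · have h2 : Nat.Coprime m (2 ^ 2) := by
        apply Nat.Coprime.pow_right
        rw [Nat.coprime_two_right, Nat.odd_iff]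
        omega
      simpa using h2
    · rw [Nat.coprime_comm, hp.coprime_iff_not_dvd]
      intro hdvd
      apply hu
      rw [← hmu, (ZMod.natCast_eq_zero_iff m p).mpr hdvd]
      exact IsSquare.zero
  obtain ⟨q, hqgt, hq, hqm⟩ := Nat.forall_exists_prime_gt_and_modEq p (q := 4 * p) (a := m)
    (by have := hp.pos; omega) hmcop
  have hq4 : q % 4 = 3 := by
    have : q ≡ m [MOD 4] := hqm.of_dvd (Dvd.intro _ rfl)
    rw [this]
    exact hm4'
  have hqu : (q : ZMod p) = u := by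
    rw [← hmu]
    exact (ZMod.natCast_eq_natCast_iff _ _ _).mpr (hqm.of_dvd (Dvd.intro_left _ rfl))
  have : Fact q.Prime := ⟨hq⟩
  have hq2 : q ≠ 2 := by rintro rfl; simp at hq4
  have hns : ¬ IsSquare (p : ZMod q) := by
    rw [← ZMod.exists_sq_eq_prime_iff_of_mod_four_eq_one hp4 hq2, hqu]
    exact hu
  have hns1 : ¬ IsSquare (-1 : ZMod q) := by
    rw [ZMod.exists_sq_eq_neg_one_iff]
    omega
  have hsq : IsSquare (-(p : ZMod q)) := by
    have h0 : (p : ZMod q) ≠ 0 := by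
      intro h
      apply hns
      rw [h]
      exact IsSquare.zero
    have hchar : ringChar (ZMod q) ≠ 2 := by rw [ZMod.ringChar_zmod_n]; exact hq2
    have h1 : quadraticChar (ZMod q) (p : ZMod q) = -1 :=
      (quadraticChar_neg_one_iff_not_isSquare).mpr hns
    have h2 : quadraticChar (ZMod q) (-1) = -1 :=
      (quadraticChar_neg_one_iff_not_isSquare).mpr hns1
    have h3 : quadraticChar (ZMod q) (-(p : ZMod q)) = 1 := by
      rw [neg_eq_neg_one_mul, map_mul, h1, h2]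
      norm_num
    exact (quadraticChar_one_iff_isSquare (neg_ne_zero.mpr h0)).mp h3
  obtain ⟨r, hr⟩ := hsq
  have key : ∀ g : ℕ, (g : ZMod q) = r ∨ (g : ZMod q) = -r → q ∣ p + g ^ 2 := by
    intro g hg
    rw [← ZMod.natCast_eq_zero_iff]
    push_cast
    have : (g : ZMod q) ^ 2 = r * r := by
      rcases hg with hg | hg <;> rw [hg] <;> ring
    rw [this, ← hr]
    ring
  refine ⟨q, hq, hq4, ?_⟩
  have hrval : ((r.val : ℕ) : ZMod q) = r := ZMod.natCast_zmod_val r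
  rcases Nat.even_or_odd r.val with he | ho
  · refine ⟨r.val + q, ?_, key _ (Or.inl ?_)⟩
    · have := Nat.even_iff.mp he
      omega
    · push_cast
      rw [hrval]
      simp
  · exact ⟨r.val, Nat.odd_iff.mp ho, key _ (Or.inl hrval)⟩

theorem exists_params (n : ℕ) (hn : n % 4 = 1) (h5 : 5 ≤ n) :
    ∃ a x z g y : ℤ, 1 ≤ a ∧ Odd g ∧ Odd y ∧ 0 < (4 * a - 1) * x - g ^ 2 ∧
      (n : ℤ) = 4 * z * ((4 * a - 1) * x - g ^ 2) - (4 * a - 1) * y ^ 2 := by
  by_cases h : ∃ d, d ∣ n ∧ d % 4 = 3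
  · obtain ⟨d, ⟨e, rfl⟩, hd⟩ := h
    have he : e % 4 = 3 := by
      have h1 : d * e % 4 = (d % 4) * (e % 4) % 4 := Nat.mul_mod _ _ _
      rw [hn, hd] at h1
      have : e % 4 < 4 := Nat.mod_lt _ (by norm_num)
      have h3 : e % 4 = 0 ∨ e % 4 = 1 ∨ e % 4 = 2 ∨ e % 4 = 3 := by omega
      rcases h3 with h3 | h3 | h3 | h3 <;> rw [h3] at h1 <;> omega
    obtain ⟨d', rfl⟩ : ∃ d', d = 4 * d' + 3 := ⟨d / 4, by omega⟩
    obtain ⟨e', rfl⟩ : ∃ e', e = 4 * e' + 3 := ⟨e / 4, by omega⟩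
    refine ⟨d' + 1, (e' + 1) + (4 * d' + 3), 1, 4 * d' + 3, 1, ?_, ?_, ?_, ?_, ?_⟩
    · omega
    · exact ⟨2 * d' + 1, by ring⟩
    · exact odd_one
    · have : (4 * ((d' : ℤ) + 1) - 1) * ((e' + 1) + (4 * d' + 3)) - (4 * d' + 3) ^ 2
        = (4 * d' + 3) * (e' + 1) := by ring
      rw [this]
      positivity
    · push_cast
      ring
  · push Not at h
    obtain ⟨p, hp, hpn⟩ := Nat.exists_prime_and_dvd (n := n) (by omega)
    have hp4 : p % 4 = 1 := by
      have h1 := h p hpn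
      have h2 : p % 2 = 1 := by
        rcases hp.eq_two_or_odd with h2 | h2
        · subst h2
          omega
        · exact h2
      omega
    obtain ⟨m, rfl⟩ := hpn
    have hm4 : m % 4 = 1 := by
      have h1 : p * m % 4 = (p % 4) * (m % 4) % 4 := Nat.mul_mod _ _ _
      rw [hn, hp4] at h1
      omega
    obtain ⟨q, hq, hq4, g, hg, x, hx⟩ := exists_aux p hp hp4
    obtain ⟨p', rfl⟩ : ∃ p', p = 4 * p' + 1 := ⟨p / 4, by omega⟩
    obtain ⟨m', rfl⟩ : ∃ m', m = 4 * m' + 1 := ⟨m / 4, by omega⟩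
    obtain ⟨q', rfl⟩ : ∃ q', q = 4 * q' + 3 := ⟨q / 4, by omega⟩
    have hx' : ((4 * ((q' : ℤ) + 1) - 1) * x - g ^ 2) = 4 * p' + 1 := by
      have := congrArg (Nat.cast : ℕ → ℤ) hx
      push_cast at this
      linear_combination -this
    refine ⟨q' + 1, x, m' + (4 * q' + 3) * p' + (q' + 1), g, 4 * p' + 1, ?_, ?_, ?_, ?_, ?_⟩
    · omega
    · exact (Int.odd_iff.mpr (by omega))
    · exact ⟨2 * p', by ring⟩
    · rw [hx']; positivity
    · rw [hx']
      push_cast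
      ring

/-! ### signatures -/

theorem sig_of_posDef {m : ℕ} (Q : QuadraticForm ℝ (Fin m → ℝ)) (hQ : Q.PosDef) :
    sigPos Q = m ∧ sigNeg Q = 0 := by
  have h1 : m ≤ sigPos Q := by
    have := le_sigPos_of_posDef Q (V := ⊤) (by
      intro x hx
      rw [QuadraticMap.restrict_apply]
      exact hQ _ (by simpa using hx))
    simpa using this
  have h2 : sigPos Q ≤ m := by
    have := sigPos_le_finrank Q
    simpa using this
  have h3 := QuadraticForm.sigPos_add_sigNeg_add_radical (Q := Q)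
  rw [Module.finrank_fin_fun] at h3
  omega

theorem toQuadraticForm'_apply {m : ℕ} (A : Matrix (Fin m) (Fin m) ℝ) (x : Fin m → ℝ) :
    A.toQuadraticForm' x = ∑ i, ∑ j, x i * A i j * x j := by
  simp [Matrix.toQuadraticForm', Matrix.toLinearMap₂'_apply]
  refine Finset.sum_congr rfl fun i _ => Finset.sum_congr rfl fun j _ => ?_
  ring

theorem signature_four (a x z g y n : ℤ) (ha : 1 ≤ a) (hv : 0 < (4 * a - 1) * x - g ^ 2)
    (hn : n = 4 * z * ((4 * a - 1) * x - g ^ 2) - (4 * a - 1) * y ^ 2) (hn0 : 0 < n)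
    (A : Matrix (Fin 4) (Fin 4) ℤ)
    (hA : A = !![2, -1, 0, 0; -1, 2 * a, -g, 0; 0, -g, 2 * x, -y; 0, 0, -y, 2 * z]) :
    matrixSignature A = 4 := by
  have hpos : ((A.map (Int.cast : ℤ → ℝ)).toQuadraticForm').PosDef := by
    intro f hf
    rw [toQuadraticForm'_apply, hA]
    simp only [Fin.sum_univ_four, Matrix.map_apply]
    simp
    set q : ℝ := 4 * a - 1 with hq
    set v : ℝ := q * x - g ^ 2 with hvdef
    have hq0 : 0 < q := by
      have : (1 : ℝ) ≤ a := by exact_mod_cast ha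
      rw [hq]; linarith
    have hv0 : 0 < v := by
      have : (0 : ℝ) < (((4 * a - 1) * x - g ^ 2 : ℤ) : ℝ) := by exact_mod_cast hv
      push_cast at this
      rw [hvdef, hq]; exact this
    have hnR : (n : ℝ) = 4 * z * v - q * y ^ 2 := by
      rw [hn]; push_cast; rw [hvdef, hq]
    have hn0R : (0 : ℝ) < n := by exact_mod_cast hn0
    have key : q * v * (2 * f 0 - f 1) ^ 2 + v * (q * f 1 - 2 * g * f 2) ^ 2
        + (2 * v * f 2 - q * y * f 3) ^ 2 + q * n * f 3 ^ 2 =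
      2 * q * v * (f 0 * 2 * f 0 + -(f 0 * f 1) + (-(f 1 * f 0) + f 1 * (2 * ↑a) * f 1 +
        -(f 1 * ↑g * f 2)) + (-(f 2 * ↑g * f 1) + f 2 * (2 * ↑x) * f 2 + -(f 2 * ↑y * f 3)) +
        (-(f 3 * ↑y * f 2) + f 3 * (2 * ↑z) * f 3)) := by
      rw [hnR, hvdef, hq]; ring
    have hqv : 0 < 2 * q * v := by positivity
    by_contra hcon
    push Not at hcon
    have h1 : q * v * (2 * f 0 - f 1) ^ 2 + v * (q * f 1 - 2 * g * f 2) ^ 2
        + (2 * v * f 2 - q * y * f 3) ^ 2 + q * n * f 3 ^ 2 ≤ 0 := by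
      rw [key]
      exact mul_nonpos_of_nonneg_of_nonpos hqv.le hcon
    have e1 : 0 ≤ q * v * (2 * f 0 - f 1) ^ 2 := by positivity
    have e2 : 0 ≤ v * (q * f 1 - 2 * g * f 2) ^ 2 := by positivity
    have e3 : 0 ≤ (2 * v * f 2 - q * y * f 3) ^ 2 := by positivity
    have e4 : 0 ≤ q * n * f 3 ^ 2 := by positivity
    have z4 : q * n * f 3 ^ 2 = 0 := by linarith
    have z3 : (2 * v * f 2 - q * y * f 3) ^ 2 = 0 := by linarith
    have z2 : v * (q * f 1 - 2 * g * f 2) ^ 2 = 0 := by linarith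
    have z1 : q * v * (2 * f 0 - f 1) ^ 2 = 0 := by linarith
    have f3 : f 3 = 0 := by
      have : f 3 ^ 2 = 0 := by
        rcases mul_eq_zero.mp z4 with h | h
        · exact absurd h (by positivity)
        · exact h
      exact pow_eq_zero_iff (two_ne_zero) |>.mp this
    have f2 : f 2 = 0 := by
      have := pow_eq_zero_iff (two_ne_zero) |>.mp z3
      rw [f3] at this
      have h' : 2 * v * f 2 = 0 := by linarith
      rcases mul_eq_zero.mp h' with h | h
      · exact absurd h (by positivity)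
      · exact h
    have f1 : f 1 = 0 := by
      have h' : (q * f 1 - 2 * g * f 2) ^ 2 = 0 := by
        rcases mul_eq_zero.mp z2 with h | h
        · exact absurd h (by positivity)
        · exact h
      have := pow_eq_zero_iff (two_ne_zero) |>.mp h'
      rw [f2] at this
      have h'' : q * f 1 = 0 := by linarith
      rcases mul_eq_zero.mp h'' with h | h
      · exact absurd h (by positivity)
      · exact h
    have f0 : f 0 = 0 := by
      have h' : (2 * f 0 - f 1) ^ 2 = 0 := by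
        rcases mul_eq_zero.mp z1 with h | h
        · exact absurd h (by positivity)
        · exact h
      have := pow_eq_zero_iff (two_ne_zero) |>.mp h'
      rw [f1] at this
      linarith
    apply hf
    funext i
    fin_cases i <;> simp [f0, f1, f2, f3]
  obtain ⟨h1, h2⟩ := sig_of_posDef _ hpos
  simp [matrixSignature, h1, h2]

/-! ### sanity check: the right-handed trefoil has determinant `3` and signature `-2` -/

/-- the closure of the braid `σ₁³`, the right-handed trefoil -/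
def trefoil : List Piece :=
  [.cup 0, .cup 1, .cross 0 1, .cross 0 1, .cross 0 1, .cap 1, .cap 0]

theorem trefoil_eq : trefoil = .cup 0 :: .cup 1 :: fin 3 := rfl

def triOri (s : ℤ) : ℕ → ℕ → ℤ :=
  conc 1 0 (conc 1 (fn [s, -s]) (alt 4 (fn [s, s, -s, -s]) (fn [s, s, -s, -s])
    (conc 1 (fn [s, -s]) 0)))

theorem trefoil_orientation (o : ℕ → ℕ → ℤ) :
    IsOrientation trefoil o ↔ ∃ s, (s = 1 ∨ s = -1) ∧ o = triOri s := by
  rw [trefoil_eq, IsOrientation, chain_iff]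
  constructor
  · rintro ⟨h0, hlen, h1, h2, h3⟩
    rw [h0, ostep_cup0] at h1
    obtain ⟨s, hs, h1⟩ := h1
    have h2' : StrandStep (.cup 1) (o 1) (o 2) := h2
    rw [h1, ostep_cup1] at h2'
    obtain ⟨t, ht, h2'⟩ := h2'
    have hsol : OSol (fin 3) [s, t, -t, -s] (fun t => o (t + 2)) :=
      ⟨h2', fun t ht => hlen _ (by simp only [List.length_cons]; omega), h3⟩
    rw [osol_fin 3 rfl] at hsol
    obtain ⟨_, h4, _, _, hsol⟩ := hsol
    have hts : t = s := by omega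
    subst hts
    refine ⟨t, hs, eq_conc (fun u hu => ?_) (fun u => ?_)⟩
    · have : u = 0 := by omega
      subst this
      exact h0
    · rcases u with _ | u
      · rw [conc_lt (by omega)]
        exact h1
      · rw [conc_add]
        exact congrFun hsol u
  · rintro ⟨s, hs, rfl⟩
    obtain ⟨h0, hlen, hch⟩ := (osol_fin 3 rfl s s (-s) (-s) _).mpr ⟨hs, rfl, hs, rfl, rfl⟩
    refine ⟨rfl, fun t ht => ?_, ?_, ?_, hch⟩
    · simp only [List.length_cons] at ht
      obtain ⟨u, rfl⟩ : ∃ u, t = u + 1 + 1 := ⟨t - 2, by omega⟩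
      rw [triOri, conc_add, conc_add]
      exact hlen u (by omega)
    · exact (ostep_cup0 _).mpr ⟨s, hs, rfl⟩
    · exact (ostep_cup1 _ _ _).mpr ⟨s, hs, h0⟩

theorem trefoil_isKnot : IsKnot trefoil := by
  refine ⟨by simp [trefoil, Admissible], ?_⟩
  have : {o | IsOrientation trefoil o} = {triOri 1, triOri (-1)} := by
    ext o
    simp only [Set.mem_ofPred_eq, Set.mem_insert_iff, Set.mem_singleton_iff]
    rw [trefoil_orientation]
    constructor
    · rintro ⟨s, rfl | rfl, rfl⟩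
      · exact Or.inl rfl
      · exact Or.inr rfl
    · rintro (rfl | rfl)
      · exact ⟨1, Or.inl rfl, rfl⟩
      · exact ⟨-1, Or.inr rfl, rfl⟩
  rw [this, Set.ncard_pair]
  intro h
  have := congrFun (congrFun h 1) 0
  simp [triOri, conc, fn] at this

def triLab : ℤ →ₗ[ℤ] (ℕ → ℕ → ℤ) where
  toFun a := conc 2 0 (conc 4 (st a 0) 0)
  map_add' a b := by simp only [st_add', conc_map_add', conc_map_add₀]
  map_smul' c a := by simp only [smul_eq_mul, st_smul', conc_map_smul', conc_map_smul₀,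
    RingHom.id_apply]

theorem triLab_injective : Function.Injective triLab := by
  rw [injective_iff_map_eq_zero]
  intro a ha
  have := congrFun (congrFun ha 2) 2
  simpa [triLab, conc, st] using this

theorem trefoil_labelling (r : ℕ → ℕ → ℤ) : IsWhiteLabelling trefoil r ↔ ∃ a, r = triLab a := by
  rw [trefoil_eq, IsWhiteLabelling, chain_iff]
  constructor
  · rintro ⟨h0, hlen, hodd, hc0, hc1, hch⟩
    rw [h0] at hc0
    have e1 : r 1 = 0 := (step_cup0 _ (hodd 1)).mp hc0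
    have hc1' : RegionStep (.cup 1) (r 1) (r 2) := hc1
    rw [e1] at hc1'
    obtain ⟨a, ha⟩ := (step_cup1 _ (hodd 2)).mp hc1'
    have hsol : IsSol (fin 3) a (fun t => r (t + 2)) :=
      ⟨ha, fun t ht => hlen _ (by simp only [List.length_cons]; omega),
        fun t j hj => hodd _ j hj, hch⟩
    rw [isSol_fin] at hsol
    refine ⟨a, (eq_conc (fun t ht => ?_) (fun t => congrFun hsol t))⟩
    have : t = 0 ∨ t = 1 := by omega
    rcases this with rfl | rfl
    · exact h0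
    · exact e1
  · rintro ⟨a, rfl⟩
    obtain ⟨h0, hlen, hodd, hch⟩ := (isSol_fin 3 a _).mpr rfl
    have hodd' : ∀ t j, j % 2 = 1 → triLab a t j = 0 := by
      intro t j hj
      change conc 2 0 _ t j = 0
      unfold conc
      split_ifs
      · rfl
      · exact st_odd _ _ _ hj
      · rfl
    refine ⟨rfl, fun t ht => ?_, hodd', ?_, ?_, hch⟩
    · simp only [List.length_cons] at ht
      obtain ⟨u, rfl⟩ : ∃ u, t = u + 2 := ⟨t - 2, by omega⟩
      change conc 2 0 (conc 4 (st a 0) 0) (u + 2) = 0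
      rw [conc_add]
      exact hlen u (by omega)
    · exact (step_cup0 _ (hodd' 1)).mpr rfl
    · exact (step_cup1 _ (hodd' 2)).mpr ⟨a, h0⟩

theorem trefoil_goeritz : IsGoeritzMatrix trefoil !![(3 : ℤ)] := by
  refine ⟨fun _ => triLab 1, fun _ => (trefoil_labelling _).mpr ⟨1, rfl⟩, fun r hr => ?_,
    fun i j => ?_⟩
  · obtain ⟨a, rfl⟩ := (trefoil_labelling _).mp hr
    have e : ∀ a : ℤ, triLab a = a • triLab 1 := by
      intro a
      rw [← map_smul]
      simp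
    refine ⟨fun _ => a, fun t j => ?_, fun g hg => ?_⟩
    · rw [e a]
      simp
    · funext i
      have hi : i = 0 := Subsingleton.elim _ _
      subst hi
      apply triLab_injective
      funext t j
      rw [hg t j, e (g 0)]
      simp
  · have hi : i = 0 := Subsingleton.elim _ _
    have hj : j = 0 := Subsingleton.elim _ _
    subst hi hj
    rw [trefoil_eq, goeritz_cup, goeritz_cup]
    change (3 : ℤ) = goeritz (fin 3) (conc (Int.natAbs 3 + 1) (st 1 0) 0)
      (conc (Int.natAbs 3 + 1) (st 1 0) 0)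
    rw [goeritz_fin]
    simp

theorem trefoil_det_signature : ∃ (o : ℕ → ℕ → ℤ) (A : Matrix (Fin 1) (Fin 1) ℤ),
    IsOrientation trefoil o ∧ IsGoeritzMatrix trefoil A ∧ |A.det| = 3 ∧
      matrixSignature A - correction trefoil o = -2 := by
  refine ⟨triOri 1, _, (trefoil_orientation _).mpr ⟨1, Or.inl rfl, rfl⟩, trefoil_goeritz,
    by simp, ?_⟩
  have h1 : matrixSignature !![(3 : ℤ)] = 1 := by
    have hpos : ((!![(3 : ℤ)].map (Int.cast : ℤ → ℝ)).toQuadraticForm').PosDef := by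
      intro f hf
      rw [toQuadraticForm'_apply]
      have hf0 : f 0 ≠ 0 := by
        intro h
        apply hf
        funext i
        have hi : i = 0 := Subsingleton.elim _ _
        rw [hi, h]
        rfl
      have : 0 < f 0 * f 0 := mul_self_pos.mpr hf0
      simp
      nlinarith
    obtain ⟨h1, h2⟩ := sig_of_posDef _ hpos
    simp [matrixSignature, h1, h2]
  have h2 : correction trefoil (triOri 1) = 3 := by
    simp only [trefoil, correction_cons, correction_nil]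
    simp [typeTwo, triOri, conc, alt, fn]
  rw [h1, h2]
  norm_num

/-- For every `n = 4 k + 1` with `k ≥ 1` there is a knot of determinant `n` and signature `4`. -/
theorem main (k : ℕ) (hk : 1 ≤ k) :
    ∃ (w : List Piece) (o : ℕ → ℕ → ℤ) (A : Matrix (Fin 4) (Fin 4) ℤ),
      IsKnot w ∧ IsOrientation w o ∧ IsGoeritzMatrix w A ∧
      |A.det| = 4 * (k : ℤ) + 1 ∧ matrixSignature A - correction w o = 4 ∧
      ∀ t : Fin w.length, typeTwo (w.get t) (o t) = 0 := by
  obtain ⟨a, x, z, g, y, ha, ⟨u, hu⟩, ⟨w, hw⟩, hv, hn⟩ :=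
    exists_params (4 * k + 1) (by omega) (by omega)
  push_cast at hn
  have hk' := isKnot_diagram 1 1 (2 * a - 1 - g) g (2 * x - g - y) y (2 * z - y) rfl rfl
    (by omega) (by omega) (by omega) (by omega) (by omega)
  refine ⟨_, ori 1 1 (2 * a - 1 - g) g (2 * x - g - y) y (2 * z - y) 1, _, hk', ?_,
    isGoeritzMatrix_diagram _ _ _ _ _ _ _, ?_, ?_, typeOne_diagram _ _ _ _ _ _ _⟩
  · rw [isOrientation_iff _ _ _ _ _ _ _ rfl rfl (by omega) (by omega) (by omega) (by omega)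
      (by omega)]
    exact ⟨1, Or.inl rfl, rfl⟩
  · have hdet : (!![(1 : ℤ) + 1, -1, 0, 0; -1, 1 + (2 * a - 1 - g) + g, -g, 0;
        0, -g, g + (2 * x - g - y) + y, -y; 0, 0, -y, y + (2 * z - y)]).det = 4 * k + 1 := by
      rw [hn]
      simp [Matrix.det_succ_row_zero, Fin.sum_univ_succ, Fin.succAbove, Matrix.submatrix]
      ring
    rw [hdet, abs_of_pos (by positivity)]
  · rw [correction_diagram, sub_zero]
    refine signature_four a x z g y (4 * k + 1) ha hv hn (by positivity) _ ?_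
    ext i j
    fin_cases i <;> fin_cases j <;> simp <;> ring

end Pool.Agent.Helper562.Sliced
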